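import Pool.Agent.Lib.MP_b4b3cb_nt.Lag
import Pool.Agent.Lib.MP_b4b3cb_nt.Pair

/-! Linear algebra of pairings over a field. -/

namespace Pool.Agent.SP

open scoped Classical
open Module Pool.Agent.SC

variable {k X Y : Type} [Field k] [AddCommGroup X] [Module k X] [AddCommGroup Y] [Module k Y]

theorem lag {ι : Type} [Fintype ι] {M : ι → Type} [∀ v, AddCommGroup (M v)] [∀ v, Module k (M v)]
    [∀ v, FiniteDimensional k (M v)] [FiniteDimensional k X] (b : ∀ v, LinearMap.BilinForm k (M v))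
    (hs : ∀ v x y, b v x y = b v y x) (hn : ∀ v x, (∀ y, b v x y = 0) → x = 0)
    (loc : X →ₗ[k] ∀ v, M v) (h1 : ∀ y z, ∑ v, b v (loc y v) (loc z v) = 0)
    (h2 : ∀ a : ∀ v, M v, (∀ y, ∑ v, b v (loc y v) (a v) = 0) → ∃ z, loc z = a)
    (W₀ W₁ : ∀ v, Submodule k (M v)) (h3 : ∀ v, ∀ x ∈ W₁ v, ∀ y ∈ W₀ v, b v x y = 0)
    (h4 : ∀ v, finrank k (M v) ≤ finrank k (W₀ v) + finrank k (W₁ v)) :
    (∀ a : ∀ v, M v, (∀ y, (∀ v, loc y v ∈ W₁ v) → ∑ v, b v (loc y v) (a v) = 0) →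
      ∃ z, ∀ v, a v - loc z v ∈ W₀ v) ∧
    2 * ((finrank k ((Submodule.pi Set.univ W₀).comap loc) : ℤ) -
      finrank k ((Submodule.pi Set.univ W₁).comap loc)) =
      ∑ v, ((finrank k (W₀ v) : ℤ) - finrank k (W₁ v)) := by
  let B : LinearMap.BilinForm k (∀ v, M v) :=
    ∑ v, (b v).comp (LinearMap.proj v) (LinearMap.proj v)
  have hB : ∀ x y, B x y = ∑ v, b v (x v) (y v) := fun x y => by
    simp [B, LinearMap.sum_apply]
  have sy : ∀ x y, B x y = B y x := fun x y => by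
    rw [hB, hB]; exact Finset.sum_congr rfl fun v _ => hs v _ _
  have nd : ∀ x, (∀ y, B x y = 0) → x = 0 := fun x h => funext fun v => hn v _ fun y => by
    have := h (Pi.single v y)
    rwa [hB, Finset.sum_eq_single v (fun w _ hw => by rw [Pi.single_eq_of_ne hw, map_zero])
      (by simp), Pi.single_eq_same] at this
  obtain ⟨m1, m2⟩ := LagAux.abs_main B ⟨nd, fun x h => nd x fun y => (sy x y).trans (h y)⟩
    (fun x y h => (sy y x).trans h) (LinearMap.range loc) (Submodule.pi Set.univ W₀)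
    (Submodule.pi Set.univ W₁)
    (le_antisymm (fun a ha => h2 a fun y => (hB _ _).symm.trans (ha _ ⟨y, rfl⟩))
      (by rintro _ ⟨z, rfl⟩ _ ⟨y, rfl⟩; exact (hB _ _).trans (h1 y z)))
    (fun x hx y hy => ((sy y x).trans (hB _ _)).trans
      (Finset.sum_eq_zero fun v _ => h3 v _ (hx v trivial) _ (hy v trivial)))
    (by
      rw [LagAux.finrank_pi_sub, LagAux.finrank_pi_sub, Module.finrank_pi_fintype,
        ← Finset.sum_add_distrib]
      exact Finset.sum_le_sum fun v _ => h4 v)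
  refine ⟨fun a ha => ?_, ?_⟩
  · have : a ∈ B.orthogonal (LinearMap.range loc ⊓ Submodule.pi Set.univ W₁) := by
      rintro _ ⟨⟨y, rfl⟩, hy⟩
      exact (hB _ _).trans (ha y fun v => hy v trivial)
    rw [m1] at this
    obtain ⟨_, ⟨z, rfl⟩, w, hw, rfl⟩ := Submodule.mem_sup.1 this
    exact ⟨z, fun v => by simpa using hw v trivial⟩
  · rw [LagAux.finrank_comap, LagAux.finrank_comap, Finset.sum_sub_distrib]
    rw [LagAux.finrank_pi_sub, LagAux.finrank_pi_sub] at m2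
    push_cast at m2 ⊢
    linarith

theorem orth_le [FiniteDimensional k X] (b : LinearMap.BilinForm k X)
    (hs : ∀ x y, b x y = b y x) (hn : ∀ x, (∀ y, b x y = 0) → x = 0) (U U' : Submodule k X)
    (h : ∀ x ∈ U, ∀ y ∈ U', b x y = 0) : finrank k U + finrank k U' ≤ finrank k X := by
  have e := LinearMap.BilinForm.finrank_orthogonal (B := b)
    ⟨hn, fun x h => hn x fun y => (hs x y).trans (h y)⟩ U
  have l : U' ≤ b.orthogonal U := fun y hy x hx => h x hx y hy
  have := Submodule.finrank_mono l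
  have := Submodule.finrank_le U
  omega

/-- A function which is linear on a subspace. -/
def Lin (B : Submodule k Y) (φ : Y → k) : Prop :=
  (∀ b ∈ B, ∀ b' ∈ B, φ (b + b') = φ b + φ b') ∧ ∀ r : k, ∀ b ∈ B, φ (r • b) = r * φ b

/-- The linear form attached to such a function. -/
def Lin.map {B : Submodule k Y} {φ : Y → k} (h : Lin B φ) : Dual k B where
  toFun b := φ b
  map_add' b b' := h.1 b b.2 b' b'.2
  map_smul' r b := h.2 r b b.2

theorem Lin.zero {B : Submodule k Y} {φ : Y → k} (h : Lin B φ) : φ 0 = 0 := map_zero h.map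

theorem Lin.mono {B B' : Submodule k Y} {φ : Y → k} (h : Lin B φ) (h' : B' ≤ B) : Lin B' φ :=
  ⟨fun b hb b' hb' => h.1 b (h' hb) b' (h' hb'), fun r b hb => h.2 r b (h' hb)⟩

/-- The bilinear map attached to a function which is linear in each variable. -/
def bil {A : Submodule k X} {B : Submodule k Y} {f : X → Y → k} (h1 : ∀ b ∈ B, Lin A (f · b))
    (h2 : ∀ a ∈ A, Lin B (f a)) : A →ₗ[k] B →ₗ[k] k :=
  LinearMap.mk₂ k (fun a b => f a b) (fun a a' b => (h1 b b.2).1 a a.2 a' a'.2)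
    (fun r a b => (h1 b b.2).2 r a a.2) (fun a b b' => (h2 a a.2).1 b b.2 b' b'.2)
    fun r a b => (h2 a a.2).2 r b b.2

theorem pair_ker {A A' : Submodule k X} {B B' : Submodule k Y} [FiniteDimensional k A]
    [FiniteDimensional k B] {f : X → Y → k} (hA : A' ≤ A) (hB : B' ≤ B)
    (h1 : ∀ b ∈ B, Lin A (f · b)) (h2 : ∀ a ∈ A, Lin B (f a))
    (h3 : ∀ a ∈ A, a ∈ A' ↔ ∀ b ∈ B, f a b = 0) (h4 : ∀ b ∈ B, b ∈ B' ↔ ∀ a ∈ A, f a b = 0) :
    finrank k A + finrank k B' = finrank k B + finrank k A' := by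
  have hkA : LinearMap.ker (bil h1 h2) = A'.comap A.subtype := by
    ext a
    rw [LinearMap.mem_ker, Submodule.mem_comap, Submodule.subtype_apply, h3 a a.2,
      LinearMap.ext_iff]
    exact ⟨fun h b hb => h ⟨b, hb⟩, fun h b => h b b.2⟩
  have hkB : LinearMap.ker (bil h1 h2).flip = B'.comap B.subtype := by
    ext b
    rw [LinearMap.mem_ker, Submodule.mem_comap, Submodule.subtype_apply, h4 b b.2,
      LinearMap.ext_iff]
    exact ⟨fun h a ha => h ⟨a, ha⟩, fun h a => h a a.2⟩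
  have r1 := LinearMap.finrank_range_add_finrank_ker (bil h1 h2)
  have r2 := LinearMap.finrank_range_add_finrank_ker (bil h1 h2).flip
  rw [hkA, PairAux.finrank_comap, inf_eq_right.2 hA] at r1
  rw [hkB, PairAux.finrank_comap, inf_eq_right.2 hB, PairAux.rank_flip] at r2
  omega

theorem alt_aux [FiniteDimensional k X] (φ : X →ₗ[k] X →ₗ[k] k) (hφ : ∀ v, φ v v = 0)
    (A' : Submodule k X) (n : ℕ) : ∀ A : Submodule k X, finrank k A = n → A' ≤ A →
      (∀ a ∈ A, a ∈ A' ↔ ∀ b ∈ A, φ a b = 0) → Even (finrank k A + finrank k A') := by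
  have hs : ∀ u v, φ u v = -φ v u := fun u v => by
    have h := hφ (u + v)
    simp only [map_add, LinearMap.add_apply, hφ, zero_add, add_zero] at h
    exact eq_neg_of_add_eq_zero_right h
  induction n using Nat.strong_induction_on with
  | _ n ih =>
    intro A hn hle hrad
    by_cases h0 : ∀ a ∈ A, ∀ b ∈ A, φ a b = 0
    · rw [le_antisymm (fun a ha => (hrad a ha).2 (h0 a ha)) hle]
      exact ⟨_, rfl⟩
    · push Not at h0
      obtain ⟨a, ha, b₀, hb₀, hab⟩ := h0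
      obtain ⟨b, hb, h1⟩ : ∃ b ∈ A, φ a b = 1 :=
        ⟨(φ a b₀)⁻¹ • b₀, A.smul_mem _ hb₀, by simp [hab]⟩
      have h2 : φ b a = -1 := by rw [hs, h1]
      set g : X →ₗ[k] k × k := (φ a).prod (φ b) with hg
      have hgm : ∀ c, c ∈ LinearMap.ker g ↔ φ a c = 0 ∧ φ b c = 0 := fun c => by
        simp [hg, Prod.ext_iff]
      have hrk := LinearMap.finrank_range_add_finrank_ker (g.domRestrict A)
      have hsurj : LinearMap.range (g.domRestrict A) = ⊤ := by
        rw [LinearMap.range_eq_top]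
        rintro ⟨s, t⟩
        refine ⟨⟨s • b - t • a, A.sub_mem (A.smul_mem _ hb) (A.smul_mem _ ha)⟩, ?_⟩
        simp [hg, h1, h2, hφ]
      rw [hsurj, LinearMap.ker_domRestrict, PairAux.finrank_comap, finrank_top,
        show finrank k (k × k) = 2 by simp] at hrk
      obtain ⟨m, hm⟩ := ih _ (by omega) (A ⊓ LinearMap.ker g) rfl
        (fun c hc => ⟨hle hc, (hgm c).2 ⟨by rw [hs, (hrad c (hle hc)).1 hc a ha, neg_zero],
          by rw [hs, (hrad c (hle hc)).1 hc b hb, neg_zero]⟩⟩) fun c hc => by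
        refine ⟨fun h d hd => (hrad c hc.1).1 h d hd.1, fun h => (hrad c hc.1).2 fun d hd => ?_⟩
        obtain ⟨hca, hcb⟩ := (hgm c).1 hc.2
        have h3 := h (d + φ b d • a - φ a d • b) ⟨A.sub_mem (A.add_mem hd (A.smul_mem _ ha))
          (A.smul_mem _ hb), (hgm _).2 ⟨by simp [hφ, h1], by simp [hφ, h2]⟩⟩
        simp only [map_add, map_sub, map_smul, smul_eq_mul] at h3
        rw [hs c a, hs c b, hca, hcb] at h3
        simpa using h3
      exact ⟨m + 1, by omega⟩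

theorem pair_alt {A A' : Submodule k X} [FiniteDimensional k A] {f : X → X → k} (hA : A' ≤ A)
    (h1 : ∀ b ∈ A, Lin A (f · b)) (h2 : ∀ a ∈ A, Lin A (f a)) (h3 : ∀ a ∈ A, f a a = 0)
    (h4 : ∀ a ∈ A, a ∈ A' ↔ ∀ b ∈ A, f a b = 0) : Even (finrank k A + finrank k A') := by
  have h := alt_aux (bil h1 h2) (fun v => h3 v v.2) (A'.comap A.subtype) _ ⊤ rfl le_top
    (fun a _ => by
      rw [Submodule.mem_comap, Submodule.subtype_apply, h4 a a.2]
      exact ⟨fun h b _ => h b b.2, fun h b hb => h ⟨b, hb⟩ trivial⟩)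
  rwa [finrank_top, PairAux.finrank_comap, inf_eq_right.2 hA] at h

theorem bidual {C : Type} [AddCommGroup C] (U : AddSubgroup C) (B : Submodule k Y)
    [FiniteDimensional k B] (f : C → Y → k) (φ : Y → k)
    (h1 : ∀ z ∈ U, ∀ z' ∈ U, ∀ b ∈ B, f (z + z') b = f z b + f z' b)
    (h1' : ∀ r : k, ∀ z ∈ U, ∃ z' ∈ U, ∀ b ∈ B, f z' b = r * f z b)
    (h2 : ∀ z ∈ U, Lin B (f z)) (h3 : Lin B φ)
    (h4 : ∀ b ∈ B, (∀ z ∈ U, f z b = 0) → φ b = 0) : ∃ z ∈ U, ∀ b ∈ B, f z b = φ b := by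
  let M : Submodule k (Dual k B) :=
    { carrier := {ψ | ∃ z ∈ U, ∀ b : B, ψ b = f z b}
      add_mem' := by
        rintro ψ ψ' ⟨z, hz, hψ⟩ ⟨z', hz', hψ'⟩
        exact ⟨z + z', U.add_mem hz hz', fun b => by
          rw [LinearMap.add_apply, hψ, hψ', h1 z hz z' hz' b b.2]⟩
      zero_mem' := by
        obtain ⟨z, hz, h⟩ := h1' 0 0 U.zero_mem
        exact ⟨z, hz, fun b => by rw [h b b.2, zero_mul]; rfl⟩
      smul_mem' := by
        rintro r ψ ⟨z, hz, hψ⟩
        obtain ⟨z', hz', h⟩ := h1' r z hz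
        exact ⟨z', hz', fun b => by rw [h b b.2, ← hψ]; rfl⟩ }
  have hm : h3.map ∈ M.dualCoannihilator.dualAnnihilator := by
    rw [Submodule.mem_dualAnnihilator]
    intro b hb
    rw [Submodule.mem_dualCoannihilator] at hb
    exact h4 b b.2 fun z hz => hb (h2 z hz).map ⟨z, hz, fun _ => rfl⟩
  rw [Subspace.dualCoannihilator_dualAnnihilator_eq] at hm
  obtain ⟨z, hz, hψ⟩ := hm
  exact ⟨z, hz, fun b hb => (hψ ⟨b, hb⟩).symm⟩

end Pool.Agent.SP
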