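import Pool.Agent.Lib.MP_b4b3cb_nt.Par.LocA

/-! Split places, and the reduction at non-split places. -/

namespace Pool.Agent.SP

open scoped Classical
open Module

variable {E k : Type} [NontriviallyNormedField E] [Field k] {Γ G : Type} [Group Γ]
  [TopologicalSpace Γ] [Group G] [TopologicalSpace G] {J : IG Γ G} {c : CF E k} {χ : G →* E}
  {V : Type} [NormedAddCommGroup V] [NormedSpace E V] {m : ℕ} (U : VD J c χ V m)

/-- Pairs of local conditions. -/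
def Spl {X : Type} (Y₁ Y₂ : Submodule E (X → V)) : Submodule E (X → V × V) :=
  Y₁.comap ((LinearMap.fst E V V).compLeft X) ⊓ Y₂.comap ((LinearMap.snd E V V).compLeft X)

theorem mem_Spl {X : Type} {Y₁ Y₂ : Submodule E (X → V)} {t : X → V × V} :
    t ∈ Spl Y₁ Y₂ ↔ (fun g => (t g).1) ∈ Y₁ ∧ (fun g => (t g).2) ∈ Y₂ := Iff.rfl

namespace VD

/-- A self-dual local condition together with its parity. -/
structure Loc (D : Subgroup G) (Y : Submodule E (D → V × V)) (p : ℕ) : Prop where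
  coc : Y ≤ (U.R.res D).Z1
  iso : ∀ t ∈ Y, ∀ t' ∈ Y, Cob (fun g : D => χ g) (cupB U.om (U.R.res D) t t')
  big : ∀ i j, i + j = -1 → finrank k (Hm k D) ≤ U.T.dm Y i + U.T.dm Y j
  par : Even (∑ i ∈ Finset.range (2 * m), U.T.dm Y i + m * finrank k (Hm k D) + p)

/-- The first component at a split place. -/
def r1 (D : Subgroup G) (hD : D ≤ J.H) : Rp E D V :=
  U.ρ.comap (J.uD D hD) (J.cu.comp continuous_subtype_val)

/-- The second component at a split place. -/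
def r2 (D : Subgroup G) (hD : D ≤ J.H) : Rp E D V :=
  U.ρ.comap (J.cj.comp (J.uD D hD)) (J.ccj.comp (J.cu.comp continuous_subtype_val))

theorem res_in {D : Subgroup G} (hD : D ≤ J.H) (g : D) (w : V × V) :
    (U.R.res D).ac g w = ((U.r1 D hD).ac g w.1, (U.r2 D hD).ac g w.2) := U.R_in (hD g.2) w

theorem equi12 {D : Subgroup G} (hD : D ≤ J.H) :
    Equi (fun g : D => χ g) (U.r1 D hD) (U.r2 D hD) U.B := fun g a b =>
  (U.equi (J.u g) a b).trans (by rw [J.u1 _ (hD g.2)])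

theorem z1_spl {D : Subgroup G} (hD : D ≤ J.H) :
    (U.R.res D).Z1 = Spl (U.r1 D hD).Z1 (U.r2 D hD).Z1 := by
  ext t
  have e : ∀ g h, (U.R.res D).d2 t g h = ((U.r1 D hD).d2 (fun g => (t g).1) g h,
      (U.r2 D hD).d2 (fun g => (t g).2) g h) := fun g h => by rw [Rp.d2, U.res_in hD]; rfl
  exact ⟨fun h => ⟨⟨h.1.fst, fun a b => congrArg Prod.fst ((e a b).symm.trans (h.2 a b))⟩,
    h.1.snd, fun a b => congrArg Prod.snd ((e a b).symm.trans (h.2 a b))⟩,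
    fun h => ⟨h.1.1.prodMk h.2.1, fun a b => (e a b).trans (Prod.ext (h.1.2 a b) (h.2.2 a b))⟩⟩

variable [Finite k]

theorem sum_spl {X : Type} {Y₁ Y₂ : Submodule E (X → V)}
    (h : ∀ i, FiniteDimensional k (U.T.Wd (Spl Y₁ Y₂) i))
    (h₁ : ∀ i, FiniteDimensional k (U.Λ.Wd Y₁ i)) (h₂ : ∀ i, FiniteDimensional k (U.Λ.Wd Y₂ i))
    (r : ℕ) : ∑ i ∈ Finset.range (2 * r), U.T.dm (Spl Y₁ Y₂) i =
      ∑ i ∈ Finset.range r, U.Λ.dm Y₁ i + ∑ i ∈ Finset.range r, U.Λ.dm Y₂ i := by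
  have a := U.T.ix_pow h 0 (2 * r)
  have b := U.Λ.ix_pow h₁ 0 r
  have d := U.Λ.ix_pow h₂ 0 r
  have e : ∀ (i : ℤ) t, t ∈ U.T.Z (Spl Y₁ Y₂) (2 * i) ↔ ((fun g => (t g).1), fun g => (t g).2) ∈
      (U.Λ.Z Y₁ i).prod (U.Λ.Z Y₂ i) := fun i t =>
    ⟨fun h => ⟨⟨h.1.1, fun g => (U.mem_T2.1 (h.2 g)).1⟩, h.1.2, fun g => (U.mem_T2.1 (h.2 g)).2⟩,
      fun h => ⟨⟨h.1.1, h.2.1⟩, fun g => U.mem_T2.2 ⟨h.1.2 g, h.2.2 g⟩⟩⟩
  simp only [zero_add] at a b d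
  rw [Nat.cast_mul, Nat.cast_two, ix_tr (((LinearMap.fst E V V).compLeft X).prod
    ((LinearMap.snd E V V).compLeft X)).toAddMonoidHom (A := U.T.Z _ 0) (fun y => ⟨fun hy =>
      ⟨fun g => (y.1 g, y.2 g), (e 0 _).2 hy, rfl⟩, fun ⟨x, hx, h⟩ => h ▸ (e 0 x).1 hx⟩)
    fun x _ => e r x, ix_prod, b, d, ← pow_add] at a
  exact (Nat.pow_right_injective (Finite.one_lt_card (α := k)) a).symm

variable [IsUltrametricDist E] [CompleteSpace E] [FiniteDimensional E V] [CharP k 2]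
  [IsTopologicalGroup G]

theorem split {D : Subgroup G} [CompactSpace D] (hD : D ≤ J.H) (L : LD D c fun g => χ g)
    (hχ : Continuous χ) (h1 : ∀ g, c.Rd (χ g) 1) (h0 : ∀ a, (∀ g : D, U.ρ.ac (J.u g) a = a) → a = 0)
    {Y : Submodule E (D → V)} (hB : (U.r1 D hD).B1 ≤ Y) (hZ : Y ≤ (U.r1 D hD).Z1) :
    U.Loc D (Spl Y (perp U.B (U.r2 D hD) (fun g => χ g) Y)) (finrank E Y) := by
  have := L.fin
  set Y' := perp U.B (U.r2 D hD) (fun g => χ g) Y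
  have s1 : U.Λ.Stab (U.r1 D hD) := U.stab.comap _ _
  have s2 : U.Λ.Stab (U.r2 D hD) := U.stab.comap _ _
  have hZ' : Y' ≤ (U.r2 D hD).Z1 := inf_le_left
  have coc : Spl Y Y' ≤ (U.R.res D).Z1 := fun t ht => U.z1_spl hD ▸ ⟨hZ ht.1, hZ' ht.2⟩
  have iso : ∀ t ∈ Spl Y Y', ∀ t' ∈ Spl Y Y',
      Cob (fun g : D => χ g) (cupB U.om (U.R.res D) t t') := fun t ht t' ht' => by
    obtain ⟨f, f1, f2⟩ := (mem_perp.1 ht'.2).2 _ ht.1
    obtain ⟨f', f3, f4⟩ := (mem_perp.1 ht.2).2 _ ht'.1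
    refine ⟨fun g => f g + f' g + U.B (t' g).1 (t g).2, (f1.add f3).add
      (cont_bil U.B (hZ ht'.1).1 (hZ' ht.2).1), fun g h => ?_⟩
    have a := f2 g h
    have b := f4 g h
    have d := U.equi12 hD g (t' h).1 (t h).2
    have e1 : (t' (g * h)).1 = (t' g).1 + _ := (U.r1 D hD).coc (hZ ht'.1) g h
    have e2 : (t (g * h)).2 = (t g).2 + _ := (U.r2 D hD).coc (hZ' ht.2) g h
    simp only [cupB, dq, LinearMap.compLeft_apply, Function.comp_apply, LinearMap.fst_apply,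
      LinearMap.snd_apply] at a b e1 e2
    simp only [cupB, dq, U.res_in hD, U.om_apply, e1, e2, map_add, LinearMap.add_apply, d]
    linear_combination a + b
  have fW := fun i => Submodule.finiteDimensional_of_le ((U.stabT.res D).W_le coc i)
  have f1 := fun i => Submodule.finiteDimensional_of_le (s1.W_le hZ i)
  have f2 := fun i => Submodule.finiteDimensional_of_le (s2.W_le hZ' i)
  have : FiniteDimensional E Y := U.Λ.fd (Ch.bd_of hZ) _ (s1.W_le hZ)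
  have : FiniteDimensional E Y' := U.Λ.fd (Ch.bd_of hZ') _ (s2.W_le hZ')
  have : FiniteDimensional E (Spl Y Y') := U.T.fd (Ch.bd_of coc) _ ((U.stabT.res D).W_le coc)
  have r := LD.rank_perp (χ := χ.comp D.subtype) L (hχ.comp continuous_subtype_val)
    (fun g => h1 g) s1 s2 (U.equi12 hD) hZ hB (((U.r1 D hD).rank_B1 h0).trans U.rk)
  change _ ≤ _ + finrank E Y' at r
  have a := U.sum_spl fW f1 f2 (2 * m)
  rw [U.T.sum_dm (Ch.bd_of coc), U.Λ.sum_dm (Ch.bd_of hZ), U.Λ.sum_dm (Ch.bd_of hZ')] at a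
  refine ⟨coc, iso, fun i j h => (L.big U.paT (U.stabT.res D) coc iso le_rfl
    (by rw [a]; linarith) h).ge, ?_⟩
  have b := dual_eq _ _ (U.Λ.dm_per (Y := Y')) (U.Λ.dm_per (Y := Y)) U.Λ.pos
    (fun i => (add_comm _ _).trans_le (L.dm_le U.pa s1 s2 hZ hZ'
      (fun t ht t' ht' => (mem_perp.1 ht').2 t ht) (by omega)))
    (by rw [U.Λ.sum_dm (Ch.bd_of hZ), U.Λ.sum_dm (Ch.bd_of hZ')]; omega)
  have d := Finset.sum_congr (rfl : Finset.range m = _) fun (i : ℕ) _ => b i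
  rw [Finset.sum_add_distrib, Finset.sum_const, Finset.card_range, smul_eq_mul] at d
  rw [U.sum_spl fW f1 f2, ← U.Λ.sum_dm (Ch.bd_of hZ), per_half _ U.Λ.dm_per]
  exact ⟨∑ i ∈ Finset.range m, U.Λ.dm Y i + m * finrank k (Hm k D), by omega⟩

omit [CharP k 2] [IsTopologicalGroup G] in
theorem nonsplit {D : Subgroup G} [CompactSpace D] {D' : Subgroup Γ} [CompactSpace D']
    (hD : ∀ γ, γ ∈ D' ↔ J.ι γ ∈ D) {σ : G} (h1 : σ ∈ D) (h2 : σ ∉ J.H) (r : ℕ) :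
    ∑ i ∈ Finset.range (2 * r), U.T.dm (U.R.res D).B1 i =
      r + ∑ i ∈ Finset.range r, U.Λ.dm (U.ρ.res D').B1 i := by
  have a := U.T.ix_pow (U.T.fin_W (Ch.bd_of (U.R.res D).B1_le)) 0 (2 * r)
  have b := U.Λ.ix_pow (U.Λ.fin_W (Ch.bd_of (U.ρ.res D').B1_le)) 0 r
  have d := U.Λ.ix_T 0 r
  have st : ∀ {i} (g : G) {w : V × V}, w ∈ U.T.T (2 * i) → U.R.ac g w ∈ U.T.T (2 * i) := by
    intro i g w hw
    rw [U.mem_T2] at hw ⊢
    by_cases hg : g ∈ J.H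
    · rw [U.R_in hg]; exact ⟨U.stab.mem _ hw.1, U.stab.mem _ hw.2⟩
    · rw [U.R_out hg]; exact ⟨U.stab.mem _ hw.2, U.stab.mem _ hw.1⟩
  have e : ∀ (i : ℤ) (w : V × V), (U.R.res D).d1 w ∈ U.T.Z (U.R.res D).B1 (2 * i) ↔
      (U.ρ.res D').d1 w.1 ∈ U.Λ.Z (U.ρ.res D').B1 i ∧
        U.ρ.ac (J.cj (J.u σ)) w.1 - w.2 ∈ U.Λ.T i := fun i w => by
    constructor
    · refine fun h => ⟨⟨⟨_, rfl⟩, fun g => ?_⟩, ?_⟩
      · have := (U.mem_T2.1 (h.2 ⟨_, (hD _).1 g.2⟩)).1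
        change (U.R.ac (J.ι g) w).1 - _ ∈ _ at this
        rwa [U.R_in (J.mem _), J.u_ι] at this
      · have := (U.mem_T2.1 (h.2 ⟨σ, h1⟩)).2
        change (U.R.ac σ w).2 - _ ∈ _ at this
        rwa [U.R_out h2] at this
    · rintro ⟨a1, a2⟩
      have p1 : ∀ g ∈ D, g ∈ J.H → (U.R.ac g w - w).1 ∈ U.Λ.T i := fun g hg hh => by
        rw [U.R_in hh]
        exact a1.2 ⟨J.u g, (hD _).2 (by rwa [J.u1 g hh])⟩
      have p2 : U.R.ac σ w - w ∈ U.T.T (2 * i) := by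
        refine U.mem_T2.2 ⟨?_, by rwa [U.R_out h2]⟩
        have := p1 _ (mul_mem h1 h1) (J.two _ _ h2 h2)
        rw [U.R_in (J.two _ _ h2 h2), J.u_out h2] at this
        convert sub_mem this (U.stab.mem (J.u σ) a2) using 1
        simp only [U.R_out h2, U.ρ.mul, map_sub, Prod.fst_sub]
        abel
      have p3 : ∀ g ∈ D, g ∈ J.H → U.R.ac g w - w ∈ U.T.T (2 * i) := fun g hg hh => by
        refine U.mem_T2.2 ⟨p1 g hg hh, ?_⟩
        have e1 : U.R.ac g w - w = U.R.ac σ (U.R.ac (σ⁻¹ * g * σ) w - w -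
            (U.R.ac (σ⁻¹ * g * σ) (U.R.ac σ⁻¹ (U.R.ac σ w - w)) - U.R.ac σ⁻¹ (U.R.ac σ w - w))) := by
          simp only [map_sub, ← U.R.mul, mul_assoc, mul_inv_cancel_left, mul_inv_cancel,
            inv_mul_cancel, mul_one, U.R.one]
          abel
        rw [e1, U.R_out h2]
        refine U.stab.mem _ (sub_mem (p1 _ (mul_mem (mul_mem (inv_mem h1) hg) h1) ?_)
          (U.mem_T2.1 (sub_mem (st _ (st _ p2)) (st _ p2))).1)
        exact J.two _ _ (by rwa [mul_mem_cancel_right hh, inv_mem_iff]) h2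
      refine ⟨⟨w, rfl⟩, fun g => ?_⟩
      change U.R.ac g w - w ∈ _
      by_cases hg : g.1 ∈ J.H
      · exact p3 g g.2 hg
      · convert add_mem (st (g * σ⁻¹) p2) (p3 _ (mul_mem g.2 (inv_mem h1))
          (J.two _ _ hg (by rwa [inv_mem_iff]))) using 1
        simp only [map_sub, ← U.R.mul, inv_mul_cancel_right]
        abel
  simp only [zero_add] at a b d
  rw [Nat.cast_mul, Nat.cast_two, ← ix_tr (U.R.res D).d1.toAddMonoidHom
    (A := (U.T.Z (U.R.res D).B1 0).comap (U.R.res D).d1.toAddMonoidHom)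
    (B := (U.T.Z (U.R.res D).B1 (2 * r)).comap (U.R.res D).d1.toAddMonoidHom)
    (A' := U.T.Z (U.R.res D).B1 0)
    (fun y => ⟨fun hy => hy.1.imp fun x hx => ⟨by rw [← hx] at hy; exact hy, hx⟩,
      fun ⟨x, hx, h⟩ => h ▸ hx⟩) fun _ _ => Iff.rfl,
    ix_tr (((U.ρ.res D').d1 ∘ₗ LinearMap.fst E V V).prod
      (U.ρ.ac (J.cj (J.u σ)) ∘ₗ LinearMap.fst E V V - LinearMap.snd E V V)).toAddMonoidHom
      (A := (U.T.Z (U.R.res D).B1 0).comap (U.R.res D).d1.toAddMonoidHom)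
      (A' := (U.Λ.Z (U.ρ.res D').B1 0).prod (U.Λ.T 0))
      (B' := (U.Λ.Z (U.ρ.res D').B1 r).prod (U.Λ.T r)) (fun y => ⟨fun hy => ?_,
        fun ⟨x, hx, h⟩ => h ▸ (e 0 x).1 hx⟩) fun x _ => e r x, ix_prod, b, d, ← pow_add] at a
  · exact (Nat.pow_right_injective (Finite.one_lt_card (α := k)) a).symm.trans (add_comm _ _)
  · obtain ⟨x, hx⟩ := hy.1.1
    exact ⟨(x, U.ρ.ac (J.cj (J.u σ)) x - y.2), (e 0 _).2 ⟨hx ▸ hy.1, by simpa using hy.2⟩,
      Prod.ext hx (by simp)⟩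

end VD

end Pool.Agent.SP
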