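import Pool.Agent.Lib.MP_b4b3cb_nt.Par.Wall
import Pool.Agent.Lib.MP_b4b3cb_nt.Par.Spl

/-! Ramified places. -/

namespace Pool.Agent.SP

open scoped Classical
open Module Polynomial

variable {E k : Type} [NontriviallyNormedField E] [Field k] {c : CF E k}
  {V : Type} [NormedAddCommGroup V] [NormedSpace E V]

theorem poly_T {N : ℕ} (C : Ch c V N) {t : End E V} (ht : ∀ i, ∀ x ∈ C.T i, t x ∈ C.T i)
    {u : E[X]} (hu : ∀ i, ‖u.coeff i‖ ≤ 1) {i : ℤ} {x : V} :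
    (x ∈ C.T i → aeval t u x ∈ C.T i) ∧ (t x - x ∈ C.T i → aeval t u x - u.eval 1 • x ∈ C.T i) := by
  rw [aeval_eq_sum_range, eval_eq_sum_range, LinearMap.sum_apply, Finset.sum_smul,
    ← Finset.sum_sub_distrib]
  refine ⟨fun h => sum_mem fun j hj => C.smul (hu j) ?_, fun h => sum_mem fun j hj => ?_⟩
  · clear hj
    induction j with
    | zero => exact h
    | succ j ih => rw [pow_succ']; exact ht _ _ ih
  · rw [one_pow, mul_one, LinearMap.smul_apply, ← smul_sub]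
    refine C.smul (hu j) ?_
    clear hj
    induction j with
    | zero => simp
    | succ j ih =>
      convert add_mem (ht _ _ ih) h using 1
      rw [pow_succ', End.mul_apply, map_sub, sub_add_sub_cancel]

theorem adj_poly (P : V →ₗ[E] V →ₗ[E] E) {t t' : End E V} (h : ∀ x y, P x (t y) = P (t' x) y)
    (u : E[X]) (x y : V) : P x (aeval t u y) = P (aeval t' u x) y := by
  induction u using Polynomial.induction_on' with
  | add p q hp hq => simp only [map_add, LinearMap.add_apply, hp, hq]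
  | monomial j a =>
    simp only [aeval_monomial, End.mul_apply, algebraMap_end_apply, map_smul, LinearMap.smul_apply]
    congr 1
    induction j generalizing x with
    | zero => rfl
    | succ j ih => rw [pow_succ', End.mul_apply, h, ih, pow_succ, End.mul_apply]

theorem com_poly {a t : End E V} (h : Commute a t) (u : E[X]) : Commute a (aeval t u) := by
  rw [aeval_eq_sum_range]
  exact Commute.sum_right _ _ _ fun j _ => (h.pow_right j).smul_right _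

theorem iso_tw [CharZero E] (P : V →ₗ[E] V →ₗ[E] E) {t t' σ : End E V} {r : ℕ} {u : E[X]}
    (tt : t' * t = 1) (tt' : t * t' = 1) (p1 : ∀ x y, P x (t y) = P (t' x) y)
    (p3 : ∀ x y, P (σ x) ((t ^ r) (σ y)) = (2 * r + 1 : ℕ) * P x y)
    (p4 : σ * t = t ^ (2 * r + 1) * σ)
    (hid : (2 * r + 1) • (aeval t u * aeval t' u * t ^ r) = ∑ i ∈ Finset.range (2 * r + 1), t ^ i)
    (x y : V) : P ((t - 1) (aeval t u (σ x))) (aeval t u (σ y)) = P ((t - 1) x) y := by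
  have c1 : Commute t t' := tt'.trans tt.symm
  have c2 := com_poly (Commute.refl t) u
  have e : t' ^ r * (σ * (t - 1)) = (2 * r + 1) • (aeval t' u * (t - 1) * aeval t u * σ) := by
    rw [mul_sub, p4, mul_one, ← sub_one_mul, ← geom_sum_mul, ← hid,
      ← ((c2.mul_right (com_poly c1 u)).pow_left r).eq, ← ((com_poly (com_poly c1 u).symm u).symm.mul_right
        (c2.symm.sub_right (Commute.one_right _))).eq]
    simp only [smul_mul_assoc, mul_smul_comm, ← mul_assoc]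
    rw [← c1.symm.mul_pow, tt, one_pow, one_mul]
  have a := adj_poly P p1 (X ^ r) (σ ((t - 1) x)) (σ y)
  rw [map_pow, map_pow, aeval_X, aeval_X, p3, ← End.mul_apply σ, ← End.mul_apply (t' ^ r), e,
    LinearMap.smul_apply, map_nsmul, LinearMap.smul_apply, nsmul_eq_mul] at a
  rw [adj_poly P p1]
  exact (mul_left_cancel₀ (Nat.cast_ne_zero.2 (Nat.succ_ne_zero _)) a).symm

variable {Γ G : Type} [Group Γ] [TopologicalSpace Γ] [Group G] [TopologicalSpace G] {J : IG Γ G}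
  {χ : G →* E} {m : ℕ} (U : VD J c χ V m) [Finite k] [IsUltrametricDist E] [CompleteSpace E]
  [FiniteDimensional E V] [CharZero E] [CharP k 2]

theorem VD.ram {D I : Subgroup Γ} {I₀ : Subgroup G} [CompactSpace D] [CompactSpace I₀] (τ : I₀)
    (h2 : τ.1 ∉ J.H) (hχ : χ τ = 1) (gτ : Gen k ∅ τ) (hI : ∀ γ ∈ I, J.ι γ ∈ I₀)
    (nI : ∀ d ∈ D, ∀ γ ∈ I, d⁻¹ * γ * d ∈ I) (σ : D) (gσ : Gen k (I.subgroupOf D : Set D) σ)
    {t : Γ} (ht : t ∈ I) (e : t = J.u (τ * τ)) {r : ℕ} (hq : χ (J.ι σ) = (2 * r + 1 : ℕ))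
    (rel : U.R.ac (J.ι σ) * U.R.ac τ = U.R.ac τ ^ (2 * r + 1) * U.R.ac (J.ι σ)) {u : E[X]}
    (hu : ∀ i, ‖u.coeff i‖ ≤ 1) (u1 : u.eval 1 = 1)
    (hid : (2 * r + 1) • (aeval (U.ρ.ac t) u * aeval (U.ρ.ac t⁻¹) u * U.ρ.ac t ^ r) =
      ∑ i ∈ Finset.range (2 * r + 1), U.ρ.ac t ^ i)
    (le : I ≤ D) (h0 : ∀ a, (∀ g : D, U.ρ.ac g a = a) → a = 0) :
    Even (∑ i ∈ Finset.range m, U.Λ.dm (U.ρ.res D).B1 i + m +
      finrank E (LinearMap.ker (aeval (U.ρ.ac t) u * U.ρ.ac σ - 1))) := by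
  let b := U.ρ.ac (J.cj (J.u τ))
  let P := U.B.compl₂ b
  have hP : Pa U.Λ U.Λ P := ⟨fun hu hv h => U.pa.le hu (U.stab.mem _ hv) h, fun i j h => by
    obtain ⟨κ, k0, k1⟩ := U.pa.lam i j h
    exact ⟨κ, k0, fun u hu v hv => (k1 u hu _ (U.stab.mem _ hv)).congr rfl
      (by rw [U.stab.lam _ hv])⟩⟩
  have ab : ∀ x, U.ρ.ac (J.u τ) (b x) = U.ρ.ac t x := fun x => by rw [e, J.u_out h2, U.ρ.mul]
  have p2 : ∀ x y, P (U.ρ.ac t y) x = -P x y := fun x y => by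
    rw [← ab]
    exact (U.equi _ _ _).trans (by rw [U.chi_out h2, U.sy, hχ, neg_one_mul]; rfl)
  have tt : U.ρ.ac t⁻¹ * U.ρ.ac t = 1 := by rw [← map_mul, inv_mul_cancel, map_one]
  have tt' : U.ρ.ac t * U.ρ.ac t⁻¹ = 1 := by rw [← map_mul, mul_inv_cancel, map_one]
  have p1 : ∀ x y, P x (U.ρ.ac t y) = P (U.ρ.ac t⁻¹ x) y := fun x y => by
    have := p2 (U.ρ.ac t y) (U.ρ.ac t⁻¹ x)
    rwa [← U.ρ.mul, mul_inv_cancel, U.ρ.one, p2, neg_neg] at this
  have pw : ∀ (j : ℕ) x y, (U.R.ac τ ^ (2 * j + 1)) (x, y) =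
      ((U.ρ.ac t ^ j) (U.ρ.ac (J.u τ) y), b ((U.ρ.ac t ^ j) x)) := fun j x y => by
    induction j with
    | zero => simpa using U.R_out h2 (x, y)
    | succ j ih =>
      rw [show 2 * (j + 1) + 1 = 2 * j + 1 + 1 + 1 by ring, pow_succ', pow_succ', End.mul_apply,
        End.mul_apply, ih, U.R_out h2, U.R_out h2, ab, ab, pow_succ', End.mul_apply, End.mul_apply]
  have r1 : ∀ x y, (U.ρ.ac σ (U.ρ.ac (J.u τ) y), U.ρ.ac (J.cj σ) (b x)) =
      ((U.ρ.ac t ^ r) (U.ρ.ac (J.u τ) (U.ρ.ac (J.cj σ) y)), b ((U.ρ.ac t ^ r) (U.ρ.ac σ x))) :=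
    fun x y => by
    have := LinearMap.congr_fun rel (x, y)
    rwa [End.mul_apply, End.mul_apply, U.R_out h2, U.R_in (J.mem _), U.R_in (J.mem _), J.u_ι,
      pw] at this
  have p3 : ∀ x y, P (U.ρ.ac σ x) ((U.ρ.ac t ^ r) (U.ρ.ac σ y)) = (2 * r + 1 : ℕ) * P x y :=
    fun x y => by
    rw [← hq]
    exact (congrArg _ (congrArg Prod.snd (r1 y 0)).symm).trans (U.equi _ _ _)
  have p4 : U.ρ.ac σ * U.ρ.ac t = U.ρ.ac t ^ (2 * r + 1) * U.ρ.ac σ := LinearMap.ext fun x => by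
    have a1 := congrArg Prod.fst (r1 0 (b x))
    have a2 := congrArg Prod.snd (r1 x 0)
    simp only at a1 a2
    rw [a2, ab, ab] at a1
    rw [two_mul, add_assoc, pow_add, pow_succ', End.mul_apply, a1]
    rfl
  have iso := iso_tw P tt tt' p1 p3 p4 hid
  have sy : ∀ x y, P ((U.ρ.ac t - 1) x) y = -P y x - P x y := fun x y => by
    rw [LinearMap.sub_apply, map_sub, LinearMap.sub_apply, p2, End.one_apply]
  have gI : ∀ {j x}, U.ρ.ac t x - x ∈ U.Λ.T j → ∀ γ ∈ I, U.ρ.ac γ x - x ∈ U.Λ.T j :=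
    fun {j x} h γ hγ => by
    have := U.mem_T2.1 ((U.stabT.res I₀).gen {τ} (fun f hf h => gτ f hf (by simp) (h τ rfl))
      ((U.R.res I₀).d1_mem (x, b x)) (j := 2 * j) (by
        rintro g rfl
        change U.R.ac g.1 (x, b x) - (x, b x) ∈ _
        rw [U.R_out h2, ab, U.mem_T2]
        exact ⟨h, by simp [b]⟩) ⟨_, hI γ hγ⟩)
    change (U.R.ac (J.ι γ) (x, b x) - (x, b x)).1 ∈ _ ∧ _ at this
    rw [U.R_in (J.mem _), J.u_ι] at this
    exact this.1
  have pT := fun {i x} => poly_T U.Λ (t := U.ρ.ac t) (fun _ _ => U.stab.mem t) hu (i := i) (x := x)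
  simp only [u1, one_smul] at pT
  have gD : ∀ {j x}, aeval (U.ρ.ac t) u (U.ρ.ac σ x) - x ∈ U.Λ.T j → U.ρ.ac t x - x ∈ U.Λ.T j →
      ∀ γ : D, U.ρ.ac γ x - x ∈ U.Λ.T j := fun {j x} h' h =>
    (U.stab.res D).gen (insert σ (I.subgroupOf D : Set D))
      (fun f hf h => gσ f hf (fun g hg => h g (Or.inr hg)) (h σ (Or.inl rfl)))
      ((U.ρ.res D).d1_mem x) (by
        rintro g (rfl | hg)
        · have := U.stab.mem g.1 (gI h _ (nI _ g.2 t ht))
          rw [map_sub, ← U.ρ.mul, ← mul_assoc, mul_inv_cancel_left, U.ρ.mul] at this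
          convert sub_mem h' (pT.2 this) using 1
          exact (sub_sub_sub_cancel_left _ _ _).symm
        · exact gI h _ hg)
  have ix := U.Λ.ix_pow (U.Λ.fin_W (Ch.bd_of (U.ρ.res D).B1_le)) 0 m
  simp only [zero_add] at ix
  refine wall hP U.rk (U.ρ.ac t - 1) (aeval (U.ρ.ac t) u * U.ρ.ac σ - 1) (fun x y hx => ?_)
    (fun x => ?_) (fun x hx hy => h0 x fun g => sub_eq_zero.1 (U.Λ.sep fun j =>
      gD ((show aeval (U.ρ.ac t) u (U.ρ.ac σ x) - x = 0 from hx) ▸ zero_mem _)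
        ((show U.ρ.ac t x - x = 0 from hy) ▸ zero_mem _) g))
    (fun i x hx => ⟨sub_mem (pT.1 (U.stab.mem _ hx)) hx, U.Λ.succ _ (U.stab _ _ _ hx)⟩)
    (fun i => (U.Λ.Z (U.ρ.res D).B1 i).comap (U.ρ.res D).d1.toAddMonoidHom)
    (fun i x => ⟨fun h => ⟨?_, h.2 ⟨t, le ht⟩⟩, fun h => ⟨⟨x, rfl⟩, gD h.1 h.2⟩⟩)
    ((ix_tr (U.ρ.res D).d1.toAddMonoidHom (A' := U.Λ.Z (U.ρ.res D).B1 0) (fun y => ⟨fun hy =>
      hy.1.imp fun x hx => ⟨by rw [← hx] at hy; exact hy, hx⟩, fun ⟨x, hx, h⟩ => h ▸ hx⟩)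
      fun _ _ => Iff.rfl).trans ix)
  · have := iso x y
    rw [show aeval (U.ρ.ac t) u (U.ρ.ac σ x) = x from sub_eq_zero.1 hx] at this
    rw [LinearMap.sub_apply _ 1 y, map_sub, End.mul_apply, this, End.one_apply, sub_self]
  · have := iso x x
    rw [sy, sy] at this
    rw [sy]
    simp only [LinearMap.sub_apply, map_sub, End.mul_apply, End.one_apply]
    linear_combination (-1 / 2 : E) * this
  · convert add_mem (pT.1 (h.2 σ)) (pT.2 (h.2 ⟨t, le ht⟩)) using 1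
    change _ - x = aeval (U.ρ.ac t) u (U.ρ.ac σ x - x) + _
    rw [map_sub, sub_add_sub_cancel, End.mul_apply]

end Pool.Agent.SP
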