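import Mathlib

/-! Coefficient data: a uniformiser and the reduction to the residue field. -/

namespace Pool.Agent.SP

open scoped Classical

/-- A uniformiser and the reduction map of a discretely valued field. -/
structure CF (E k : Type) [NontriviallyNormedField E] [Field k] where
  /-- the uniformiser -/
  π : E
  ne : π ≠ 0
  lt : ‖π‖ < 1
  disc : ∀ x : E, ‖x‖ < 1 → ‖x‖ ≤ ‖π‖
  /-- the reduction -/
  rd : E → k
  rd_add : ∀ x y, ‖x‖ ≤ 1 → ‖y‖ ≤ 1 → rd (x + y) = rd x + rd y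
  rd_mul : ∀ x y, ‖x‖ ≤ 1 → ‖y‖ ≤ 1 → rd (x * y) = rd x * rd y
  rd_one : rd 1 = 1
  rd_zero : ∀ x, ‖x‖ ≤ 1 → (rd x = 0 ↔ ‖x‖ < 1)
  /-- a section of the reduction -/
  sc : k → E
  sc_le : ∀ a, ‖sc a‖ ≤ 1
  rd_sc : ∀ a, rd (sc a) = a

variable {E k : Type} [NontriviallyNormedField E] [Field k] (c : CF E k)

/-- `x` is integral with reduction `a`. -/
def CF.Rd (x : E) (a : k) : Prop := ‖x‖ ≤ 1 ∧ c.rd x = a

namespace CF

theorem pos : 0 < ‖c.π‖ := norm_pos_iff.2 c.ne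

theorem rd_of {x : E} (h : ‖x‖ ≤ 1) : c.Rd x (c.rd x) := ⟨h, rfl⟩

theorem rd_sc' (a : k) : c.Rd (c.sc a) a := ⟨c.sc_le a, c.rd_sc a⟩

theorem rd_lt {x : E} (h : ‖x‖ < 1) : c.Rd x 0 := ⟨h.le, (c.rd_zero x h.le).2 h⟩

theorem rd_one' : c.Rd 1 1 := ⟨by simp, c.rd_one⟩

theorem rd_zero' : c.Rd 0 0 := c.rd_lt (by simp)

theorem rd_pi {x : E} (h : ‖x‖ ≤ 1) : c.Rd (c.π * x) 0 := c.rd_lt (by
  rw [norm_mul]
  exact (mul_le_of_le_one_right c.pos.le h).trans_lt c.lt)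

variable {c}

theorem Rd.lt {x : E} (h : c.Rd x 0) : ‖x‖ < 1 := (c.rd_zero x h.1).1 h.2

theorem Rd.mul {x y : E} {a b : k} (h : c.Rd x a) (h' : c.Rd y b) : c.Rd (x * y) (a * b) :=
  ⟨by rw [norm_mul]; exact mul_le_one₀ h.1 (norm_nonneg _) h'.1,
    by rw [c.rd_mul x y h.1 h'.1, h.2, h'.2]⟩

theorem Rd.congr {x y : E} {a b : k} (h : c.Rd x a) (e : x = y) (e' : a = b) : c.Rd y b :=
  e ▸ e' ▸ h

theorem Rd.uniq {x : E} {a b : k} (h : c.Rd x a) (h' : c.Rd x b) : a = b := h.2.symm.trans h'.2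

theorem le_one {x : E} (h : ‖c.π * x‖ < 1) : ‖x‖ ≤ 1 := by
  have := c.disc _ h
  rw [norm_mul] at this
  exact le_of_mul_le_mul_left (by rwa [mul_one]) c.pos

theorem Rd.le_one {x : E} (h : c.Rd (c.π * x) 0) : ‖x‖ ≤ 1 := CF.le_one h.lt

theorem Rd.norm_eq {x : E} {a : k} (h : c.Rd x a) (ha : a ≠ 0) : ‖x‖ = 1 :=
  le_antisymm h.1 (not_lt.1 fun h' => ha (h.uniq (c.rd_lt h')))

variable [IsUltrametricDist E]

theorem Rd.add {x y : E} {a b : k} (h : c.Rd x a) (h' : c.Rd y b) : c.Rd (x + y) (a + b) :=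
  ⟨(IsUltrametricDist.norm_add_le_max _ _).trans (max_le h.1 h'.1),
    by rw [c.rd_add x y h.1 h'.1, h.2, h'.2]⟩

omit [IsUltrametricDist E] in
theorem Rd.neg {x : E} {a : k} (h : c.Rd x a) : c.Rd (-x) (-a) := by
  refine ⟨by rw [norm_neg]; exact h.1, ?_⟩
  have := c.rd_add x (-x) h.1 (by rw [norm_neg]; exact h.1)
  rw [add_neg_cancel, c.rd_zero'.2, h.2] at this
  exact (neg_eq_of_add_eq_zero_right this.symm).symm

theorem Rd.sub {x y : E} {a b : k} (h : c.Rd x a) (h' : c.Rd y b) : c.Rd (x - y) (a - b) := by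
  simpa only [sub_eq_add_neg] using h.add h'.neg

theorem Rd.sum {ι : Type} (s : Finset ι) {x : ι → E} {a : ι → k} (h : ∀ i ∈ s, c.Rd (x i) (a i)) :
    c.Rd (∑ i ∈ s, x i) (∑ i ∈ s, a i) := by
  induction s using Finset.induction_on with
  | empty => simpa using c.rd_zero'
  | insert i s hi ih =>
    rw [Finset.sum_insert hi, Finset.sum_insert hi]
    exact (h i (by simp)).add (ih fun j hj => h j (by simp [hj]))

theorem Rd.nat (n : ℕ) : c.Rd n n := by
  induction n with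
  | zero => simpa using c.rd_zero'
  | succ n ih => simpa using ih.add c.rd_one'

theorem Rd.of_sub {x y : E} {a : k} (h : c.Rd x a) (h' : ‖y - x‖ < 1) : c.Rd y a :=
  (h.add (c.rd_lt h')).congr (by ring) (add_zero a)

theorem Rd.sub_lt {x y : E} {a : k} (h : c.Rd x a) (h' : c.Rd y a) : ‖x - y‖ < 1 :=
  ((h.sub h').congr rfl (sub_self a)).lt

theorem two_lt [CharP k 2] (c : CF E k) : ‖(2 : E)‖ < 1 :=
  ((Rd.nat (c := c) 2).congr (by norm_num) (CharP.cast_eq_zero k 2)).lt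

theorem lc_rd {X : Type} [TopologicalSpace X] {f : X → E} (hf : Continuous f)
    (h : ∀ x, ‖f x‖ ≤ 1) : IsLocallyConstant fun x => c.rd (f x) := by
  refine (IsLocallyConstant.iff_eventually_eq _).2 fun x => ?_
  filter_upwards [hf.continuousAt.eventually (Metric.ball_mem_nhds (f x) one_pos)] with y hy
  exact ((c.rd_of (h x)).of_sub (by simpa [dist_eq_norm] using hy)).2

omit [IsUltrametricDist E] in
theorem zpow_norm (c : CF E k) {x : E} (hx : x ≠ 0) : ∃ m : ℤ, ‖x‖ = ‖c.π‖ ^ m := by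
  obtain ⟨m, h1, h2⟩ := exists_mem_Ioc_zpow (norm_pos_iff.2 (inv_ne_zero hx))
    ((one_lt_inv₀ c.pos).2 c.lt)
  refine ⟨m + 1, ?_⟩
  have p := c.pos
  have q := norm_pos_iff.2 hx
  rw [norm_inv, inv_zpow] at h1 h2
  have a1 : ‖x‖ < ‖c.π‖ ^ m := (inv_lt_inv₀ (zpow_pos p _) q).1 h1
  have a2 : ‖c.π‖ ^ (m + 1) ≤ ‖x‖ := (inv_le_inv₀ q (zpow_pos p _)).1 h2
  refine le_antisymm ?_ a2
  have := c.disc (x / c.π ^ m) (by
    rw [norm_div, norm_zpow]; exact (div_lt_one (zpow_pos p _)).2 a1)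
  rw [norm_div, norm_zpow, div_le_iff₀ (zpow_pos p _)] at this
  rwa [zpow_add_one₀ p.ne', mul_comm]

omit [IsUltrametricDist E] in
theorem small (c : CF E k) {ε : ℝ} (h : 0 < ε) (C : ℝ) : ∃ m : ℕ, ‖c.π‖ ^ m * C < ε := by
  rcases le_or_gt C 0 with h0 | h0
  · exact ⟨0, by simpa using h0.trans_lt h⟩
  · obtain ⟨m, hm⟩ := exists_pow_lt_of_lt_one (div_pos h h0) c.lt
    exact ⟨m, (lt_div_iff₀ h0).1 hm⟩

end CF

/-- The index of the kernel of a map that is additive on a subgroup. -/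
theorem ix {X Y : Type} [AddCommGroup X] [AddCommGroup Y] (B A : AddSubgroup X) (f : X → Y)
    (hf : ∀ a ∈ A, ∀ b ∈ A, f (a + b) = f a + f b) (hB : ∀ a ∈ A, a ∈ B ↔ f a = 0) :
    B.relIndex A = Nat.card {y | ∃ a ∈ A, y = f a} := by
  let g : A →+ Y := AddMonoidHom.mk' (fun a => f a) fun a b => hf a a.2 b b.2
  have : B.addSubgroupOf A = g.ker := by
    ext a
    exact hB a a.2
  rw [AddSubgroup.relIndex, this, AddSubgroup.index_ker]
  refine Nat.card_congr (Equiv.setCongr ?_)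
  ext y
  exact ⟨fun ⟨a, h⟩ => ⟨a, a.2, h.symm⟩, fun ⟨a, ha, h⟩ => ⟨⟨a, ha⟩, h.symm⟩⟩

theorem ix_split {X : Type} [AddCommGroup X] {B A : AddSubgroup X} (K : AddSubgroup X) (h : B ≤ A) :
    B.relIndex A = (B ⊓ K).relIndex (A ⊓ K) * (B ⊔ K).relIndex (A ⊔ K) := by
  have e1 : (B ⊔ K).relIndex (A ⊔ K) = ((B ⊔ K) ⊓ A).relIndex A := by
    rw [AddSubgroup.inf_relIndex_right, ← AddSubgroup.relIndex_sup_right A (B ⊔ K), ← sup_assoc,
      sup_eq_left.2 h]
  have e2 : (B ⊓ K).relIndex (A ⊓ K) = B.relIndex ((B ⊔ K) ⊓ A) := by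
    rw [sup_inf_assoc_of_le _ h, AddSubgroup.relIndex_sup_left, inf_comm K A,
      ← AddSubgroup.inf_relIndex_right B, ← AddSubgroup.inf_relIndex_right (B ⊓ K)]
    congr 1
    ext x
    simp only [AddSubgroup.mem_inf]
    tauto
  rw [e1, e2, AddSubgroup.relIndex_mul_relIndex _ _ _ (le_inf le_sup_left h) inf_le_right]

/-- Sums of a periodic function over a period. -/
theorem per_sum {N : ℕ} (f : ℤ → ℕ) (hf : ∀ i, f (i + N) = f i) (a : ℤ) :
    ∑ i ∈ Finset.range N, f (a + i) = ∑ i ∈ Finset.range N, f i := by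
  have st : ∀ a : ℤ, ∑ i ∈ Finset.range N, f (a + 1 + i) = ∑ i ∈ Finset.range N, f (a + i) := by
    intro a
    have h1 := Finset.sum_range_succ (fun i : ℕ => f (a + i)) N
    have h2 := Finset.sum_range_succ' (fun i : ℕ => f (a + i)) N
    simp only [Nat.cast_zero, add_zero, hf] at h1 h2
    have h3 : ∑ i ∈ Finset.range N, f (a + ((i + 1 : ℕ) : ℤ)) =
        ∑ i ∈ Finset.range N, f (a + 1 + i) :=
      Finset.sum_congr rfl fun i _ => by congr 1; push_cast; ring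
    omega
  induction a using Int.induction_on with
  | zero => simp
  | succ a ih => rw [st, ih]
  | pred a ih => rw [← st, ← ih]; exact Finset.sum_congr rfl fun i _ => by congr 1; ring

theorem per_mul {α : Type} {N : ℕ} (f : ℤ → α) (hf : ∀ i, f (i + N) = f i) (i r : ℤ) :
    f (i + r * N) = f i := by
  induction r using Int.induction_on with
  | zero => simp
  | succ a ih => rw [← ih, ← hf (i + a * N)]; congr 1; ring
  | pred a ih => rw [← ih, ← hf]; congr 1; ring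

/-- Reflection of a sum over a period. -/
theorem per_refl {N : ℕ} (f : ℤ → ℕ) (hf : ∀ i, f (i + N) = f i) :
    ∑ i ∈ Finset.range N, f (-i - 1) = ∑ i ∈ Finset.range N, f i := by
  rw [← Finset.sum_range_reflect, ← per_sum f hf (-N)]
  refine Finset.sum_congr rfl fun i hi => ?_
  have := Finset.mem_range.1 hi
  congr 1
  omega

theorem per_half {m : ℕ} (f : ℤ → ℕ) (hf : ∀ i, f (i + (2 * m : ℕ)) = f i) :
    ∑ i ∈ Finset.range (2 * m), f i =
      ∑ i ∈ Finset.range m, f i + ∑ i ∈ Finset.range m, f (-i - 1) := by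
  rw [two_mul, Finset.sum_range_add]
  congr 1
  rw [← Finset.sum_range_reflect]
  refine Finset.sum_congr rfl fun i hi => ?_
  have := Finset.mem_range.1 hi
  rw [← hf (-i - 1)]
  congr 1
  omega

/-- Two sequences in duality. -/
theorem dual_eq {N h : ℕ} (a b : ℤ → ℕ) (ha : ∀ i, a (i + N) = a i) (hb : ∀ i, b (i + N) = b i)
    (hN : 0 < N) (hle : ∀ i, a i + b (-i - 1) ≤ h)
    (hs : N * h ≤ ∑ i ∈ Finset.range N, a i + ∑ i ∈ Finset.range N, b i) (i : ℤ) :
    a i + b (-i - 1) = h := by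
  have e : ∀ j ∈ Finset.range N, a j + b (-j - 1) = h := by
    rw [← per_refl b hb, ← Finset.sum_add_distrib] at hs
    exact (Finset.sum_eq_sum_iff_of_le (s := Finset.range N) fun (j : ℕ) _ => hle j).1
      (le_antisymm (Finset.sum_le_sum fun j _ => hle j) (by simpa using hs))
  have h1 := Int.emod_nonneg i (show (N : ℤ) ≠ 0 by omega)
  have h2 := Int.emod_lt_of_pos i (show (0 : ℤ) < N by omega)
  have := e (i % N).toNat (Finset.mem_range.2 (by omega))
  rw [Int.toNat_of_nonneg h1, ← per_mul a ha _ (i / N), ← per_mul b hb _ (-(i / N))] at this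
  have e3 := Int.emod_add_mul_ediv i N
  convert this using 3
  · rw [mul_comm, e3]
  · linear_combination e3

end Pool.Agent.SP
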