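import Pool.Agent.Lib.MP_b4b3cb_nt.Par.LinA
import Pool.Agent.Lib.MP_b4b3cb_nt.Par.CF

/-! The tower of descents for a chain of arbitrary period. -/

namespace Pool.Agent.SP

open scoped Classical
open Module

theorem inv_even {N : ℕ} (hN : 0 < N) (d : ℤ → ℕ) (hd : ∀ i, d (i + N) = d i) (a : ℤ)
    (h1 : ∀ i, d (a - i) = d i) (h2 : ∀ i r : ℤ, a - i = i + r * N → Even (d i)) :
    Even (∑ i ∈ Finset.range N, d i) := by
  have n0 : (N : ℤ) ≠ 0 := by omega
  have e : ∀ i : ℤ, (((i % N).toNat : ℕ) : ℤ) = i + -(i / N) * N := fun i => by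
    rw [Int.toNat_of_nonneg (Int.emod_nonneg _ n0)]
    linear_combination Int.emod_add_mul_ediv i N
  rw [← ZMod.natCast_eq_zero_iff_even, Nat.cast_sum]
  refine Finset.sum_involution (fun i _ => ((a - i) % N).toNat) (fun i _ => ?_) (fun i _ h h' => ?_)
    (fun i _ => ?_) fun i hi => ?_
  · rw [e, per_mul d hd, h1]
    exact CharTwo.add_self_eq_zero _
  · refine h (ZMod.natCast_eq_zero_iff_even.2 (h2 i ((a - i) / N) ?_))
    have := e (a - i)
    rw [h'] at this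
    linear_combination -this
  · have := Int.emod_lt_of_pos (a - i) (show (0 : ℤ) < N by omega)
    exact Finset.mem_range.2 (by omega)
  · have := Finset.mem_range.1 hi
    rw [e, show a - (a - i + -((a - i) / N) * N) = i + (a - i) / N * N by ring, Int.add_mul_emod_self_right,
      Int.emod_eq_of_lt (by omega) (by omega), Int.toNat_natCast]

variable {k X : Type} [Field k] [AddCommGroup X] [Module k X]

theorem stab (S : ℕ → Submodule k X) (hf : ∀ n, FiniteDimensional k (S n)) (hm : Antitone S) :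
    ∃ N, ∀ n, N ≤ n → S n = S N := by
  obtain ⟨N, -, hN⟩ := (measure fun n => finrank k (S n)).wf.has_min Set.univ ⟨0, trivial⟩
  refine ⟨N, fun n hn => ?_⟩
  have := hf N
  exact Submodule.eq_of_le_of_finrank_le (hm hn) (not_lt.1 (hN n trivial))

theorem tower {C : Type} [AddCommGroup C] {N : ℕ} (hN : 0 < N) (F : ℤ → AddSubgroup C)
    (Sl : ℤ → ℤ → AddSubgroup C) (lm : ℤ → C → X) (S : ℤ → ℕ → Submodule k X)
    (pr : ℤ → ℤ → C → X → k) (sm : k → C → C)
    (hS : ∀ i (n : ℕ) f, f ∈ S i n ↔ ∃ x ∈ Sl i (i + n), f = lm i x)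
    (ladd : ∀ i, ∀ x ∈ F i, ∀ y ∈ F i, lm i (x + y) = lm i x + lm i y)
    (lker : ∀ i, ∀ x ∈ F i, lm i x = 0 ↔ x ∈ F (i + 1))
    (lsm : ∀ i r, ∀ x ∈ F i, lm i (sm r x) = r • lm i x)
    (Fm : ∀ i j, i ≤ j → F j ≤ F i) (SF : ∀ i j, Sl i j ≤ F i)
    (Sm : ∀ i i' j j', i' ≤ i → j' ≤ j → Sl i j ≤ Sl i' j')
    (Su : ∀ i i' j, i' ≤ j → ∀ x ∈ Sl i j, x ∈ F i' → x ∈ Sl i' j)
    (Ssm : ∀ i j r, ∀ x ∈ Sl i j, sm r x ∈ Sl i j)
    (per : ∀ i n, S (i + N) n = S i n) (fin : ∀ i, FiniteDimensional k (S i 1))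
    (pl : ∀ i j, i ≤ j → ∀ x ∈ Sl i j, ∀ x' ∈ Sl i j, ∀ y ∈ S (-j - 1) 1,
      pr i j (x + x') y = pr i j x y + pr i j x' y)
    (ps : ∀ i j, i ≤ j → ∀ r, ∀ x ∈ Sl i j, ∀ y ∈ S (-j - 1) 1,
      pr i j (sm r x) y = r * pr i j x y)
    (prr : ∀ i j, i ≤ j → ∀ x ∈ Sl i j, Lin (S (-j - 1) 1) (pr i j x))
    (nat : ∀ i i' j, i' ≤ i → i ≤ j → ∀ x ∈ Sl i j, ∀ y ∈ S (-j - 1) 1, pr i' j x y = pr i j x y)
    (ker : ∀ i j, i ≤ j → ∀ x ∈ Sl i j,
      (∀ y ∈ S (-j - 1) 1, pr i j x y = 0) ↔ ∃ x' ∈ Sl i (j + 1), x' - x ∈ F j)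
    (orth : ∀ (i j : ℤ) (n : ℕ), j = i + n → ∀ x ∈ Sl i j, ∀ y ∈ S (-j - 1) (n + 1),
      pr i j x y = 0)
    (alt : ∀ i j r : ℤ, i < j → -j - 1 = i + r * N → ∀ x ∈ Sl i j, pr i j x (lm i x) = 0) :
    (∀ n : ℕ, Even (∑ i ∈ Finset.range N, finrank k (S i (n + 1)) +
      ∑ i ∈ Finset.range N, finrank k (S i 1))) ∧
    ∃ M : ℕ, ∀ i j : ℤ, i + M ≤ j → ∀ x ∈ Sl i j, ∃ x' ∈ Sl i (j + 1), x' - x ∈ F (j - M) := by
  have anti : ∀ i, Antitone (S i) := fun i n n' h f hf => by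
    obtain ⟨x, hx, e⟩ := (hS i n' f).1 hf
    exact (hS i n f).2 ⟨x, Sm _ _ _ _ le_rfl (by omega) hx, e⟩
  have fin' : ∀ i n, FiniteDimensional k (S i (n + 1)) := fun i n =>
    have := fin i
    Submodule.finiteDimensional_of_le (anti i (Nat.le_add_left 1 n))
  have lsub : ∀ i, ∀ x ∈ F i, ∀ x' ∈ F i, x' - x ∈ F (i + 1) ↔ lm i x' = lm i x := by
    intro i x hx x' hx'
    have := ladd i _ ((F i).sub_mem hx' hx) x hx
    rw [sub_add_cancel] at this
    rw [← lker i _ ((F i).sub_mem hx' hx), this, add_eq_right]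
  have lift : ∀ i i' j, i ≤ i' → i' ≤ j → ∀ x ∈ Sl i j,
      (∀ b ∈ S (-j - 1) 1, (∀ z ∈ Sl i' j, pr i' j z b = 0) → pr i j x b = 0) →
      ∃ x' ∈ Sl i (j + 1), x' - x ∈ F i' := by
    intro i i' j h1 h2 x hx h
    have le := Sm i' i j j h1 le_rfl
    have := fin (-j - 1)
    obtain ⟨z, hz, e⟩ := bidual (Sl i' j) (S (-j - 1) 1) (pr i j) (pr i j x)
      (fun z hz z' hz' => pl i j (h1.trans h2) z (le hz) z' (le hz'))
      (fun r z hz => ⟨sm r z, Ssm _ _ r z hz, ps i j (h1.trans h2) r z (le hz)⟩)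
      (fun z hz => prr i j (h1.trans h2) z (le hz)) (prr i j (h1.trans h2) x hx)
      fun b hb h0 => h b hb fun z hz => (nat i' i j h1 h2 z hz b hb).symm.trans (h0 z hz)
    have hxz := (Sl i j).sub_mem hx (le hz)
    obtain ⟨x', a, b⟩ := (ker i j (h1.trans h2) _ hxz).1 fun y hy => by
      have := pl i j (h1.trans h2) _ hxz z (le hz) y hy
      rwa [sub_add_cancel, e y hy, eq_comm, add_eq_right] at this
    refine ⟨x', a, ?_⟩
    have := (F i').sub_mem (Fm _ _ h2 b) (SF _ _ hz)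
    rwa [show x' - (x - z) - z = x' - x by abel] at this
  have pair : ∀ m : ℕ, (∀ i j : ℤ, j = i + m → ∀ y ∈ S (-j - 1) 1,
      (∀ x ∈ Sl i j, pr i j x y = 0) → y ∈ S (-j - 1) (m + 1)) →
      ∀ i j : ℤ, j = i + ((m + 1 : ℕ) : ℤ) → ∃ g : X → X → k,
      (∀ x ∈ Sl i j, ∀ y ∈ S (-j - 1) (m + 1), g (lm i x) y = pr i j x y) ∧
      (∀ b ∈ S (-j - 1) (m + 1), Lin (S i (m + 1)) (g · b)) ∧
      (∀ a ∈ S i (m + 1), Lin (S (-j - 1) (m + 1)) (g a)) ∧
      ∀ a ∈ S i (m + 1), a ∈ S i (m + 1 + 1) ↔ ∀ b ∈ S (-j - 1) (m + 1), g a b = 0 := by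
    intro m ih i j hj
    have hij : i ≤ j := by omega
    have le1 := anti (-j - 1) (Nat.le_add_left 1 m)
    have hS' : ∀ a, a ∈ S i (m + 1) ↔ ∃ x ∈ Sl i j, a = lm i x := fun a => hj ▸ hS i (m + 1) a
    have ex : ∀ a, ∃ x, a ∈ S i (m + 1) → x ∈ Sl i j ∧ a = lm i x := fun a => by
      by_cases h : a ∈ S i (m + 1)
      · obtain ⟨x, a, b⟩ := (hS' a).1 h
        exact ⟨x, fun _ => ⟨a, b⟩⟩
      · exact ⟨0, fun h' => absurd h' h⟩
    choose σ hσ using ex
    have key : ∀ x ∈ Sl i j, ∀ y ∈ S (-j - 1) (m + 1), pr i j (σ (lm i x)) y = pr i j x y := by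
      intro x hx y hy
      obtain ⟨a, b⟩ := hσ _ ((hS' _).2 ⟨x, hx, rfl⟩)
      have c := (Sl i j).sub_mem a hx
      have d : σ (lm i x) - x ∈ Sl (i + 1) j :=
        Su i _ j (by omega) _ c ((lsub i x (SF _ _ hx) _ (SF _ _ a)).2 b.symm)
      have e := pl i j hij _ c x hx y (le1 hy)
      rwa [sub_add_cancel, nat (i + 1) i j (by omega) (by omega) _ d y (le1 hy),
        orth (i + 1) j m (by omega) _ d y hy, zero_add] at e
    refine ⟨fun a => pr i j (σ a), key, fun b hb => ⟨fun a ha a' ha' => ?_, fun r a ha => ?_⟩,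
      fun a ha => (prr i j hij _ (hσ a ha).1).mono le1,
      fun a ha => ⟨fun h b hb => ?_, fun h => ?_⟩⟩
    · obtain ⟨x, hx, rfl⟩ := (hS' a).1 ha
      obtain ⟨x', hx', rfl⟩ := (hS' a').1 ha'
      dsimp only
      rw [← ladd i x (SF _ _ hx) x' (SF _ _ hx'), key _ ((Sl i j).add_mem hx hx') b hb, key x hx b hb,
        key x' hx' b hb, pl i j hij x hx x' hx' b (le1 hb)]
    · obtain ⟨x, hx, rfl⟩ := (hS' a).1 ha
      dsimp only
      rw [← lsm i r x (SF _ _ hx), key _ (Ssm _ _ r x hx) b hb, key x hx b hb,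
        ps i j hij r x hx b (le1 hb)]
    · obtain ⟨x, hx, rfl⟩ := (hS i _ a).1 h
      have hx1 : x ∈ Sl i (j + 1) := Sm _ _ _ _ le_rfl (by omega) hx
      have hx0 : x ∈ Sl i j := Sm _ _ _ _ le_rfl (by omega) hx
      exact (key x hx0 b hb).trans ((ker i j hij x hx0).2 ⟨x, hx1, by simp⟩ b (le1 hb))
    · obtain ⟨x', a1, a2⟩ := lift i (i + 1) j (by omega) (by omega) _ (hσ a ha).1
        fun b hb h0 => h b (ih (i + 1) j (by omega) b hb h0)
      exact (hS i _ a).2 ⟨x', Sm _ _ _ _ le_rfl (by omega) a1, (hσ a ha).2.trans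
        ((lsub i _ (SF _ _ (hσ a ha).1) x' (SF _ _ a1)).1 a2).symm⟩
  have right : ∀ m : ℕ, (∀ i j : ℤ, j = i + m → ∀ y ∈ S (-j - 1) 1,
      (∀ x ∈ Sl i j, pr i j x y = 0) → y ∈ S (-j - 1) (m + 1)) →
      ∀ i j : ℤ, j = i + ((m + 1 : ℕ) : ℤ) → ∃ R : Submodule k X,
      S (-j - 1) (m + 1 + 1) ≤ R ∧ R ≤ S (-j - 1) (m + 1) ∧
      (∀ y ∈ S (-j - 1) (m + 1), (∀ x ∈ Sl i j, pr i j x y = 0) → y ∈ R) ∧
      finrank k (S i (m + 1)) + finrank k R =
        finrank k (S (-j - 1) (m + 1)) + finrank k (S i (m + 1 + 1)) := by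
    intro m ih i j hj
    obtain ⟨g, g1, g2, g3, g4⟩ := pair m ih i j hj
    have hS' : ∀ a, a ∈ S i (m + 1) ↔ ∃ x ∈ Sl i j, a = lm i x := fun a => hj ▸ hS i (m + 1) a
    let R : Submodule k X :=
      { carrier := {y | y ∈ S (-j - 1) (m + 1) ∧ ∀ a ∈ S i (m + 1), g a y = 0}
        add_mem' := fun {y y'} h h' => ⟨add_mem h.1 h'.1, fun a ha => by
          rw [(g3 a ha).1 y h.1 y' h'.1, h.2 a ha, h'.2 a ha, add_zero]⟩
        zero_mem' := ⟨zero_mem _, fun a ha => (g3 a ha).zero⟩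
        smul_mem' := fun c y h => ⟨Submodule.smul_mem _ _ h.1, fun a ha => by
          rw [(g3 a ha).2 c y h.1, h.2 a ha, mul_zero]⟩ }
    have mem : ∀ y ∈ S (-j - 1) (m + 1), (∀ x ∈ Sl i j, pr i j x y = 0) → y ∈ R :=
      fun y hy h => ⟨hy, fun a ha => by
        obtain ⟨x, hx, rfl⟩ := (hS' a).1 ha
        rw [g1 x hx y hy, h x hx]⟩
    have := fin' i m
    have := fin' (-j - 1) m
    exact ⟨R, fun y hy => mem y (anti _ (Nat.le_succ _) hy) fun x hx => orth i j _ hj x hx y hy,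
      fun y hy => hy.1, mem, pair_ker (anti _ (Nat.le_succ _))
        (fun y hy => hy.1) g2 g3 g4 fun b hb => ⟨fun h => h.2, fun h => ⟨hb, h⟩⟩⟩
  have step : ∀ m : ℕ, (∀ i j : ℤ, j = i + m → ∀ y ∈ S (-j - 1) 1,
      (∀ x ∈ Sl i j, pr i j x y = 0) → y ∈ S (-j - 1) (m + 1)) →
      ∀ i j : ℤ, j = i + ((m + 1 : ℕ) : ℤ) →
      (∀ y ∈ S (-j - 1) 1, (∀ x ∈ Sl i j, pr i j x y = 0) → y ∈ S (-j - 1) (m + 1 + 1)) ∧
      finrank k (S i (m + 1)) + finrank k (S (-j - 1) (m + 1 + 1)) =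
        finrank k (S (-j - 1) (m + 1)) + finrank k (S i (m + 1 + 1)) := by
    intro m ih i j hj
    obtain ⟨R, r1, r2, r3, r4⟩ := right m ih i j hj
    obtain ⟨R', s1, s2, -, s4⟩ := right m ih (-j - 1) _ rfl
    have e : -(-j - 1 + ((m + 1 : ℕ) : ℤ)) - 1 = i := by omega
    rw [e] at s1 s2 s4
    have := fin' (-j - 1) m
    have := fin' i m
    have : FiniteDimensional k R := Submodule.finiteDimensional_of_le r2
    have : FiniteDimensional k R' := Submodule.finiteDimensional_of_le s2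
    have a := Submodule.finrank_mono r1
    have b := Submodule.finrank_mono s1
    refine ⟨fun y hy h => ?_, by omega⟩
    rw [Submodule.eq_of_le_of_finrank_le r1 (by omega)]
    exact r3 y (ih (i + 1) j (by omega) y hy fun x hx =>
      (nat (i + 1) i j (by omega) (by omega) x hx y hy).symm.trans
        (h x (Sm _ _ _ _ (by omega) le_rfl hx))) h
  have P : ∀ m : ℕ, ∀ i j : ℤ, j = i + m → ∀ y ∈ S (-j - 1) 1, (∀ x ∈ Sl i j, pr i j x y = 0) →
      y ∈ S (-j - 1) (m + 1) := fun m => by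
    induction m with
    | zero => exact fun _ _ _ _ hy _ => hy
    | succ m ih => exact fun i j hj => (step m ih i j hj).1
  have per' : ∀ i r n, S (i + r * N) n = S i n := fun i r n =>
    per_mul (fun i => S i n) (fun i => per i n) i r
  have par : ∀ m : ℕ, Even (∑ i ∈ Finset.range N, finrank k (S i (m + 1 + 1)) +
      ∑ i ∈ Finset.range N, finrank k (S i (m + 1))) := fun m => by
    have le : ∀ i, finrank k (S i (m + 1 + 1)) ≤ finrank k (S i (m + 1)) := fun i =>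
      have := fin' i m
      Submodule.finrank_mono (anti i (Nat.le_succ _))
    obtain ⟨a, ha⟩ := inv_even hN (fun i => finrank k (S i (m + 1)) - finrank k (S i (m + 1 + 1)))
      (fun i => by rw [per, per]) (-((m + 1 : ℕ) : ℤ) - 1) (fun i => by
        have := (step m (P m) i _ rfl).2
        have h1 := le i
        have h2 := le (-(i + ((m + 1 : ℕ) : ℤ)) - 1)
        rw [show -((m + 1 : ℕ) : ℤ) - 1 - i = -(i + ((m + 1 : ℕ) : ℤ)) - 1 by ring]
        omega) fun i r hr => by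
        obtain ⟨g, g1, g2, g3, g4⟩ := pair m (P m) i _ rfl
        have e : -(i + ((m + 1 : ℕ) : ℤ)) - 1 = i + r * N := by omega
        rw [e, per'] at g1 g2 g3 g4
        have := fin' i m
        obtain ⟨b, hb⟩ := pair_alt (anti i (show m + 1 ≤ m + 1 + 1 by omega)) g2 g3 (fun a ha => by
          obtain ⟨x, hx, rfl⟩ := (hS i _ a).1 ha
          rw [g1 x hx _ ha, alt i _ r (by omega) e x hx]) g4
        have := le i
        exact ⟨b - finrank k (S i (m + 1 + 1)), by omega⟩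
    rw [Finset.sum_tsub_distrib _ fun (i : ℕ) _ => le i] at ha
    have := Finset.sum_le_sum (s := Finset.range N) fun (i : ℕ) _ => le i
    exact ⟨a + ∑ i ∈ Finset.range N, finrank k (S i (m + 1 + 1)), by omega⟩
  refine ⟨fun n => ?_, ?_⟩
  · induction n with
    | zero => exact ⟨_, rfl⟩
    | succ n ih =>
      have := par n
      rw [Nat.even_iff] at *
      omega
  · choose M hM using fun i => stab (fun n => S i (n + 1)) (fin' i)
      fun _ _ h => anti i (Nat.succ_le_succ h)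
    have st : ∀ i n, ∑ i ∈ Finset.range N, M i ≤ n →
        S i (n + 1) = S i (∑ i ∈ Finset.range N, M i + 1) := fun i n hn => by
      have h1 := Int.emod_nonneg i (show (N : ℤ) ≠ 0 by omega)
      have h2 := Int.emod_lt_of_pos i (show (0 : ℤ) < N by omega)
      have h3 := Finset.single_le_sum (f := fun i : ℕ => M i) (fun _ _ => Nat.zero_le _)
        (Finset.mem_range.2 (show (i % N).toNat < N by omega))
      rw [Int.toNat_of_nonneg h1] at h3
      rw [← Int.emod_add_ediv_mul i N, per', per']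
      exact (hM _ n (h3.trans hn)).trans (hM _ _ h3).symm
    refine ⟨∑ i ∈ Finset.range N, M i, fun i j hj x hx =>
      lift i _ j (by omega) (by omega) x hx fun b hb h => ?_⟩
    refine orth i j (j - i).toNat (by omega) x hx b ?_
    rw [st _ _ (by omega)]
    exact P _ _ j (by omega) b hb h

end Pool.Agent.SP
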