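import Pool.Agent.Lib.MP_b4b3cb_nt.Par.Glob
import Pool.Agent.Lib.MP_b4b3cb_nt.Par.Tower

/-! The pairing is alternating; the abstract parity theorem. -/

namespace Pool.Agent.SP

open scoped Classical
open Module

variable {E k : Type} [NontriviallyNormedField E] [IsUltrametricDist E] [Field k] {G P : Type}
  [Group G] [TopologicalSpace G] {c : CF E k}

variable (E) in
/-- The integers. -/
def O1 : AddSubgroup E where
  carrier := {x | ‖x‖ ≤ 1}
  add_mem' := fun ha hb => (IsUltrametricDist.norm_add_le_max _ _).trans (max_le ha hb)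
  zero_mem' := by simp
  neg_mem' := fun ha => by simpa using ha

theorem mem_O1 {x : E} : x ∈ O1 E ↔ ‖x‖ ≤ 1 := Iff.rfl

theorem AK.rd_chi [CharP k 2] (A : AK G P c) (g : G) : c.Rd (A.χ g) 1 :=
  c.rd_one'.of_sub ((A.χ2 g).trans_lt c.two_lt)

omit [IsUltrametricDist E] in
theorem LD.dm_le [CharP k 2] {χ : G → E} (L : LD G c χ) {W W' : Type} [NormedAddCommGroup W]
    [NormedSpace E W] [NormedAddCommGroup W'] [NormedSpace E W'] {N : ℕ} {C : Ch c W N}
    {C' : Ch c W' N} {β : W →ₗ[E] W' →ₗ[E] E} {R : Rp E G W} {R' : Rp E G W'}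
    {Y : Submodule E (G → W)} {Y' : Submodule E (G → W')} (hP : Pa C C' β) (hS : C.Stab R)
    (hS' : C'.Stab R') (hY : Y ≤ R.Z1) (hY' : Y' ≤ R'.Z1)
    (h : ∀ t ∈ Y, ∀ t' ∈ Y', Cob χ (cupB β R' t t')) {i j : ℤ} (hij : i + j = -1) :
    C.dm Y i + C'.dm Y' j ≤ finrank k (Hm k G) := by
  have := L.fin
  have := orth_le L.form (fun x y => L.comm x.2 y.2)
    (fun x h => Subtype.ext (L.nondeg x x.2 fun b hb => h ⟨b, hb⟩))
    ((C.Wd Y i).comap (Hm k G).subtype) ((C'.Wd Y' j).comap (Hm k G).subtype)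
    fun x hx y hy => L.iso hP hS hS' hY hY' h hij hx hy
  rwa [(Submodule.comapSubtypeEquivOfLe (hS.W_le hY i)).finrank_eq,
    (Submodule.comapSubtypeEquivOfLe (hS'.W_le hY' j)).finrank_eq] at this

namespace SD

variable {A : AK G P c} {W : Type} [NormedAddCommGroup W] [NormedSpace E W] {n : ℕ} (X : SD A W n)
  [CharZero E] [CharP k 2]

/-- The quadratic section. -/
noncomputable def ss (r : ℤ) (u : W) : E := X.be u u / (2 * c.π ^ r)

omit [CharP k 2] in
theorem ss_add {r : ℤ} {u v : W} (hu : u ∈ X.C.T (r * n)) (hv : v ∈ X.C.T (r * n)) :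
    X.ss r (u + v) - X.ss r u - X.ss r v - X.om u v / (2 * c.π ^ r) ∈ O1 E := by
  convert mem_O1.2 (X.be_le r v u hv hu) using 1
  have := zpow_ne_zero r c.ne
  simp only [ss, X.om_eq, map_add, LinearMap.add_apply]
  field_simp
  ring

theorem ss_ac {r : ℤ} (g : G) {u : W} (hu : u ∈ X.C.T (r * n)) :
    X.ss r (X.R.ac g u) - A.χ g * X.ss r u ∈ O1 E := by
  have := zpow_ne_zero r c.ne
  rcases X.be_ac g u with h | h
  · rw [ss, ss, h, mul_div_assoc, sub_self]; exact zero_mem _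
  · convert neg_mem (mem_O1.2 ((A.rd_chi g).mul (c.rd_of (X.be_le r u u hu hu))).1) using 1
    rw [ss, ss, h]
    field_simp
    ring

/-- The cochain attached to the Heisenberg group. -/
noncomputable def heis (r : ℤ) (x : G → W) (g h : G) : E :=
  (X.om (x g) (X.R.ac g (x h)) - X.om (X.R.d2 x g h) (x (g * h))) / (2 * c.π ^ r) -
    X.ss r (X.R.d2 x g h)

variable [CompleteSpace E] [FiniteDimensional E W] [ContinuousMul G]

variable {X} in
theorem alt {i j r : ℤ} {x : G → W} {e : k} (hij : i < j) (hr : -j - 1 = i + r * (2 * n : ℕ))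
    (h : X.PV i j x (fun g => X.C.lam i (x g)) e) : e = 0 := by
  obtain ⟨x', t, S, w, hS, rfl⟩ := h
  have hy : (fun g => X.C.lam i (x g)) = fun g => X.C.lam i (x' g) := funext fun g =>
    X.C.lam_congr (w.lev.2.1 g) (by simpa using neg_mem (X.C.anti (by omega) (w.sub g)))
  simp only [fun g => congrFun hy g] at hS ⊢
  obtain ⟨κ, k0, k1⟩ := X.pa.lam (-j - 1) j (by omega)
  have z0 := zpow_ne_zero r c.ne
  have le : X.C.T j ≤ X.C.T (-r * n) := X.C.anti (by push_cast at hr; nlinarith)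
  have sc : ∀ {u}, u ∈ X.C.T i → c.π ^ r • u ∈ X.C.T (-j - 1) := fun hu =>
    hr ▸ (X.C.per_zpow r i _).2 hu
  have t0 := w.lev.2.2
  have t1 : ∀ g h, X.R.d2 x' g h ∈ X.C.T (-r * n) := fun g h => le (X.C.succ _ (t0 g h))
  have cs : ∀ {Z : Type} [TopologicalSpace Z] {a : Z → W}, Continuous a →
      Continuous fun z => X.ss (-r) (a z) := fun ha => (cont_bil X.be ha ha).div_const _
  refine fin_sum k0 (fun v => Hm.res (X.stab.hom w.lev (by omega)) _) w.hom hS (X.heis (-r) x')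
    ((((cont_bil X.om (w.lev.1.comp continuous_fst) (X.R.cont_ac continuous_fst
      (w.lev.1.comp continuous_snd))).sub (cont_bil X.om (X.R.d2_cont w.lev.1)
      (w.lev.1.comp continuous_mul))).div_const _).sub (cs (X.R.d2_cont w.lev.1)))
    (fun g h l => ?_) fun v => ?_
  · have e0 := X.R.dd x' g h l
    have a2 := X.ss_ac g (t1 h l)
    have a3 := X.ss_add (X.stab.mem g (t1 h l)) (t1 g (h * l))
    have a4 := X.ss_add (t1 g h) (t1 (g * h) l)
    have a7 := mem_O1.2 (X.pa.le (X.stab.mem g (t0 h l)) (sc (w.lev.2.1 g)) (by omega))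
    rw [e0, add_comm] at a3
    have e1 : x' (g * h) = x' g + X.R.ac g (x' h) - X.R.d2 x' g h := by rw [Rp.d2]; abel
    have e2 : X.R.ac g (x' (h * l)) =
        X.R.ac g (x' h) + X.R.ac (g * h) (x' l) - X.R.ac g (X.R.d2 x' h l) := by
      rw [Rp.d2, map_sub, map_add, X.R.mul]; abel
    have e3 : x' (g * h * l) = x' (g * h) + X.R.ac (g * h) (x' l) - X.R.d2 x' (g * h) l := by
      rw [Rp.d2]; abel
    have e4 : X.R.d2 x' g (h * l) =
        X.R.d2 x' (g * h) l + X.R.d2 x' g h - X.R.ac g (X.R.d2 x' h l) := by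
      rw [← e0]; abel
    have key : A.χ g * (X.om (x' h) (X.R.ac h (x' l)) - X.om (X.R.d2 x' h l) (x' (h * l))) -
        (X.om (x' (g * h)) (X.R.ac (g * h) (x' l)) - X.om (X.R.d2 x' (g * h) l) (x' (g * h * l))) +
        (X.om (x' g) (X.R.ac g (x' (h * l))) - X.om (X.R.d2 x' g (h * l)) (x' (g * (h * l)))) -
        (X.om (x' g) (X.R.ac g (x' h)) - X.om (X.R.d2 x' g h) (x' (g * h))) =
        2 * X.om (X.R.ac g (X.R.d2 x' h l)) (x' g) -
          X.om (X.R.ac g (X.R.d2 x' h l)) (X.R.d2 x' g (h * l)) +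
          X.om (X.R.d2 x' g h) (X.R.d2 x' (g * h) l) := by
      rw [mul_sub, ← X.equi g, ← X.equi g, ← X.R.mul, ← mul_assoc, e4, e3, e2, e1]
      simp only [X.om_eq, map_add, map_sub, LinearMap.add_apply, LinearMap.sub_apply]
      ring
    refine mem_O1.1 ?_
    convert sub_mem (add_mem (add_mem a7 a2) a3) a4 using 1
    simp only [heis, map_smul, smul_eq_mul, zpow_neg, div_eq_mul_inv, mul_inv, inv_inv]
    linear_combination (exp := 1) (c.π ^ r / 2) * key
  · obtain ⟨f, f1, f2⟩ := X.iso v (t v) (w.z v).1 (t v) (w.z v).1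
    have hz := X.coc v (w.z v).1
    have c1 := (X.lev_loc w.lev (w.z v).1 (w.loc v)).1
    refine ⟨fun g => f g / (2 * c.π ^ (-r)) - (X.ss (-r) (x' g - t v g) +
      X.om (x' g - t v g) (t v g) / (2 * c.π ^ (-r))),
      (f1.div_const _).sub ((cs c1).add ((cont_bil X.om c1 hz.1).div_const _)), fun g h => ?_⟩
    have e1 : t v (g * h) = t v g + X.R.ac g (t v h) := (X.R.res _).coc hz g h
    have e0 : X.R.d2 x' g h + (x' (g * h) - t v (g * h)) =
        x' g - t v g + X.R.ac g (x' h - t v h) := by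
      rw [Rp.d2, e1, map_sub]; abel
    have a2 := X.ss_ac g (le (w.loc v h))
    have a3 := X.ss_add (le (w.loc v g)) (X.stab.mem g (le (w.loc v h)))
    have a4 := X.ss_add (t1 g h) (le (w.loc v (g * h)))
    have a5 := k1 _ (sc ((w.z v).2 g)) _ (X.stab.mem g (w.loc v h))
    rw [X.stab.lam g (w.loc v h), hr, X.C.lam_zpow r ((w.z v).2 g),
      ← X.C.lam_congr ((w.z v).2 g) (X.C.anti (by omega) (w.loc v g))] at a5
    rw [Subgroup.coe_mul, e0] at a4
    have key : X.om (x' g) (X.R.ac g (x' h)) - X.om (X.R.d2 x' g h) (x' (g * h)) -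
        dq (fun g : A.D v => A.χ g) f g h + (X.om (x' g - t v g) (t v g) +
          A.χ g * X.om (x' h - t v h) (t v h) - X.om (x' (g * h) - t v (g * h)) (t v (g * h))) =
        2 * X.om (t v g) (X.R.ac g (x' h - t v h)) +
          X.om (x' g - t v g) (X.R.ac g (x' h - t v h)) -
          X.om (X.R.d2 x' g h) (x' (g * h) - t v (g * h)) := by
      rw [← f2 g h, ← X.equi g, Rp.d2, e1]
      change _ - X.om (t v g) (X.R.ac g (t v h)) + _ = _
      simp only [X.om_eq, map_add, map_sub, LinearMap.add_apply, LinearMap.sub_apply]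
      ring
    refine (a5.add (c.rd_pi (mem_O1.1 (sub_mem (sub_mem a4 a2) a3)))).congr ?_ (add_zero _)
    simp only [heis, dq, map_smul, smul_eq_mul, zpow_neg, LinearMap.smul_apply,
      Subgroup.coe_mul, div_eq_mul_inv, mul_inv, inv_inv] at key ⊢
    linear_combination (exp := 1) (-c.π * c.π ^ r / 2) * key

/-- The global Selmer cocycles. -/
def Yg : Submodule E (G → W) :=
  X.R.Z1 ⊓ ⨅ v, (X.Y v).comap (LinearMap.funLeft E W Subtype.val)

omit [IsUltrametricDist E] [CharZero E] [CharP k 2] [CompleteSpace E] [FiniteDimensional E W]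
  [ContinuousMul G] in
theorem mem_Yg {x : G → W} : x ∈ X.Yg ↔ x ∈ X.R.Z1 ∧ ∀ v, (fun g : A.D v => x g) ∈ X.Y v := by
  rw [Yg, Submodule.mem_inf, Submodule.mem_iInf]
  rfl

variable [Finite k]

omit [CharZero E] [CharP k 2] [ContinuousMul G] in
theorem fdY (v : P) : FiniteDimensional E (X.Y v) :=
  have := A.cpt v
  have := (A.ld v).fin
  X.C.fd (Ch.bd_of (X.coc v)) _ (X.W_le v)

theorem core [CompactSpace G] : FiniteDimensional E X.Yg ∧ ∃ z : ℤ,
    2 * (finrank E X.Yg : ℤ) + 4 * z = ∑ v ∈ X.S₀,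
      (2 * (∑ i ∈ Finset.range n, X.C.dm (X.Y v) i : ℕ) - n * (finrank k (Hm k (A.D v)) : ℤ)) := by
  have hom : ∀ {i y}, y ∈ X.SS i 1 → y ∈ Hm k G := fun h => ((X.ss_one _ _).1 h).1
  obtain ⟨par, M, hM⟩ := tower X.C.pos (X.C.Z ⊤) X.Sl (fun i x g => X.C.lam i (x g)) X.SS X.pr
    (fun r x => c.sc r • x) (fun _ _ _ => Iff.rfl)
    (fun i x hx y hy => funext fun g => X.C.lam_add (hx.2 g) (hy.2 g))
    (fun i x hx => ⟨fun h => ⟨trivial, fun g => (X.C.lam_zero (hx.2 g)).1 (congrFun h g)⟩,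
      fun h => funext fun g => X.C.lam_of (h.2 g)⟩)
    (fun i r x hx => funext fun g => by
      rw [Pi.smul_apply, Pi.smul_apply, X.C.lam_smul (c.sc_le r) (hx.2 g), c.rd_sc, smul_eq_mul])
    (fun i j h => X.C.Z_anti h) (fun i j x hx => ⟨trivial, hx.1.2.1⟩)
    (fun i i' j j' h h' => sl_mono h h') (fun i i' j h x hx hx' => sl_up h hx hx'.2)
    (fun i j r x hx => sl_smul hx (c.sc_le r)) X.ss_per X.ss_fin
    (fun i j h x hx x' hx' y hy => ((pv_pr h hx y).add (hom hy) (pv_pr h hx' y)).eq hy)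
    (fun i j h r x hx y hy => ((pv_pr h hx y).smul (hom hy) r).eq hy)
    (fun i j h x hx => by
      obtain ⟨x', t, S, -, w, -, h0⟩ := wt_ex h hx
      refine ⟨fun y hy y' hy' => ?_, fun r y hy => ?_⟩
      · rw [(w.pv h0 _).eq hy, (w.pv h0 _).eq hy', (w.pv h0 _).eq (add_mem hy hy'),
          ← Finset.sum_add_distrib]
        exact Finset.sum_congr rfl fun v _ =>
          (A.ld v).add_left (Hm.res (hom hy) _) (Hm.res (hom hy') _) (w.hom v)
      · rw [(w.pv h0 _).eq hy, (w.pv h0 _).eq (Submodule.smul_mem _ r hy), Finset.mul_sum]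
        exact Finset.sum_congr rfl fun v _ =>
          (A.ld v).smul_left r (Hm.res (hom hy) _) (w.hom v))
    (fun i i' j h' h x hx y hy => ((pv_pr h hx y).nat h').eq hy)
    (fun i j h x hx => ⟨fun e => by
      obtain ⟨x', a, b⟩ := ker h hx fun y hy => e y hy ▸ pv_pr h hx y
      exact ⟨x', a, trivial, b⟩, fun ⟨x', a, b⟩ y hy => (pv_zero a b.2).eq hy⟩)
    (fun i j m hj x hx y hy => orth hj hy (pv_pr (by omega) hx y))
    (fun i j r h hr x hx => alt h hr (pv_pr h.le hx _))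
  have hc : CompleteSpace W := FiniteDimensional.complete E W
  have le : X.Yg ≤ X.R.Z1 := inf_le_left
  have eq : ∀ i, X.SS i (M + 1) = X.C.Wd X.Yg i := fun i => by
    refine le_antisymm ?_ ?_
    · rintro _ ⟨x, hx, rfl⟩
      obtain ⟨y, y1, y2, y3⟩ := X.C.lim_of (fun j x => x ∈ X.Sl i j) (i + (M + 1 : ℕ)) M
        (fun _ _ h => h.1.1) (fun j hj x hx => (hM i j (by omega) x hx).imp fun _ h => ⟨h.1, h.2.2⟩)
        hx
      rw [show i + ((M + 1 : ℕ) : ℤ) - M = i + 1 by omega] at y2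
      have y4 : ∀ g, y g ∈ X.C.T i := fun g => X.C.of_sub (hx.1.2.1 g) (X.C.succ _ (y2 g))
      refine ⟨y, ⟨X.mem_Yg.2 ⟨⟨y1, fun g h => X.C.sep fun j => ?_⟩, fun v => ?_⟩, y4⟩,
        funext fun g => (X.C.lam_congr (hx.1.2.1 g) (y2 g)).symm⟩
      · obtain ⟨j', x', h1, h2, h3⟩ := y3 j
        refine X.C.of_sub (X.C.anti h1 (h2.1.2.2 g h)) ?_
        rw [← X.R.d2_sub]
        exact (X.stab.lam_d2 h3 g h).1
      · have := X.fdY v
        have := A.cpt v
        refine X.C.cls (Ch.bd_of (X.coc v)) ⟨i, fun g => y4 g⟩ fun j => ?_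
        obtain ⟨j', x', h1, h2, h3⟩ := y3 j
        obtain ⟨t, t1, t2⟩ := h2.2 v
        exact ⟨t, t1.1, fun g => by simpa using add_mem (h3 g) (X.C.anti h1 (t2 g))⟩
    · rintro _ ⟨t, ht, rfl⟩
      exact ⟨t, ⟨Ch.lev_of le ht _, fun v => ⟨_, ⟨(X.mem_Yg.1 ht.1).2 v, fun g => ht.2 g⟩,
        fun g => by simp⟩⟩, rfl⟩
  have := A.finS X.S₀
  have fd : FiniteDimensional E X.Yg := X.C.fd (Ch.bd_of le) (Un k A.I X.S₀) fun i y hy => by
    rw [← eq] at hy
    obtain ⟨x, hx, rfl⟩ := hy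
    exact ((X.ss_un i le_rfl _).1 ⟨x, sl_mono le_rfl (by omega) hx, rfl⟩).1
  obtain ⟨a, ha⟩ := par M
  rw [show ∑ i ∈ Finset.range (2 * n), finrank k (X.SS i (M + 1)) = finrank E X.Yg from
    (Finset.sum_congr rfl fun i _ => by rw [eq]; rfl).trans (X.C.sum_dm (Ch.bd_of le)),
    per_half (fun i => finrank k (X.SS i 1)) fun i => by rw [X.ss_per]] at ha
  have gw := Finset.sum_congr (rfl : Finset.range n = _) fun (i : ℕ) _ =>
    X.gw (i := i) (j := -i - 1) (by omega)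
  rw [Finset.sum_comm, ← Finset.mul_sum, Finset.sum_sub_distrib] at gw
  have lo : ∀ v, ∑ i ∈ Finset.range n, ((X.C.dm (X.Y v) i : ℤ) - X.C.dm (X.Y v) (-i - 1)) =
      2 * (∑ i ∈ Finset.range n, X.C.dm (X.Y v) i : ℕ) - n * (finrank k (Hm k (A.D v)) : ℤ) := by
    intro v
    have := (A.ld v).fin
    have e : ∀ i : ℤ, X.C.dm (X.Y v) i + X.C.dm (X.Y v) (-i - 1) = finrank k (Hm k (A.D v)) :=
      fun i => le_antisymm ((A.ld v).dm_le X.pa (X.stab.res _) (X.stab.res _) (X.coc v) (X.coc v)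
        (X.iso v) (by omega)) (X.big v _ _ (by omega))
    rw [Finset.sum_congr rfl fun (i : ℕ) _ => show _ = 2 * (X.C.dm (X.Y v) i : ℤ) -
      finrank k (Hm k (A.D v)) by have := e i; omega]
    simp [Finset.mul_sum]
  rw [Finset.sum_congr rfl fun v _ => lo v, ← Nat.cast_sum, ← Nat.cast_sum] at gw
  exact ⟨fd, (∑ i ∈ Finset.range n, finrank k (X.SS i 1) : ℕ) - a, by omega⟩

end SD

end Pool.Agent.SP
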