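import Pool.Agent.Lib.MP_b4b3cb_nt.Par.Eul
import Pool.Agent.Lib.MP_b4b3cb_nt.Par.Core

/-! The local second cohomology of `E(1)` and orthogonal complements of local conditions. -/

namespace Pool.Agent.SP

open scoped Classical
open Module

variable {E k : Type} [NontriviallyNormedField E] [IsUltrametricDist E] [Field k] {G : Type}
  [Group G] [TopologicalSpace G]

/-- The chain of fractional ideals. -/
noncomputable def CF.ch (c : CF E k) : Ch c E 1 where
  T i := (O1 E).comap (sml (c.π ^ (-i)))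
  lam i x := c.rd (c.π ^ (-i) * x)
  pos := one_pos
  succ i x hx := by
    have := (c.rd_pi hx).1
    rwa [sml_apply, smul_eq_mul, ← mul_assoc, ← zpow_one_add₀ c.ne,
      show 1 + -(i + 1) = -i by ring] at this
  per i x := by
    change ‖_ * (_ * x)‖ ≤ 1 ↔ ‖_ * x‖ ≤ 1
    rw [← mul_assoc, ← zpow_add_one₀ c.ne, show -(i + (1 : ℕ)) + 1 = -i by simp]
  smul {i a x} ha hx := by
    change ‖_ * (a * x)‖ ≤ 1
    rw [mul_left_comm]
    exact ((c.rd_of ha).mul (c.rd_of hx)).1
  lam_add hx hy := by rw [mul_add]; exact c.rd_add _ _ hx hy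
  lam_smul ha hx := by rw [smul_eq_mul, mul_left_comm]; exact c.rd_mul _ _ ha hx
  lam_zero {i x} hx := by
    have e : c.π ^ (-i) * x = c.π * (c.π ^ (-(i + 1)) * x) := by
      rw [← mul_assoc, ← zpow_one_add₀ c.ne, show 1 + -(i + 1) = -i by ring]
    refine (c.rd_zero (c.π ^ (-i) * x) hx).trans ?_
    rw [e]
    exact ⟨CF.le_one, fun h => (c.rd_pi h).lt⟩
  ex i := by
    have e : c.π ^ (-i) * c.π ^ i = 1 := by rw [← zpow_add₀ c.ne, neg_add_cancel, zpow_zero]
    refine ⟨c.π ^ i, ?_, by rw [e, c.rd_one]⟩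
    change ‖c.π ^ (-i) * c.π ^ i‖ ≤ 1
    rw [e, norm_one]
  lam_per {i x} _ := by
    rw [smul_eq_mul, ← mul_assoc, ← zpow_add_one₀ c.ne, show -(i + (1 : ℕ)) + 1 = -i by simp]
  isOpen i := by
    have : IsOpen (O1 E : Set E) := by
      convert IsUltrametricDist.isOpen_closedBall (0 : E) one_ne_zero
      ext x
      simp [mem_O1]
    exact this.preimage (continuous_const_smul _)
  bdd := ⟨1, fun u hu => by simpa [mem_O1, sml_apply] using hu⟩

/-- Continuous 2-cocycles with values in `E(χ)`. -/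
def Z2 (χ : G → E) (b : G → G → E) : Prop :=
  (Continuous fun p : G × G => b p.1 p.2) ∧
    ∀ g h l, χ g * b h l - b (g * h) l + b g (h * l) - b g h = 0

/-- The space of coboundaries. -/
def B2 (χ : G → E) : Submodule E (G → G → E) where
  carrier := {b | Cob χ b}
  add_mem' := fun ⟨f, f1, f2⟩ ⟨f', f3, f4⟩ => ⟨f + f', f1.add f3, fun g h => by
    simp only [Pi.add_apply, f2, f4, dq]; ring⟩
  zero_mem' := ⟨0, continuous_const, by simp [dq]⟩
  smul_mem' := fun a _ ⟨f, f1, f2⟩ => ⟨a • f, f1.const_smul a, fun g h => by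
    simp only [Pi.smul_apply, f2, dq, smul_eq_mul]; ring⟩

variable {c : CF E k} [CompleteSpace E] [ContinuousMul G] [CompactSpace G] {χ : G →* E}

theorem LD.h2 (L : LD G c χ) (hχ : Continuous χ) (h1 : ∀ g, c.Rd (χ g) 1) :
    ∃ K : Dual E (G → G → E), (∀ b, Cob χ b → K b = 0) ∧ ∀ b, Z2 χ b → K b = 0 → Cob χ b := by
  have cz : ∀ {b}, Z2 χ b → (∀ g h, ‖b g h‖ ≤ 1) → Cz fun g h => c.rd (b g h) := fun {b} hb h =>
    ⟨CF.lc_rd hb.1 fun p => h p.1 p.2, fun g a l => by
      have := ((((h1 g).mul (c.rd_of (h a l))).sub (c.rd_of (h (g * a) l))).add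
        (c.rd_of (h g (a * l)))).sub (c.rd_of (h g a))
      rw [hb.2] at this
      linear_combination this.uniq c.rd_zero'⟩
  have cd : ∀ {f : G → E}, Continuous f → Continuous fun p : G × G => dq χ f p.1 p.2 := fun hf =>
    ((hf.comp continuous_fst).add ((hχ.comp continuous_fst).mul (hf.comp continuous_snd))).sub
      (hf.comp continuous_mul)
  obtain ⟨z, z1, z2, z3⟩ : ∃ z, Z2 χ z ∧ (∀ g h, ‖z g h‖ ≤ 1) ∧ ∀ b, Z2 χ b → (∀ g h, ‖b g h‖ ≤ 1) →
      ∃ a, L.inv (fun g h => c.rd (b g h)) = a * L.inv fun g h => c.rd (z g h) := by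
    by_cases h : ∃ z, Z2 χ z ∧ (∀ g h, ‖z g h‖ ≤ 1) ∧ L.inv (fun g h => c.rd (z g h)) ≠ 0
    · obtain ⟨z, a, b, d⟩ := h
      exact ⟨z, a, b, fun _ _ _ => ⟨_, (div_mul_cancel₀ _ d).symm⟩⟩
    · exact ⟨0, ⟨continuous_const, by simp⟩, by simp, fun b h1 h2 =>
        ⟨0, by rw [zero_mul]; exact not_not.1 fun h0 => h ⟨b, h1, h2, h0⟩⟩⟩
  have main : ∀ b, Z2 χ b → ∃ a : E, Cob χ (b - a • z) := fun b hb => by
    obtain ⟨i, hi⟩ := c.ch.exh_cont hb.1
    obtain ⟨y, y1, -, y3⟩ := c.ch.lim_of (X := G ⊕ Unit) (fun j x => Continuous x ∧ ∀ g h,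
      b g h - x (.inr ()) * z g h - dq χ (fun g => x (.inl g)) g h ∈ c.ch.T j) i 0
      (fun _ _ h => h.1) (fun j _ x hx => by
        have hb' : Z2 χ fun g h => c.π ^ (-j) *
            (b g h - x (.inr ()) * z g h - dq χ (fun g => x (.inl g)) g h) :=
          ⟨continuous_const.mul ((hb.1.sub (continuous_const.mul z1.1)).sub
            (cd (hx.1.comp continuous_inl))), fun g h l => by
            simp only [dq, map_mul, mul_assoc]
            linear_combination c.π ^ (-j) * hb.2 g h l - c.π ^ (-j) * x (.inr ()) * z1.2 g h l⟩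
        obtain ⟨a, ha⟩ := z3 _ hb' hx.2
        have h2 := L.add (cz hb' hx.2) ((cz z1 z2).smul (-a))
        rw [L.smul _ (cz z1 z2), ha, neg_mul, add_neg_cancel,
          L.zero ((cz hb' hx.2).add ((cz z1 z2).smul (-a)))] at h2
        obtain ⟨f, f1, f2⟩ := h2
        have p : c.π ^ (-j) * c.π ^ j = 1 := by rw [← zpow_add₀ c.ne, neg_add_cancel, zpow_zero]
        refine ⟨x + Sum.elim (fun g => c.π ^ j * c.sc (f g)) fun _ => c.π ^ j * c.sc a,
          ⟨hx.1.add (Continuous.sumElim (f1.comp fun r => c.π ^ j * c.sc r).continuous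
            continuous_const), fun g h => ?_⟩, fun g => ?_⟩
        · have h3 := ((c.rd_of (hx.2 g h)).sub ((c.rd_sc' a).mul (c.rd_of (z2 g h)))).sub
            (((c.rd_sc' (f g)).add ((h1 g).mul (c.rd_sc' (f h)))).sub (c.rd_sc' (f (g * h))))
          refine CF.Rd.le_one (c := c) (h3.congr ?_ ?_)
          · simp only [sml_apply, smul_eq_mul, dq, Pi.add_apply, Sum.elim_inl, Sum.elim_inr]
            rw [← mul_assoc c.π, ← zpow_one_add₀ c.ne, show 1 + -(j + 1) = -j by ring]
            linear_combination (c.sc a * z g h + c.sc (f g) + χ g * c.sc (f h) -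
              c.sc (f (g * h))) * p
          · have := f2 g h
            simp only [Pi.add_apply, Pi.smul_apply, smul_eq_mul] at this
            simp only [sml_apply, smul_eq_mul]
            linear_combination this
        · rw [Pi.add_apply, add_sub_cancel_left, sub_zero]
          change ‖c.π ^ (-j) * _‖ ≤ 1
          rcases g with g | g
          · rw [Sum.elim_inl, ← mul_assoc, p, one_mul]; exact c.sc_le _
          · rw [Sum.elim_inr, ← mul_assoc, p, one_mul]; exact c.sc_le _)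
      (x := 0) ⟨continuous_const, fun g h => by simpa [dq] using hi (g, h)⟩
    refine ⟨y (.inr ()), fun g => y (.inl g), y1.comp continuous_inl, fun g h =>
      sub_eq_zero.1 (c.ch.sep fun j => ?_)⟩
    obtain ⟨j', x', a1, a2, a3⟩ := y3 j
    convert sub_mem (sub_mem (c.ch.anti a1 (a2.2 g h)) (c.ch.smul (z2 g h) (a3 (.inr ()))))
      (sub_mem (add_mem (a3 (.inl g)) (c.ch.smul (h1 g).1 (a3 (.inl h)))) (a3 (.inl (g * h))))
      using 1
    simp only [dq, Pi.sub_apply, Pi.smul_apply, smul_eq_mul]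
    ring
  by_cases hz : z ∈ B2 χ
  · refine ⟨0, fun _ _ => rfl, fun b hb _ => ?_⟩
    obtain ⟨a, ha⟩ := main b hb
    have := add_mem (show _ ∈ B2 χ from ha) (Submodule.smul_mem _ a hz)
    rwa [sub_add_cancel] at this
  · obtain ⟨K, k1, k2⟩ := (B2 χ).exists_dual_map_eq_bot_of_notMem hz inferInstance
    have k3 : ∀ b, Cob χ b → K b = 0 := fun b hb =>
      (Submodule.mem_bot E).1 (k2 ▸ Submodule.mem_map_of_mem hb)
    refine ⟨K, k3, fun b hb h0 => ?_⟩
    obtain ⟨a, ha⟩ := main b hb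
    have := k3 _ ha
    rw [map_sub, h0, map_smul, zero_sub, neg_eq_zero, smul_eq_mul, mul_eq_zero] at this
    rwa [this.resolve_right k1, zero_smul, sub_zero] at ha

variable {W W' : Type} [NormedAddCommGroup W] [NormedSpace E W] [NormedAddCommGroup W']
  [NormedSpace E W'] [FiniteDimensional E W] [FiniteDimensional E W']
  (β : W →ₗ[E] W' →ₗ[E] E) (R : Rp E G W) (R' : Rp E G W')

/-- The cup product as a bilinear map. -/
def cupL : (G → W) →ₗ[E] (G → W') →ₗ[E] (G → G → E) :=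
  LinearMap.mk₂ E (cupB β R') (fun a b t => by ext g h; simp [cupB])
    (fun a b t => by ext g h; simp [cupB]) (fun a b t => by ext g h; simp [cupB])
    fun a b t => by ext g h; simp [cupB]

/-- The orthogonal complement of a local condition. -/
def perp (χ : G → E) (Y : Submodule E (G → W)) : Submodule E (G → W') :=
  R'.Z1 ⊓ ⨅ t : Y, (B2 χ).comap (cupL β R' t)

variable {β R R'}

omit [IsUltrametricDist E] [CompleteSpace E] [ContinuousMul G] [CompactSpace G]
  [FiniteDimensional E W] [FiniteDimensional E W'] in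
theorem mem_perp {χ : G → E} {Y : Submodule E (G → W)} {x : G → W'} :
    x ∈ perp β R' χ Y ↔ x ∈ R'.Z1 ∧ ∀ t ∈ Y, Cob χ (cupB β R' t x) := by
  rw [perp, Submodule.mem_inf, Submodule.mem_iInf, Subtype.forall]
  rfl

omit [IsUltrametricDist E] [ContinuousMul G] [CompactSpace G] in
theorem cob_left {χ : G → E} (hE : Equi χ R R' β) (u : W) {x : G → W'} (hx : x ∈ R'.Z1) :
    Cob χ (cupB β R' (R.d1 u) x) :=
  ⟨fun g => β u (x g), cont_bil β continuous_const hx.1, fun g h => by
    simp only [cupB, dq, R.d1_apply, R'.coc hx, map_sub, map_add, LinearMap.sub_apply, hE g]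
    ring⟩

omit [IsUltrametricDist E] [ContinuousMul G] [CompactSpace G] in
theorem cob_right {χ : G → E} (hE : Equi χ R R' β) {x : G → W} (hx : x ∈ R.Z1) (u : W') :
    Cob χ (cupB β R' x (R'.d1 u)) :=
  ⟨fun g => -β (x g) (R'.ac g u), (cont_bil β hx.1 (R'.cont_ac continuous_id continuous_const)).neg,
    fun g h => by
    simp only [cupB, dq, R'.d1_apply, R.coc hx, map_sub, map_add, LinearMap.add_apply, R'.mul, hE g]
    ring⟩

omit [IsUltrametricDist E] [ContinuousMul G] [CompactSpace G] in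
theorem z2_cup {χ : G → E} (hE : Equi χ R R' β) {x : G → W} {y : G → W'} (hx : x ∈ R.Z1)
    (hy : y ∈ R'.Z1) : Z2 χ (cupB β R' x y) :=
  ⟨cont_bil β (hx.1.comp continuous_fst) (R'.cont_ac continuous_fst (hy.1.comp continuous_snd)),
    fun g h l => by
    simp only [cupB, R.coc hx, R'.coc hy, map_add, LinearMap.add_apply, R'.mul, hE g]
    ring⟩

theorem LD.rank_perp [Finite k] (L : LD G c χ) (hχ : Continuous χ) (h1 : ∀ g, c.Rd (χ g) 1)
    {N : ℕ} {C : Ch c W N} {C' : Ch c W' N} (hS : C.Stab R) (hS' : C'.Stab R')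
    (hE : Equi χ R R' β) {Y : Submodule E (G → W)} (hY : Y ≤ R.Z1) (hB : R.B1 ≤ Y)
    (hN : finrank E R.B1 = N) :
    N * finrank k (Hm k G) ≤ finrank E Y + finrank E (perp β R' χ Y) := by
  obtain ⟨K, k1, k2⟩ := L.h2 hχ h1
  have := L.fin
  have : FiniteDimensional E R'.Z1 := C'.fd (Ch.bd_of le_rfl) _ (hS'.W_le le_rfl)
  have : FiniteDimensional E Y := C.fd (Ch.bd_of hY) _ (hS.W_le hY)
  let Φ : R'.Z1 →ₗ[E] Dual E Y :=
    (((cupL β R').compr₂ K).domRestrict₁₂ Y R'.Z1).flip
  have r1 := LinearMap.finrank_range_add_finrank_ker Φ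
  have r2 : LinearMap.ker Φ ≤ (perp β R' χ Y).comap R'.Z1.subtype := fun x hx =>
    mem_perp.2 ⟨x.2, fun t ht => k2 _ (z2_cup hE (hY ht) x.2) (LinearMap.congr_fun hx ⟨t, ht⟩)⟩
  have r3 : LinearMap.range Φ ≤ (R.B1.comap Y.subtype).dualAnnihilator := by
    rintro _ ⟨x, rfl⟩
    rw [Submodule.mem_dualAnnihilator]
    rintro ⟨t, ht⟩ ⟨u, rfl⟩
    exact k1 _ (cob_left hE u x.2)
  have r4 := Subspace.finrank_add_finrank_dualAnnihilator_eq (R.B1.comap Y.subtype)
  have r5 := Submodule.finrank_mono r2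
  have r6 := Submodule.finrank_mono r3
  rw [(Submodule.comapSubtypeEquivOfLe hB).finrank_eq] at r4
  rw [(Submodule.comapSubtypeEquivOfLe (show perp β R' χ Y ≤ R'.Z1 from inf_le_left)).finrank_eq]
    at r5
  have r7 := L.rank_Z1 hS'
  omega

end Pool.Agent.SP
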