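import Pool.Agent.Lib.MP_b4b3cb_nt.Par.LocA
import Pool.Agent.Lib.MP_b4b3cb_nt.DefsG

/-! From coefficients in the field with two elements to a finite field of characteristic two. -/

namespace Pool.Agent.SP

open scoped Classical
open Module

variable {G : Type} [Group G] [TopologicalSpace G]

section Sub

variable {D : Subgroup G}

omit [TopologicalSpace G] in
theorem ext1 {Y : Type} [Zero Y] (f : D → Y) : ∃ F : G → Y, f = fun g : D => F g :=
  ⟨fun g => if h : g ∈ D then f ⟨g, h⟩ else 0, funext fun g => by simp⟩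

omit [TopologicalSpace G] in
theorem ext2 {Y : Type} [Zero Y] (f : D → D → Y) : ∃ F : G → G → Y, f = fun g h : D => F g h := by
  choose F hF using fun g => ext1 (f g)
  obtain ⟨F', rfl⟩ := ext1 F
  exact ⟨F', funext hF⟩

theorem lc_iff {f : G → ZMod 2} : (IsLocallyConstant fun g : D => f g) ↔ ContinuousOn f D := by
  rw [IsLocallyConstant.iff_continuous, continuousOn_iff_continuous_domRestrict]
  rfl

theorem hom_iff {f : G → ZMod 2} : (fun g : D => f g) ∈ Hm (ZMod 2) D ↔ SC.Hom D f :=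
  and_congr lc_iff ⟨fun h a ha b hb => h ⟨a, ha⟩ ⟨b, hb⟩, fun h a b => h a a.2 b b.2⟩

theorem sz_iff {ε : G → G → ZMod 2} : (Sz fun g h : D => ε g h) ↔ SC.Sz D ε := by
  constructor
  · rintro ⟨f, f1, f2⟩
    obtain ⟨f, rfl⟩ := ext1 f
    exact ⟨f, lc_iff.1 f1, fun g hg h hh => (f2 ⟨g, hg⟩ ⟨h, hh⟩).trans (CharTwo.sub_eq_add _ _)⟩
  · rintro ⟨f, f1, f2⟩
    exact ⟨_, lc_iff.2 f1, fun g h => (f2 g g.2 h h.2).trans (CharTwo.sub_eq_add _ _).symm⟩

theorem cz_iff {ε : G → G → ZMod 2} : (Cz fun g h : D => ε g h) ↔ SC.Cz D ε := by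
  refine and_congr ?_ ⟨fun h a ha b hb d hd => h ⟨a, ha⟩ ⟨b, hb⟩ ⟨d, hd⟩,
    fun h a b d => h a a.2 b b.2 d d.2⟩
  rw [IsLocallyConstant.iff_continuous, continuousOn_iff_continuous_domRestrict]
  exact (Homeomorph.Set.prod (D : Set G) (D : Set G)).comp_continuous_iff'.symm

theorem hom_top {f : G → ZMod 2} : f ∈ Hm (ZMod 2) G ↔ SC.Hom ⊤ f :=
  and_congr (by rw [IsLocallyConstant.iff_continuous, Subgroup.coe_top, continuousOn_univ])
    ⟨fun h a _ b _ => h a b, fun h a b => h a trivial b trivial⟩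

theorem cz_top {ε : G → G → ZMod 2} (h : Cz ε) : SC.Cz ⊤ ε :=
  ⟨h.1.continuous.continuousOn, fun a _ b _ d _ => h.2 a b d⟩

theorem sz_top {ε : G → G → ZMod 2} (h : SC.Sz ⊤ ε) : Sz ε := by
  obtain ⟨f, f1, f2⟩ := h
  exact ⟨f, (IsLocallyConstant.iff_continuous _).2 (continuousOn_univ.1 f1), fun g h =>
    (f2 g trivial h trivial).trans (CharTwo.sub_eq_add _ _).symm⟩

end Sub

theorem Sz.add {k : Type} [Field k] {ε ε' : G → G → k} (h : Sz ε) (h' : Sz ε') : Sz (ε + ε') := by
  obtain ⟨f, f1, f2⟩ := h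
  obtain ⟨f', f3, f4⟩ := h'
  exact ⟨f + f', f1.add f3, fun g h => by simp only [Pi.add_apply, f2, f4]; ring⟩

/-- The invariant with values in the field with two elements. -/
noncomputable def i2 (ε : G → G → ZMod 2) : ZMod 2 := if Sz ε then 0 else 1

variable (G) in
/-- There is at most one nontrivial class. -/
def Two : Prop := ∀ ε ε' : G → G → ZMod 2, Cz ε → Cz ε' → Sz ε ∨ Sz ε' ∨ Sz (ε + ε')

theorem i2_zero {ε : G → G → ZMod 2} : i2 ε = 0 ↔ Sz ε := by
  unfold i2
  split_ifs with h <;> simp [h]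

theorem i2_add (H : Two G) {ε ε' : G → G → ZMod 2} (h : Cz ε) (h' : Cz ε') :
    i2 (ε + ε') = i2 ε + i2 ε' := by
  have e : ∀ a b : G → G → ZMod 2, a + (a + b) = b := fun a b => by
    ext g h
    simp only [Pi.add_apply, CharTwo.add_cancel_left]
  unfold i2
  by_cases a : Sz ε <;> by_cases b : Sz ε'
  · simp [a, b, a.add b]
  · simp [a, b, show ¬ Sz (ε + ε') from fun d => b (e ε ε' ▸ a.add d)]
  · simp [a, b, show ¬ Sz (ε + ε') from fun d => a (e ε' ε ▸ b.add (add_comm ε ε' ▸ d))]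
  · rw [if_neg a, if_neg b, if_pos (((H _ _ h h').resolve_left a).resolve_left b)]
    decide

variable {k : Type} [Field k] [Finite k] [Algebra (ZMod 2) k]

/-- The coordinates. -/
noncomputable def cd (i : Fin (finrank (ZMod 2) k)) : Dual (ZMod 2) k :=
  (finBasis (ZMod 2) k).coord i

theorem cd_ext {x y : k} (h : ∀ i, cd i x = cd i y) : x = y := (finBasis (ZMod 2) k).ext_elem h

theorem glue {X : Type} [TopologicalSpace X] (f : Fin (finrank (ZMod 2) k) → X → ZMod 2)
    (h : ∀ i, IsLocallyConstant (f i)) :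
    ∃ F : X → k, IsLocallyConstant F ∧ ∀ i g, cd i (F g) = f i g :=
  ⟨fun g => (finBasis (ZMod 2) k).equivFun.symm fun i => f i g,
    ((IsLocallyConstant.iff_continuous _).2 (continuous_pi fun i => (h i).continuous)).comp _,
    fun i g => by simp [cd, Finsupp.single_apply]⟩

omit [Finite k] in
theorem Hm.map {a : G → k} (h : a ∈ Hm k G) (l : Dual (ZMod 2) k) :
    (fun g => l (a g)) ∈ Hm (ZMod 2) G := ⟨h.1.comp l, fun g h' => by
  simp only [h.2, map_add]⟩

omit [Finite k] in
theorem Hm.up {a : G → ZMod 2} (h : a ∈ Hm (ZMod 2) G) :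
    (fun g => algebraMap (ZMod 2) k (a g)) ∈ Hm k G :=
  ⟨h.1.comp _, fun g h' => by simp only [h.2, map_add]⟩

omit [Finite k] in
theorem Cz.map {ε : G → G → k} (h : Cz ε) (l : Dual (ZMod 2) k) : Cz fun g h => l (ε g h) :=
  ⟨h.1.comp l, fun a b d => by rw [← map_add, h.2, map_add]⟩

omit [Finite k] in
theorem Sz.map {ε : G → G → k} (h : Sz ε) (l : Dual (ZMod 2) k) : Sz fun g h => l (ε g h) := by
  obtain ⟨f, f1, f2⟩ := h
  exact ⟨_, f1.comp l, fun g h => by simp only [f2, map_sub, map_add]; rfl⟩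

theorem sz_cd {ε : G → G → k} (h : ∀ i, Sz fun g h => cd i (ε g h)) : Sz ε := by
  choose f f1 f2 using h
  obtain ⟨F, a, b⟩ := glue f f1
  exact ⟨F, a, fun g h => cd_ext fun i => by rw [map_sub, map_add, b, b, b, ← f2]⟩

theorem gen_cd {X : Type} [Group X] [TopologicalSpace X] {s : Set X}
    (h : ∀ f ∈ Hm (ZMod 2) X, (∀ g ∈ s, f g = 0) → f = 0) (e : X →* G) (he : Continuous e)
    (sj : Function.Surjective e) {f : G → k} (hf : f ∈ Hm k G) (h0 : ∀ g ∈ s, f (e g) = 0) :
    f = 0 := funext fun g => cd_ext fun i => by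
  obtain ⟨x, rfl⟩ := sj g
  exact (congrFun (h _ (Hm.map (Hm.comp hf e he) (cd i)) fun g hg => by
    simp only [h0 g hg, map_zero]) x).trans (map_zero _).symm

/-- The invariant. -/
noncomputable def invK (ε : G → G → k) : k :=
  (finBasis (ZMod 2) k).equivFun.symm fun i => i2 fun g h => cd i (ε g h)

theorem invK_spec (H : Two G) {ε : G → G → k} (h : Cz ε) (l : Dual (ZMod 2) k) :
    l (invK ε) = i2 fun g h => l (ε g h) := by
  let Φ : Dual (ZMod 2) k →+ ZMod 2 := AddMonoidHom.mk' (fun l => i2 fun g h => l (ε g h))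
    fun a b => i2_add H (h.map a) (h.map b)
  exact LinearMap.congr_fun ((finBasis (ZMod 2) k).dualBasis.ext
    (f₁ := Dual.eval _ _ (invK ε)) (f₂ := Φ.toZModLinearMap 2) fun i => by
      rw [Basis.coe_dualBasis]
      simp [invK, Φ, cd, Finsupp.single_apply]) l

variable {E : Type} [NontriviallyNormedField E] {c : CF E k} {χ : G → E}

/-- Local duality data from the case of the field with two elements. -/
noncomputable def mkLD (H : Two G)
    (nd : ∀ a ∈ Hm (ZMod 2) G, (∀ b ∈ Hm (ZMod 2) G, Sz (cup a b)) → a = 0)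
    (fin : Finite (Hm (ZMod 2) G))
    (rl : ∀ (l : Dual (ZMod 2) k) (ε : G → G → k) (f : G → E), Continuous f →
      (∀ g h, c.Rd (c.π * dq χ f g h) (ε g h)) → Sz fun g h => l (ε g h)) : LD G c χ where
  inv := invK
  add h h' := cd_ext fun i => by
    rw [map_add, invK_spec H h, invK_spec H h', invK_spec H (h.add h'),
      ← i2_add H (h.map _) (h'.map _)]
    exact congrArg i2 (funext₂ fun g l => map_add _ _ _)
  smul a ε h := cd_ext fun i => by
    rw [invK_spec H (h.smul a)]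
    exact (invK_spec H h (cd i ∘ₗ LinearMap.mulLeft _ a)).symm
  zero h := ⟨fun a => sz_cd fun i => i2_zero.1 (by rw [← invK_spec H h, a, map_zero]),
    fun a => cd_ext fun i => by rw [invK_spec H h, map_zero, i2_zero.2 (a.map _)]⟩
  nondeg a ha h := funext fun g => cd_ext fun i => by
    refine (congrFun (nd _ (Hm.map ha (cd i)) fun b hb => i2_zero.1 ?_) g).trans (map_zero _).symm
    have := invK_spec H (cz_cup ha (Hm.up hb)) (cd i)
    rw [h _ (Hm.up hb), map_zero] at this
    refine Eq.trans (congrArg i2 (funext₂ fun g l => ?_)) this.symm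
    rw [cup, cup, mul_comm (a g), ← Algebra.smul_def, map_smul, smul_eq_mul, mul_comm]
  fin := by
    have : Finite (Hm k G) := Finite.of_injective
      (fun a i => (⟨_, Hm.map a.2 (cd i)⟩ : Hm (ZMod 2) G)) fun a b h => Subtype.ext
        (funext fun g => cd_ext fun i => congrFun (congrArg Subtype.val (congrFun h i)) g)
    exact Module.Finite.of_finite
  rloc f h f1 f2 := cd_ext fun i => by
    rw [invK_spec H h, map_zero, i2_zero.2 (rl _ _ f f1 f2)]

end Pool.Agent.SP
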