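import Mathlib

/-! Definitions used in the statement: cocycles, Selmer cocycles, local terms. -/

namespace Pool.Agent.SelTwo

open NumberField Matrix Module Submodule Polynomial IsDedekindDomain
open scoped Pointwise

variable {E : Type} [NontriviallyNormedField E] {n : ℕ}

variable (E) in
/-- The dimension of the span of `A` modulo the span of `B`. -/
noncomputable def qdim {X : Type} [AddCommGroup X] [Module E X] (A B : Set X) : ℕ :=
  finrank E ((span E A).map (span E B).mkQ)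

/-- The dimension of the space of vectors fixed by all matrices in `A`. -/
noncomputable def fdim (A : Set (Matrix (Fin n) (Fin n) E)) : ℕ :=
  qdim E {x | ∀ M ∈ A, M *ᵥ x = x} ∅

section Coh

variable {Γ : Type} [Group Γ] (ρ : Γ →* Matrix (Fin n) (Fin n) E)

/-- The restriction of `x` to `D` is a coboundary. -/
def Cob (D : Subgroup Γ) (x : Γ → Fin n → E) : Prop := ∃ u, ∀ g ∈ D, x g = ρ g *ᵥ u - u

/-- The dimension of the span of `Y` modulo the functions that are coboundaries on `D`. -/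
noncomputable def h1 (D : Subgroup Γ) (Y : Set (Γ → Fin n → E)) : ℕ := qdim E Y {x | Cob ρ D x}

/-- `u(ρ t) ρ σ`, where `q u(ρ t) u(ρ t⁻¹) (ρ t)^((q-1)/2) = 1 + ρ t + ... + (ρ t)^(q-1)`,
`u` has integral coefficients and `u(1) = 1`. -/
def Tw (q : ℕ) (t σ : Γ) (M : Matrix (Fin n) (Fin n) E) : Prop :=
  ∃ u : E[X], (∀ i, ‖u.coeff i‖ ≤ 1) ∧ u.eval 1 = 1 ∧ M = aeval (ρ t) u * ρ σ ∧
    q • (aeval (ρ t) u * aeval (ρ t⁻¹) u * ρ t ^ (q / 2)) = ∑ i ∈ Finset.range q, ρ t ^ i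

variable [TopologicalSpace Γ]

/-- The restriction of `x` to `D` is a continuous 1-cocycle. -/
def Coc (D : Subgroup Γ) (x : Γ → Fin n → E) : Prop :=
  ContinuousOn x D ∧ ∀ g ∈ D, ∀ h ∈ D, x (g * h) = x g + ρ g *ᵥ x h

/-- `Y` is a subspace between the coboundaries and the cocycles on `D`. -/
def Cond (D : Subgroup Γ) (Y : Submodule E (Γ → Fin n → E)) : Prop :=
  ∀ x, (Cob ρ D x → x ∈ Y) ∧ (x ∈ Y → Coc ρ D x)

variable (χ : Γ → E) (cj : Γ → Γ) (B : Matrix (Fin n) (Fin n) E)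

/-- `ρ` is continuous, integral, residually unipotent, and `B` is an integral unimodular symmetric
matrix that makes `ρ` dual to `ρ ∘ cj` with values in `χ`. -/
def Pol : Prop :=
  Continuous ρ ∧ (∀ g i j, ‖ρ g i j‖ ≤ 1) ∧ (∀ g, ∃ N : ℕ, ∀ i j, ‖((ρ g - 1) ^ N) i j‖ < 1) ∧
    B.IsSymm ∧ (∀ i j, ‖B i j‖ ≤ 1) ∧ ‖B.det‖ = 1 ∧ ∀ g, (ρ g)ᵀ * B * ρ (cj g) = χ g • B

/-- On `D`, `x` lies in `Y`, and the cup product of `x ∘ cj` with every element of `Y` is a
2-coboundary with values in `E(χ)`. -/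
def Dual (D : Subgroup Γ) (Y : Submodule E (Γ → Fin n → E)) (x : Γ → Fin n → E) : Prop :=
  x ∈ Y ∧ ∀ y ∈ Y, ∃ f : Γ → E, ContinuousOn f D ∧ ∀ g ∈ D, ∀ h ∈ D,
    y g ⬝ᵥ B *ᵥ ρ (cj g) *ᵥ x (cj h) = f g + χ g * f h - f (g * h)

end Coh

variable {L : Type} [Field L]

variable (L) in
/-- The absolute Galois group. -/
abbrev Gal : Type := AlgebraicClosure L ≃ₐ[L] AlgebraicClosure L

variable (L) in
/-- Ideals of the ring of all algebraic integers. -/
abbrev Idl : Type := Ideal (𝓞 (AlgebraicClosure L))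

/-- The decomposition group. -/
noncomputable def Dec (𝔓 : Idl L) : Subgroup (Gal L) := MulAction.stabilizer (Gal L) 𝔓

/-- The inertia group. -/
noncomputable def Ine (𝔓 : Idl L) : Subgroup (Gal L) := 𝔓.inertia (Gal L)

/-- `cj` is conjugation by a complex conjugation `c`. -/
def IsCj (cj : Gal L → Gal L) : Prop :=
  ∃ (j : AlgebraicClosure L →+* ℂ) (c : AlgebraicClosure L ≃+* AlgebraicClosure L),
    (∀ x, j (c x) = starRingEnd ℂ (j x)) ∧ ∀ g x, cj g x = c (g (c x))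

variable [NormedAlgebra ℚ_[2] E]

variable (E) in
/-- The 2-adic cyclotomic character. -/
noncomputable def cyc (g : Gal L) : E :=
  algebraMap ℚ_[2] E ((cyclotomicCharacter (AlgebraicClosure L) 2 g.toRingEquiv : ℤ_[2]) : ℚ_[2])

variable (ρ : Gal L →* Matrix (Fin n) (Fin n) E)

/-- The Selmer cocycles: unramified at the primes not above `2`; at a chosen prime `P v` above `2`
in `Y v`, and orthogonal to `Y v` at the conjugate prime. -/
def Sel (cj : Gal L → Gal L) (B : Matrix (Fin n) (Fin n) E) {ι : Type} (P : ι → Idl L)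
    (Y : ι → Submodule E (Gal L → Fin n → E)) : Set (Gal L → Fin n → E) :=
  {x | Coc ρ ⊤ x ∧ (∀ 𝔓 : Idl L, 𝔓.IsMaximal → 2 ∉ 𝔓 → Cob ρ (Ine 𝔓) x) ∧
    ∀ v, 2 ∈ P v → Dual ρ (cyc E) cj B (Dec (P v)) (Y v) x}

variable [NumberField L] [IsCMField L]

/-- The prime of `L` below `𝔓` is fixed by complex conjugation. -/
def Nonsplit (𝔓 : Idl L) : Prop :=
  (𝔓.under (𝓞 L)).map (IsCMField.ringOfIntegersComplexConj L) = 𝔓.under (𝓞 L)

/-- The prime of `L` below `𝔓` is ramified over the maximal real subfield. -/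
def Ram (𝔓 : Idl L) : Prop :=
  (𝔓.under (𝓞 L)).ramificationIdx (𝓞 (maximalRealSubfield L)) ≠ 1

/-- `t` is the square of an automorphism that acts trivially modulo `𝔓` and as complex conjugation
on `L`, and `σ` is an arithmetic Frobenius at `𝔓`. -/
def Tame (𝔓 : Idl L) (t σ : Gal L) : Prop :=
  (∃ τ : AlgebraicClosure L ≃+* AlgebraicClosure L,
    (∀ y z : 𝓞 (AlgebraicClosure L), z.1 = τ y.1 → z - y ∈ 𝔓) ∧ (∀ x, t x = τ (τ x)) ∧
    ∀ x : L, τ (algebraMap L _ x) = algebraMap L _ (IsCMField.complexConj L x)) ∧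
  ∀ y, σ • y - y ^ Ideal.absNorm (𝔓.under (𝓞 L)) ∈ 𝔓

/-- The local term `a` at a prime not above `2`: zero if it is split; the codimension of the
invariants of inertia if it is inert; the dimension of the fixed space of `u(ρ t) ρ σ` if it is
ramified. -/
def Term (𝔓 : Idl L) (a : ℕ) : Prop :=
  (¬ Nonsplit 𝔓 → a = 0) ∧ (Nonsplit 𝔓 → ¬ Ram 𝔓 → a + fdim (ρ '' Ine 𝔓) = n) ∧
    (Ram 𝔓 → ∃ t σ M, Tame 𝔓 t σ ∧ Tw ρ (Ideal.absNorm (𝔓.under (𝓞 L))) t σ M ∧ a = fdim {M})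

end Pool.Agent.SelTwo
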