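import Pool.Agent.Lib.MP_b4b3cb_nt.Par.Mat
import Pool.Agent.Lib.MP_b4b3cb_nt.Par.Ext
import Pool.Agent.Lib.MP_b4b3cb_nt.Par.Dy
import Pool.Agent.Lib.MP_b4b3cb_nt.Par.Stmt2

/-! Comparison of the definitions in the statement with those of the proof. -/

namespace Pool.Agent.SP

open scoped Classical
open Module Matrix SelTwo

variable {E : Type} [NontriviallyNormedField E]

theorem qd {X X' : Type} [AddCommGroup X] [Module E X] [AddCommGroup X'] [Module E X']
    (f : X →ₗ[E] X') {A : Submodule E X} {B : Submodule E X'} [FiniteDimensional E (A.map f)]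
    (h : B ≤ A.map f) {a b : Set X} (ha : a = A) (hb : b = B.comap f) :
    finrank E (A.map f) = qdim E a b + finrank E B := by
  have e := LinearMap.finrank_range_add_finrank_ker (B.mkQ ∘ₗ (A.map f).subtype)
  rw [LinearMap.range_comp, Submodule.range_subtype, LinearMap.ker_comp, Submodule.ker_mkQ,
    (Submodule.comapSubtypeEquivOfLe h).finrank_eq, ← Submodule.map_comp] at e
  rw [← e, qdim, ha, hb, Submodule.span_eq, Submodule.span_eq, add_left_inj,
    ← LinearMap.range_domRestrict, ← LinearMap.range_domRestrict,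
    ← (LinearMap.quotKerEquivRange _).finrank_eq, ← (LinearMap.quotKerEquivRange _).finrank_eq]
  refine (Submodule.quotEquivOfEq _ _ ?_).finrank_eq
  ext x
  simp

variable {n : ℕ}

theorem fdim_eq {A : Set (Matrix (Fin n) (Fin n) E)} {S : Submodule E (Fin n → E)}
    (h : ∀ x, x ∈ S ↔ ∀ M ∈ A, M *ᵥ x = x) : fdim A = finrank E S := by
  have := qd (A := S) (B := ⊥) LinearMap.id bot_le (a := {x | ∀ M ∈ A, M *ᵥ x = x}) (b := {0})
    (Set.ext fun x => (h x).symm) rfl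
  rw [Submodule.map_id, finrank_bot, add_zero, qdim, Submodule.span_zero_singleton] at this
  rw [this, fdim, qdim, Submodule.span_empty]

variable {Γ : Type} [Group Γ] [TopologicalSpace Γ] {ρ : Γ →* Matrix (Fin n) (Fin n) E}
  (hρ : Continuous ρ) {D : Subgroup Γ}

theorem fdim_inv : fdim (ρ '' D) =
    finrank E (Representation.invariants ((rpM ρ hρ).ac.comp D.subtype)) :=
  fdim_eq fun _ => ⟨fun h _ ⟨g, hg, e⟩ => e ▸ h ⟨g, hg⟩, fun h g => h _ ⟨g, g.2, rfl⟩⟩

theorem cob_iff {x : Γ → Fin n → E} :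
    SelTwo.Cob ρ D x ↔ (fun g : D => x g) ∈ ((rpM ρ hρ).res D).B1 :=
  exists_congr fun _ => ⟨fun h => funext fun g => (h g g.2).symm,
    fun h g hg => (congrFun h ⟨g, hg⟩).symm⟩

theorem coc_iff {x : Γ → Fin n → E} :
    Coc ρ D x ↔ (fun g : D => x g) ∈ ((rpM ρ hρ).res D).Z1 :=
  and_congr continuousOn_iff_continuous_domRestrict
    ⟨fun h g l => sub_eq_zero.2 (h g g.2 l l.2).symm,
      fun h g hg l hl => (sub_eq_zero.1 (h ⟨g, hg⟩ ⟨l, hl⟩)).symm⟩

theorem coc_top {x : Γ → Fin n → E} : Coc ρ ⊤ x ↔ x ∈ (rpM ρ hρ).Z1 :=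
  and_congr continuousOn_univ ⟨fun h g l => sub_eq_zero.2 (h g trivial l trivial).symm,
    fun h g _ l _ => (sub_eq_zero.1 (h g l)).symm⟩

variable {Y : Submodule E (Γ → Fin n → E)} (hY : Cond ρ D Y)

include hY

theorem cond_le : ((rpM ρ hρ).res D).B1 ≤ Y.map (LinearMap.funLeft E _ Subtype.val) ∧
    Y.map (LinearMap.funLeft E _ Subtype.val) ≤ ((rpM ρ hρ).res D).Z1 := by
  refine ⟨fun x hx => ?_, ?_⟩
  · obtain ⟨x, rfl⟩ := ext1 x
    exact ⟨x, (hY x).1 ((cob_iff hρ).2 hx), rfl⟩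
  · rintro _ ⟨x, hx, rfl⟩
    exact (coc_iff hρ).1 ((hY x).2 hx)

theorem cond_mem {x : Γ → Fin n → E} :
    (fun g : D => x g) ∈ Y.map (LinearMap.funLeft E _ (Subtype.val : D → Γ)) ↔ x ∈ Y :=
  ⟨fun ⟨y, hy, e⟩ => by
    simpa using add_mem ((hY (x - y)).1 ⟨0, fun g hg => by
      simpa using sub_eq_zero.2 (congrFun e ⟨g, hg⟩).symm⟩) hy, fun h => ⟨x, h, rfl⟩⟩

end Pool.Agent.SP
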