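import Pool.Agent.Lib.MP_b4b3cb_nt.Par.Spl

/-! The lemma of Shapiro and the parity theorem for the conjugate self-dual representation. -/

namespace Pool.Agent.SP

open scoped Classical
open Module

variable {E k : Type} [NontriviallyNormedField E] [Field k] {Γ G : Type} [Group Γ]
  [TopologicalSpace Γ] [Group G] [TopologicalSpace G]

theorem Cob.comp {χ : G → E} {b : G → G → E} (h : Cob χ b) (φ : Γ →* G) (hφ : Continuous φ)
    {χ' : Γ → E} {b' : Γ → Γ → E} (h1 : ∀ g, χ' g = χ (φ g)) (h2 : ∀ g h, b' g h = b (φ g) (φ h)) :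
    Cob χ' b' := by
  obtain ⟨f, f1, f2⟩ := h
  exact ⟨fun g => f (φ g), f1.comp hφ, fun g h => by simp only [h2, f2, dq, h1, map_mul]⟩

variable {J : IG Γ G} {c : CF E k} {V : Type} [NormedAddCommGroup V] [NormedSpace E V] {m : ℕ}

namespace VD

variable {χ : G →* E} (U : VD J c χ V m)

/-- The cocycle of the induced representation. -/
noncomputable def sh : ((Γ → V) × V) →ₗ[E] (G → V × V) :=
  (LinearMap.pi fun g => (LinearMap.proj (J.u g)).prod (LinearMap.proj (J.cj (J.u g)))).coprod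
    (U.R.d1 ∘ₗ LinearMap.inr E V V)

theorem sh_apply (ξ : Γ → V) (b : V) (g : G) :
    U.sh (ξ, b) g = (ξ (J.u g), ξ (J.cj (J.u g))) + U.R.d1 (0, b) g := rfl

theorem sh_in (ξ : Γ → V) (b : V) {g : G} (hg : g ∈ J.H) :
    U.sh (ξ, b) g = (ξ (J.u g), ξ (J.cj (J.u g)) + (U.ρ.ac (J.cj (J.u g)) b - b)) := by
  simp [sh_apply, Rp.d1_apply, U.R_in hg]

theorem sh_mem {ξ : Γ → V} (h : ξ ∈ U.ρ.Z1) (b : V) : U.sh (ξ, b) ∈ U.R.Z1 := by
  refine U.R.Z1.add_mem (x := fun g => (ξ (J.u g), ξ (J.cj (J.u g)))) ⟨(h.1.comp J.cu).prodMk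
    (h.1.comp (J.ccj.comp J.cu)), fun g l => sub_eq_zero.2 ?_⟩ (U.R.d1_mem _)
  by_cases hg : g ∈ J.H
  · simp only [U.R_in hg, J.u_in hg, map_mul, U.ρ.coc h, Prod.mk_add_mk]
  · simp only [U.R_out hg, J.u_out hg, map_mul, U.ρ.coc h, J.cj_cj, Prod.mk_add_mk]

theorem sh_surj {x : G → V × V} (hx : x ∈ U.R.Z1) : ∃ ξ ∈ U.ρ.Z1, ∃ b, U.sh (ξ, b) = x := by
  have h1 := sub_mem hx (U.R.d1_mem (0, (x J.s).1))
  have h2 : (x - U.R.d1 (0, (x J.s).1)) J.s = 0 := by
    have a := U.R.coc hx J.s J.s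
    have b := U.R.coc hx 1 1
    rw [mul_one, U.R.one, left_eq_add] at b
    rw [J.ss, b, U.R_out J.sH, J.u_s, map_one J.cj, U.ρ.one, U.ρ.one] at a
    have := congrArg Prod.fst a
    simp only [Prod.fst_add, Prod.fst_zero] at this
    simp [Rp.d1_apply, U.R_out J.sH, J.u_s, Prod.ext_iff, add_comm, ← this]
  refine ⟨fun γ => ((x - U.R.d1 (0, (x J.s).1)) (J.ι γ)).1, ⟨(h1.1.comp J.cι).fst, fun g h => ?_⟩,
    (x J.s).1, funext fun g => ?_⟩
  · rw [Rp.d2, map_mul, U.R.coc h1, U.R_in (J.mem g), J.u_ι]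
    exact sub_self _
  · rw [sh_apply, ← eq_sub_iff_add_eq, ← Pi.sub_apply]
    generalize x - U.R.d1 (0, (x J.s).1) = y at h1 h2
    have e : y g = y (J.ι (J.u g)) := by
      by_cases hg : g ∈ J.H
      · rw [J.u1 g hg]
      · rw [J.u2 g hg, U.R.coc h1, h2, map_zero, add_zero]
    rw [e, J.hcj, U.R.coc h1, U.R.coc h1, h2, map_zero, add_zero, zero_add, U.R_out J.sH, J.u_s,
      U.ρ.one]

theorem sh_inj {ξ : Γ → V} (h : ξ ∈ U.ρ.Z1) {b : V} (h0 : U.sh (ξ, b) = 0) : ξ = 0 ∧ b = 0 := by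
  refine ⟨funext fun γ => ?_, ?_⟩
  · have := congrArg Prod.fst ((U.sh_in ξ b (J.mem γ)).symm.trans (congrFun h0 _))
    rwa [J.u_ι] at this
  · have a := congrArg Prod.fst (congrFun h0 J.s)
    have b := U.ρ.coc h 1 1
    rw [mul_one, U.ρ.one, left_eq_add] at b
    simpa [sh_apply, Rp.d1_apply, U.R_out J.sH, J.u_s, U.ρ.one, b] using a

/-- The conjugate representation. -/
def ρc : Rp E Γ V := U.ρ.comap J.cj J.ccj

variable {P : Type}

/-- The Selmer cocycles. -/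
def Sel (D : P → Subgroup Γ) (dy : P → Prop) (Y : ∀ v, Submodule E (D v → V)) :
    Submodule E (Γ → V) :=
  U.ρ.Z1 ⊓ ⨅ v : {v // dy v}, (Y v).comap (LinearMap.funLeft E V Subtype.val) ⊓
    (perp U.B (U.ρc.res (D v)) (fun g => χ (J.ι g)) (Y v)).comap
      (LinearMap.funLeft E V fun g : D v => J.cj g)

theorem mem_Sel {D : P → Subgroup Γ} {dy : P → Prop} {Y : ∀ v, Submodule E (D v → V)}
    {ξ : Γ → V} : ξ ∈ U.Sel D dy Y ↔ ξ ∈ U.ρ.Z1 ∧ ∀ v, dy v → (fun g : D v => ξ g) ∈ Y v ∧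
      (fun g : D v => ξ (J.cj g)) ∈ perp U.B (U.ρc.res (D v)) (fun g => χ (J.ι g)) (Y v) := by
  rw [Sel, Submodule.mem_inf, Submodule.mem_iInf, Subtype.forall]
  rfl

end VD

theorem VD.parity [Finite k] [IsUltrametricDist E] [CompleteSpace E] [FiniteDimensional E V]
    [CharP k 2] [CharZero E] [IsTopologicalGroup G] [CompactSpace G] {P : Type} (A : AK G P c)
    (U : VD J c A.χ V m) (S : Finset P) (D : P → Subgroup Γ)
    (hD : ∀ v γ, γ ∈ D v ↔ J.ι γ ∈ A.D v) (dy : P → Prop) (hS : ∀ v ∉ S, ¬ dy v)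
    (sp : ∀ v, dy v → A.D v ≤ J.H) (Y : ∀ v, Submodule E (D v → V))
    (hB : ∀ v, dy v → (U.ρ.res (D v)).B1 ≤ Y v) (hZ : ∀ v, dy v → Y v ≤ (U.ρ.res (D v)).Z1)
    (h0 : ∀ v, dy v → ∀ a, (∀ g : D v, U.ρ.ac g a = a) → a = 0) (p : P → ℕ)
    (loc : ∀ v, ¬ dy v → (U.R.res (A.D v)).Z1 = (U.R.res (A.D v)).B1 ∧
      ∃ p', U.Loc (A.D v) (U.R.res (A.D v)).B1 p' ∧ (v ∈ S → p' = p v))
    (g0 : ∀ v ∉ S, ∀ g ∈ A.I v, U.R.ac g = 1)
    (g1 : ∀ v ∉ S, ∀ i, ∀ f ∈ Hm k (A.D v), (∀ g : A.D v, g.1 ∈ A.I v → f g = 0) →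
      f ∈ U.T.Wd (U.R.res (A.D v)).B1 i) :
    FiniteDimensional E (U.Sel D dy Y) ∧
      Even (finrank E (U.Sel D dy Y) + ∑ v ∈ S, if dy v then finrank E (Y v) else p v) := by
  let e : ∀ v, dy v → A.D v →* D v := fun v h =>
    (J.uD _ (sp v h)).codRestrict _ fun g => (hD v _).2 (by
      change J.ι (J.u g) ∈ _
      rw [J.u1 _ (sp v h g.2)]
      exact g.2)
  let e' : ∀ v, D v →* A.D v := fun v => (J.ι.comp (D v).subtype).codRestrict _ fun g =>
    (hD v _).1 g.2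
  have ce : ∀ v h, Continuous (e v h) := fun v h =>
    (J.cu.comp continuous_subtype_val).subtype_mk _
  have ce' : ∀ v, Continuous (e' v) := fun v => (J.cι.comp continuous_subtype_val).subtype_mk _
  have ee : ∀ v h g, e v h (e' v g) = g := fun v h g => Subtype.ext (J.u_ι g)
  have inj : ∀ v h, Function.Injective (LinearMap.funLeft E V (e v h)) := fun v h =>
    LinearMap.funLeft_injective_of_surjective _ _ _ fun g => ⟨_, ee v h g⟩
  let Y₁ : ∀ v, dy v → Submodule E (A.D v → V) := fun v h =>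
    (Y v).map (LinearMap.funLeft E V (e v h))
  let YW : ∀ v, Submodule E (A.D v → V × V) := fun v => if h : dy v then
    Spl (Y₁ v h) (perp U.B (U.r2 _ (sp v h)) (fun g => A.χ g) (Y₁ v h)) else (U.R.res (A.D v)).B1
  have hL : ∀ v, ∃ p', U.Loc (A.D v) (YW v) p' ∧
      (v ∈ S → p' = if dy v then finrank E (Y v) else p v) := fun v => by
    by_cases h : dy v
    · have := A.cpt v
      simp only [YW, dif_pos h, if_pos h]
      refine ⟨_, U.split (sp v h) (A.ld v) A.cχ A.rd_chi (fun a ha => h0 v h a fun g => ?_) ?_ ?_,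
        fun _ => (Submodule.equivMapOfInjective _ (inj v h) _).finrank_eq.symm⟩
      · rw [← ee v h g]
        exact ha _
      · rintro _ ⟨a, rfl⟩
        exact ⟨_, hB v h ⟨a, rfl⟩, rfl⟩
      · rintro _ ⟨t, ht, rfl⟩
        exact ⟨(hZ v h ht).1.comp (ce v h), fun g l => by
          have := (hZ v h ht).2 (e v h g) (e v h l)
          rwa [Rp.d2, ← map_mul] at this⟩
    · simp only [YW, dif_neg h, if_neg h]
      exact (loc v h).2
  choose p' hp hp' using hL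
  let X : SD A (V × V) (2 * m) :=
    { C := U.T, R := U.R, om := U.om, be := U.be, om_eq := U.om_eq, Y := YW, S₀ := S
      stab := U.stabT, pa := U.paT, equi := U.equiT, be_le := U.be_le, be_ac := U.be_ac
      coc := fun v => (hp v).coc, iso := fun v => (hp v).iso, big := fun v => (hp v).big
      good0 := fun v hv t ht g hg => by
        simp only [YW, dif_neg (hS v hv)] at ht
        obtain ⟨w, rfl⟩ := ht
        exact sub_eq_zero.2 (LinearMap.congr_fun (g0 v hv g hg) w)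
      good1 := fun v hv => by
        simp only [YW, dif_neg (hS v hv)]
        exact g1 v hv }
  obtain ⟨fd, z, hz⟩ := X.core
  have key : ∀ ξ ∈ U.ρ.Z1, ∀ b, U.sh (ξ, b) ∈ X.Yg ↔ ξ ∈ U.Sel D dy Y := fun ξ hξ b => by
    rw [X.mem_Yg, U.mem_Sel]
    refine and_congr (iff_of_true (U.sh_mem hξ b) hξ) (forall_congr' fun v => ?_)
    change _ ∈ YW v ↔ _
    by_cases h : dy v
    · simp only [YW, dif_pos h, h, true_imp_iff, mem_Spl, fun g : A.D v => U.sh_in ξ b (sp v h g.2)]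
      refine and_congr ⟨fun ⟨t, ht, a⟩ => inj v h (a₂ := fun g => ξ g) a ▸ ht, fun a => ⟨_, a, rfl⟩⟩ ?_
      have b1 : (U.r2 _ (sp v h)).d1 b ∈ perp U.B (U.r2 _ (sp v h)) (fun g => A.χ g) (Y₁ v h) :=
        mem_perp.2 ⟨Rp.d1_mem _ _, fun t ht => by
          obtain ⟨t, ht, rfl⟩ := ht
          exact cob_right (U.equi12 (sp v h)) ⟨(hZ v h ht).1.comp (ce v h), fun g l => by
            have := (hZ v h ht).2 (e v h g) (e v h l)
            rwa [Rp.d2, ← map_mul] at this⟩ b⟩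
      refine (Submodule.add_mem_iff_left _ b1).trans ?_
      rw [mem_perp, mem_perp]
      refine and_congr (iff_of_true ⟨hξ.1.comp (J.ccj.comp (J.cu.comp continuous_subtype_val)),
        fun g l => ?_⟩ ⟨hξ.1.comp (J.ccj.comp continuous_subtype_val), fun g l => ?_⟩)
        ⟨fun a t ht => (a _ ⟨t, ht, rfl⟩).comp (e' v) (ce' v) (fun _ => rfl) fun g l => ?_, ?_⟩
      · have := hξ.2 (J.cj (J.u g)) (J.cj (J.u l))
        rwa [Rp.d2, ← map_mul, ← J.u_in (sp v h g.2)] at this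
      · have := hξ.2 (J.cj g) (J.cj l)
        rwa [Rp.d2, ← map_mul] at this
      · conv_lhs => rw [← ee v h g, ← ee v h l]
        rfl
      · rintro a _ ⟨t, ht, rfl⟩
        exact (a t ht).comp (e v h) (ce v h)
          (fun g => congrArg A.χ (J.u1 _ (sp v h g.2)).symm) fun _ _ => rfl
    · simp only [YW, dif_neg h, h, false_imp_iff, iff_true, ← (loc v h).1]
      exact U.R.res_mem (U.sh_mem hξ b) _
  have le : U.Sel D dy Y ≤ U.ρ.Z1 := inf_le_left
  let Φ := LinearEquiv.ofBijective ((U.sh ∘ₗ (U.Sel D dy Y).subtype.prodMap LinearMap.id).codRestrict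
    X.Yg fun x => (key _ (le x.1.2) x.2).2 x.1.2) ⟨(injective_iff_map_eq_zero _).2 fun x hx => by
      obtain ⟨a, b⟩ := U.sh_inj (le x.1.2) (b := x.2) (congrArg Subtype.val hx)
      exact Prod.ext (Subtype.ext a) b, fun x => by
      obtain ⟨ξ, h1, b, h2⟩ := U.sh_surj (X.mem_Yg.1 x.2).1
      exact ⟨(⟨ξ, (key ξ h1 b).1 (h2 ▸ x.2)⟩, b), Subtype.ext h2⟩⟩
  have fd' : FiniteDimensional E (U.Sel D dy Y) := FiniteDimensional.of_injective
    (Φ.toLinearMap ∘ₗ LinearMap.inl E _ _) (Φ.injective.comp LinearMap.inl_injective)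
  refine ⟨fd', ?_⟩
  choose a ha using fun v => (hp v).par
  rw [← Φ.finrank_eq, finrank_prod, U.rk, Finset.sum_congr (g := fun v => 4 * ((a v : ℤ) -
    m * finrank k (Hm k (A.D v))) - 2 * (if dy v then finrank E (Y v) else p v : ℕ)) rfl
    fun v hv => by
      rw [← hp' v hv]
      have := ha v
      change 2 * ((∑ i ∈ Finset.range (2 * m), U.T.dm (YW v) i : ℕ) : ℤ) - _ = _
      push_cast at this ⊢
      zify at this
      linear_combination 2 * this, Finset.sum_sub_distrib, ← Finset.mul_sum, ← Finset.mul_sum,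
    ← Nat.cast_sum] at hz
  change _ = _ - 2 * ((∑ v ∈ S, _ : ℕ) : ℤ) at hz
  rw [Nat.even_iff]
  omega

end Pool.Agent.SP
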