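import Pool.Agent.Lib.MP_b4b3cb_nt.Par.Coh

/-! The induced representation and its self-dual chain. -/

namespace Pool.Agent.SP

open scoped Classical
open Module

variable {E k : Type} [NontriviallyNormedField E] [Field k]

/-- A group embedded as an open subgroup of index two with a splitting involution. -/
structure IG (Γ G : Type) [Group Γ] [TopologicalSpace Γ] [Group G] [TopologicalSpace G] where
  /-- the embedding -/
  ι : Γ →* G
  cι : Continuous ι
  inj : Function.Injective ι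
  /-- the involution -/
  s : G
  ss : s * s = 1
  /-- the image -/
  H : Subgroup G
  clopen : IsClopen (H : Set G)
  mem : ∀ γ, ι γ ∈ H
  sH : s ∉ H
  two : ∀ g h, g ∉ H → h ∉ H → g * h ∈ H
  /-- the projection -/
  u : G → Γ
  cu : Continuous u
  u1 : ∀ g ∈ H, ι (u g) = g
  u2 : ∀ g ∉ H, ι (u g) = g * s
  /-- conjugation by the involution -/
  cj : Γ →* Γ
  ccj : Continuous cj
  hcj : ∀ γ, ι (cj γ) = s * ι γ * s

variable {Γ G : Type} [Group Γ] [TopologicalSpace Γ] [Group G] [TopologicalSpace G]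

namespace IG

variable (J : IG Γ G)

theorem s_s (g : G) : J.s * (J.s * g) = g := by rw [← mul_assoc, J.ss, one_mul]

theorem cj_cj (γ : Γ) : J.cj (J.cj γ) = γ := J.inj (by
  rw [J.hcj, J.hcj]; simp only [mul_assoc, J.s_s, J.ss, mul_one])

theorem u_ι (γ : Γ) : J.u (J.ι γ) = γ := J.inj (J.u1 _ (J.mem γ))

theorem u_s : J.u J.s = 1 := J.inj (by rw [J.u2 _ J.sH, J.ss, map_one])

theorem u_in {g : G} (hg : g ∈ J.H) (h : G) : J.u (g * h) = J.u g * J.u h := J.inj (by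
  rw [map_mul, J.u1 g hg]
  by_cases hh : h ∈ J.H
  · rw [J.u1 h hh, J.u1 _ (mul_mem hg hh)]
  · rw [J.u2 h hh, J.u2 _ (by rwa [mul_mem_cancel_left hg]), mul_assoc])

theorem u_out {g : G} (hg : g ∉ J.H) (h : G) : J.u (g * h) = J.u g * J.cj (J.u h) := J.inj (by
  rw [map_mul, J.u2 g hg, J.hcj]
  by_cases hh : h ∈ J.H
  · rw [J.u1 h hh, J.u2 _ (by rwa [mul_mem_cancel_right hh])]
    simp only [mul_assoc, J.s_s]
  · rw [J.u2 h hh, J.u1 _ (J.two g h hg hh)]
    simp only [mul_assoc, J.s_s, J.ss, mul_one])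

theorem out {g h : G} (hg : g ∉ J.H) : g * h ∈ J.H ↔ h ∉ J.H :=
  ⟨fun a b => hg (by rwa [mul_mem_cancel_right b] at a), J.two g h hg⟩

/-- The projection on a subgroup of the image. -/
def uD (D : Subgroup G) (hD : D ≤ J.H) : D →* Γ :=
  MonoidHom.mk' (fun g => J.u g) fun g h => J.u_in (hD g.2) h

end IG

/-- A conjugate self-dual representation with a self-dual chain. -/
structure VD (J : IG Γ G) (c : CF E k) (χ : G →* E) (V : Type) [NormedAddCommGroup V]
    [NormedSpace E V] (m : ℕ) where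
  /-- the chain -/
  Λ : Ch c V (2 * m)
  /-- the representation -/
  ρ : Rp E Γ V
  /-- the form -/
  B : V →ₗ[E] V →ₗ[E] E
  sy : ∀ u v, B u v = B v u
  stab : Λ.Stab ρ
  pa : Pa Λ Λ B
  equi : ∀ γ a b, B (ρ.ac γ a) (ρ.ac (J.cj γ) b) = χ (J.ι γ) * B a b
  χs : χ J.s = -1
  rk : finrank E V = 2 * m

namespace VD

variable {J : IG Γ G} {c : CF E k} {χ : G →* E} {V : Type} [NormedAddCommGroup V]
  [NormedSpace E V] {m : ℕ} (U : VD J c χ V m)

/-- The induced action. -/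
noncomputable def act (g : G) : Module.End E (V × V) :=
  if g ∈ J.H then (U.ρ.ac (J.u g)).prodMap (U.ρ.ac (J.cj (J.u g)))
  else (U.ρ.ac (J.u g)).prodMap (U.ρ.ac (J.cj (J.u g))) ∘ₗ (LinearEquiv.prodComm E V V).toLinearMap

theorem act_in {g : G} (h : g ∈ J.H) (w : V × V) :
    U.act g w = (U.ρ.ac (J.u g) w.1, U.ρ.ac (J.cj (J.u g)) w.2) := by rw [act, if_pos h]; rfl

theorem act_out {g : G} (h : g ∉ J.H) (w : V × V) :
    U.act g w = (U.ρ.ac (J.u g) w.2, U.ρ.ac (J.cj (J.u g)) w.1) := by rw [act, if_neg h]; rfl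

/-- The induced representation. -/
noncomputable def R : Rp E G (V × V) where
  ac :=
    { toFun := U.act
      map_one' := LinearMap.ext fun w => by
        rw [U.act_in (one_mem _), ← map_one J.ι, J.u_ι, map_one, map_one, map_one]; rfl
      map_mul' := fun g h => LinearMap.ext fun w => by
        rw [Module.End.mul_apply]
        by_cases hg : g ∈ J.H <;> by_cases hh : h ∈ J.H
        · rw [U.act_in hg, U.act_in hh, U.act_in (mul_mem hg hh), J.u_in hg, map_mul J.cj,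
            U.ρ.mul, U.ρ.mul]
        · rw [U.act_in hg, U.act_out hh, U.act_out (by rwa [mul_mem_cancel_left hg]), J.u_in hg,
            map_mul J.cj, U.ρ.mul, U.ρ.mul]
        · rw [U.act_out hg, U.act_in hh, U.act_out (by rwa [mul_mem_cancel_right hh]), J.u_out hg,
            map_mul J.cj, U.ρ.mul, U.ρ.mul, J.cj_cj]
        · rw [U.act_out hg, U.act_out hh, U.act_in (J.two g h hg hh), J.u_out hg, map_mul J.cj,
            U.ρ.mul, U.ρ.mul, J.cj_cj] }
  cont := by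
    have c1 : Continuous fun p : G × (V × V) => J.u p.1 := J.cu.comp continuous_fst
    have e : (fun p : G × (V × V) => U.act p.1 p.2) = fun p => if p.1 ∈ J.H then
        (U.ρ.ac (J.u p.1) p.2.1, U.ρ.ac (J.cj (J.u p.1)) p.2.2) else
        (U.ρ.ac (J.u p.1) p.2.2, U.ρ.ac (J.cj (J.u p.1)) p.2.1) := funext fun p => by
      split_ifs with h
      exacts [U.act_in h _, U.act_out h _]
    refine e ▸ Continuous.if (fun p hp => ?_)
      ((U.ρ.cont_ac c1 continuous_snd.fst).prodMk (U.ρ.cont_ac (J.ccj.comp c1) continuous_snd.snd))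
      ((U.ρ.cont_ac c1 continuous_snd.snd).prodMk (U.ρ.cont_ac (J.ccj.comp c1) continuous_snd.fst))
    exact ((J.clopen.preimage continuous_fst).frontier_eq.subset hp).elim

theorem R_in {g : G} (h : g ∈ J.H) (w : V × V) :
    U.R.ac g w = (U.ρ.ac (J.u g) w.1, U.ρ.ac (J.cj (J.u g)) w.2) := U.act_in h w

theorem R_out {g : G} (h : g ∉ J.H) (w : V × V) :
    U.R.ac g w = (U.ρ.ac (J.u g) w.2, U.ρ.ac (J.cj (J.u g)) w.1) := U.act_out h w

/-- The lattices in the induced representation. -/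
def Tl (i : ℤ) : AddSubgroup (V × V) where
  carrier := {w | w.1 ∈ U.Λ.T (i / 2) ∧ w.1 - w.2 ∈ U.Λ.T ((i + 1) / 2)}
  add_mem' := fun ha hb => ⟨add_mem ha.1 hb.1, by
    simpa [add_sub_add_comm] using add_mem ha.2 hb.2⟩
  zero_mem' := ⟨zero_mem _, by simp⟩
  neg_mem' := fun ha => ⟨neg_mem ha.1, by simpa [neg_add_eq_sub] using neg_mem ha.2⟩

/-- The chain in the induced representation. -/
noncomputable def T : Ch c (V × V) (2 * (2 * m)) where
  T := U.Tl
  lam i w := if i % 2 = 0 then U.Λ.lam (i / 2) (w.1 - w.2) else U.Λ.lam (i / 2) w.1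
  pos := by have := U.Λ.pos; omega
  succ i w h := ⟨U.Λ.anti (by omega) h.1, U.Λ.anti (by omega) h.2⟩
  per i w := by
    change c.π • w.1 ∈ U.Λ.T _ ∧ c.π • w.1 - c.π • w.2 ∈ U.Λ.T _ ↔ _
    rw [← smul_sub, show (i + (2 * (2 * m) : ℕ)) / 2 = i / 2 + (2 * m : ℕ) by omega,
      show (i + (2 * (2 * m) : ℕ) + 1) / 2 = (i + 1) / 2 + (2 * m : ℕ) by omega, U.Λ.per, U.Λ.per]
    rfl
  smul {i a w} ha h := ⟨U.Λ.smul ha h.1, by
    rw [Prod.smul_fst, Prod.smul_snd, ← smul_sub]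
    exact U.Λ.smul ha h.2⟩
  lam_add {i u v} hu hv := by
    split_ifs with h
    · rw [Prod.fst_add, Prod.snd_add, add_sub_add_comm]
      exact U.Λ.lam_add (U.Λ.anti (by omega) hu.2) (U.Λ.anti (by omega) hv.2)
    · exact U.Λ.lam_add hu.1 hv.1
  lam_smul {i a u} ha hu := by
    split_ifs with h
    · rw [Prod.smul_fst, Prod.smul_snd, ← smul_sub]
      exact U.Λ.lam_smul ha (U.Λ.anti (by omega) hu.2)
    · exact U.Λ.lam_smul ha hu.1
  lam_zero {i u} hu := by
    split_ifs with h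
    · rw [U.Λ.lam_zero (U.Λ.anti (by omega) hu.2)]
      exact ⟨fun a => ⟨U.Λ.anti (by omega) hu.1, U.Λ.anti (by omega) a⟩,
        fun a => U.Λ.anti (by omega) a.2⟩
    · rw [U.Λ.lam_zero hu.1]
      exact ⟨fun a => ⟨U.Λ.anti (by omega) a, U.Λ.anti (by omega) hu.2⟩,
        fun a => U.Λ.anti (by omega) a.1⟩
  ex i := by
    obtain ⟨e, h1, h2⟩ := U.Λ.ex (i / 2)
    split_ifs with h
    · exact ⟨(e, 0), ⟨h1, U.Λ.anti (show _ ≤ i / 2 by omega) (by simpa using h1)⟩, by simpa using h2⟩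
    · exact ⟨(e, e), ⟨h1, by simp⟩, h2⟩
  lam_per {i u} hu := by
    rw [show (i + (2 * (2 * m) : ℕ)) % 2 = i % 2 by omega,
      show (i + (2 * (2 * m) : ℕ)) / 2 = i / 2 + (2 * m : ℕ) by omega]
    split_ifs with h
    · rw [Prod.smul_fst, Prod.smul_snd, ← smul_sub]
      exact U.Λ.lam_per (U.Λ.anti (by omega) hu.2)
    · exact U.Λ.lam_per hu.1
  isOpen i := ((U.Λ.isOpen _).preimage continuous_fst).inter
    ((U.Λ.isOpen _).preimage (continuous_fst.sub continuous_snd))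
  bdd := by
    obtain ⟨C, hC⟩ := U.Λ.bdd
    exact ⟨C, fun w h => norm_prod_le_iff.2 ⟨hC _ h.1, hC _ (by simpa using sub_mem h.1 h.2)⟩⟩

theorem mem_T {i : ℤ} {w : V × V} :
    w ∈ U.T.T i ↔ w.1 ∈ U.Λ.T (i / 2) ∧ w.1 - w.2 ∈ U.Λ.T ((i + 1) / 2) := Iff.rfl

theorem mem_T2 {i : ℤ} {w : V × V} : w ∈ U.T.T (2 * i) ↔ w.1 ∈ U.Λ.T i ∧ w.2 ∈ U.Λ.T i := by
  rw [U.mem_T, show 2 * i / 2 = i by omega, show (2 * i + 1) / 2 = i by omega]
  exact ⟨fun h => ⟨h.1, by simpa using sub_mem h.1 h.2⟩, fun h => ⟨h.1, sub_mem h.1 h.2⟩⟩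

theorem stabT [IsUltrametricDist E] [CharP k 2] : U.T.Stab U.R := fun g i w hw => by
  have h3 : w.1 - w.2 ∈ U.Λ.T (i / 2) := U.Λ.anti (by omega) hw.2
  have h2 : w.2 ∈ U.Λ.T (i / 2) := by simpa using sub_mem hw.1 h3
  have a := fun γ => U.stab γ _ _ hw.1
  have b := fun γ => U.stab γ _ _ h2
  rw [U.mem_T, show (i + 1 + 1) / 2 = i / 2 + 1 by omega]
  by_cases hg : g ∈ J.H
  · rw [U.R_in hg]
    refine ⟨U.Λ.anti (by omega) (a _), ?_⟩
    exact sub_mem (a (J.u g)) (b (J.cj (J.u g)))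
  · rw [U.R_out hg]
    refine ⟨?_, ?_⟩
    · convert sub_mem (U.Λ.anti (show (i + 1) / 2 ≤ _ by omega) (b (J.u g))) hw.2 using 1
      change _ - w.1 = _ - (w.1 - w.2)
      abel
    · convert sub_mem (sub_mem (b (J.u g)) (a (J.cj (J.u g)))) ((U.Λ.lam_zero
        (U.Λ.smul c.two_lt.le h3)).1 (by rw [U.Λ.lam_smul c.two_lt.le h3, (c.rd_lt c.two_lt).2,
          zero_mul])) using 1
      simp only [Prod.fst_sub, Prod.snd_sub, two_smul]
      abel

/-- The bilinear refinement of the symplectic form. -/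
def be : (V × V) →ₗ[E] (V × V) →ₗ[E] E := U.B.compl₁₂ (LinearMap.fst E V V) (LinearMap.snd E V V)

/-- The symplectic form. -/
def om : (V × V) →ₗ[E] (V × V) →ₗ[E] E := U.be - U.be.flip

theorem om_eq (u v : V × V) : U.om u v = U.be u v - U.be v u := rfl

theorem om_apply (u v : V × V) : U.om u v = U.B u.1 v.2 - U.B v.1 u.2 := rfl

theorem om_sub (u v : V × V) : U.om u v = U.B v.1 (u.1 - u.2) - U.B u.1 (v.1 - v.2) := by
  rw [U.om_apply, map_sub, map_sub, U.sy v.1 u.1]; ring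

include U in
theorem chi_out {g : G} (h : g ∉ J.H) : χ (J.ι (J.u g)) = -χ g := by
  rw [J.u2 g h, map_mul, U.χs, mul_neg_one]

theorem be_ac (g : G) (u : V × V) : U.be (U.R.ac g u) (U.R.ac g u) = χ g * U.be u u ∨
    U.be (U.R.ac g u) (U.R.ac g u) = -(χ g * U.be u u) := by
  by_cases hg : g ∈ J.H
  · exact Or.inl (by rw [U.R_in hg]; exact (U.equi _ _ _).trans (by rw [J.u1 g hg]; rfl))
  · exact Or.inr (by
      rw [U.R_out hg]; exact (U.equi _ _ _).trans (by rw [U.chi_out hg, U.sy, neg_mul]; rfl))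

theorem equiT : Equi χ U.R U.R U.om := fun g u v => by
  simp only [om_apply]
  by_cases hg : g ∈ J.H
  · simp only [U.R_in hg, U.equi, J.u1 g hg]; ring
  · simp only [U.R_out hg, U.equi, U.chi_out hg, U.sy u.2, U.sy v.2]; ring

theorem be_le (r : ℤ) (u v : V × V) (hu : u ∈ U.T.T (r * (2 * m : ℕ)))
    (hv : v ∈ U.T.T (r * (2 * m : ℕ))) : ‖U.be u v / c.π ^ r‖ ≤ 1 := by
  rw [show r * (2 * m : ℕ) = 2 * (r * m) by push_cast; ring, U.mem_T2] at hu hv
  have := U.pa.le ((U.Λ.per_zpow (-r) _ _).2 hu.1) hv.2 (by push_cast; linarith)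
  rwa [map_smul, LinearMap.smul_apply, smul_eq_mul, zpow_neg, ← div_eq_inv_mul] at this

theorem paT [IsUltrametricDist E] [CharP k 2] : Pa U.T U.T U.om where
  le hu hv h := by
    rw [U.om_sub]
    exact ((c.rd_of (U.pa.le hv.1 hu.2 (by omega))).sub (c.rd_of (U.pa.le hu.1 hv.2 (by omega)))).1
  lam i j h := by
    by_cases hi : i % 2 = 0
    · obtain ⟨κ, k0, k1⟩ := U.pa.lam (j / 2) (i / 2) (by omega)
      refine ⟨κ, k0, fun u hu v hv => ?_⟩
      refine ((k1 _ hv.1 _ (U.Λ.anti (by omega) hu.2)).sub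
        (c.rd_pi (U.pa.le hu.1 hv.2 (by omega)))).congr (by rw [U.om_sub, mul_sub]) ?_
      simp only [T, if_pos hi, if_neg (show ¬ j % 2 = 0 by omega), sub_zero, mul_comm]
    · obtain ⟨κ, k0, k1⟩ := U.pa.lam (i / 2) (j / 2) (by omega)
      refine ⟨κ, k0, fun u hu v hv => ?_⟩
      refine ((c.rd_pi (U.pa.le hv.1 hu.2 (by omega))).sub
        (k1 _ hu.1 _ (U.Λ.anti (by omega) hv.2))).congr (by rw [U.om_sub, mul_sub]) ?_
      simp only [T, if_neg hi, if_pos (show j % 2 = 0 by omega), zero_sub, CharTwo.neg_eq]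

end VD

end Pool.Agent.SP
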