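import Pool.Agent.Lib.MP_b4b3cb_nt.Par.Flag
import Pool.Agent.Lib.MP_b4b3cb_nt.Par.Ind

/-! The chain of lattices attached to a flag; matrix representations. -/

namespace Pool.Agent.SP

open scoped Classical
open Module Matrix

variable {E k ι : Type} [NontriviallyNormedField E] [IsUltrametricDist E] [Field k] [Fintype ι]
  [DecidableEq ι] {c : CF E k}

omit [IsUltrametricDist E] in
theorem CF.Rd.prod {κ : Type} (s : Finset κ) {x : κ → E} {a : κ → k}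
    (h : ∀ i ∈ s, c.Rd (x i) (a i)) : c.Rd (∏ i ∈ s, x i) (∏ i ∈ s, a i) := by
  induction s using Finset.induction_on with
  | empty => simpa using c.rd_one'
  | insert i s hi ih =>
    rw [Finset.prod_insert hi, Finset.prod_insert hi]
    exact (h i (by simp)).mul (ih fun j hj => h j (by simp [hj]))

theorem rd_det {M : Matrix ι ι E} (h : ∀ i j, ‖M i j‖ ≤ 1) : c.Rd M.det (M.map c.rd).det := by
  rw [det_apply', det_apply']
  refine CF.Rd.sum _ fun σ _ => CF.Rd.mul ?_ (CF.Rd.prod _ fun i _ => c.rd_of (h _ _))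
  rcases Int.units_eq_one_or (Equiv.Perm.sign σ) with e | e
  · simpa [e] using c.rd_one'
  · simpa [e] using c.rd_one'.neg

omit [DecidableEq ι] in
theorem rd_dot {x y : ι → E} {a b : ι → k} (h : ∀ i, c.Rd (x i) (a i)) (h' : ∀ i, c.Rd (y i) (b i)) :
    c.Rd (x ⬝ᵥ y) (a ⬝ᵥ b) := CF.Rd.sum _ fun i _ => (h i).mul (h' i)

theorem dm_ex {n : ℕ} (h : 0 < n) (i : ℤ) : ∃ (a : ℤ) (s : ℕ), s < n ∧ i = s + n * a := by
  have h1 := Int.emod_nonneg i (show (n : ℤ) ≠ 0 by omega)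
  have h2 := Int.emod_lt_of_pos i (show (0 : ℤ) < n by omega)
  exact ⟨i / n, (i % n).toNat, by omega, by rw [Int.toNat_of_nonneg h1, Int.emod_add_mul_ediv]⟩

theorem dm_un {n s : ℕ} (h : s < n) (a : ℤ) :
    (s + n * a) / n = a ∧ ((s + n * a) % n).toNat = s := by
  have := (Int.ediv_emod_unique (a := s + n * a) (show (0 : ℤ) < n by omega)).2
    ⟨rfl, by omega, by omega⟩
  simp [this.1, this.2]

variable {Γ : Type} [Group Γ] {r : Representation k Γ (ι → k)} {b : LinearMap.BilinForm k (ι → k)}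
  {n : ℕ} (Φ : Fl r b n)

namespace Fl

variable (c) in
/-- The lattices between two consecutive multiples of the standard lattice. -/
def L (a : ℤ) (s : ℕ) : AddSubgroup (ι → E) where
  carrier := {x | ∃ y ∈ Φ.F s, ∀ t, c.Rd (c.π ^ (-a) * x t) (y t)}
  add_mem' := fun ⟨y, h1, h2⟩ ⟨z, h3, h4⟩ => ⟨y + z, add_mem h1 h3, fun t =>
    ((h2 t).add (h4 t)).congr (mul_add _ _ _).symm rfl⟩
  zero_mem' := ⟨0, zero_mem _, fun _ => c.rd_zero'.congr (mul_zero _).symm rfl⟩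
  neg_mem' := fun ⟨y, h1, h2⟩ => ⟨-y, neg_mem h1, fun t => (h2 t).neg.congr (mul_neg _ _).symm rfl⟩

variable (c) in
/-- The coordinate on the step. -/
noncomputable def lm (a : ℤ) (s : ℕ) (x : ι → E) : k := Φ.l s fun t => c.rd (c.π ^ (-a) * x t)

omit [IsUltrametricDist E] [Fintype ι] [DecidableEq ι] in
theorem lm_eq {a : ℤ} {s : ℕ} {x : ι → E} {y : ι → k} (h : ∀ t, c.Rd (c.π ^ (-a) * x t) (y t)) :
    Φ.lm c a s x = Φ.l s y := congrArg _ (funext fun t => (h t).2)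

omit [IsUltrametricDist E] in
theorem sh (a : ℤ) (x : E) : c.π ^ (-a) * x = c.π * (c.π ^ (-(a + 1)) * x) := by
  rw [← mul_assoc, ← zpow_one_add₀ c.ne, show 1 + -(a + 1) = -a by ring]

omit [Fintype ι] [DecidableEq ι] in
theorem L_top (a : ℤ) : Φ.L c a n = Φ.L c (a + 1) 0 := by
  ext x
  constructor
  · rintro ⟨y, h1, h2⟩
    rw [Φ.bot, Submodule.mem_bot] at h1
    subst h1
    exact ⟨_, Φ.top ▸ trivial, fun t => c.rd_of (CF.Rd.le_one ((h2 t).congr (sh a _) rfl))⟩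
  · rintro ⟨y, -, h2⟩
    exact ⟨0, zero_mem _, fun t => (c.rd_pi (h2 t).1).congr (sh a _).symm rfl⟩

variable (c) in
/-- The chain. -/
noncomputable def T (i : ℤ) : AddSubgroup (ι → E) := Φ.L c (i / n) (i % n).toNat

omit [Fintype ι] [DecidableEq ι] in
theorem T_eq (h0 : 0 < n) {s : ℕ} (h : s ≤ n) {a i : ℤ} (e : i = s + n * a) :
    Φ.T c i = Φ.L c a s := by
  rcases h.eq_or_lt with rfl | h
  · rw [Φ.L_top, T, show i = (0 : ℕ) + s * (a + 1) by rw [e]; push_cast; ring, (dm_un h0 _).1,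
      (dm_un h0 _).2]
  · rw [T, e, (dm_un h a).1, (dm_un h a).2]

variable (c) in
/-- The chain of lattices of a flag. -/
noncomputable def ch (h0 : 0 < n) : Ch c (ι → E) n where
  T := Φ.T c
  lam i := Φ.lm c (i / n) (i % n).toNat
  pos := h0
  succ i := by
    obtain ⟨a, s, h, rfl⟩ := dm_ex h0 i
    rw [Φ.T_eq h0 h.le rfl, Φ.T_eq h0 (s := s + 1) (a := a) h (by push_cast; ring)]
    exact fun x ⟨y, h1, h2⟩ => ⟨y, ((Φ.step s h y).1 h1).1, h2⟩
  per i u := by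
    obtain ⟨a, s, h, rfl⟩ := dm_ex h0 i
    rw [Φ.T_eq h0 h.le rfl, Φ.T_eq h0 (a := a + 1) h.le (by ring)]
    refine exists_congr fun y => and_congr_right fun _ => forall_congr' fun t => ?_
    rw [sh a, Pi.smul_apply, smul_eq_mul, mul_left_comm]
  smul {i a u} ha := fun ⟨y, h1, h2⟩ => ⟨c.rd a • y, Submodule.smul_mem _ _ h1, fun t =>
    ((c.rd_of ha).mul (h2 t)).congr (mul_left_comm _ _ _) rfl⟩
  lam_add := fun ⟨y, _, h2⟩ ⟨z, _, h4⟩ => by
    rw [Φ.lm_eq h2, Φ.lm_eq h4, ← map_add]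
    exact Φ.lm_eq fun t => ((h2 t).add (h4 t)).congr (mul_add _ _ _).symm rfl
  lam_smul {i a u} ha := fun ⟨y, _, h2⟩ => by
    rw [Φ.lm_eq h2, ← smul_eq_mul, ← map_smul]
    exact Φ.lm_eq fun t => ((c.rd_of ha).mul (h2 t)).congr (mul_left_comm _ _ _) rfl
  lam_zero {i u} := by
    obtain ⟨a, s, h, rfl⟩ := dm_ex h0 i
    rw [Φ.T_eq h0 h.le rfl, Φ.T_eq h0 (s := s + 1) (a := a) h (by push_cast; ring), (dm_un h a).1,
      (dm_un h a).2]
    rintro ⟨y, h1, h2⟩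
    rw [Φ.lm_eq h2]
    exact ⟨fun e => ⟨y, (Φ.step s h y).2 ⟨h1, e⟩, h2⟩, fun ⟨z, h3, h4⟩ =>
      (funext fun t => (h4 t).uniq (h2 t) : z = y) ▸ ((Φ.step s h z).1 h3).2⟩
  ex i := by
    obtain ⟨a, s, h, rfl⟩ := dm_ex h0 i
    obtain ⟨y, h1, h2⟩ := Φ.ex s h
    have e : ∀ t, c.Rd (c.π ^ (-a) * (c.π ^ a * c.sc (y t))) (y t) := fun t =>
      (c.rd_sc' _).congr (by rw [_root_.zpow_neg, inv_mul_cancel_left₀ (zpow_ne_zero a c.ne)]) rfl
    rw [Φ.T_eq h0 h.le rfl, (dm_un h a).1, (dm_un h a).2]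
    exact ⟨_, ⟨y, h1, e⟩, (Φ.lm_eq e).trans h2⟩
  lam_per {i u} _ := by
    obtain ⟨a, s, h, rfl⟩ := dm_ex h0 i
    rw [show (s + n * a + n : ℤ) = s + n * (a + 1) by ring, (dm_un h a).1, (dm_un h a).2,
      (dm_un h _).1, (dm_un h _).2]
    refine congrArg (Φ.l s) (funext fun t => ?_)
    rw [sh a, Pi.smul_apply, smul_eq_mul, mul_left_comm]
  isOpen i := AddSubgroup.isOpen_of_mem_nhds _ (g := 0) (Filter.mem_of_superset
    (Metric.ball_mem_nhds 0 (norm_pos_iff.2 (zpow_ne_zero (i / n) c.ne))) fun x hx =>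
    ⟨0, zero_mem _, fun t => c.rd_lt (by
      rw [_root_.zpow_neg, norm_mul, norm_inv, inv_mul_lt_iff₀ (norm_pos_iff.2 (zpow_ne_zero _ c.ne)),
        mul_one]
      exact (norm_le_pi_norm x t).trans_lt (mem_ball_zero_iff.1 hx))⟩)
  bdd := ⟨1, fun u ⟨y, _, h⟩ => (pi_norm_le_iff_of_nonneg zero_le_one).2 fun t => by
    simpa using (h t).1⟩

end Fl

variable [TopologicalSpace Γ]

/-- The representation on column vectors. -/
noncomputable def rpM (ρ : Γ →* Matrix ι ι E) (h : Continuous ρ) : Rp E Γ (ι → E) where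
  ac := (toLinAlgEquiv' : Matrix ι ι E ≃ₐ[E] _).toMonoidHom.comp ρ
  cont := (h.comp continuous_fst).matrix_mulVec continuous_snd

theorem exVD [Finite k] [CharP k 2] {G : Type} [Group G] [TopologicalSpace G] (J : IG Γ G)
    (χ : G →* E) (hχ : ∀ g, c.Rd (χ g) 1) (χs : χ J.s = -1) {m : ℕ} (h0 : 0 < m)
    (hι : Fintype.card ι = 2 * m) (ρ : Γ →* Matrix ι ι E) (hρ : Continuous ρ)
    (h1 : ∀ g i j, ‖ρ g i j‖ ≤ 1) (h2 : ∀ g, ∃ N : ℕ, ∀ i j, ‖((ρ g - 1) ^ N) i j‖ < 1)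
    (B : Matrix ι ι E) (b1 : B.IsSymm) (b2 : ∀ i j, ‖B i j‖ ≤ 1) (b3 : ‖B.det‖ = 1)
    (b4 : ∀ g, (ρ g)ᵀ * B * ρ (J.cj g) = χ (J.ι g) • B) :
    ∃ U : VD J c χ (ι → E) m, U.ρ = rpM ρ hρ ∧ U.B = toBilin' B := by
  have mm : ∀ {M N : Matrix ι ι E} {M' N' : Matrix ι ι k}, (∀ i j, c.Rd (M i j) (M' i j)) →
      (∀ i j, c.Rd (N i j) (N' i j)) → ∀ i j, c.Rd ((M * N) i j) ((M' * N') i j) :=
    fun h h' i j => rd_dot (h i) fun l => h' l j
  have m1 : ∀ i j, c.Rd ((1 : Matrix ι ι E) i j) ((1 : Matrix ι ι k) i j) := fun i j => by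
    simp only [one_apply]
    split_ifs
    exacts [c.rd_one', c.rd_zero']
  have q1 : ∀ g i j, c.Rd (ρ g i j) ((ρ g).map c.rd i j) := fun g i j => c.rd_of (h1 g i j)
  have q2 : ∀ i j, c.Rd (B i j) (B.map c.rd i j) := fun i j => c.rd_of (b2 i j)
  let ρ' : Γ →* Matrix ι ι k :=
    { toFun := fun g => (ρ g).map c.rd
      map_one' := Matrix.ext fun i j => (q1 _ i j).uniq (map_one ρ ▸ m1 i j)
      map_mul' := fun g h =>
        Matrix.ext fun i j => (q1 _ i j).uniq (map_mul ρ g h ▸ mm (q1 g) (q1 h) i j) }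
  have sy : ∀ {R : Type} [CommRing R] {M : Matrix ι ι R}, M.IsSymm → ∀ x y,
      toBilin' M x y = toBilin' M y x := fun h x y => by
    rw [toBilin'_apply', toBilin'_apply', dotProduct_mulVec, dotProduct_comm, ← mulVec_transpose,
      h.eq]
  have eq : ∀ {R : Type} [CommRing R] (M N P : Matrix ι ι R) x y,
      toBilin' P (M *ᵥ x) (N *ᵥ y) = toBilin' (Mᵀ * P * N) x y := fun M N P x y => by
    rw [toBilin'_apply', toBilin'_apply', ← mulVec_mulVec, ← mulVec_mulVec, dotProduct_mulVec x,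
      vecMul_transpose]
  obtain ⟨Φ⟩ := exFl ((toLinAlgEquiv' : Matrix ι ι k ≃ₐ[k] _).toMonoidHom.comp ρ') (fun g => by
      obtain ⟨N, hN⟩ := h2 g
      have : Nonempty ι := Fintype.card_pos_iff.1 (by omega)
      have : Fact (Nat.Prime 2) := ⟨Nat.prime_two⟩
      have a : ∀ (N : ℕ) i j, c.Rd (((ρ g - 1) ^ N) i j) (((ρ' g - 1) ^ N) i j) := fun N => by
        induction N with
        | zero => exact m1
        | succ N ih => exact mm ih fun i j => (q1 g i j).sub (m1 i j)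
      have a2 : (ρ' g - 1) ^ 2 ^ N = 0 := pow_eq_zero_of_le N.lt_two_pow_self.le
        (Matrix.ext fun i j => (a N i j).uniq (c.rd_lt (hN i j)))
      rw [sub_pow_char_pow_of_commute _ _ (Commute.one_right _), one_pow, sub_eq_zero] at a2
      exact ⟨N, by rw [MonoidHom.comp_apply, map_pow, a2, map_one]⟩)
    (toBilin' (B.map c.rd)) (sy (b1.map _)) (LinearMap.BilinForm.nondegenerate_toBilin'_of_det_ne_zero' _
      fun e => ((rd_det b2).congr rfl e).lt.ne b3) (fun g => ⟨J.cj g, fun x y =>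
      (eq _ _ _ x y).trans (by
      refine congrArg (toBilin' · x y) (Matrix.ext fun i j => (mm (mm (M := (ρ (J.cj g))ᵀ)
        (M' := (ρ' (J.cj g))ᵀ) (fun i j => q1 (J.cj g) j i) q2) (q1 g) i j).uniq ?_)
      have := b4 (J.cj g)
      rw [J.cj_cj] at this
      exact ((hχ _).mul (q2 i j)).congr (congrFun₂ this i j).symm (one_mul _))⟩) (m := m)
    (by simp [hι])
  have h0' : 0 < 2 * m := by omega
  have key : ∀ {a : ℤ} {u v : ι → E} {y z : ι → k}, (∀ t, c.Rd (c.π ^ (-a) * u t) (y t)) →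
      (∀ t, c.Rd (c.π ^ (-(-a - 1)) * v t) (z t)) →
      c.Rd (c.π * toBilin' B u v) (toBilin' (B.map c.rd) y z) := fun {a u v y z} hu hv => by
    rw [toBilin'_apply' (B.map _)]
    refine (rd_dot hu fun i => rd_dot (q2 i) hv).congr ?_ rfl
    change (c.π ^ (-a) • u) ⬝ᵥ B *ᵥ (c.π ^ (-(-a - 1)) • v) = _
    rw [mulVec_smul, smul_dotProduct, dotProduct_smul, smul_smul, ← zpow_add₀ c.ne,
      show -a + -(-a - 1) = 1 by ring, zpow_one, toBilin'_apply', smul_eq_mul]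
  refine ⟨⟨Φ.ch c h0', rpM ρ hρ, toBilin' B, sy b1, fun g i u => ?_, ⟨fun {i j u v} hu hv h => ?_,
    fun i j h => ⟨1, one_ne_zero, ?_⟩⟩, fun g x y => (eq _ _ _ x y).trans (by
      rw [b4, map_smul]; rfl), χs, by simp [hι]⟩, rfl, rfl⟩
  · obtain ⟨a, s, h, rfl⟩ := dm_ex h0' i
    change u ∈ Φ.T c _ → _ ∈ Φ.T c _
    rw [Φ.T_eq h0' h.le rfl, Φ.T_eq h0' (s := s + 1) (a := a) h (by push_cast; ring)]
    exact fun ⟨y, a1, a2⟩ => ⟨_, Φ.stab s h g y a1, fun t => ((rd_dot (q1 g t) a2).sub (a2 t)).congr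
      (by
        change ρ g t ⬝ᵥ (c.π ^ (-a) • u) - _ = _
        rw [dotProduct_smul, smul_eq_mul, ← mul_sub]; rfl) rfl⟩
  · obtain ⟨a, s, hs, rfl⟩ := dm_ex h0' i
    have hv' : v ∈ Φ.T c _ := (Φ.ch c h0').anti (neg_le_iff_add_nonneg'.2 h) hv
    rw [Φ.T_eq h0' (s := 2 * m - s) (a := -a - 1) (by omega) (by
      rw [Nat.cast_sub hs.le]; ring)] at hv'
    obtain ⟨y, a1, a2⟩ := (Φ.T_eq (c := c) h0' hs.le rfl).le hu
    obtain ⟨z, a3, a4⟩ := hv'
    rw [show 2 * m - s = 2 * m - s - 1 + 1 by omega, Φ.step _ (by omega)] at a3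
    exact CF.Rd.le_one ((key a2 a4).congr rfl (by
      rw [Φ.pair s (2 * m - s - 1) (by omega) y a1 z a3.1, a3.2, mul_zero]))
  · obtain ⟨a, s, hs, rfl⟩ := dm_ex h0' i
    have ht : 2 * m - s - 1 < 2 * m := by omega
    obtain rfl : j = (2 * m - s - 1 : ℕ) + (2 * m : ℕ) * (-a - 1) := by
      rw [Nat.sub_sub, Nat.cast_sub hs]
      push_cast at h ⊢
      linear_combination h
    change ∀ u ∈ Φ.T c _, ∀ v ∈ Φ.T c _, c.Rd _ (1 * (Φ.lm c _ _ u * Φ.lm c _ _ v))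
    rw [Φ.T_eq h0' hs.le rfl, Φ.T_eq h0' ht.le rfl, (dm_un hs _).1, (dm_un hs _).2, (dm_un ht _).1,
      (dm_un ht _).2]
    rintro u ⟨y, a1, a2⟩ v ⟨z, a3, a4⟩
    rw [Φ.lm_eq a2, Φ.lm_eq a4, one_mul, ← Φ.pair s _ (by omega) y a1 z a3]
    exact key a2 a4

end Pool.Agent.SP
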