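import Pool.Agent.Lib.MP_b4b3cb_nt.Par.LocR
import Pool.Agent.Lib.MP_b4b3cb_nt.Par.Brg
import Pool.Agent.Lib.MP_b4b3cb_nt.Fin2

/-! The parity theorem for matrix representations over a CM field. -/

namespace Pool.Agent.SP

open scoped Classical Topology Pointwise
open Module NumberField Pool.Agent.Stark Matrix IsDedekindDomain Polynomial
open SC hiding Hm Rp V T Two Cob Sel Spl cup dq Cz Sz res Dec Ine cyc
open SelTwo hiding Cob

theorem qdim_zero {E X : Type} [NontriviallyNormedField E] [AddCommGroup X] [Module E X]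
    [Subsingleton X] (A B : Set X) : qdim E A B = 0 := by
  have := (Submodule.span E B).mkQ_surjective.subsingleton
  exact finrank_zero_of_subsingleton

theorem main2 (L : Type) [Field L] [NumberField L] [IsCMField L] (E : Type)
    [NontriviallyNormedField E] [NormedAlgebra ℚ_[2] E] [FiniteDimensional ℚ_[2] E] (n : ℕ)
    (hn : Even n) (ρ : Gal L →* Matrix (Fin n) (Fin n) E) (cj : Gal L → Gal L) (hcj : IsCj cj)
    (B : Matrix (Fin n) (Fin n) E) (hB : Pol ρ (cyc E) cj B)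
    (inv : ∀ 𝔓 : Idl L, 𝔓.IsMaximal → fdim (ρ '' Dec 𝔓) = 0)
    (P : HeightOneSpectrum (𝓞 (maximalRealSubfield L)) → Idl L)
    (hP : ∀ v, (P v).IsMaximal ∧ (P v).under _ = v.asIdeal)
    (S : Finset (HeightOneSpectrum (𝓞 (maximalRealSubfield L))))
    (hS : ∀ v ∉ S, ∀ 𝔓 : Idl L, 𝔓.IsMaximal → 𝔓.under _ = v.asIdeal →
      2 ∉ 𝔓 ∧ ¬ Ram 𝔓 ∧ ∀ g ∈ Ine 𝔓, ρ g = 1)
    (Y : _ → Submodule E (Gal L → Fin n → E)) (a : _ → ℕ)
    (h2 : ∀ v, 2 ∈ P v → ¬ Nonsplit (P v) ∧ Cond ρ (Dec (P v)) (Y v) ∧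
      a v = h1 ρ (Dec (P v)) (Y v))
    (ha : ∀ v ∈ S, 2 ∉ P v → Term ρ (P v) (a v)) :
    (Submodule.span E (Sel ρ cj B P Y)).FG ∧ Even (h1 ρ ⊤ (Sel ρ cj B P Y) + ∑ v ∈ S, a v) := by
  obtain ⟨m, rfl⟩ := even_iff_exists_two_mul.1 hn
  rcases m.eq_zero_or_pos with rfl | m0
  · have : Subsingleton (Fin (2 * 0) → E) := inferInstanceAs (Subsingleton (Fin 0 → E))
    refine ⟨by rw [Subsingleton.elim (Submodule.span E _) ⊥]; exact Submodule.fg_bot, ?_⟩
    rw [h1, qdim_zero, Finset.sum_eq_zero fun v hv => ?_]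
    · exact Even.zero
    by_cases h : 2 ∈ P v
    · rw [(h2 v h).2.2, h1, qdim_zero]
    obtain ⟨a1, a2, a3⟩ := ha v hv h
    by_cases b : Ram (P v)
    · obtain ⟨_, _, _, -, -, e⟩ := a3 b
      rw [e, fdim, qdim_zero]
    by_cases b' : Nonsplit (P v)
    · exact Nat.eq_zero_of_add_eq_zero_right (a2 b' b)
    · exact a1 b'
  obtain ⟨hρ, int, uni, b1, b2, b3, b4⟩ := hB
  obtain ⟨d, Q, hQ⟩ := exists_quad_cm L
  have : Algebra.IsAlgebraic (maximalRealSubfield L) (AlgebraicClosure L) :=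
    Algebra.IsAlgebraic.trans _ L _
  have : IsAlgClosure (maximalRealSubfield L) (AlgebraicClosure L) := ⟨inferInstance, this⟩
  have := IsUltrametricDist.of_normedAlgebra ℚ_[2] (L := E)
  have := FiniteDimensional.proper ℚ_[2] E
  have := charZero_of_injective_algebraMap (algebraMap ℚ_[2] E).injective
  obtain ⟨k, _, _, _, ⟨c⟩⟩ := exCF (E := E) (by
    rw [← map_ofNat (algebraMap ℚ_[2] E), norm_algebraMap']
    exact_mod_cast Padic.norm_p_lt_one (p := 2))
  let := ZMod.algebra k 2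
  have T := facts (maximalRealSubfield L) (AlgebraicClosure L)
  obtain ⟨j, s, hs, hcj⟩ := hcj
  let s' : Gal(AlgebraicClosure L/maximalRealSubfield L) := AlgEquiv.ofRingEquiv (f := s) fun x =>
    j.injective ((hs _).trans (x.2 (j.comp (algebraMap L _))))
  have hre : ∀ j (g : Gal(AlgebraicClosure L/maximalRealSubfield L)), Cj j g →
      g ∉ Gs (maximalRealSubfield L) (AlgebraicClosure L) L := fun j g hj hg => by
    have a := IsCMField.complexEmbedding_complexConj L (j.comp (algebraMap L _)) Q.rt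
    have b := hj (algebraMap L _ Q.rt)
    rw [hg Q.rt] at b
    rw [← hQ, Q.tau_rt, map_neg, RingHom.comp_apply, ← b] at a
    exact GlAux.ne Q ((map_eq_zero j).1 (by linear_combination (-1 / 2 : ℂ) * a))
  obtain ⟨J, hι, hJ, hH, hc⟩ := exIG Q (T.cj.sq (g := s') hs).1 (hre j _ hs) cj hcj
  choose P₀ hP₀ using T.pr.ex (maximalRealSubfield L)
  obtain ⟨π, -⟩ := exPlc P₀ hP₀
  have ec : ∀ g, cycE E _ _ (J.ι g) = cyc E g := fun g => by
    rw [show J.ι g = g.restrictScalars _ from AlgEquiv.ext (hι g)]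
    rfl
  obtain ⟨U, hU, hB⟩ := exVD (c := c) J (cycE E _ _) (akK π c).rd_chi (by
      rw [hJ, cycE_apply, T.fr.cyc_cj (g := s') hs]
      simp) m0 (Fintype.card_fin _) ρ hρ int uni B b1 b2 b3 fun g => by rw [hc, ec, b4]
  have ua : ∀ g x, U.ρ.ac g x = ρ g *ᵥ x := fun g x => by rw [hU]; rfl
  have ov : ∀ {F : Type} [Field F] [Algebra F (AlgebraicClosure L)]
      {𝔓 : Ideal (𝓞 (AlgebraicClosure L))} {w : Pr F}, Over 𝔓 w → 𝔓.under (𝓞 F) = w.asIdeal :=
    fun h => Ideal.ext fun x => (h.2 x).symm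
  have hP' : ∀ v, Over (P v) v := fun v => ⟨(hP v).1, fun x => by rw [← (hP v).2]; rfl⟩
  choose w hw using fun v => T.pr.under L (P v) (hP v).1
  have ns : ∀ v, Nonsplit (P v) ↔ Q.act (w v) = w v := fun v => by
    rw [Nonsplit, ov (hw v), HeightOneSpectrum.ext_iff, (st_Qd st_Cn).act_ideal,
      ← Ideal.map_coe Q.sg, ← Ideal.map_coe (IsCMField.ringOfIntegersComplexConj L)]
    congr! 3
    ext x
    exact congrArg (fun f => f (x : L)) hQ.symm
  have rm : ∀ v, ¬ Ram (P v) → eI (maximalRealSubfield L) (w v) = 1 := fun v h => by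
    rwa [Ram, not_not, ov (hw v)] at h
  have i0 : ∀ 𝔓 : Ideal (𝓞 (AlgebraicClosure L)), 𝔓.IsMaximal → ∀ a,
      (∀ g : SC.Dec L 𝔓, U.ρ.ac g a = a) → a = 0 := fun 𝔓 h a ha =>
    (Submodule.finrank_eq_zero.1 ((fdim_inv hρ).symm.trans (inv 𝔓 h))).le (hU ▸ ha)
  let Y' := fun v => (Y v).map (LinearMap.funLeft E _ (Subtype.val : Dec (P v) → _))
  have hB' : ∀ v, 2 ∈ P v → (U.ρ.res _).B1 ≤ Y' v := fun v h =>
    hU ▸ (cond_le hρ (h2 v h).2.1).1
  have hZ : ∀ v, 2 ∈ P v → Y' v ≤ (U.ρ.res _).Z1 := fun v h => hU ▸ (cond_le hρ (h2 v h).2.1).2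
  obtain ⟨fd, ev⟩ := mainR hι U i0 Q hH hre P hP' w hw (fun v h => (ns v).not.1 (h2 v h).1) S
    (fun v hv => ⟨(hS v hv _ (hP v).1 (hP v).2).1, rm v (hS v hv _ (hP v).1 (hP v).2).2.1,
      fun 𝔓 h g hg => LinearMap.ext fun x => by
        rw [ua, (hS v hv _ h.1 (ov h)).2.2 g hg, one_mulVec]; rfl⟩) Y' hB' hZ a fun v hv h => by
    obtain ⟨a1, a2, a3⟩ := ha v hv h
    by_cases b : Ram (P v)
    · obtain ⟨t, σ, _, ⟨⟨τ, t1, t2, t3⟩, t4⟩, ⟨u, u1, u2, rfl, u3⟩, e⟩ := a3 b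
      let τ' : Gal(AlgebraicClosure L/maximalRealSubfield L) := AlgEquiv.ofRingEquiv (f := τ)
        fun x => (t3 x).trans (congrArg _ (IsCMField.complexConj_apply_eq_self L x))
      rw [ov (hw v)] at t4 u3
      have ea : ∀ g, U.ρ.ac g = toLinAlgEquiv' (ρ g) := fun g => by rw [hU]; rfl
      have := locRam hι U i0 (hw v) h (τ := τ') ((T.pr.mem_ine _ _).2 fun x => t1 x _ rfl)
        (fun hg => by
          have a := t3 Q.rt
          rw [← hQ, Q.tau_rt, map_neg] at a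
          have := ((hH ▸ hg) Q.rt).symm.trans a
          exact GlAux.ne Q (by linear_combination (1 / 2 : AlgebraicClosure L) * this))
        (AlgEquiv.ext fun x => (hι t x).trans (t2 x)) t4 u1 u2 (by
          simpa only [ea, aeval_algHom_apply, map_pow, map_mul, map_sum, map_nsmul] using
            congrArg toLinAlgEquiv' u3)
      rwa [e, fdim_eq (S := LinearMap.ker (aeval (U.ρ.ac t) u * U.ρ.ac σ - 1)) fun x => by
        simp only [ea, aeval_algHom_apply, ← map_mul, LinearMap.mem_ker, LinearMap.sub_apply,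
          sub_eq_zero, Set.mem_singleton_iff, forall_eq]
        rfl]
    obtain ⟨l1, l2, l3, y, l4⟩ := (locOdd hι Q hH (hw v) U i0 h fun e => (e (rm v b)).elim).2
    refine ⟨l1, l2, l3, ?_⟩
    by_cases b' : Nonsplit (P v)
    · have := a2 b' b
      rw [fdim_inv hρ, ← hU] at this
      rw [if_pos ((ns v).1 b')] at l4
      exact ⟨y + m - finrank E (Representation.invariants
        (U.ρ.ac.comp (SC.Ine L (P v)).subtype)), by change _ + finrank E (Representation.invariants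
          (U.ρ.ac.comp (SC.Ine L (P v)).subtype)) = _ at this; omega⟩
    · rw [if_neg ((ns v).not.1 b')] at l4
      exact ⟨y, a1 b' ▸ l4⟩
  have e : Sel ρ cj B P Y = U.Sel (fun v => SC.Dec L (P v)) (fun v => 2 ∈ P v) Y' := by
    ext x
    rw [SetLike.mem_coe, U.mem_Sel, hU, ← coc_top hρ]
    refine and_congr_right fun hx => (and_iff_right fun 𝔓 h h2 => ?_).trans
      (forall₂_congr fun v h => and_congr (cond_mem (h2 v h).2.1).symm ?_)
    · obtain ⟨u, hu⟩ := autoR hι U i0 h h2 (hU ▸ (coc_top hρ).1 hx)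
      exact ⟨u, fun g hg => (hu g hg).trans (by rw [ua])⟩
    rw [mem_perp, and_iff_right]
    · refine ⟨fun H _ ⟨y, hy, e⟩ => (H y hy).elim fun f hf => ⟨fun g => f g,
        continuousOn_iff_continuous_domRestrict.1 hf.1, fun g l => ?_⟩, fun H y hy => ?_⟩
      · rw [cupB, dq, hB, toBilin'_apply', ec, ← e]
        refine Eq.trans ?_ (hf.2 g g.2 l l.2)
        rw [← hc, ← hc, ← ua]
        rfl
      · obtain ⟨f, f1, f2⟩ := H _ ⟨y, hy, rfl⟩
        obtain ⟨f, rfl⟩ := ext1 f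
        refine ⟨f, continuousOn_iff_continuous_domRestrict.2 f1, fun g hg l hl => ?_⟩
        have := f2 ⟨g, hg⟩ ⟨l, hl⟩
        rw [cupB, dq, hB, toBilin'_apply', ec] at this
        refine Eq.trans ?_ this
        rw [← hc, ← hc, ← ua]
        rfl
    · refine ⟨(continuousOn_univ.1 hx.1).comp (J.ccj.comp continuous_subtype_val), fun g l => ?_⟩
      have := (hU ▸ (coc_top hρ).1 hx : x ∈ U.ρ.Z1).2 (J.cj g) (J.cj l)
      rwa [Rp.d2, ← map_mul] at this
  refine ⟨by rw [e, Submodule.span_eq]; exact (Submodule.fg_iff_finiteDimensional _).2 fd, ?_⟩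
  obtain ⟨𝔓, h𝔓⟩ := Ideal.exists_maximal (𝓞 (AlgebraicClosure L))
  have r := qd (B := U.ρ.B1) LinearMap.id (by
      rintro _ ⟨u, rfl⟩
      exact ⟨_, U.mem_Sel.2 ⟨U.ρ.d1_mem u, fun v h => ⟨hB' v h ⟨u, rfl⟩, mem_perp.2
        ⟨(U.ρc.res _).d1_mem u, fun t ht => cob_right (R' := U.ρc.res _) (fun g => U.equi g)
          (hZ v h ht) u⟩⟩⟩, rfl⟩) e (b := {x | SelTwo.Cob ρ ⊤ x})
    (Set.ext fun x => exists_congr fun u => ⟨fun h => funext fun g => by
      rw [Rp.d1_apply, ua]; exact (h g trivial).symm, fun h g _ => by rw [← ua]; exact (congrFun h g).symm⟩)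
  rw [Submodule.map_id, (U.ρ.rank_B1 fun a ha => i0 _ h𝔓 a fun g => ha g).trans U.rk] at r
  rw [r] at ev
  refine (Nat.even_add.1 ?_).1 ev
  rw [add_add_add_comm, add_right_comm _ (2 * m), ← Finset.sum_add_distrib]
  refine ((Even.add_self _).add (even_two_mul m)).add (Finset.even_sum _ fun v _ => ?_)
  split_ifs with h
  swap
  · exact Even.add_self _
  obtain ⟨Λ⟩ := exLD (K := L) c (hP v).1
  have : FiniteDimensional k (Hm k (Dec (P v))) := Λ.fin
  have : CompactSpace (Dec (P v)) := cptD _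
  have := U.Λ.fd (Ch.bd_of (hZ v h)) _ ((U.stab.res _).W_le (hZ v h))
  have r := qd _ (hB' v h) rfl (b := {x | SelTwo.Cob ρ (Dec (P v)) x})
    (Set.ext fun x => hU ▸ cob_iff hρ)
  rw [((U.ρ.res (Dec (P v))).rank_B1 (i0 _ (hP v).1)).trans U.rk] at r
  exact ⟨a v + m, (congrArg (· + _) r).trans (by rw [(h2 v h).2.2, h1]; ring)⟩

end Pool.Agent.SP
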