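import Pool.Agent.Lib.MP_b4b3cb_nt.Par.Ari

/-! The local conditions at the odd primes of a quadratic extension. -/

set_option linter.unusedSectionVars false

namespace Pool.Agent.SP

open scoped Classical Topology Pointwise
open Module NumberField Pool.Agent.Stark
open SC hiding Hm Rp V T Two Cob Sel Spl cup dq Cz Sz res

variable {K L Ω : Type} [Field K] [NumberField K] [Field L] [NumberField L] [Algebra K L]
  [Field Ω] [Algebra K Ω] [Algebra L Ω] [IsScalarTower K L Ω] [IsAlgClosed Ω] [IsGalois K Ω]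
  [IsGalois L Ω] [CharZero Ω] {J : IG Gal(Ω/L) Gal(Ω/K)} (hι : ∀ g x, J.ι g x = g x)
  {𝔓 : Ideal (𝓞 Ω)}

include hι

theorem i_smul (g : Gal(Ω/L)) (y : 𝓞 Ω) : J.ι g • y = g • y := RingOfIntegers.ext (hι g y)

theorem dec_iff (g : Gal(Ω/L)) : g ∈ Dec L 𝔓 ↔ J.ι g ∈ Dec K 𝔓 := by
  simp only [(facts K Ω).pr.mem_dec, (facts L Ω).pr.mem_dec, i_smul hι]

theorem ine_iff (g : Gal(Ω/L)) : g ∈ Ine L 𝔓 ↔ J.ι g ∈ Ine K 𝔓 := by
  simp only [(facts K Ω).pr.mem_ine, (facts L Ω).pr.mem_ine, i_smul hι]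

theorem dec_cj (g : Gal(Ω/L)) : J.cj g ∈ Dec L 𝔓 ↔ g ∈ Dec L (J.s • 𝔓) := by
  rw [dec_iff hι, dec_iff hι, (facts K Ω).pr.dec_conj, J.hcj, inv_eq_of_mul_eq_one_left J.ss]

theorem ine_cj (g : Gal(Ω/L)) : J.cj g ∈ Ine L (J.s • 𝔓) ↔ g ∈ Ine L 𝔓 := by
  rw [ine_iff hι, ine_iff hι, (facts K Ω).pr.ine_conj, J.hcj, inv_eq_of_mul_eq_one_left J.ss]
  simp only [mul_assoc, J.s_s, J.ss, mul_one]

omit hι [IsGalois L Ω] in
theorem ine_nor {σ g : Gal(Ω/K)} (h : σ ∈ Dec K 𝔓) (hg : g ∈ Ine K 𝔓) : σ⁻¹ * g * σ ∈ Ine K 𝔓 := by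
  rwa [← (facts K Ω).pr.ine_conj, MulAction.mem_stabilizer_iff.1 h]

variable {d : K} (Q : Quad K L d) (hH : J.H = Gs K Ω L) {w : Pr L} (hw : Over 𝔓 w)

include Q hH hw

omit hι [IsGalois L Ω] in
theorem dec_le : Dec K 𝔓 ≤ J.H ↔ Q.act w ≠ w := by
  rw [Q.split_iff, (facts K Ω).loc.sq ((facts K Ω).pr.below hw) Q.a_ne (glK.sq Q).2, Gs_self,
    inf_top_eq, hH]
  exact forall₂_congr fun g _ => GlAux.iff Q g

omit hι [IsGalois L Ω] in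
theorem ine_le (h2 : 2 ∉ 𝔓) (he : eI K w = 1) :
    Even (og (below K w) d) ∧ Ine K 𝔓 ≤ J.H := by
  have b := (facts K Ω).pr.below (F := K) hw
  have o := ((facts K Ω).pr.two b).1 h2
  have e : Even (og (below K w) d) := Int.not_odd_iff_even.1 fun a => by
    have := (QdAux.ram Q w o).2 a
    omega
  refine ⟨e, fun g hg => hH ▸ (GlAux.iff Q g).2 ?_⟩
  exact ((facts K Ω).ine.ine b o Q.a_ne (glK.sq Q).2).1 e g ⟨hg, by rw [Gs_self]; trivial⟩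

variable {E k : Type} [NontriviallyNormedField E] [IsUltrametricDist E] [NormedAlgebra ℚ_[2] E]
  [Field k] [Finite k] [CharP k 2] [Algebra (ZMod 2) k] {c : CF E k} [CompleteSpace E] [CharZero E]
  {V : Type} [NormedAddCommGroup V] [NormedSpace E V] [FiniteDimensional E V] {m : ℕ}
  (U : VD J c (cycE E K Ω) V m)
  (h0 : ∀ 𝔓 : Ideal (𝓞 Ω), 𝔓.IsMaximal → ∀ a, (∀ g : Dec L 𝔓, U.ρ.ac g a = a) → a = 0)

include h0

omit Q hH hw in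
theorem h0c (h : 𝔓.IsMaximal) (a : V) (ha : ∀ g : Dec L 𝔓, U.ρ.ac (J.cj g) a = a) : a = 0 :=
  h0 _ ((facts K Ω).pr.smul_max J.s h) a fun g => by
    rw [← J.cj_cj g]
    exact ha ⟨_, (dec_cj hι _).2 g.2⟩

theorem locIn (h2 : 2 ∉ 𝔓) (h : Q.act w = w) (he : eI K w = 1) :
    Even (∑ i ∈ Finset.range (2 * m), U.T.dm (U.R.res (Dec K 𝔓)).B1 i +
      finrank E (Representation.invariants (U.ρ.ac.comp (Ine L 𝔓).subtype))) := by
  have T := facts K Ω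
  obtain ⟨π, -⟩ := exPlc' (K := K) hw.1
  have b := T.pr.below (F := K) hw
  obtain ⟨⟨σ, s1⟩, hσ⟩ := exFr b
  obtain ⟨ev, le⟩ := ine_le Q hH hw h2 he
  have s2 : σ ∉ J.H := fun a => (Q.split_iff w).2 ((T.ine.leg b ((T.pr.two b).1 h2) Q.a_ne
    (glK.sq Q).2 ev σ (by rw [Gs_self]; trivial) hσ).1 ((GlAux.iff Q _).1 (hH ▸ a))) h
  have s3 := J.u1 _ (J.two _ _ s2 s2)
  have s4 : ∀ γ, J.ι (J.u σ * J.cj γ * (J.u σ)⁻¹) = σ * J.ι γ * σ⁻¹ := fun γ => by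
    simp only [map_mul, map_inv, J.u2 _ s2, J.hcj, mul_inv_rev, mul_assoc, J.s_s,
      mul_inv_cancel_left]
  obtain ⟨τ, hτ⟩ := genI (K := L) (k := k) hw.1 h2
  have s5 : J.u (σ * σ) ∈ Dec L 𝔓 := (dec_iff hι _).2 (by rw [s3]; exact mul_mem s1 s1)
  have s6 : IsFr 𝔓 (Ideal.absNorm w.asIdeal) (J.u (σ * σ)) := fun x => by
    have := T.fr.pow hw.1 (Ideal.absNorm_eq_zero_iff.not.2 (below K w).ne_bot) hσ 2 x
    rcases Q.efg w with e | e | e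
    · exact (e.1 h).elim
    · rwa [← e.2.2, pow_two, ← s3, i_smul hι] at this
    · omega
  have s7 : ∀ γ ∈ Ine L 𝔓, J.u σ * J.cj γ * (J.u σ)⁻¹ ∈ Ine L 𝔓 := fun γ hγ => by
    have := ine_nor (inv_mem s1) ((ine_iff hι _).1 hγ)
    rwa [inv_inv, ← s4, ← ine_iff hι] at this
  have s8 : ∀ γ ∈ Ine L 𝔓, cycE E K Ω (J.ι γ) = 1 := fun γ hγ => by
    rw [cycE_apply, T.fr.cyc_ine hw.1 h2 ((ine_iff hι _).1 hγ)]
    simp
  have s9 : ∀ f : Ine L 𝔓 → E, Continuous f → (∀ g h, ‖f (g * h) - f g - f h‖ ≤ 1) →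
      ∀ g g' : Ine L 𝔓, g'.1 = J.u σ * J.cj g * (J.u σ)⁻¹ → ‖f g' - cycE E K Ω σ * f g‖ ≤ 1 := by
    intro f f1 f2 g g' e
    let r : Ine K 𝔓 →* Ine L 𝔓 := (J.uD _ le).codRestrict _ fun g => (ine_iff hι _).2 (by
      change J.ι (J.u g) ∈ _
      rw [J.u1 _ (le g.2)]
      exact g.2)
    have := tame c hw.1 h2 s1 (fun g => f (r g)) (f1.comp
      ((J.cu.comp continuous_subtype_val).subtype_mk _)) (fun g h => by rw [map_mul]; exact f2 _ _)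
      ⟨_, (ine_iff hι _).1 g.2⟩ ⟨_, (ine_iff hι _).1 g'.2⟩ (by rw [← s4, ← e])
    rwa [show r ⟨_, (ine_iff hι _).1 g.2⟩ = g from Subtype.ext (J.u_ι _),
      show r ⟨_, (ine_iff hι _).1 g'.2⟩ = g' from Subtype.ext (J.u_ι _)] at this
  rw [U.nonsplit (dec_iff hι) s1 s2, add_comm m]
  exact U.inert s2 ((akK π c).rd_chi σ) s8 (fun _ a _ => ine_nor a) s7 ⟨_, s5⟩ rfl
    (genD hw h2 _ s6) τ hτ s9 ((facts L Ω).pr.le _) (h0 _ hw.1)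

theorem locOdd (h2 : 2 ∉ 𝔓) (hr : eI K w ≠ 1 → ∀ g ∈ Ine L 𝔓, U.ρ.ac g = 1) :
    (U.R.res (Dec K 𝔓)).Z1 = (U.R.res (Dec K 𝔓)).B1 ∧ U.Loc (Dec K 𝔓) (U.R.res (Dec K 𝔓)).B1
      (if Q.act w = w then finrank E (Representation.invariants (U.ρ.ac.comp (Ine L 𝔓).subtype))
        else 0) := by
  obtain ⟨Λ⟩ := exLD (K := K) c hw.1
  obtain ⟨π, -⟩ := exPlc' (K := K) hw.1
  have o := U.odd (dec_iff hι) (h0 _ hw.1) (h0c hι U h0 hw.1) Λ (rank2 hw.1 h2)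
  refine ⟨o.1, ?_⟩
  split_ifs with h
  swap
  · exact U.odd_split (dec_iff hι) (h0 _ hw.1) (h0c hι U h0 hw.1) Λ (rank2 hw.1 h2)
      ((dec_le Q hH hw).2 h) (akK π c).cχ (akK π c).rd_chi
  by_cases he : eI K w = 1
  · exact o.2 _ (locIn hι Q hH hw U h0 h2 h he)
  · obtain ⟨σ, s1, s2⟩ := SetLike.not_le_iff_exists.1 ((dec_le Q hH hw).not.2 (not_not.2 h))
    obtain ⟨φ, hφ⟩ := exFr hw
    exact U.odd_unr (dec_iff hι) (h0 _ hw.1) (h0c hι U h0 hw.1) Λ (rank2 hw.1 h2) s1 s2 φ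
      (genD hw h2 φ hφ) (hr he)

end Pool.Agent.SP
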