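import Pool.Agent.Lib.MP_b4b3cb_nt.Par.Coh

/-! Global duality data, Selmer cochains and the pairing on them. -/

namespace Pool.Agent.SP

open scoped Classical
open Module

variable {E k : Type} [NontriviallyNormedField E] [Field k] {G P : Type} [Group G]
  [TopologicalSpace G]

variable (k) in
/-- Characters unramified outside `S`. -/
def Un (I : P → Subgroup G) (S : Finset P) : Submodule k (G → k) where
  carrier := {y | y ∈ Hm k G ∧ ∀ v ∉ S, ∀ g ∈ I v, y g = 0}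
  add_mem' := fun {a b} ha hb => ⟨add_mem ha.1 hb.1,
    fun v hv g hg => by simp [ha.2 v hv g hg, hb.2 v hv g hg]⟩
  zero_mem' := ⟨zero_mem _, fun _ _ _ _ => rfl⟩
  smul_mem' := fun c a ha => ⟨Submodule.smul_mem _ c ha.1,
    fun v hv g hg => by simp [ha.2 v hv g hg]⟩

variable (G P) in
/-- Global duality data. -/
structure AK (c : CF E k) where
  /-- the cyclotomic character -/
  χ : G →* E
  χ2 : ∀ g, ‖χ g - 1‖ ≤ ‖(2 : E)‖
  cχ : Continuous χ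
  /-- decomposition groups -/
  D : P → Subgroup G
  /-- inertia groups -/
  I : P → Subgroup G
  cpt : ∀ v, CompactSpace (D v)
  /-- local duality -/
  ld : ∀ v, LD (D v) c fun g => χ g
  rglob : ∀ b : G → G → E, (Continuous fun p : G × G => b p.1 p.2) →
    (∀ g h l, ‖χ g * b h l - b (g * h) l + b g (h * l) - b g h‖ ≤ 1) →
    ∀ ε : ∀ v, D v → D v → k, (∀ v, Cz (ε v)) →
    (∀ v, ∃ f : D v → E, Continuous f ∧
      ∀ g h : D v, c.Rd (c.π * (b g h - dq (fun g : D v => χ g) f g h)) (ε v g h)) →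
    ∀ S : Finset P, (∀ v ∉ S, (ld v).inv (ε v) = 0) → ∑ v ∈ S, (ld v).inv (ε v) = 0
  recip : ∀ ε : G → G → k, Cz ε → ∀ S : Finset P,
    (∀ v ∉ S, (ld v).inv (fun g h => ε g h) = 0) → ∑ v ∈ S, (ld v).inv (fun g h => ε g h) = 0
  abhn : ∀ ε : G → G → k, Cz ε → (∀ v, Sz fun g h : D v => ε g h) → Sz ε
  finI : ∀ U ∈ nhds (1 : G), {v | ¬ (I v : Set G) ⊆ U}.Finite
  le : ∀ v, I v ≤ D v
  finS : ∀ S : Finset P, FiniteDimensional k (Un k I S)
  lag : ∀ S₀ : Finset P, ∃ S : Finset P, S₀ ⊆ S ∧ ∀ b : ∀ v, D v → k,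
    (∀ v ∈ S, b v ∈ Hm k (D v)) →
    (∀ y ∈ Un k I S, ∑ v ∈ S, (ld v).sym (fun g => y g) (b v) = 0) →
    ∃ z ∈ Un k I S, ∀ v ∈ S, (fun g : D v => z g) = b v

variable {c : CF E k}

/-- A symplectic representation with a self-dual chain and self-dual local conditions. -/
structure SD (A : AK G P c) (W : Type) [NormedAddCommGroup W] [NormedSpace E W] (n : ℕ) where
  /-- the chain -/
  C : Ch c W (2 * n)
  /-- the representation -/
  R : Rp E G W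
  /-- the symplectic form -/
  om : W →ₗ[E] W →ₗ[E] E
  /-- the bilinear refinement of the symplectic form -/
  be : W →ₗ[E] W →ₗ[E] E
  om_eq : ∀ u v, om u v = be u v - be v u
  /-- the local conditions -/
  Y : ∀ v, Submodule E (A.D v → W)
  /-- the bad places -/
  S₀ : Finset P
  stab : C.Stab R
  pa : Pa C C om
  equi : Equi A.χ R R om
  be_le : ∀ (r : ℤ) u v, u ∈ C.T (r * n) → v ∈ C.T (r * n) → ‖be u v / c.π ^ r‖ ≤ 1
  be_ac : ∀ g u, be (R.ac g u) (R.ac g u) = A.χ g * be u u ∨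
    be (R.ac g u) (R.ac g u) = -(A.χ g * be u u)
  coc : ∀ v, Y v ≤ (R.res (A.D v)).Z1
  iso : ∀ v, ∀ t ∈ Y v, ∀ t' ∈ Y v,
    Cob (fun g : A.D v => A.χ g) (cupB om (R.res (A.D v)) t t')
  good0 : ∀ v ∉ S₀, ∀ t ∈ Y v, ∀ g : A.D v, g.1 ∈ A.I v → t g = 0
  good1 : ∀ v ∉ S₀, ∀ i, ∀ f ∈ Hm k (A.D v), (∀ g : A.D v, g.1 ∈ A.I v → f g = 0) →
    f ∈ C.Wd (Y v) i
  big : ∀ v i j, i + j = -1 → finrank k (Hm k (A.D v)) ≤ C.dm (Y v) i + C.dm (Y v) j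

namespace SD

variable {A : AK G P c} {W : Type} [NormedAddCommGroup W] [NormedSpace E W] {n : ℕ} (X : SD A W n)

/-- The local condition modulo `T j`. -/
def LocC (v : P) (i j : ℤ) (x : G → W) : Prop :=
  ∃ t ∈ X.C.Z (X.Y v) i, ∀ g : A.D v, x g - t g ∈ X.C.T j

/-- Selmer cochains of `T i / T j`. -/
def Sl (i j : ℤ) : AddSubgroup (G → W) where
  carrier := {x | x ∈ X.C.Lev X.R i j ∧ ∀ v, X.LocC v i j x}
  add_mem' := fun {a b} ha hb => ⟨add_mem ha.1 hb.1, fun v => by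
    obtain ⟨s, hs, h⟩ := ha.2 v
    obtain ⟨t, ht, h'⟩ := hb.2 v
    exact ⟨s + t, add_mem hs ht, fun g => by
      simpa [add_sub_add_comm] using add_mem (h g) (h' g)⟩⟩
  zero_mem' := ⟨zero_mem _, fun v => ⟨0, zero_mem _, by simp⟩⟩
  neg_mem' := fun {a} ha => ⟨neg_mem ha.1, fun v => by
    obtain ⟨s, hs, h⟩ := ha.2 v
    exact ⟨-s, neg_mem hs, fun g => by simpa [neg_add_eq_sub] using neg_mem (h g)⟩⟩

variable {X}

theorem z_smul {Z : Type} {Y : Submodule E (Z → W)} {i : ℤ} {t : Z → W} (ht : t ∈ X.C.Z Y i)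
    {a : E} (ha : ‖a‖ ≤ 1) : a • t ∈ X.C.Z Y i :=
  ⟨Y.smul_mem a ht.1, fun g => X.C.smul ha (ht.2 g)⟩

theorem sl_smul {i j : ℤ} {x : G → W} (hx : x ∈ X.Sl i j) {a : E} (ha : ‖a‖ ≤ 1) :
    a • x ∈ X.Sl i j :=
  ⟨Ch.lev_smul hx.1 ha, fun v => by
    obtain ⟨s, hs, h⟩ := hx.2 v
    exact ⟨a • s, z_smul hs ha, fun g => by simpa [smul_sub] using X.C.smul ha (h g)⟩⟩

theorem sl_mono {i i' j j' : ℤ} (h : i' ≤ i) (h' : j' ≤ j) : X.Sl i j ≤ X.Sl i' j' :=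
  fun _ hx => ⟨Ch.lev_mono h h' hx.1, fun v => by
    obtain ⟨s, hs, e⟩ := hx.2 v
    exact ⟨s, X.C.Z_anti h hs, fun g => X.C.anti h' (e g)⟩⟩

theorem sl_up {i i' j : ℤ} (h : i' ≤ j) {x : G → W} (hx : x ∈ X.Sl i j)
    (h' : ∀ g, x g ∈ X.C.T i') : x ∈ X.Sl i' j :=
  ⟨⟨hx.1.1, h', hx.1.2.2⟩, fun v => by
    obtain ⟨s, hs, e⟩ := hx.2 v
    exact ⟨s, ⟨hs.1, fun g => by simpa using sub_mem (h' g) (X.C.anti h (e g))⟩, e⟩⟩

theorem sl_per {i j : ℤ} {x : G → W} (m : ℤ) (hx : x ∈ X.Sl i j) :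
    c.π ^ m • x ∈ X.Sl (i + m * (2 * n : ℕ)) (j + m * (2 * n : ℕ)) :=
  ⟨Ch.lev_per m hx.1, fun v => by
    obtain ⟨s, hs, e⟩ := hx.2 v
    exact ⟨c.π ^ m • s, ⟨Submodule.smul_mem _ _ hs.1, fun g => (X.C.per_zpow m _ _).2 (hs.2 g)⟩,
      fun g => by simpa [smul_sub] using (X.C.per_zpow m _ _).2 (e g)⟩⟩

variable (X)

/-- The image of the Selmer group of `T i / T (i + m)` in the characters. -/
def SS (i : ℤ) (m : ℕ) : Submodule k (G → k) where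
  carrier := {f | ∃ x ∈ X.Sl i (i + m), f = fun g => X.C.lam i (x g)}
  add_mem' := by
    rintro _ _ ⟨a, ha, rfl⟩ ⟨b, hb, rfl⟩
    exact ⟨a + b, add_mem ha hb, funext fun g => (X.C.lam_add (ha.1.2.1 g) (hb.1.2.1 g)).symm⟩
  zero_mem' := ⟨0, zero_mem _, funext fun _ => (X.C.lam_of (zero_mem _)).symm⟩
  smul_mem' := by
    rintro a _ ⟨t, ht, rfl⟩
    refine ⟨c.sc a • t, sl_smul ht (c.sc_le a), funext fun g => ?_⟩
    rw [Pi.smul_apply, Pi.smul_apply, X.C.lam_smul (c.sc_le a) (ht.1.2.1 g), c.rd_sc, smul_eq_mul]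

theorem ss_le (i r : ℤ) (m : ℕ) : X.SS i m ≤ X.SS (i + r * (2 * n : ℕ)) m := by
  rintro _ ⟨x, hx, rfl⟩
  refine ⟨c.π ^ r • x, ?_, funext fun g => (X.C.lam_zpow r (hx.1.2.1 g)).symm⟩
  rw [add_right_comm]
  exact sl_per r hx

theorem ss_per (i : ℤ) (m : ℕ) : X.SS (i + (2 * n : ℕ)) m = X.SS i m :=
  le_antisymm (by simpa using X.ss_le (i + (2 * n : ℕ)) (-1) m) (by simpa using X.ss_le i 1 m)

theorem ss_one (i : ℤ) (y : G → k) : y ∈ X.SS i 1 ↔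
    y ∈ Hm k G ∧ ∀ v, (fun g : A.D v => y g) ∈ X.C.Wd (X.Y v) i := by
  constructor
  · rintro ⟨x, hx, rfl⟩
    refine ⟨X.stab.hom hx.1 (by simp), fun v => ?_⟩
    obtain ⟨s, hs, e⟩ := hx.2 v
    exact ⟨s, hs, funext fun g => X.C.lam_congr (hs.2 g) (e g)⟩
  · rintro ⟨h1, h2⟩
    obtain ⟨x, hx, e⟩ := X.stab.lev_hom i h1
    refine ⟨x, ⟨hx, fun v => ?_⟩, funext fun g => (e g).symm⟩
    obtain ⟨s, hs, e'⟩ := h2 v
    exact ⟨s, hs, fun g => X.C.sub_mem_of (hx.2.1 g) (hs.2 g) ((e g).trans (congrFun e' g))⟩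

theorem W_le (v : P) (i : ℤ) : X.C.Wd (X.Y v) i ≤ Hm k (A.D v) :=
  (X.stab.res _).W_le (X.coc v) i

theorem sym_iso (v : P) {i j : ℤ} (h : i + j = -1) {a b : A.D v → k} (ha : a ∈ X.C.Wd (X.Y v) i)
    (hb : b ∈ X.C.Wd (X.Y v) j) : (A.ld v).sym a b = 0 :=
  (A.ld v).iso X.pa (X.stab.res _) (X.stab.res _) (X.coc v) (X.coc v) (X.iso v) h ha hb

theorem lev_loc {v : P} {i j l : ℤ} {x : G → W} (hx : x ∈ X.C.Lev X.R i l) {t : A.D v → W}
    (ht : t ∈ X.Y v) (h : ∀ g : A.D v, x g - t g ∈ X.C.T j) :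
    (fun g : A.D v => x g - t g) ∈ X.C.Lev (X.R.res (A.D v)) j l :=
  ⟨(hx.1.comp continuous_subtype_val).sub (X.coc v ht).1, h, fun g l => by
    have := (X.R.res (A.D v)).d2_sub (fun g => x g) t g l
    rw [(X.coc v ht).2, sub_zero] at this
    exact this ▸ hx.2.2 g l⟩

theorem good {v : P} (hv : v ∉ X.S₀) {i j : ℤ} (hij : i ≤ j) {x : G → W}
    (hx : x ∈ X.C.Lev X.R i j) (h0 : ∀ g ∈ A.I v, x g ∈ X.C.T j) : X.LocC v i j x := by
  induction j, hij using Int.leInduction with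
  | base => exact ⟨0, zero_mem _, fun g => by simpa using hx.2.1 g⟩
  | succ j hij ih =>
    obtain ⟨t, t1, t2⟩ := ih (Ch.lev_mono le_rfl (by omega) hx) fun g h => X.C.succ _ (h0 g h)
    obtain ⟨s, s1, s2⟩ := X.good1 v hv j _ ((X.stab.res _).hom (X.lev_loc hx t1.1 t2) (by omega))
      fun g h => X.C.lam_of (by rw [X.good0 v hv t t1.1 g h, sub_zero]; exact h0 g h)
    refine ⟨t + s, add_mem t1 (X.C.Z_anti hij s1), fun g => ?_⟩
    rw [Pi.add_apply, ← sub_sub]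
    exact X.C.sub_mem_of (t2 g) (s1.2 g) (congrFun s2 g)

theorem good_iff {v : P} (hv : v ∉ X.S₀) (i : ℤ) {y : G → k} (hy : y ∈ Hm k G) :
    (fun g : A.D v => y g) ∈ X.C.Wd (X.Y v) i ↔ ∀ g ∈ A.I v, y g = 0 := by
  refine ⟨fun ⟨t, t1, t2⟩ g hg => ?_, fun h => X.good1 v hv i _ (Hm.res hy _) fun g hg => h g hg⟩
  have := congrFun t2 ⟨g, A.le v hg⟩
  rw [X.good0 v hv t t1.1 _ hg] at this
  exact this.trans (X.C.lam_of (zero_mem _))

/-- Witnesses for the pairing. -/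
structure Wt (i j : ℤ) (x x' : G → W) (t : ∀ v, A.D v → W) : Prop where
  lev : x' ∈ X.C.Lev X.R i (j + 1)
  sub : ∀ g, x' g - x g ∈ X.C.T j
  z : ∀ v, t v ∈ X.C.Z (X.Y v) i
  loc : ∀ v (g : A.D v), x' g - t v g ∈ X.C.T j

/-- The local characters of a witness. -/
def df (j : ℤ) (x' : G → W) (t : ∀ v, A.D v → W) (v : P) : A.D v → k :=
  fun g => X.C.lam j (x' g - t v g)

/-- `e` is a value of the pairing of `x` with `y`. -/
def PV (i j : ℤ) (x : G → W) (y : G → k) (e : k) : Prop :=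
  ∃ (x' : G → W) (t : ∀ v, A.D v → W) (S : Finset P), X.Wt i j x x' t ∧
    (∀ v ∉ S, (A.ld v).sym (fun g => y g) (X.df j x' t v) = 0) ∧
    e = ∑ v ∈ S, (A.ld v).sym (fun g => y g) (X.df j x' t v)

variable {X} {i j : ℤ} {x x' x₁ x₂ : G → W} {t t₁ t₂ : ∀ v, A.D v → W} {y y' : G → k} {e e' : k}

theorem Wt.hom (h : X.Wt i j x x' t) (v : P) : X.df j x' t v ∈ Hm k (A.D v) :=
  (X.stab.res _).hom (X.lev_loc h.lev (h.z v).1 (h.loc v)) (by omega)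

theorem wt_ex [ContinuousMul G] (hij : i ≤ j) (hx : x ∈ X.Sl i j) :
    ∃ (x' : G → W) (t : ∀ v, A.D v → W) (S : Finset P), X.S₀ ⊆ S ∧ X.Wt i j x x' t ∧
      (∀ v ∉ S, ∀ g ∈ A.I v, x' g ∈ X.C.T (j + 1)) ∧ ∀ v ∉ S, X.df j x' t v = 0 := by
  obtain ⟨x', hx', hd⟩ := X.stab.lift hx.1 hij (A.abhn _ (X.stab.cz hx.1) fun v => by
    obtain ⟨t, t1, t2⟩ := hx.2 v
    refine ⟨_, X.C.lc (X.lev_loc hx.1 t1.1 t2).1 t2, fun g h => ?_⟩
    have := ((X.stab.res (A.D v)).lam_d2 (a := (fun g : A.D v => x g) - t) t2 g h).2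
    rw [Rp.d2_sub, (X.coc v t1.1).2, sub_zero] at this
    exact this)
  have hF := A.finI _ (((X.C.isOpen (j + 1)).preimage hx'.1).mem_nhds
    (show x' 1 ∈ X.C.T (j + 1) from X.R.d2_one x' ▸ hx'.2.2 1 1))
  have hI : ∀ v ∉ X.S₀ ∪ hF.toFinset, ∀ g ∈ A.I v, x' g ∈ X.C.T (j + 1) := fun v hv g hg => by
    have h2 : v ∉ hF.toFinset := fun h => hv (Finset.mem_union_right _ h)
    rw [Set.Finite.mem_toFinset, Set.mem_ofPred_eq, not_not] at h2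
    exact h2 hg
  have hex : ∀ v, ∃ t ∈ X.C.Z (X.Y v) i, (∀ g : A.D v, x' g - t g ∈ X.C.T j) ∧
      (v ∉ X.S₀ ∪ hF.toFinset → ∀ g : A.D v, x' g - t g ∈ X.C.T (j + 1)) := fun v => by
    by_cases hv : v ∈ X.S₀ ∪ hF.toFinset
    · obtain ⟨t, ht, hm⟩ := hx.2 v
      exact ⟨t, ht, fun g => by simpa using add_mem (hd g) (hm g), fun h => absurd hv h⟩
    · obtain ⟨t, ht, hm⟩ := X.good (fun h => hv (Finset.mem_union_left _ h)) (by omega) hx'
        (hI v hv)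
      exact ⟨t, ht, fun g => X.C.succ _ (hm g), fun _ => hm⟩
  choose t ht hm hm' using hex
  exact ⟨x', t, _, Finset.subset_union_left, ⟨hx', hd, ht, hm⟩, hI,
    fun v hv => funext fun g => X.C.lam_of (hm' v hv g)⟩

theorem sum_big {f : P → k} {S S' : Finset P} (h : S ⊆ S') (h0 : ∀ v ∉ S, f v = 0) :
    ∑ v ∈ S, f v = ∑ v ∈ S', f v := Finset.sum_subset h fun v _ hv => h0 v hv

theorem PV.uniq (hy : y ∈ X.SS (-j - 1) 1) (h : X.PV i j x y e) (h' : X.PV i j x y e') :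
    e = e' := by
  obtain ⟨x₁, t₁, S₁, w₁, h0₁, rfl⟩ := h
  obtain ⟨x₂, t₂, S₂, w₂, h0₂, rfl⟩ := h'
  obtain ⟨hyH, hyW⟩ := (X.ss_one _ y).1 hy
  have hm : ∀ g, x₁ g - x₂ g ∈ X.C.T j := fun g => by simpa using sub_mem (w₁.sub g) (w₂.sub g)
  have h12 := sub_mem w₁.lev w₂.lev
  have hz : (fun g => X.C.lam j (x₁ g - x₂ g)) ∈ Hm k G :=
    X.stab.hom (x := x₁ - x₂) ⟨h12.1, hm, h12.2.2⟩ (lt_add_one j)
  have key : ∀ v, (A.ld v).sym (fun g => y g) (X.df j x₁ t₁ v) =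
      (A.ld v).sym (fun g => y g) (X.df j x₂ t₂ v) +
        (A.ld v).sym (fun g => y g) fun g => X.C.lam j (x₁ g - x₂ g) := fun v => by
    have hmt : ∀ g, (t₂ v - t₁ v) g ∈ X.C.T j := fun g => by
      convert sub_mem (sub_mem (w₁.loc v g) (w₂.loc v g)) (hm g) using 1
      simp only [Pi.sub_apply]; abel
    have hW : (fun g => X.C.lam j ((t₂ v - t₁ v) g)) ∈ X.C.Wd (X.Y v) j :=
      ⟨_, ⟨sub_mem (w₂.z v).1 (w₁.z v).1, hmt⟩, rfl⟩
    have hyv := Hm.res hyH (A.D v)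
    have hzv := Hm.res hz (A.D v)
    rw [← add_zero (_ + _), ← X.sym_iso v (by omega) (hyW v) hW,
      ← (A.ld v).add_right hyv (w₂.hom v) hzv,
      ← (A.ld v).add_right hyv (add_mem (w₂.hom v) hzv) (X.W_le v j hW)]
    congr 1
    ext g
    simp only [Pi.add_apply, df]
    rw [← X.C.lam_add (w₂.loc v g) (hm g), ← X.C.lam_add (add_mem (w₂.loc v g) (hm g)) (hmt g)]
    congr 1
    simp only [Pi.sub_apply]; abel
  have hrec : ∑ v ∈ S₁ ∪ S₂, (A.ld v).sym (fun g => y g) (fun g => X.C.lam j (x₁ g - x₂ g)) = 0 := by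
    refine A.recip _ (cz_cup hyH hz) _ fun v hv => ?_
    have h1 := key v
    rw [h0₁ v fun h => hv (Finset.mem_union_left _ h),
      h0₂ v fun h => hv (Finset.mem_union_right _ h), zero_add] at h1
    exact h1.symm
  rw [sum_big (Finset.subset_union_left (s₂ := S₂)) h0₁,
    sum_big (Finset.subset_union_right (s₁ := S₁)) h0₂, Finset.sum_congr rfl fun v _ => key v,
    Finset.sum_add_distrib, hrec, add_zero]

theorem PV.add (hy : y ∈ Hm k G) (h : X.PV i j x y e) (h' : X.PV i j x' y e') :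
    X.PV i j (x + x') y (e + e') := by
  obtain ⟨x₁, t₁, S₁, w₁, h0₁, rfl⟩ := h
  obtain ⟨x₂, t₂, S₂, w₂, h0₂, rfl⟩ := h'
  have key : ∀ v, (A.ld v).sym (fun g => y g) (X.df j (x₁ + x₂) (t₁ + t₂) v) =
      (A.ld v).sym (fun g => y g) (X.df j x₁ t₁ v) +
        (A.ld v).sym (fun g => y g) (X.df j x₂ t₂ v) := fun v => by
    rw [← (A.ld v).add_right (Hm.res hy _) (w₁.hom v) (w₂.hom v)]
    congr 1
    ext g
    simp only [Pi.add_apply, df]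
    rw [← X.C.lam_add (w₁.loc v g) (w₂.loc v g), add_sub_add_comm]
  refine ⟨x₁ + x₂, t₁ + t₂, S₁ ∪ S₂, ⟨add_mem w₁.lev w₂.lev, fun g => ?_,
    fun v => add_mem (w₁.z v) (w₂.z v), fun v g => ?_⟩, fun v hv => ?_, ?_⟩
  · simpa [add_sub_add_comm] using add_mem (w₁.sub g) (w₂.sub g)
  · simpa [add_sub_add_comm] using add_mem (w₁.loc v g) (w₂.loc v g)
  · rw [key v, h0₁ v fun h => hv (Finset.mem_union_left _ h),
      h0₂ v fun h => hv (Finset.mem_union_right _ h), add_zero]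
  · rw [sum_big (Finset.subset_union_left (s₂ := S₂)) h0₁,
      sum_big (Finset.subset_union_right (s₁ := S₁)) h0₂, Finset.sum_congr rfl fun v _ => key v,
      Finset.sum_add_distrib]

theorem PV.smul (hy : y ∈ Hm k G) (h : X.PV i j x y e) (r : k) :
    X.PV i j (c.sc r • x) y (r * e) := by
  obtain ⟨x₁, t₁, S₁, w₁, h0₁, rfl⟩ := h
  have key : ∀ v, (A.ld v).sym (fun g => y g) (X.df j (c.sc r • x₁) (c.sc r • t₁) v) =
      r * (A.ld v).sym (fun g => y g) (X.df j x₁ t₁ v) := fun v => by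
    rw [← (A.ld v).smul_right r (Hm.res hy _) (w₁.hom v)]
    congr 1
    ext g
    simp only [Pi.smul_apply, df]
    rw [← smul_sub, X.C.lam_smul (c.sc_le r) (w₁.loc v g), c.rd_sc, smul_eq_mul]
  refine ⟨c.sc r • x₁, c.sc r • t₁, S₁, ⟨Ch.lev_smul w₁.lev (c.sc_le r), fun g => ?_,
    fun v => z_smul (w₁.z v) (c.sc_le r), fun v g => ?_⟩, fun v hv => ?_, ?_⟩
  · simpa [smul_sub] using X.C.smul (c.sc_le r) (w₁.sub g)
  · simpa [smul_sub] using X.C.smul (c.sc_le r) (w₁.loc v g)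
  · rw [key v, h0₁ v hv, mul_zero]
  · rw [Finset.sum_congr rfl fun v _ => key v, Finset.mul_sum]

theorem PV.nat {i' : ℤ} (hi : i' ≤ i) (h : X.PV i j x y e) : X.PV i' j x y e := by
  obtain ⟨x', t, S, w, h4, h5⟩ := h
  exact ⟨x', t, S, ⟨Ch.lev_mono hi le_rfl w.lev, w.sub, fun v => X.C.Z_anti hi (w.z v), w.loc⟩,
    h4, h5⟩

theorem pv_zero (hx : x' ∈ X.Sl i (j + 1)) (hd : ∀ g, x' g - x g ∈ X.C.T j) : X.PV i j x y 0 := by
  choose t ht hm using hx.2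
  refine ⟨x', t, ∅, ⟨hx.1, hd, ht, fun v g => X.C.succ _ (hm v g)⟩, fun v _ => ?_, by simp⟩
  rw [show X.df j x' t v = 0 from funext fun g => X.C.lam_of (hm v g), LD.sym_zero]

variable (X) in
/-- The pairing as a function. -/
noncomputable def pr (i j : ℤ) (x : G → W) (y : G → k) : k :=
  if h : ∃ e, X.PV i j x y e then h.choose else 0

theorem PV.eq (hy : y ∈ X.SS (-j - 1) 1) (h : X.PV i j x y e) : X.pr i j x y = e := by
  rw [pr, dif_pos ⟨e, h⟩]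
  exact PV.uniq hy (Exists.choose_spec (⟨e, h⟩ : ∃ e, X.PV i j x y e)) h

theorem Wt.pv (w : X.Wt i j x x' t) {S : Finset P} (h : ∀ v ∉ S, X.df j x' t v = 0) (y : G → k) :
    X.PV i j x y (∑ v ∈ S, (A.ld v).sym (fun g => y g) (X.df j x' t v)) :=
  ⟨x', t, S, w, fun v hv => by rw [h v hv, LD.sym_zero], rfl⟩

theorem pv_pr [ContinuousMul G] (hij : i ≤ j) (hx : x ∈ X.Sl i j) (y : G → k) :
    X.PV i j x y (X.pr i j x y) := by
  obtain ⟨x', t, S, -, w, -, h⟩ := wt_ex hij hx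
  rw [pr, dif_pos ⟨_, w.pv h y⟩]
  exact Exists.choose_spec (⟨_, w.pv h y⟩ : ∃ e, X.PV i j x y e)

end SD

end Pool.Agent.SP
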