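import Pool.Agent.Lib.MP_b4b3cb_nt.Par.Inert

/-! The places away from two. -/

namespace Pool.Agent.SP

open scoped Classical
open Module

variable {E k : Type} [NontriviallyNormedField E] [Field k] {Γ G : Type} [Group Γ]
  [TopologicalSpace Γ] [Group G] [TopologicalSpace G] {J : IG Γ G} {c : CF E k} {χ : G →* E}
  {V : Type} [NormedAddCommGroup V] [NormedSpace E V] {m : ℕ} (U : VD J c χ V m)
  [Finite k] [IsUltrametricDist E] [CompleteSpace E] [FiniteDimensional E V] [CharP k 2]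
  {D : Subgroup G} [CompactSpace D]

namespace VD

theorem locB (L : LD D c fun g => χ g) {h' : ℕ} (hh : finrank k (Hm k D) ≤ h')
    (hr : 2 * m * h' ≤ finrank E (U.R.res D).B1) : (U.R.res D).Z1 = (U.R.res D).B1 ∧
      ∀ p, Even (∑ i ∈ Finset.range (2 * m), U.T.dm (U.R.res D).B1 i + m * h' + p) →
        U.Loc D (U.R.res D).B1 p := by
  obtain ⟨a, b, d, e⟩ := L.selfdual U.paT (U.stabT.res D) (fun g => U.equiT g) hh (by linarith)
  exact ⟨e, fun p hp => ⟨Rp.B1_le _, a, fun i j h => b.trans_le (d i j h).ge, b ▸ hp⟩⟩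

theorem real (L : LD D c fun g => χ g) (σ : D) (h2 : σ.1 ∉ J.H) (h : ∀ g : D, g = 1 ∨ g = σ) :
    (U.R.res D).Z1 = (U.R.res D).B1 ∧ U.Loc D (U.R.res D).B1 0 := by
  have e : ∀ r, ∑ i ∈ Finset.range (2 * r), U.T.dm (U.R.res D).B1 i = r := fun r => by
    rw [U.nonsplit (D' := ⊥) (fun γ => ⟨fun a => by rw [a, map_one]; exact one_mem _, fun a =>
      J.inj ((h ⟨_, a⟩).elim (fun b => (congrArg Subtype.val b).trans (map_one _).symm)
        fun b => (h2 (b ▸ J.mem γ)).elim)⟩) σ.2 h2, add_eq_left]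
    refine Finset.sum_eq_zero fun i _ => Submodule.finrank_eq_zero.2 (eq_bot_iff.2 ?_)
    rintro _ ⟨_, ⟨⟨u, rfl⟩, -⟩, rfl⟩
    exact funext fun g => U.Λ.lam_of (by simp [Rp.d1_apply, Subsingleton.elim g 1])
  obtain ⟨a, b⟩ := U.locB L (rank_gen (Hm k D) ![σ] fun f hf h0 => funext fun g => by
    rcases h g with rfl | rfl
    · simpa using hf.2 1 1
    · exact h0 0).2 (by rw [← U.T.sum_dm (Ch.bd_of (Rp.B1_le _)), e]; simp)
  exact ⟨a, b 0 (by rw [e]; exact ⟨m, by simp⟩)⟩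

variable {D' : Subgroup Γ} (hD : ∀ γ, γ ∈ D' ↔ J.ι γ ∈ D)
  (h0 : ∀ a, (∀ g : D', U.ρ.ac g a = a) → a = 0)
  (h0' : ∀ a, (∀ g : D', U.ρ.ac (J.cj g) a = a) → a = 0)

include hD h0 h0'

omit [Finite k] [IsUltrametricDist E] [CompleteSpace E] [CharP k 2] [CompactSpace D] in
theorem rankW : finrank E (U.R.res D).B1 = 2 * (2 * m) := by
  rw [Rp.rank_B1 _ fun w hw => ?_, finrank_prod, U.rk, ← two_mul]
  have : ∀ g : D', (U.ρ.ac g w.1, U.ρ.ac (J.cj g) w.2) = w := fun g => by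
    have := hw ⟨_, (hD _).1 g.2⟩
    change U.R.ac (J.ι g) w = w at this
    rwa [U.R_in (J.mem _), J.u_ι] at this
  exact Prod.ext (h0 _ fun g => congrArg Prod.fst (this g))
    (h0' _ fun g => congrArg Prod.snd (this g))

variable (L : LD D c fun g => χ g) (hh : finrank k (Hm k D) ≤ 2)

include L hh

theorem odd : (U.R.res D).Z1 = (U.R.res D).B1 ∧
    ∀ p, Even (∑ i ∈ Finset.range (2 * m), U.T.dm (U.R.res D).B1 i + p) →
      U.Loc D (U.R.res D).B1 p := by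
  obtain ⟨a, b⟩ := U.locB L hh (by rw [U.rankW hD h0 h0', mul_comm])
  exact ⟨a, fun p ⟨x, hx⟩ => b p ⟨x + m, by omega⟩⟩

theorem odd_split [IsTopologicalGroup G] (sp : D ≤ J.H) (hχ : Continuous χ)
    (h1 : ∀ g, c.Rd (χ g) 1) : U.Loc D (U.R.res D).B1 0 := by
  have h2 : ∀ a, (∀ g : D, U.ρ.ac (J.u g) a = a) → a = 0 := fun a ha => h0 a fun g => by
    rw [← J.u_ι g]
    exact ha ⟨_, (hD _).1 g.2⟩
  have a := U.split sp L hχ h1 h2 le_rfl (Rp.B1_le _)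
  have e : Spl (U.r1 D sp).B1 (perp U.B (U.r2 D sp) (fun g => χ g) (U.r1 D sp).B1) =
      (U.R.res D).B1 := le_antisymm ((U.odd hD h0 h0' L hh).1 ▸ a.coc) (by
    rintro _ ⟨w, rfl⟩
    rw [mem_Spl]
    simp only [Rp.d1_apply, U.res_in sp]
    exact ⟨⟨w.1, rfl⟩, mem_perp.2 ⟨Rp.d1_mem _ w.2, fun t ht =>
      cob_right (U.equi12 sp) (Rp.B1_le _ ht) w.2⟩⟩)
  rw [e, Rp.rank_B1 _ h2, U.rk] at a
  obtain ⟨x, hx⟩ := a.par
  exact ⟨a.coc, a.iso, a.big, x - m, by omega⟩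

theorem odd_unr [CompactSpace D'] {σ : G} (h1 : σ ∈ D) (h2 : σ ∉ J.H) {I : Subgroup Γ} (φ : D')
    (gφ : Gen k (I.subgroupOf D' : Set D') φ) (hI : ∀ g ∈ I, U.ρ.ac g = 1) :
    U.Loc D (U.R.res D).B1 (finrank E (Representation.invariants (U.ρ.ac.comp I.subtype))) := by
  refine (U.odd hD h0 h0' L hh).2 _ ?_
  rw [U.nonsplit hD h1 h2, Finset.sum_congr rfl fun (i : ℕ) _ => (goodW (U.stab.res D') gφ
    (fun g hg => hI g hg) ((Rp.rank_B1 _ h0).trans U.rk) i).1,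
    show Representation.invariants (U.ρ.ac.comp I.subtype) = ⊤ from
      eq_top_iff.2 fun x _ g => LinearMap.congr_fun (hI g.1 g.2) x, finrank_top, U.rk]
  exact ⟨2 * m, by simp; ring⟩

end VD

end Pool.Agent.SP
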