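import Pool.Agent.Lib.MP_b4b3cb_nt.Par.Tame
import Pool.Agent.Lib.MP_b4b3cb_nt.Par.LocB
import Pool.Agent.Lib.MP_b4b3cb_nt.Par.Shap
import Pool.Agent.Lib.MP_b4b3cb_nt.Gl
import Pool.Agent.Lib.MP_b4b3cb_nt.Qd

/-! Local Galois groups at odd primes, and the subgroup of index two. -/

namespace Pool.Agent.SP

open scoped Classical Topology Pointwise
open Module NumberField Pool.Agent.Stark
open SC hiding Hm Rp V T Two Cob Sel Spl cup dq Cz Sz res

section One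

variable {K Ω : Type} [Field K] [NumberField K] [Field Ω] [Algebra K Ω] [IsAlgClosed Ω]
  [IsGalois K Ω] [CharZero Ω] {𝔓 : Ideal (𝓞 Ω)}

instance cptD (𝔓 : Ideal (𝓞 Ω)) : CompactSpace (Dec K 𝔓) :=
  isCompact_iff_compactSpace.1 ((facts K Ω).pr.closed 𝔓).isCompact

omit [NumberField K] [IsAlgClosed Ω] [CharZero Ω] in
instance cptI (𝔓 : Ideal (𝓞 Ω)) : CompactSpace (Ine K 𝔓) :=
  isCompact_iff_compactSpace.1 (ine_closed 𝔓).isCompact

theorem exPlc (P : Pr K → Ideal (𝓞 Ω)) (hP : ∀ v, Over (P v) v) : ∃ π : Plc K Ω, π.pr = P := by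
  choose j c hj _ hc using (facts K Ω).cj.ex K
  exact ⟨⟨P, hP, j, hj, c, hc⟩, rfl⟩

theorem exPlc' (h : 𝔓.IsMaximal) : ∃ (π : Plc K Ω) (v : Pr K), π.pr v = 𝔓 := by
  have T := facts K Ω
  obtain ⟨q, hq⟩ := T.pr.under K 𝔓 h
  choose P hP using T.pr.ex K
  obtain ⟨π, hπ⟩ := exPlc (Function.update P q 𝔓) fun v => by
    by_cases e : v = q
    · rwa [e, Function.update_self]
    · rw [Function.update_of_ne e]
      exact hP v
  exact ⟨π, q, by rw [hπ, Function.update_self]⟩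

variable {E k : Type} [NontriviallyNormedField E] [IsUltrametricDist E] [NormedAlgebra ℚ_[2] E]
  [Field k] [Finite k] [CharP k 2] [Algebra (ZMod 2) k]

theorem exLD (c : CF E k) (h : 𝔓.IsMaximal) :
    Nonempty (LD (Dec K 𝔓) c fun g => cycE E K Ω g) := by
  obtain ⟨π, v, rfl⟩ := exPlc' (K := K) h
  exact ⟨ldK π c (.inl v)⟩

omit [CharP k 2] in
theorem genD {q : Pr K} (h : Over 𝔓 q) (h2 : 2 ∉ 𝔓) (σ : Dec K 𝔓)
    (h4 : IsFr 𝔓 (Ideal.absNorm q.asIdeal) σ.1) :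
    Gen k ((Ine K 𝔓).subgroupOf (Dec K 𝔓) : Set (Dec K 𝔓)) σ := fun f hf a b =>
  gen_cd (s := insert σ ((Ine K 𝔓).subgroupOf (Dec K 𝔓) : Set (Dec K 𝔓))) (fun f hf h0 => by
    obtain ⟨f, rfl⟩ := ext1 f
    have := frob_gen h h2 (f := f) (by rw [Gs_self]; trivial) h4
    simp only [Gs_self, inf_top_eq] at this
    exact funext fun g => this (hom_iff.1 hf) (fun g hg => h0 ⟨g, (facts K Ω).pr.le _ hg⟩ (.inr hg))
      (h0 σ (.inl rfl)) g g.2) (MonoidHom.id _) continuous_id Function.surjective_id hf (by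
    rintro g (rfl | hg)
    exacts [b, a g hg])

omit [CharP k 2] in
theorem genI (h : 𝔓.IsMaximal) (h2 : 2 ∉ 𝔓) : ∃ τ : Ine K 𝔓, Gen k ∅ τ := by
  obtain ⟨τ, a, b⟩ := ine_gen (K := K) h h2
  exact ⟨⟨τ, a⟩, fun f hf _ e => gen_cd (s := {⟨τ, a⟩}) (fun f hf h0 => by
    obtain ⟨f, rfl⟩ := ext1 f
    exact funext fun g => b f (hom_iff.1 hf) (h0 _ rfl) g g.2) (MonoidHom.id _) continuous_id
      Function.surjective_id hf (by rintro _ rfl; exact e)⟩

theorem exFr {q : Pr K} (h : Over 𝔓 q) :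
    ∃ σ : Dec K 𝔓, IsFr 𝔓 (Ideal.absNorm q.asIdeal) σ.1 := by
  obtain ⟨σ, -, a⟩ := (facts K Ω).fr.ex h
  exact ⟨⟨σ, (facts K Ω).fr.dec h.1 (Ideal.absNorm_eq_zero_iff.not.2 q.ne_bot) a⟩, a⟩

omit [CharP k 2] in
theorem rank2 (h : 𝔓.IsMaximal) (h2 : 2 ∉ 𝔓) : finrank k (Hm k (Dec K 𝔓)) ≤ 2 := by
  obtain ⟨q, hq⟩ := (facts K Ω).pr.under K 𝔓 h
  obtain ⟨σ, a⟩ := exFr hq
  obtain ⟨τ, b⟩ := genI (K := K) (k := k) h h2
  let i := Subgroup.inclusion ((facts K Ω).pr.le 𝔓)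
  exact (rank_gen _ ![σ, i τ] fun f hf h0 => genD hq h2 σ a f hf (fun g hg => congrFun
    (b _ (Hm.comp hf i (continuous_inclusion ((facts K Ω).pr.le 𝔓))) (by simp) (h0 1)) ⟨g, hg⟩)
      (h0 0)).2

end One

variable {K L Ω : Type} [Field K] [NumberField K] [Field L] [NumberField L] [Algebra K L]
  [Field Ω] [Algebra K Ω] [Algebra L Ω] [IsScalarTower K L Ω] [IsAlgClosed Ω] [IsGalois K Ω]
  [CharZero Ω]

theorem glK : GlSt K L Ω := st_Gl (facts K Ω).kum (facts K Ω).pr (facts K Ω).cj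

theorem exIG {d : K} (Q : Quad K L d) {s : Gal(Ω/K)} (ss : s * s = 1) (hs : s ∉ Gs K Ω L)
    (cj : Gal(Ω/L) → Gal(Ω/L)) (hcj : ∀ g x, cj g x = s (g (s x))) :
    ∃ J : IG Gal(Ω/L) Gal(Ω/K), (∀ g x, J.ι g x = g x) ∧ J.s = s ∧ J.H = Gs K Ω L ∧
      ∀ g, J.cj g = cj g := by
  obtain ⟨u, u1, u2⟩ := (st_Trf (K := K) (L := L) (Ω := Ω)).lift
  have op := (facts K Ω).top.gs_open L (Module.Finite.of_basis Q.basis)
  have cl : IsClopen (Gs K Ω L : Set Gal(Ω/K)) := ⟨Subgroup.isClosed_of_isOpen _ op, op⟩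
  have two : ∀ g h, g ∉ Gs K Ω L → h ∉ Gs K Ω L → g * h ∈ Gs K Ω L := fun g h a b x => by
    rw [AlgEquiv.mul_apply, glK.tau Q h b, glK.tau Q g a, Q.tau_tau]
  have inj : Function.Injective (AlgEquiv.restrictScalarsHom K : Gal(Ω/L) →* Gal(Ω/K)) :=
    AlgEquiv.restrictScalars_injective K
  have s2 : ∀ x, s (s x) = x := fun x => by rw [← AlgEquiv.mul_apply, ss, AlgEquiv.one_apply]
  have mem : ∀ g : Gal(Ω/L), AlgEquiv.restrictScalarsHom K g ∈ Gs K Ω L := fun g x => g.commutes x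
  have e : ∀ g, AlgEquiv.restrictScalarsHom K (cj g) = s * AlgEquiv.restrictScalarsHom K g * s :=
    fun g => AlgEquiv.ext (hcj g)
  have cu : Continuous fun g => u (if g ∈ Gs K Ω L then g else g * s) :=
    u1.comp_continuous (Continuous.if (fun p hp => (cl.frontier_eq.subset hp).elim) continuous_id
      (continuous_id.mul continuous_const)) fun g => by
        split_ifs with h
        exacts [h, two _ _ h hs]
  refine ⟨⟨AlgEquiv.restrictScalarsHom K, (st_Trf (K := K) (L := L) (Ω := Ω)).cont, inj, s, ss, _,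
    cl, mem, hs, two, _, cu, fun g h => by rw [if_pos h]; exact u2 g h,
    fun g h => by rw [if_neg h]; exact u2 _ (two _ _ h hs),
    MonoidHom.mk' cj fun g h => AlgEquiv.ext fun x => by
      simp only [AlgEquiv.mul_apply, hcj, s2], ?_, e⟩, fun _ _ => rfl, rfl, rfl, fun _ => rfl⟩
  refine (u1.comp_continuous (f := fun g : Gal(Ω/L) => s * g.restrictScalars K * s)
    ((continuous_const.mul (st_Trf (K := K) (L := L) (Ω := Ω)).cont).mul continuous_const)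
    fun g => (e g).subst (mem _)).congr fun g => inj ?_
  exact (u2 _ ((e g).subst (mem _))).trans (e g).symm

end Pool.Agent.SP
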