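import Pool.Agent.Lib.MP_b4b3cb_nt.Par.LocA

/-! Indices attached to alternating forms and to a monodromy operator. -/

namespace Pool.Agent.SP

open scoped Classical
open Module

variable {E k : Type} [NontriviallyNormedField E] [IsUltrametricDist E] [Field k] [Finite k]

theorem altix [CharZero E] (c : CF E k) {X : Type} [AddCommGroup X] [Module E X]
    (ω : X →ₗ[E] X →ₗ[E] E) (alt : ∀ x, ω x x = 0) (R : AddSubgroup X) (n : ℕ) :
    ∀ M : AddSubgroup X, (∀ a : E, ‖a‖ ≤ 1 → ∀ x ∈ M, a • x ∈ M) → R ≤ M →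
      (∀ y ∈ M, y ∈ R ↔ ∀ x ∈ M, ‖ω x y‖ ≤ 1) → R.relIndex M = n → n ≠ 0 →
      ∃ e, n = Nat.card k ^ (2 * e) := by
  have hs : ∀ u v, ω u v = -ω v u := fun u v => by
    have h := alt (u + v)
    simp only [map_add, LinearMap.add_apply, alt, zero_add, add_zero] at h
    exact eq_neg_of_add_eq_zero_right h
  induction n using Nat.strong_induction_on with
  | _ n ih =>
    intro M hM le hR hn n0
    have hb : ∃ j : ℕ, ∀ x ∈ M, ∀ y ∈ M, ‖c.π ^ j * ω x y‖ ≤ 1 := by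
      obtain ⟨j, hj⟩ := c.small (norm_pos_iff.2 (Nat.cast_ne_zero.2 n0 : (n : E) ≠ 0)) 1
      refine ⟨j, fun x hx y hy => le_trans ?_
        ((hR _ (nsmul_mem hy n)).1 (hn ▸ R.nsmul_relIndex_mem hy) x hx)⟩
      rw [map_nsmul, nsmul_eq_mul, norm_mul, norm_mul, norm_pow]
      exact mul_le_mul_of_nonneg_right (by simpa using hj.le) (norm_nonneg _)
    have h1 := Nat.find_spec hb
    rcases h : Nat.find hb with _ | j
    · rw [h] at h1
      exact ⟨0, by
        rw [← hn, AddSubgroup.relIndex_eq_one.2 fun y hy => (hR y hy).2 fun x hx => by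
          simpa using h1 x hx y hy]; rfl⟩
    have h2 := Nat.find_min hb (show j < Nat.find hb by omega)
    rw [h] at h1
    push Not at h2
    obtain ⟨x, hx, y, hy, h2⟩ := h2
    have h3 : ‖c.π ^ (j + 1) * ω x y‖ = 1 := le_antisymm (h1 x hx y hy) (not_lt.1 fun a =>
      h2.not_ge (CF.le_one (c := c) (by rwa [← mul_assoc, ← pow_succ'])))
    have d0 : ω x y ≠ 0 := fun a => by simp [a] at h3
    have dv : ∀ z, ‖z / ω x y‖ = ‖c.π ^ (j + 1) * z‖ := fun z => by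
      rw [← mul_div_mul_left _ _ (pow_ne_zero (j + 1) c.ne), norm_div, h3, div_one]
    have mem : ∀ z, z ∈ c.ch.T (-(j + 1 : ℕ)) ↔ ‖c.π ^ (j + 1) * z‖ ≤ 1 := fun z => by
      rw [← zpow_natCast, ← neg_neg ((j + 1 : ℕ) : ℤ)]; simp only [neg_neg]; rfl
    have mem0 : ∀ z, z ∈ c.ch.T (-(j + 1 : ℕ) + (j + 1 : ℕ)) ↔ ‖z‖ ≤ 1 := fun z => by
      rw [neg_add_cancel]
      change ‖c.π ^ (-0 : ℤ) * z‖ ≤ 1 ↔ _
      simp
    let M' := M ⊓ ((O1 E).prod (O1 E)).comap ((ω x).prod (ω y)).toAddMonoidHom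
    have hM' : ∀ z, z ∈ M' ↔ z ∈ M ∧ ‖ω x z‖ ≤ 1 ∧ ‖ω y z‖ ≤ 1 := fun z => Iff.rfl
    have e1 : M'.relIndex M = Nat.card k ^ (2 * (j + 1)) := by
      rw [two_mul, pow_add, ← c.ch.ix_T (-(j + 1 : ℕ)) (j + 1), ← ix_prod]
      refine ix_tr ((ω x).prod (ω y)).toAddMonoidHom (fun p => ⟨fun hp => ?_, ?_⟩) fun z hz =>
        ⟨fun a => ⟨(mem0 _).2 a.2.1, (mem0 _).2 a.2.2⟩, fun a => ⟨hz, (mem0 _).1 a.1, (mem0 _).1 a.2⟩⟩
      · refine ⟨(p.1 / ω x y) • y - (p.2 / ω x y) • x, sub_mem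
          (hM _ ((dv _).trans_le ((mem _).1 hp.1)) _ hy)
          (hM _ ((dv _).trans_le ((mem _).1 hp.2)) _ hx), Prod.ext ?_ ?_⟩
        · simp [alt, d0]
        · simp [alt, hs y x, d0]
      · rintro ⟨z, hz, rfl⟩
        exact ⟨(mem _).2 (h1 x hx z hz), (mem _).2 (h1 y hy z hz)⟩
    have le' : R ≤ M' := fun z hz => ⟨le hz, (hR z (le hz)).1 hz x hx, (hR z (le hz)).1 hz y hy⟩
    have e2 := AddSubgroup.relIndex_mul_relIndex R M' M le' inf_le_left
    rw [e1, hn] at e2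
    have n1 : R.relIndex M' ≠ 0 := fun a => n0 (by rw [← e2, a, zero_mul])
    obtain ⟨e, he⟩ := ih _ (by
      rw [← e2]
      exact lt_mul_of_one_lt_right (Nat.pos_of_ne_zero n1)
        (one_lt_pow₀ Finite.one_lt_card (by omega))) M' (fun a ha z hz => (hM' _).2 ⟨hM a ha z hz.1, by
          rw [map_smul, map_smul]
          exact ⟨((c.rd_of ha).mul (c.rd_of hz.2.1)).1, ((c.rd_of ha).mul (c.rd_of hz.2.2)).1⟩⟩) le'
      (fun z hz => ⟨fun a w hw => (hR z hz.1).1 a w hw.1, fun a => (hR z hz.1).2 fun w hw => by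
        have b1 := (dv _).trans_le (h1 w hw y hy)
        have b2 := (dv _).trans_le (h1 x hx w hw)
        have b3 := a (w - (ω w y / ω x y) • x - (ω x w / ω x y) • y) ((hM' _).2
          ⟨sub_mem (sub_mem hw (hM _ b1 x hx)) (hM _ b2 y hy), by simp [alt, d0], by
            simp [alt, hs y x, hs y w, d0]⟩)
        refine ((((c.rd_of b3).add ((c.rd_of b1).mul (c.rd_of hz.2.1))).add
          ((c.rd_of b2).mul (c.rd_of hz.2.2))).congr ?_ rfl).1
        simp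
        ring⟩) rfl n1
    exact ⟨e + (j + 1), by rw [← e2, he, ← pow_add, ← mul_add]⟩

variable {c : CF E k} {V : Type} [NormedAddCommGroup V] [NormedSpace E V] [CompleteSpace E]
  [FiniteDimensional E V] {N : ℕ}

theorem Ch.sub_ix (C : Ch c V N) (K : Submodule E V) : ∃ β : ℤ → ℕ, (∀ i, β (i + N) = β i) ∧
    ∑ i ∈ Finset.range N, β i = finrank E K ∧ (∀ r : ℕ, (C.T r ⊓ K.toAddSubgroup).relIndex
      (C.T 0 ⊓ K.toAddSubgroup) = Nat.card k ^ ∑ i ∈ Finset.range r, β i) ∧ (∀ i, β i ≤ 1) ∧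
    ∀ i, β i ≠ 0 → ∃ x ∈ K, x ∈ C.T i ∧ C.lam i x ≠ 0 := by
  let Y := K.comap (LinearEquiv.funUnique Unit E V).toLinearMap
  have hb : C.Bd Y := fun t _ => (C.exh (t ())).imp fun _ h _ => h
  refine ⟨C.dm Y, C.dm_per, (C.sum_dm hb).trans
    (LinearEquiv.ofSubmodule' (LinearEquiv.funUnique Unit E V) K).finrank_eq, fun r => ?_,
    fun i => (Submodule.finrank_le _).trans (by simp), fun i h => ?_⟩
  · have := C.ix_pow (C.fin_W hb) 0 r
    simp only [zero_add] at this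
    rw [← this]
    symm
    exact ix_tr (LinearEquiv.funUnique Unit E V).toAddMonoidHom (fun y => ⟨fun hy =>
      ⟨fun _ => y, ⟨hy.2, fun _ => hy.1⟩, rfl⟩, fun ⟨x, hx, h⟩ => h ▸ ⟨hx.2 (), hx.1⟩⟩)
      fun x _ => ⟨fun a => ⟨a.2 (), a.1⟩, fun a => ⟨a.2, fun _ => a.1⟩⟩
  · by_contra h0
    push Not at h0
    refine h (Submodule.finrank_eq_zero.2 (eq_bot_iff.2 ?_))
    rintro _ ⟨t, ht, rfl⟩
    exact funext fun _ => h0 _ ht.1 (ht.2 ())

theorem inert [CharZero E] {m : ℕ} {C : Ch c V (2 * m)} {P : V →ₗ[E] V →ₗ[E] E} (hP : Pa C C P)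
    (rk : finrank E V = 2 * m) (φ ν : End E V) (h1 : ∀ x y, ν x = 0 → P x (ν y) = 0)
    (h2 : ∀ (r : ℤ) x y, ν x ∈ C.T (r * m) → ν y ∈ C.T (r * m) →
      ‖(P x (ν y) - P (φ y + y) (ν x)) / c.π ^ r‖ ≤ 1)
    (h3 : ∀ x, ν x = 0 → ν (φ x) = 0) (h4 : ∀ x, ν x = 0 → φ x = 0 → x = 0)
    (h5 : ∀ i, ∀ x ∈ C.T i, ν x ∈ C.T i ∧ φ x ∈ C.T i) (M : ℤ → AddSubgroup V)
    (hM : ∀ i x, x ∈ M i ↔ ν x ∈ C.T i ∧ φ x ∈ C.T i) {e : ℕ}
    (he : (M m).relIndex (M 0) = Nat.card k ^ e) : Even (e + m + finrank E (LinearMap.ker ν)) := by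
  obtain ⟨β, b1, b2, b3, b4, b5⟩ := C.sub_ix (LinearMap.ker ν)
  obtain ⟨γ, g1, g2, g3, g4, g5⟩ := C.sub_ix (LinearMap.range ν)
  set K := (LinearMap.ker ν).toAddSubgroup
  have du := dual_eq (h := 1) γ β g1 b1 C.pos (fun i => by
    by_contra h
    obtain ⟨x, x1, x2, x3⟩ := b5 (-i - 1) (by have := g4 i; omega)
    obtain ⟨_, ⟨y, rfl⟩, y2, y3⟩ := g5 i (by have := b4 (-i - 1); omega)
    obtain ⟨κ, k0, k1⟩ := hP.lam (-i - 1) i (by omega)
    have := k1 _ x2 _ y2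
    rw [h1 x y x1, mul_zero] at this
    exact mul_ne_zero k0 (mul_ne_zero x3 y3) (this.uniq c.rd_zero'))
    (by rw [b2, g2, LinearMap.finrank_range_add_finrank_ker, rk, mul_one])
  have sj : ∀ x, ν x = 0 → ∃ y, ν y = 0 ∧ φ y = x := fun x hx => by
    obtain ⟨y, hy⟩ := LinearMap.injective_iff_surjective.1 ((injective_iff_map_eq_zero
      (φ.restrict (p := LinearMap.ker ν) (q := LinearMap.ker ν) h3)).2 fun y hy =>
      Subtype.ext (h4 y y.2 (congrArg Subtype.val hy))) ⟨x, hx⟩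
    exact ⟨y, y.2, congrArg Subtype.val hy⟩
  have dl : ∀ (i : ℤ) y, (∀ x, ν x ∈ C.T i → ‖P y (ν x)‖ ≤ 1) →
      ∃ z, ν z = 0 ∧ y - z ∈ C.T (-i) := fun i y hy => by
    obtain ⟨j, hj⟩ := C.exh y
    have : ∀ l, j ≤ l → l ≤ -i → ∃ z, ν z = 0 ∧ y - z ∈ C.T l := fun l hl => by
      induction l, hl using Int.leInduction with
      | base => exact fun _ => ⟨0, map_zero _, by simpa using hj⟩
      | succ l _ ih =>
        intro hl
        obtain ⟨z, z1, z2⟩ := ih (by omega)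
        by_cases h : β l = 0
        · obtain ⟨_, ⟨u, rfl⟩, y2, y3⟩ := g5 (-l - 1) (by
            have := du (-l - 1)
            rw [show -(-l - 1) - 1 = l by ring] at this
            omega)
          obtain ⟨κ, k0, k1⟩ := hP.lam l (-l - 1) (by omega)
          have := k1 _ z2 _ y2
          rw [map_sub, LinearMap.sub_apply, h1 z u z1, sub_zero] at this
          exact ⟨z, z1, (C.lam_zero z2).1 ((mul_eq_zero.1 ((mul_eq_zero.1 (this.uniq
            (c.rd_pi (hy u (C.anti (by omega) y2))))).resolve_left k0)).resolve_right y3)⟩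
        · obtain ⟨x, x1, x2, x3⟩ := b5 l h
          refine ⟨z + c.sc (C.lam l (y - z) / C.lam l x) • x, by
            rw [map_add, map_smul, z1, x1, smul_zero, add_zero], ?_⟩
          rw [← sub_sub]
          refine C.sub_mem_of z2 (C.smul (c.sc_le _) x2) ?_
          rw [C.lam_smul (c.sc_le _) x2, c.rd_sc, div_mul_cancel₀ _ x3]
    rcases le_total j (-i) with h | h
    · exact this _ h le_rfl
    · exact ⟨0, map_zero _, by simpa using C.anti h hj⟩
  let R : ℤ → AddSubgroup V := fun i => (C.T i).comap ν.toAddMonoidHom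
  have le : ∀ i, M i ⊔ K ≤ R i := fun i => sup_le (fun x hx => ((hM i x).1 hx).1) fun x hx => by
    change ν x ∈ C.T i
    rw [show ν x = 0 from hx]
    exact zero_mem _
  have half : ∀ r : ℤ, ∃ a, (M (r * m) ⊔ K).relIndex (R (r * m)) = Nat.card k ^ (2 * a) := by
    intro r
    have z0 := zpow_ne_zero r c.ne
    refine altix c ((c.π ^ r)⁻¹ • ((P.compl₂ ν).flip - P.compl₂ ν)) (by simp) _ _ _
      (fun a ha x hx => by
        change ν (a • x) ∈ C.T _
        rw [map_smul]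
        exact C.smul ha hx) (le _) (fun y hy => ?_) rfl fun h0 => ?_
    · have e1 : ∀ x ∈ R (r * m), ‖((c.π ^ r)⁻¹ • ((P.compl₂ ν).flip - P.compl₂ ν)) x y‖ ≤ 1 ↔
          ‖P ((c.π ^ r)⁻¹ • φ y) (ν x)‖ ≤ 1 := fun x hx => by
        have a := mem_O1.2 (h2 r x y hx hy)
        rw [← mem_O1, ← mem_O1, ← neg_mem_iff (x := P _ _), ← (O1 E).add_mem_cancel_left a]
        congr! 1
        simp only [LinearMap.smul_apply, LinearMap.sub_apply, LinearMap.flip_apply,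
          LinearMap.compl₂_apply, map_smul, map_add, LinearMap.add_apply, smul_eq_mul]
        ring
      have e2 : ∀ u, (c.π ^ r)⁻¹ • u ∈ C.T (-(r * m)) ↔ u ∈ C.T (r * m) := fun u => by
        rw [← zpow_neg, ← C.per_zpow (-r) (r * m)]
        congr! 2
        push_cast
        ring
      refine ⟨fun a x hx => (e1 x hx).2 ?_, fun a => ?_⟩
      · obtain ⟨u, hu, z, hz, rfl⟩ := AddSubgroup.mem_sup.1 a
        rw [map_add, smul_add, map_add, LinearMap.add_apply, h1 (_ • φ z) x (by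
          rw [map_smul, h3 z hz, smul_zero]), add_zero]
        exact hP.le ((e2 _).2 ((hM _ u).1 hu).2) hx (by omega)
      · obtain ⟨z, z1, z2⟩ := dl _ _ fun x hx => (e1 x hx).1 (a x hx)
        obtain ⟨z', z3, z4⟩ := sj (c.π ^ r • z) (by rw [map_smul, z1, smul_zero])
        refine AddSubgroup.mem_sup.2 ⟨y - z', (hM _ _).2 ⟨by rwa [map_sub, z3, sub_zero], ?_⟩,
          z', z3, sub_add_cancel _ _⟩
        rwa [← e2, map_sub, z4, smul_sub, inv_smul_smul₀ z0]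
    · obtain ⟨g', hg⟩ := ν.rangeRestrict.exists_rightInverse_of_surjective ν.range_rangeRestrict
      obtain ⟨g, rfl⟩ := g'.exists_extend
      obtain ⟨B, hB⟩ := C.bdd' (r * m)
      obtain ⟨j, hj⟩ := C.exh_bd (‖LinearMap.toContinuousLinearMap g‖ * B)
      have a1 : R (r * m) ≤ C.T (r * m - (r * m - j).toNat) ⊔ K := fun x hx =>
        AddSubgroup.mem_sup.2 ⟨g (ν x), C.anti (by omega) (hj _
          (((LinearMap.toContinuousLinearMap g).le_opNorm _).trans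
          (mul_le_mul_of_nonneg_left (hB _ hx) (norm_nonneg _)))), x - g (ν x), by
          change ν _ = 0
          rw [map_sub, sub_eq_zero]
          exact (congrArg Subtype.val (LinearMap.congr_fun hg ⟨_, x, rfl⟩)).symm, by simp⟩
      have a2 := C.ix_T (r * m - (r * m - j).toNat) (r * m - j).toNat
      rw [sub_add_cancel, ix_split K (C.anti (by omega)), AddSubgroup.relIndex_eq_zero_of_le_left
        (sup_le_sup_right (fun x hx => (hM _ x).2 (h5 _ x hx)) K)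
        (AddSubgroup.relIndex_eq_zero_of_le_right a1 h0), mul_zero] at a2
      exact pow_ne_zero _ Nat.card_pos.ne' a2.symm
  obtain ⟨a0, e0⟩ := half 0
  obtain ⟨a1, e1⟩ := half 1
  rw [zero_mul] at e0
  rw [one_mul] at e1
  have mo : M m ≤ M 0 := fun x hx => (hM _ _).2 (((hM _ _).1 hx).imp (C.anti (by omega) ·)
    (C.anti (by omega) ·))
  have e2 : (M m ⊓ K).relIndex (M 0 ⊓ K) = (C.T m ⊓ K).relIndex (C.T 0 ⊓ K) :=
    ix_tr φ.toAddMonoidHom (fun y => ⟨fun hy => by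
      obtain ⟨x, x1, rfl⟩ := sj y hy.2
      exact ⟨x, ⟨(hM _ _).2 ⟨x1 ▸ zero_mem _, hy.1⟩, x1⟩, rfl⟩,
    fun ⟨x, hx, h⟩ => h ▸ ⟨((hM _ _).1 hx.1).2, h3 x hx.2⟩⟩) fun x hx =>
    ⟨fun a => ⟨((hM _ _).1 a.1).2, h3 x hx.2⟩, fun a => ⟨(hM _ _).2
      ⟨(show ν x = 0 from hx.2) ▸ zero_mem _, a.1⟩, hx.2⟩⟩
  have e3 : (R m).relIndex (R 0) = (C.T m ⊓ (LinearMap.range ν).toAddSubgroup).relIndex
      (C.T 0 ⊓ (LinearMap.range ν).toAddSubgroup) := ix_tr ν.toAddMonoidHom (fun y => ⟨fun hy =>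
    hy.2.imp fun x hx => ⟨by rw [← hx] at hy; exact hy.1, hx⟩,
    fun ⟨x, hx, h⟩ => h ▸ ⟨hx, x, rfl⟩⟩) fun x _ => ⟨fun a => ⟨a, x, rfl⟩, fun a => a.1⟩
  have e4 := AddSubgroup.relIndex_mul_relIndex _ _ _ (sup_le_sup_right mo K) (le 0)
  rw [← AddSubgroup.relIndex_mul_relIndex _ (R m) _ (le m)
    (AddSubgroup.comap_mono (C.anti (by omega))), e0, e1, e3, g3] at e4
  rw [ix_split K mo, e2, b3] at he
  have e5 := congrArg (· * Nat.card k ^ (2 * a0)) he
  simp only [mul_assoc, e4, ← pow_add] at e5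
  have e6 := Nat.pow_right_injective (Finite.one_lt_card (α := k)) e5
  have d := Finset.sum_congr (rfl : Finset.range m = _) fun (i : ℕ) _ => du i
  rw [Finset.sum_add_distrib, Finset.sum_const, Finset.card_range, smul_eq_mul] at d
  rw [← b2, per_half _ b1]
  exact ⟨∑ i ∈ Finset.range m, β i + a1 + m - a0, by omega⟩

end Pool.Agent.SP
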