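import Pool.Agent.Lib.MP_b4b3cb_nt.Par.CF

/-! Periodic chains of lattices with one-dimensional steps, and counting of indices. -/

namespace Pool.Agent.SP

open scoped Classical
open Module Filter Topology

variable {E k : Type} [NontriviallyNormedField E] [Field k]

/-- A periodic chain of lattices whose steps are the residue field. -/
structure Ch (c : CF E k) (W : Type) [NormedAddCommGroup W] [NormedSpace E W] (N : ℕ) where
  /-- the lattices -/
  T : ℤ → AddSubgroup W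
  /-- the coordinate on `T i / T (i + 1)` -/
  lam : ℤ → W → k
  pos : 0 < N
  succ : ∀ i, T (i + 1) ≤ T i
  per : ∀ i u, c.π • u ∈ T (i + N) ↔ u ∈ T i
  smul : ∀ {i} {a : E} {u}, ‖a‖ ≤ 1 → u ∈ T i → a • u ∈ T i
  lam_add : ∀ {i u v}, u ∈ T i → v ∈ T i → lam i (u + v) = lam i u + lam i v
  lam_smul : ∀ {i} {a : E} {u}, ‖a‖ ≤ 1 → u ∈ T i → lam i (a • u) = c.rd a * lam i u
  lam_zero : ∀ {i u}, u ∈ T i → (lam i u = 0 ↔ u ∈ T (i + 1))
  ex : ∀ i, ∃ e ∈ T i, lam i e = 1
  lam_per : ∀ {i u}, u ∈ T i → lam (i + N) (c.π • u) = lam i u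
  isOpen : ∀ i, IsOpen (T i : Set W)
  bdd : ∃ C : ℝ, ∀ u ∈ T 0, ‖u‖ ≤ C

/-- Multiplication by a scalar as an additive map. -/
def sml {X : Type} [AddCommGroup X] [Module E X] (a : E) : X →+ X := DistribSMul.toAddMonoidHom X a

theorem sml_apply {X : Type} [AddCommGroup X] [Module E X] (a : E) (x : X) : sml a x = a • x := rfl

theorem sml_inj {X : Type} [AddCommGroup X] [Module E X] {a : E} (h : a ≠ 0) :
    Function.Injective (sml (X := X) a) := smul_right_injective X h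

/-- The index of `π A` in a lattice `A` of the coordinate space. -/
theorem lat_coord [IsUltrametricDist E] [Finite k] (c : CF E k) (r : ℕ) :
    ∃ B : ℤ → AddSubgroup (Fin r → E), (∀ m z, z ∈ B m ↔ ∀ s, ‖z s‖ ≤ ‖c.π‖ ^ m) ∧
      (∀ m, (B m).map (sml c.π) = B (m + 1)) ∧
      (∀ m, (B (m + 1)).relIndex (B m) = Nat.card k ^ r) ∧
      ∀ a b, (B a).relIndex (B b) ≠ 0 := by
  have p := c.pos
  let B : ℤ → AddSubgroup (Fin r → E) := fun m =>
    { carrier := {z | ∀ s, ‖z s‖ ≤ ‖c.π‖ ^ m}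
      add_mem' := fun ha hb s =>
        (IsUltrametricDist.norm_add_le_max _ _).trans (max_le (ha s) (hb s))
      zero_mem' := fun s => by simpa using (zpow_pos p m).le
      neg_mem' := fun ha s => by simpa using ha s }
  have hB : ∀ m z, z ∈ B m ↔ ∀ s, ‖z s / c.π ^ m‖ ≤ 1 := fun m z =>
    forall_congr' fun s => by rw [norm_div, norm_zpow, div_le_one (zpow_pos p m)]
  have z0 : ∀ m : ℤ, c.π ^ m ≠ 0 := fun m => zpow_ne_zero m c.ne
  have st : ∀ m, (B (m + 1)).relIndex (B m) = Nat.card k ^ r := fun m => by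
    rw [ix (B (m + 1)) (B m) (fun z s => c.rd (z s / c.π ^ m))
      (fun a ha b hb => funext fun s => by
        rw [Pi.add_apply, add_div, c.rd_add _ _ ((hB m a).1 ha s) ((hB m b).1 hb s)]; rfl)
      fun a ha => ?_]
    · have : {y : Fin r → k | ∃ a ∈ B m, y = fun s => c.rd (a s / c.π ^ m)} = Set.univ :=
        Set.eq_univ_of_forall fun y => ⟨fun s => c.sc (y s) * c.π ^ m, (hB _ _).2 fun s => by
          rw [mul_div_cancel_right₀ _ (z0 m)]; exact c.sc_le _, funext fun s => by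
          rw [mul_div_cancel_right₀ _ (z0 m), c.rd_sc]⟩
      rw [this, Nat.card_univ, Nat.card_fun, Nat.card_eq_fintype_card (α := Fin r),
        Fintype.card_fin]
    · rw [hB, funext_iff]
      refine forall_congr' fun s => ?_
      have e : a s / c.π ^ m = c.π * (a s / c.π ^ (m + 1)) := by
        rw [zpow_add_one₀ c.ne]; field_simp [c.ne]
      rw [Pi.zero_apply, c.rd_zero _ ((hB m a).1 ha s), e]
      exact ⟨fun h => (c.rd_pi h).lt, CF.le_one⟩
  have mono : ∀ a b, a ≤ b → B b ≤ B a := fun a b h z hz s =>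
    (hz s).trans (zpow_le_zpow_right_of_le_one₀ p c.lt.le h)
  refine ⟨B, fun _ _ => Iff.rfl, fun m => ?_, st, fun a b => ?_⟩
  · ext z
    rw [AddSubgroup.mem_map]
    constructor
    · rintro ⟨y, hy, rfl⟩ s
      rw [sml_apply, Pi.smul_apply, norm_smul, zpow_add_one₀ p.ne', mul_comm]
      exact mul_le_mul_of_nonneg_right (hy s) p.le
    · intro h
      refine ⟨c.π⁻¹ • z, fun s => ?_, by rw [sml_apply, smul_inv_smul₀ c.ne]⟩
      rw [Pi.smul_apply, norm_smul, norm_inv, inv_mul_le_iff₀ p, mul_comm, ← zpow_add_one₀ p.ne']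
      exact h s
  · rcases le_or_gt a b with h | h
    · rw [AddSubgroup.relIndex_eq_one.2 (mono a b h)]; exact one_ne_zero
    · induction a, h.le using Int.leInduction with
      | base => simp
      | succ a ha ih =>
        rcases ha.eq_or_lt with rfl | ha'
        · rw [st]; exact pow_ne_zero _ Nat.card_pos.ne'
        · exact AddSubgroup.relIndex_ne_zero_trans (by rw [st]; exact pow_ne_zero _ Nat.card_pos.ne')
            (ih ha')

/-- `A` is a lattice in the subspace `Y`. -/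
structure IsLat {X : Type} [AddCommGroup X] [Module E X] (Y : Submodule E X) (A : AddSubgroup X) :
    Prop where
  le : ∀ x ∈ A, x ∈ Y
  exh : ∀ y ∈ Y, ∃ ε : ℝ, 0 < ε ∧ ∀ a : E, ‖a‖ ≤ ε → a • y ∈ A
  bdd : ∀ K : Dual E Y, ∃ C : ℝ, ∀ y : Y, y.1 ∈ A → ‖K y‖ ≤ C

theorem IsLat.sq (c : CF E k) {X : Type} [AddCommGroup X] [Module E X] {Y : Submodule E X}
    [FiniteDimensional E Y] {A : AddSubgroup X} (h : IsLat Y A)
    (B : ℤ → AddSubgroup (Fin (finrank E Y) → E)) (hB : ∀ m z, z ∈ B m ↔ ∀ s, ‖z s‖ ≤ ‖c.π‖ ^ m) :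
    ∃ a b : ℤ, (B a).map (Y.subtype ∘ₗ (finBasis E Y).equivFun.symm.toLinearMap).toAddMonoidHom ≤ A ∧
      A ≤ (B b).map (Y.subtype ∘ₗ (finBasis E Y).equivFun.symm.toLinearMap).toAddMonoidHom := by
  choose ε h1 h2 using fun s => h.exh _ (finBasis E Y s).2
  choose C hC using fun s => h.bdd ((finBasis E Y).coord s)
  choose a ha using fun s => c.small (h1 s) 1
  choose b hb using fun s => c.small one_pos (C s)
  have p := c.pos
  refine ⟨(∑ s, a s : ℕ), -(∑ s, b s : ℕ), ?_, fun x hx => ?_⟩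
  · rintro _ ⟨z, hz, rfl⟩
    simp only [LinearMap.toAddMonoidHom_coe, LinearMap.comp_apply, LinearEquiv.coe_coe,
      Basis.equivFun_symm_apply, map_sum, map_smul]
    refine sum_mem fun s _ => h2 s _ (((hB _ _).1 hz s).trans ?_)
    rw [zpow_natCast]
    exact (pow_le_pow_of_le_one p.le c.lt.le (Finset.single_le_sum (f := a) (fun _ _ => Nat.zero_le _)
      (Finset.mem_univ s))).trans (by simpa using (ha s).le)
  · refine ⟨(finBasis E Y).equivFun ⟨x, h.le x hx⟩, (hB _ _).2 fun s => ?_, by simp⟩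
    refine (hC s ⟨x, h.le x hx⟩ hx).trans ?_
    rw [zpow_neg, zpow_natCast]
    refine le_trans ?_ (inv_anti₀ (pow_pos p _) (pow_le_pow_of_le_one p.le c.lt.le
      (Finset.single_le_sum (f := b) (fun _ _ => Nat.zero_le _) (Finset.mem_univ s))))
    rw [← one_div, le_div_iff₀ (pow_pos p _), mul_comm]
    exact (hb s).le

theorem IsLat.fin [IsUltrametricDist E] [Finite k] (c : CF E k) {X : Type} [AddCommGroup X]
    [Module E X] {Y : Submodule E X} [FiniteDimensional E Y] {A A' : AddSubgroup X}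
    (h : IsLat Y A) (h' : IsLat Y A') : A'.relIndex A ≠ 0 := by
  obtain ⟨B, b1, -, -, b4⟩ := lat_coord c (finrank E Y)
  obtain ⟨-, b, -, h2⟩ := h.sq c B b1
  obtain ⟨a, -, h1, -⟩ := h'.sq c B b1
  refine fun h0 => b4 a b ?_
  rw [← AddSubgroup.relIndex_map_map_of_injective _ _ (f := (Y.subtype ∘ₗ
    (finBasis E Y).equivFun.symm.toLinearMap).toAddMonoidHom)
    (Y.subtype_injective.comp (finBasis E Y).equivFun.symm.injective)]
  exact AddSubgroup.relIndex_eq_zero_of_le_left h1 (AddSubgroup.relIndex_eq_zero_of_le_right h2 h0)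

theorem IsLat.index [IsUltrametricDist E] [Finite k] (c : CF E k) {X : Type} [AddCommGroup X]
    [Module E X] {Y : Submodule E X} [FiniteDimensional E Y] {A : AddSubgroup X}
    (h : IsLat Y A) (hA : A.map (sml c.π) ≤ A) :
    (A.map (sml c.π)).relIndex A = Nat.card k ^ finrank E Y := by
  obtain ⟨B, b1, b2, b3, b4⟩ := lat_coord c (finrank E Y)
  obtain ⟨a, b, h1, h2⟩ := h.sq c B b1
  set f := (Y.subtype ∘ₗ (finBasis E Y).equivFun.symm.toLinearMap).toAddMonoidHom
  have inj : Function.Injective f :=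
    Y.subtype_injective.comp (finBasis E Y).equivFun.symm.injective
  have e : ((B a).map f).map (sml c.π) = (B (a + 1)).map f := by
    rw [← b2, AddSubgroup.map_map, AddSubgroup.map_map]
    congr 1
    exact AddMonoidHom.ext fun z =>
      (map_smul (Y.subtype ∘ₗ (finBasis E Y).equivFun.symm.toLinearMap) c.π z).symm
  have n0 : ((B a).map f).relIndex A ≠ 0 := fun h0 => b4 a b (by
    rw [← AddSubgroup.relIndex_map_map_of_injective _ _ inj]
    exact AddSubgroup.relIndex_eq_zero_of_le_right h2 h0)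
  have e1 := AddSubgroup.relIndex_mul_relIndex _ _ _ (AddSubgroup.map_mono (f := sml c.π) h1) hA
  have le : B (a + 1) ≤ B a := fun z hz => (b1 _ _).2 fun s => ((b1 _ _).1 hz s).trans
    (zpow_le_zpow_right_of_le_one₀ c.pos c.lt.le (by omega))
  have e2 := AddSubgroup.relIndex_mul_relIndex (((B a).map f).map (sml c.π)) _ _
    (e ▸ AddSubgroup.map_mono le) h1
  rw [AddSubgroup.relIndex_map_map_of_injective _ _ (sml_inj c.ne)] at e1
  rw [← e1, e, AddSubgroup.relIndex_map_map_of_injective _ _ inj, b3, mul_comm] at e2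
  exact (mul_left_cancel₀ n0 e2).symm

namespace Ch

variable {c : CF E k} {W : Type} [NormedAddCommGroup W] [NormedSpace E W] {N : ℕ} (C : Ch c W N)

theorem anti {i j : ℤ} (h : i ≤ j) : C.T j ≤ C.T i := by
  induction j, h using Int.leInduction with
  | base => exact le_rfl
  | succ j _ ih => exact (C.succ j).trans ih

theorem per_pow (m : ℕ) (i : ℤ) (u : W) : c.π ^ m • u ∈ C.T (i + m * N) ↔ u ∈ C.T i := by
  induction m with
  | zero => simp
  | succ m ih =>
    rw [← ih, ← C.per (i + m * N), smul_smul, ← pow_succ']; congr! 2; push_cast; ring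

theorem per_zpow (m i : ℤ) (u : W) : c.π ^ m • u ∈ C.T (i + m * N) ↔ u ∈ C.T i := by
  obtain ⟨r, rfl | rfl⟩ := Int.eq_nat_or_neg m
  · rw [zpow_natCast, C.per_pow]
  · rw [← C.per_pow r, smul_smul, zpow_neg, zpow_natCast, mul_inv_cancel₀ (pow_ne_zero _ c.ne),
      one_smul]
    congr! 2
    ring

theorem lam_pow (m : ℕ) {i : ℤ} {u : W} (h : u ∈ C.T i) :
    C.lam (i + m * N) (c.π ^ m • u) = C.lam i u := by
  induction m with
  | zero => simp
  | succ m ih =>
    rw [← ih, ← C.lam_per ((C.per_pow m i u).2 h), smul_smul, ← pow_succ']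
    congr 1; push_cast; ring

theorem lam_zpow (m : ℤ) {i : ℤ} {u : W} (h : u ∈ C.T i) :
    C.lam (i + m * N) (c.π ^ m • u) = C.lam i u := by
  obtain ⟨r, rfl | rfl⟩ := Int.eq_nat_or_neg m
  · rw [zpow_natCast, C.lam_pow r h]
  · rw [← C.lam_pow r ((C.per_zpow _ i u).2 h), smul_smul, zpow_neg, zpow_natCast,
      mul_inv_cancel₀ (pow_ne_zero _ c.ne), one_smul]
    congr 1
    ring

theorem lam_neg {i : ℤ} {u : W} (h : u ∈ C.T i) : C.lam i (-u) = -C.lam i u := by
  have := C.lam_add h (neg_mem h)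
  rw [add_neg_cancel, (C.lam_zero (zero_mem _)).2 (zero_mem _)] at this
  exact (neg_eq_of_add_eq_zero_right this.symm).symm

theorem lam_sub {i : ℤ} {u v : W} (h : u ∈ C.T i) (h' : v ∈ C.T i) :
    C.lam i (u - v) = C.lam i u - C.lam i v := by
  rw [sub_eq_add_neg, C.lam_add h (neg_mem h'), C.lam_neg h', sub_eq_add_neg]

theorem lam_of {i : ℤ} {u : W} (h : u ∈ C.T (i + 1)) : C.lam i u = 0 :=
  (C.lam_zero (C.succ i h)).2 h

theorem lam_congr {i : ℤ} {u v : W} (h : v ∈ C.T i) (h' : u - v ∈ C.T (i + 1)) :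
    C.lam i u = C.lam i v := by
  rw [← sub_add_cancel u v, C.lam_add (C.succ i h') h, C.lam_of h', zero_add]

theorem sub_mem_of {i : ℤ} {u v : W} (h : u ∈ C.T i) (h' : v ∈ C.T i)
    (e : C.lam i u = C.lam i v) : u - v ∈ C.T (i + 1) :=
  (C.lam_zero (sub_mem h h')).1 (by rw [C.lam_sub h h', e, sub_self])

theorem of_sub {i : ℤ} {u v : W} (h : v ∈ C.T i) (h' : u - v ∈ C.T i) : u ∈ C.T i := by
  simpa using add_mem h' h

theorem small {ε : ℝ} (h : 0 < ε) : ∃ j, ∀ u ∈ C.T j, ‖u‖ < ε := by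
  obtain ⟨B, hB⟩ := C.bdd
  obtain ⟨m, hm⟩ := c.small h B
  refine ⟨0 + m * N, fun u hu => ?_⟩
  have p := pow_ne_zero m c.ne
  rw [← smul_inv_smul₀ p u, C.per_pow] at hu
  rw [← smul_inv_smul₀ p u, norm_smul, norm_pow]
  exact (mul_le_mul_of_nonneg_left (hB _ hu) (by positivity)).trans_lt hm

theorem sep {u : W} (h : ∀ i, u ∈ C.T i) : u = 0 := by
  by_contra h0
  obtain ⟨j, hj⟩ := C.small (norm_pos_iff.2 h0)
  exact (hj u (h j)).false

theorem isClosed (i : ℤ) : IsClosed (C.T i : Set W) := (C.T i).isClosed_of_isOpen (C.isOpen i)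

theorem ball (i : ℤ) : ∃ ε : ℝ, 0 < ε ∧ ∀ u : W, ‖u‖ < ε → u ∈ C.T i := by
  obtain ⟨ε, h1, h2⟩ := Metric.isOpen_iff.1 (C.isOpen i) 0 (zero_mem _)
  exact ⟨ε, h1, fun u hu => h2 (by simpa using hu)⟩

theorem exh_bd (B : ℝ) : ∃ i, ∀ u : W, ‖u‖ ≤ B → u ∈ C.T i := by
  obtain ⟨ε, h1, h2⟩ := C.ball 0
  obtain ⟨m, hm⟩ := c.small h1 B
  refine ⟨-(m * N), fun u hu => (C.per_pow m _ u).1 ?_⟩
  rw [neg_add_cancel]
  refine h2 _ ?_
  rw [norm_smul, norm_pow]
  exact (mul_le_mul_of_nonneg_left hu (by positivity)).trans_lt hm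

theorem exh (u : W) : ∃ i, u ∈ C.T i := (C.exh_bd ‖u‖).imp fun _ h => h u le_rfl

theorem exh_cont {X : Type} [TopologicalSpace X] [CompactSpace X] {x : X → W} (h : Continuous x) :
    ∃ i, ∀ g, x g ∈ C.T i := by
  obtain ⟨B, hB⟩ := (isCompact_range h).isBounded.exists_norm_le
  obtain ⟨i, hi⟩ := C.exh_bd B
  exact ⟨i, fun g => hi _ (hB _ ⟨g, rfl⟩)⟩

theorem bdd' (i : ℤ) : ∃ B : ℝ, ∀ u ∈ C.T i, ‖u‖ ≤ B := by
  obtain ⟨B, hB⟩ := C.bdd
  have p := pow_ne_zero i.natAbs c.ne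
  refine ⟨‖(c.π ^ i.natAbs)⁻¹‖ * B, fun u hu => ?_⟩
  rw [← inv_smul_smul₀ p u, norm_smul]
  refine mul_le_mul_of_nonneg_left (hB _ (C.anti ?_ ((C.per_pow _ i u).2 hu))) (norm_nonneg _)
  have := C.pos
  nlinarith [Int.natCast_natAbs i, neg_abs_le i, abs_nonneg i]

theorem lc {X : Type} [TopologicalSpace X] {x : X → W} {i : ℤ} (h : Continuous x)
    (h' : ∀ g, x g ∈ C.T i) : IsLocallyConstant fun g => C.lam i (x g) := by
  refine (IsLocallyConstant.iff_eventually_eq _).2 fun g => ?_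
  have : Continuous fun y => x y - x g := h.sub continuous_const
  filter_upwards [this.continuousAt.eventually ((C.isOpen (i + 1)).mem_nhds
    (by simp : x g - x g ∈ C.T (i + 1)))] with y hy
  exact C.lam_congr (h' g) hy

theorem lim [CompleteSpace W] {X : Type} [TopologicalSpace X] (a : ℤ) (x : ℕ → X → W)
    (hc : ∀ r, Continuous (x r)) (hs : ∀ (r : ℕ) g, x (r + 1) g - x r g ∈ C.T (a + r)) :
    ∃ y : X → W, Continuous y ∧ ∀ (r : ℕ) g, y g - x r g ∈ C.T (a + r) := by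
  have sm : ∀ ε : ℝ, 0 < ε → ∃ n : ℕ, ∀ r ≥ n, ∀ u ∈ C.T (a + (r : ℕ)), ‖u‖ < ε := fun ε h => by
    obtain ⟨j, hj⟩ := C.small h
    exact ⟨(j - a).toNat, fun r hr u hu => hj u (C.anti (by omega) hu)⟩
  have h1 : ∀ (r : ℕ) g, ∀ m ≥ r, x m g - x r g ∈ C.T (a + r) := by
    intro r g m hm
    induction m, hm using Nat.le_induction with
    | base => simp
    | succ m hm ih =>
      simpa using add_mem (C.anti (by omega : a + (r : ℤ) ≤ a + m) (hs m g)) ih
  have h2 : ∀ g, ∃ l, Tendsto (fun r => x r g) atTop (𝓝 l) := fun g => by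
    refine cauchySeq_tendsto_of_complete (Metric.cauchySeq_iff'.2 fun ε hε => ?_)
    obtain ⟨n, hn⟩ := sm ε hε
    exact ⟨n, fun m hm => by rw [dist_eq_norm]; exact hn n le_rfl _ (h1 n g m hm)⟩
  choose y hy using h2
  have h3 : ∀ (r : ℕ) g, y g - x r g ∈ C.T (a + r) := fun r g =>
    (C.isClosed _).mem_of_tendsto ((hy g).sub_const (x r g))
      (eventually_atTop.2 ⟨r, fun m hm => h1 r g m hm⟩)
  refine ⟨y, TendstoUniformly.continuous (p := atTop) (F := x) ?_
    (Eventually.of_forall hc).frequently, h3⟩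
  refine Metric.tendstoUniformly_iff.2 fun ε hε => ?_
  obtain ⟨n, hn⟩ := sm ε hε
  exact eventually_atTop.2 ⟨n, fun m hm g => by rw [dist_eq_norm]; exact hn m hm _ (h3 m g)⟩

/-- Passage to the limit along a sequence of approximations. -/
theorem lim_of [CompleteSpace W] {X : Type} [TopologicalSpace X] (Q : ℤ → (X → W) → Prop)
    (a M : ℤ) (hc : ∀ j x, Q j x → Continuous x)
    (h : ∀ j, a ≤ j → ∀ x, Q j x → ∃ x', Q (j + 1) x' ∧ ∀ g, x' g - x g ∈ C.T (j - M))
    {x : X → W} (hx : Q a x) : ∃ y : X → W, Continuous y ∧ (∀ g, y g - x g ∈ C.T (a - M)) ∧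
      ∀ j, ∃ j' x', j ≤ j' ∧ Q j' x' ∧ ∀ g, y g - x' g ∈ C.T j := by
  choose! F hF using h
  let xs : ℕ → X → W := fun r => Nat.rec x (fun r y => F (a + r) y) r
  have h1 : ∀ r : ℕ, Q (a + r) (xs r) := fun r => by
    induction r with
    | zero => rw [Nat.cast_zero, add_zero]; exact hx
    | succ r ih => simpa [add_assoc] using (hF (a + r) (by omega) _ ih).1
  obtain ⟨y, hy, h3⟩ := C.lim (a - M) xs (fun r => hc _ _ (h1 r)) fun r g => by
    have := (hF (a + r) (by omega) _ (h1 r)).2 g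
    rwa [show a + r - M = a - M + r by ring] at this
  refine ⟨y, hy, fun g => by simpa [xs] using h3 0 g, fun j => ?_⟩
  exact ⟨_, _, by omega, h1 ((j - a).toNat + (j - a + M).toNat), fun g => C.anti (by omega) (h3 _ g)⟩

end Ch

end Pool.Agent.SP
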