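import Pool.Agent.Lib.MP_b4b3cb_nt.Par.Ch

/-! Graded pieces of spaces of functions with values in a chain of lattices. -/

namespace Pool.Agent.SP

open scoped Classical
open Module

variable {E k : Type} [NontriviallyNormedField E] [Field k]

namespace Ch

variable {c : CF E k} {W : Type} [NormedAddCommGroup W] [NormedSpace E W] {N : ℕ} (C : Ch c W N)
  {X : Type}

/-- The functions in `Y` with values in `T i`. -/
def Z (Y : Submodule E (X → W)) (i : ℤ) : AddSubgroup (X → W) where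
  carrier := {t | t ∈ Y ∧ ∀ g, t g ∈ C.T i}
  add_mem' := fun ha hb => ⟨add_mem ha.1 hb.1, fun g => add_mem (ha.2 g) (hb.2 g)⟩
  zero_mem' := ⟨zero_mem _, fun _ => zero_mem _⟩
  neg_mem' := fun ha => ⟨neg_mem ha.1, fun g => neg_mem (ha.2 g)⟩

/-- The graded piece of `Y`. -/
def Wd (Y : Submodule E (X → W)) (i : ℤ) : Submodule k (X → k) where
  carrier := {f | ∃ t ∈ C.Z Y i, f = fun g => C.lam i (t g)}
  add_mem' := by
    rintro _ _ ⟨a, ha, rfl⟩ ⟨b, hb, rfl⟩
    exact ⟨a + b, add_mem ha hb, funext fun g => (C.lam_add (ha.2 g) (hb.2 g)).symm⟩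
  zero_mem' := ⟨0, zero_mem _, funext fun _ => (C.lam_of (zero_mem _)).symm⟩
  smul_mem' := by
    rintro a _ ⟨t, ht, rfl⟩
    refine ⟨c.sc a • t, ⟨Y.smul_mem _ ht.1, fun g => C.smul (c.sc_le a) (ht.2 g)⟩, funext fun g => ?_⟩
    rw [Pi.smul_apply, Pi.smul_apply, C.lam_smul (c.sc_le a) (ht.2 g), c.rd_sc, smul_eq_mul]

/-- The dimension of the graded piece. -/
noncomputable def dm (Y : Submodule E (X → W)) (i : ℤ) : ℕ := finrank k (C.Wd Y i)

/-- The functions in `Y` are bounded. -/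
def Bd (Y : Submodule E (X → W)) : Prop := ∀ t ∈ Y, ∃ i, ∀ g, t g ∈ C.T i

variable {Y Y' : Submodule E (X → W)}

theorem Z_anti {i j : ℤ} (h : i ≤ j) : C.Z Y j ≤ C.Z Y i :=
  fun _ ht => ⟨ht.1, fun g => C.anti h (ht.2 g)⟩

theorem Z_per (i : ℤ) : (C.Z Y i).map (sml c.π) = C.Z Y (i + N) := by
  ext t
  constructor
  · rintro ⟨s, hs, rfl⟩
    exact ⟨Y.smul_mem _ hs.1, fun g => (C.per i _).2 (hs.2 g)⟩
  · intro h
    refine ⟨c.π⁻¹ • t, ⟨Y.smul_mem _ h.1, fun g => (C.per i _).1 ?_⟩, smul_inv_smul₀ c.ne t⟩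
    rw [Pi.smul_apply, smul_inv_smul₀ c.ne]
    exact h.2 g

theorem W_per (i : ℤ) : C.Wd Y (i + N) = C.Wd Y i := by
  ext f
  constructor
  · rintro ⟨t, ht, rfl⟩
    rw [← C.Z_per] at ht
    obtain ⟨s, hs, rfl⟩ := ht
    exact ⟨s, hs, funext fun g => C.lam_per (hs.2 g)⟩
  · rintro ⟨t, ht, rfl⟩
    exact ⟨c.π • t, C.Z_per i ▸ ⟨t, ht, rfl⟩, funext fun g => (C.lam_per (ht.2 g)).symm⟩

theorem dm_per (i : ℤ) : C.dm Y (i + N) = C.dm Y i := by rw [dm, C.W_per, dm]

theorem W_mono (h : Y ≤ Y') (i : ℤ) : C.Wd Y i ≤ C.Wd Y' i :=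
  fun _ ⟨t, ht, e⟩ => ⟨t, ⟨h ht.1, ht.2⟩, e⟩

theorem ix_W (i : ℤ) : (C.Z Y (i + 1)).relIndex (C.Z Y i) = Nat.card (C.Wd Y i) :=
  ix (C.Z Y (i + 1)) (C.Z Y i) (fun t g => C.lam i (t g))
    (fun _ ha _ hb => funext fun g => C.lam_add (ha.2 g) (hb.2 g)) fun _ ha => ⟨fun h => funext fun g => C.lam_of (h.2 g),
      fun h => ⟨ha.1, fun g => (C.lam_zero (ha.2 g)).1 (congrFun h g)⟩⟩

theorem ix_pow [Finite k] (h : ∀ i, FiniteDimensional k (C.Wd Y i)) (a : ℤ) (r : ℕ) :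
    (C.Z Y (a + r)).relIndex (C.Z Y a) =
      Nat.card k ^ ∑ i ∈ Finset.range r, C.dm Y (a + i) := by
  induction r with
  | zero => simp
  | succ r ih =>
    have := h (a + r)
    rw [Finset.sum_range_succ, pow_add, ← ih, dm, ← Module.natCard_eq_pow_finrank, ← C.ix_W,
      mul_comm, AddSubgroup.relIndex_mul_relIndex _ _ _ (C.Z_anti (by omega)) (C.Z_anti (by omega))]
    congr 2
    push_cast
    ring

variable [CompleteSpace E] [FiniteDimensional E W]

theorem isLat [FiniteDimensional E Y] (hb : C.Bd Y) (i : ℤ) : IsLat Y (C.Z Y i) where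
  le := fun _ h => h.1
  exh := fun y hy => by
    obtain ⟨j, hj⟩ := hb y hy
    refine ⟨‖c.π ^ (i - j).natAbs‖, norm_pos_iff.2 (pow_ne_zero _ c.ne), fun a ha =>
      ⟨Y.smul_mem _ hy, fun g => ?_⟩⟩
    have p := pow_ne_zero (i - j).natAbs c.ne
    rw [Pi.smul_apply, ← div_mul_cancel₀ a p, mul_smul]
    refine C.smul (by rwa [norm_div, div_le_one (norm_pos_iff.2 p)])
      (C.anti ?_ ((C.per_pow _ j _).2 (hj g)))
    have := C.pos
    nlinarith [Int.natCast_natAbs (i - j), le_abs_self (i - j), abs_nonneg (i - j)]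
  bdd := fun K => by
    let L : X × Dual E W → Dual E Y := fun p => p.2 ∘ₗ LinearMap.proj p.1 ∘ₗ Y.subtype
    have hK : K ∈ Submodule.span E (Set.range L) :=
      FiniteDimensional.mem_span_of_iInf_ker_le_ker fun y hy => by
        rw [Submodule.mem_iInf] at hy
        have : y = 0 := Subtype.ext (funext fun g =>
          (forall_dual_apply_eq_zero_iff E _).1 fun φ => hy (g, φ))
        simp [this]
    induction hK using Submodule.span_induction with
    | mem _ h =>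
      obtain ⟨p, rfl⟩ := h
      obtain ⟨B, hB⟩ := C.bdd' i
      refine ⟨‖LinearMap.toContinuousLinearMap p.2‖ * B, fun y hy => ?_⟩
      exact ((LinearMap.toContinuousLinearMap p.2).le_opNorm (y.1 p.1)).trans
        (mul_le_mul_of_nonneg_left (hB _ (hy.2 _)) (norm_nonneg _))
    | zero => exact ⟨0, by simp⟩
    | add _ _ _ _ h h' =>
      obtain ⟨B, hB⟩ := h
      obtain ⟨B', hB'⟩ := h'
      exact ⟨B + B', fun y hy => (norm_add_le _ _).trans (add_le_add (hB y hy) (hB' y hy))⟩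
    | smul a _ _ h =>
      obtain ⟨B, hB⟩ := h
      exact ⟨‖a‖ * B, fun y hy => by
        rw [LinearMap.smul_apply, norm_smul]
        exact mul_le_mul_of_nonneg_left (hB y hy) (norm_nonneg _)⟩

theorem cls [FiniteDimensional E Y] (hb : C.Bd Y) {x : X → W} (hx : ∃ i, ∀ g, x g ∈ C.T i)
    (h : ∀ j, ∃ t ∈ Y, ∀ g, x g - t g ∈ C.T j) : x ∈ Y := by
  by_contra hn
  have hb' : C.Bd (Y ⊔ E ∙ x) := fun t ht => by
    obtain ⟨y, hy, z, hz, rfl⟩ := Submodule.mem_sup.1 ht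
    obtain ⟨a, rfl⟩ := Submodule.mem_span_singleton.1 hz
    obtain ⟨i, hi⟩ := hb y hy
    obtain ⟨j, hj⟩ := hx
    obtain ⟨B, hB⟩ := C.bdd' j
    obtain ⟨l, hl⟩ := C.exh_bd (‖a‖ * B)
    exact ⟨min i l, fun g => add_mem (C.anti (min_le_left _ _) (hi g)) (C.anti (min_le_right _ _)
      (hl _ (by
        rw [Pi.smul_apply, norm_smul]
        exact mul_le_mul_of_nonneg_left (hB _ (hj g)) (norm_nonneg _))))⟩
  obtain ⟨K, hK, hK'⟩ := Y.exists_dual_map_eq_bot_of_notMem hn inferInstance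
  obtain ⟨B, hB⟩ := (C.isLat hb' 0).bdd (K ∘ₗ (Y ⊔ E ∙ x).subtype)
  obtain ⟨m, hm⟩ := c.small (norm_pos_iff.2 hK) B
  obtain ⟨t, ht, h1⟩ := h (0 + m * N)
  have p := pow_ne_zero m c.ne
  have h2 : (c.π ^ m)⁻¹ • (x - t) ∈ Y ⊔ E ∙ x := Submodule.smul_mem _ _ (sub_mem
    (Submodule.mem_sup_right (Submodule.mem_span_singleton_self x)) (Submodule.mem_sup_left ht))
  have h3 := hB ⟨_, h2⟩ ⟨h2, fun g => (C.per_pow m 0 _).1 (by
    rw [Subtype.coe_mk, Pi.smul_apply, smul_inv_smul₀ p]; exact h1 g)⟩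
  have h4 : K t = 0 := (Submodule.mem_bot E).1 (hK' ▸ Submodule.mem_map_of_mem ht)
  rw [LinearMap.comp_apply, Submodule.subtype_apply, map_smul, map_sub, h4, sub_zero, norm_smul,
    norm_inv, inv_mul_le_iff₀ (norm_pos_iff.2 p), norm_pow] at h3
  exact (h3.trans_lt hm).false

variable [IsUltrametricDist E] [Finite k]

theorem fin_W [FiniteDimensional E Y] (hb : C.Bd Y) (i : ℤ) : FiniteDimensional k (C.Wd Y i) := by
  have := (C.isLat hb i).fin c (C.isLat hb (i + 1))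
  rw [C.ix_W] at this
  have := Nat.finite_of_card_ne_zero this
  infer_instance

theorem one_lt_card : 1 < Nat.card k := Finite.one_lt_card

theorem sum_dm [FiniteDimensional E Y] (hb : C.Bd Y) :
    ∑ i ∈ Finset.range N, C.dm Y i = finrank E Y := by
  have h1 := C.ix_pow (C.fin_W hb) 0 N
  have h2 := (C.isLat hb 0).index c (by rw [C.Z_per]; exact C.Z_anti (by omega))
  rw [C.Z_per, h1] at h2
  simpa using Nat.pow_right_injective (one_lt_card (k := k)) h2

theorem fd (hb : C.Bd Y) (H : Submodule k (X → k)) [FiniteDimensional k H]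
    (h : ∀ i, C.Wd Y i ≤ H) : FiniteDimensional E Y := by
  refine Module.rank_lt_aleph0_iff.1 ((rank_le (n := N * finrank k H) fun s hs => ?_).trans_lt
    Cardinal.natCast_lt_aleph0)
  have h1 := hs.map' Y.subtype Y.ker_subtype
  have h2 : Submodule.span E (Set.range (Y.subtype ∘ fun i : s => (i : Y))) ≤ Y :=
    Submodule.span_le.2 (by rintro _ ⟨i, rfl⟩; exact i.1.2)
  have := FiniteDimensional.span_of_finite E (Set.finite_range (Y.subtype ∘ fun i : s => (i : Y)))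
  have h3 := finrank_span_eq_card h1
  rw [← C.sum_dm fun t ht => hb t (h2 ht), Fintype.card_coe] at h3
  rw [← h3]
  exact (Finset.sum_le_card_nsmul (Finset.range N) _ (finrank k H) fun i _ =>
    Submodule.finrank_mono ((C.W_mono h2 i).trans (h i))).trans (by simp)

end Ch

end Pool.Agent.SP
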