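import Pool.Agent.Lib.MP_b4b3cb_nt.Par.Dy
import Pool.Agent.Lib.MP_b4b3cb_nt.Cyc

/-! Coefficient data of a finite extension of the 2-adic numbers and its additive characters. -/

namespace Pool.Agent.SP

open scoped Classical
open Module Pool.Agent.Stark

variable {E : Type} [NontriviallyNormedField E] [IsUltrametricDist E]

open scoped NormedField Valued in
theorem exCF [ProperSpace E] (h2 : ‖(2 : E)‖ < 1) :
    ∃ (k : Type) (_ : Field k) (_ : Finite k) (_ : CharP k 2), Nonempty (CF E k) := by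
  obtain ⟨π, p1, p2⟩ := (Metric.isCompact_of_isClosed_isBounded
    (IsUltrametricDist.isClosed_ball (0 : E) 1) Metric.isBounded_ball).exists_isMaxOn
    ⟨0, by simp⟩ continuous_norm.continuousOn
  have p3 : ∀ x : E, ‖x‖ < 1 → ‖x‖ ≤ ‖π‖ := fun x hx => p2 (by simpa using hx)
  choose sc hsc using IsLocalRing.residue_surjective (R := 𝒪[E])
  have hm := fun x : E => Valued.integer.mem_iff (x := x)
  let c : CF E (IsLocalRing.ResidueField 𝒪[E]) :=
    { π := π
      ne := by
        obtain ⟨x, a, b⟩ := NormedField.exists_norm_lt_one E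
        exact norm_pos_iff.1 (a.trans_le (p3 x b))
      lt := by simpa using p1
      disc := p3
      rd := fun x => if h : ‖x‖ ≤ 1 then IsLocalRing.residue _ ⟨x, (hm x).2 h⟩ else 0
      rd_add := fun x y hx hy => by
        rw [dif_pos hx, dif_pos hy, dif_pos (mem_O1.1 (add_mem hx hy)), ← map_add]; rfl
      rd_mul := fun x y hx hy => by
        rw [dif_pos hx, dif_pos hy, dif_pos ((norm_mul x y).trans_le
          (mul_le_one₀ hx (norm_nonneg _) hy)), ← map_mul]; rfl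
      rd_one := by rw [dif_pos norm_one.le]; exact map_one _
      rd_zero := fun x hx => by
        rw [dif_pos hx, IsLocalRing.residue_eq_zero_iff, IsLocalRing.mem_maximalIdeal,
          mem_nonunits_iff, Valued.integer.isUnit_iff_norm_eq_one]
        exact ⟨fun h => lt_of_le_of_ne hx h, fun h => h.ne⟩
      sc := fun a => sc a
      sc_le := fun a => (hm _).1 (sc a).2
      rd_sc := fun a => by rw [dif_pos ((hm _).1 (sc a).2)]; exact hsc a }
  have : CompactSpace (Metric.closedBall (0 : E) 1) :=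
    isCompact_iff_compactSpace.1 (isCompact_closedBall _ _)
  refine ⟨_, inferInstance, Set.finite_univ_iff.1 ((CF.lc_rd (c := c)
    (X := Metric.closedBall (0 : E) 1) continuous_subtype_val
    fun x => mem_closedBall_zero_iff.1 x.2).range_finite.subset fun a _ =>
      ⟨⟨c.sc a, by simpa using c.sc_le a⟩, c.rd_sc a⟩),
    CharTwo.of_one_ne_zero_of_two_eq_zero one_ne_zero ?_, ⟨c⟩⟩
  simpa using (CF.Rd.nat (c := c) 2).uniq (c.rd_lt (by simpa using h2))

variable [NormedAlgebra ℚ_[2] E] (K Ω : Type) [Field K] [Field Ω] [Algebra K Ω]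

variable (E) in
/-- The cyclotomic character with values in `E`. -/
noncomputable def cycE : (Ω ≃ₐ[K] Ω) →* E :=
  ((algebraMap ℚ_[2] E).comp PadicInt.Coe.ringHom).toMonoidHom.comp
    ((Units.coeHom _).comp (SC.cyc K Ω))

omit [IsUltrametricDist E] in
theorem cycE_apply (g : Ω ≃ₐ[K] Ω) :
    cycE E K Ω g = algebraMap ℚ_[2] E ((SC.cyc K Ω g : ℤ_[2]) : ℚ_[2]) := rfl

omit [IsUltrametricDist E] in
theorem cyc_app (g : Ω ≃ₐ[K] Ω) (j : ℕ) :
    ‖(cycE E K Ω g - (((SC.cyc K Ω g : ℤ_[2]).toZModPow j).val : ℕ)) / 2 ^ j‖ ≤ 1 := by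
  have := SC.CycAux.span_le (x := (SC.cyc K Ω g : ℤ_[2]) -
    (((SC.cyc K Ω g : ℤ_[2]).toZModPow j).val : ℕ)) (n := j) (by
    rw [← PadicInt.ker_toZModPow, RingHom.mem_ker, map_sub, map_natCast, ZMod.natCast_zmod_val,
      sub_self])
  rwa [← norm_algebraMap' E, map_div₀, map_pow, map_ofNat, PadicInt.coe_sub, PadicInt.coe_natCast,
    map_sub, map_natCast] at this

variable {k : Type} [Field k] [CharP k 2] [IsAlgClosed Ω] [CharZero Ω]

theorem exE (c : CF E k) (l : k →+ ZMod 2) : ∃ e : E → Ω, (∀ s t, e (s + t) = e s * e t) ∧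
    (∀ t, e t ≠ 0) ∧ (∀ t a, c.Rd (c.π * t) a → e t = sg Ω (l a)) ∧
    (∀ (n : ℕ) t, e (n * t) = e t ^ n) ∧ ∀ (g : Ω ≃ₐ[K] Ω) t, g (e t) = e (cycE E K Ω g * t) := by
  have : DivisibleBy (Additive Ωˣ) ℕ := divisibleByOfSMulRightSurj _ _ fun {n} hn x => by
    obtain ⟨y, hy⟩ := IsAlgClosed.exists_pow_nat_eq (x.toMul : Ω) (Nat.pos_of_ne_zero hn)
    exact ⟨Additive.ofMul (Units.mk0 y fun h => x.toMul.ne_zero (by rw [← hy, h, zero_pow hn])),
      Units.ext hy⟩
  have := AddGroup.divisibleByIntOfDivisibleByNat (Additive Ωˣ)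
  have s0 : ∀ a, sg Ω a ≠ 0 := fun a => left_ne_zero_of_mul_eq_one (sg_mul_self a)
  obtain ⟨F, hF⟩ := (Module.Baer.of_divisible (Additive Ωˣ)).extension_property_addMonoidHom
    ((O1 E).comap (sml c.π)).subtype Subtype.val_injective
    (AddMonoidHom.mk' (fun t => Additive.ofMul (Units.mk0 _ (s0 (l (c.rd (c.π * t))))))
      fun s t => Units.ext (by
        change sg Ω (l (c.rd (c.π * (s + t)))) = sg Ω _ * sg Ω _
        rw [mul_add, c.rd_add (c.π * s) (c.π * t) s.2 t.2, map_add, sg_add]))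
  have h1 : ∀ t a, c.Rd (c.π * t) a → ((F t).toMul : Ω) = sg Ω (l a) := fun t a h =>
    h.2 ▸ congrArg (fun x => (x.toMul : Ω)) (DFunLike.congr_fun hF ⟨t, h.1⟩)
  have h2 : ∀ t, ‖t‖ ≤ 1 → ((F t).toMul : Ω) = 1 := fun t h => by
    rw [h1 t 0 (c.rd_pi h), map_zero, sg_zero]
  have h3 : ∀ (n : ℕ) t, ((F (n * t)).toMul : Ω) = ((F t).toMul : Ω) ^ n := fun n t => by
    rw [← nsmul_eq_mul, map_nsmul]; rfl
  have h4 : ∀ s t, ((F (s + t)).toMul : Ω) = (F s).toMul * (F t).toMul := fun s t => by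
    rw [map_add]; rfl
  refine ⟨fun t => (F t).toMul, h4, fun t => Units.ne_zero _, h1, h3, fun g t => ?_⟩
  have := charZero_of_injective_algebraMap (algebraMap ℚ_[2] E).injective
  obtain ⟨j, hj⟩ := exists_pow_lt_of_lt_one (inv_pos.2 (zero_lt_one.trans_le (le_max_left 1 ‖t‖)))
    c.two_lt
  have a : ‖2 ^ j * t‖ ≤ 1 := by
    rw [norm_mul, norm_pow]
    refine (mul_le_mul hj.le (le_max_right 1 ‖t‖) (norm_nonneg _) (by positivity)).trans_eq ?_
    exact inv_mul_cancel₀ (by positivity)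
  have b := h3 (2 ^ j) t
  rw [h2 _ (by simpa using a)] at b
  have d := h2 _ ((c.rd_of (cyc_app K Ω g j)).mul (c.rd_of a)).1
  refine (cyclotomicCharacter.spec 2 (MulSemiringAction.toRingAut (Ω ≃ₐ[K] Ω) Ω g) _ b.symm).trans ?_
  rw [← h3]
  refine (mul_one _).symm.trans ?_
  rw [← d, ← h4]
  congr 3
  field_simp
  exact congrArg _ (add_sub_cancel _ _)

end Pool.Agent.SP
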