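import Pool.Agent.Lib.MP_b4b3cb_nt.Par.Cnt

/-! Cochains, representations, pairings and local duality data. -/

namespace Pool.Agent.SP

open scoped Classical
open Module

variable {E k : Type} [NontriviallyNormedField E] [Field k]
  {G G' : Type} [Group G] [TopologicalSpace G] [Group G'] [TopologicalSpace G']

variable (k G) in
/-- Continuous homomorphisms to the residue field. -/
def Hm : Submodule k (G → k) where
  carrier := {f | IsLocallyConstant f ∧ ∀ g h, f (g * h) = f g + f h}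
  add_mem' := fun {a b} ha hb => ⟨ha.1.add hb.1, fun g h => by
    simp only [Pi.add_apply, ha.2, hb.2]; ring⟩
  zero_mem' := ⟨IsLocallyConstant.const _, by simp⟩
  smul_mem' := fun c a ha => ⟨ha.1.comp (c • ·), fun g h => by
    simp only [Pi.smul_apply, ha.2, smul_add]⟩

/-- Continuous 2-cocycles with values in the residue field. -/
def Cz (ε : G → G → k) : Prop :=
  (IsLocallyConstant fun p : G × G => ε p.1 p.2) ∧
    ∀ g h l, ε h l + ε g (h * l) = ε (g * h) l + ε g h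

/-- Coboundaries with values in the residue field. -/
def Sz (ε : G → G → k) : Prop :=
  ∃ f : G → k, IsLocallyConstant f ∧ ∀ g h, ε g h = f g + f h - f (g * h)

/-- The cup product of two characters. -/
def cup {G : Type} (a b : G → k) (g h : G) : k := a g * b h

/-- The coboundary of a cochain with values in `E(χ)`. -/
def dq {G : Type} [Group G] (χ f : G → E) (g h : G) : E := f g + χ g * f h - f (g * h)

/-- Coboundaries with values in `E(χ)`. -/
def Cob (χ : G → E) (b : G → G → E) : Prop :=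
  ∃ f : G → E, Continuous f ∧ ∀ g h, b g h = dq χ f g h

theorem Hm.comp {f : G → k} (hf : f ∈ Hm k G) (φ : G' →* G) (hφ : Continuous φ) :
    (fun g => f (φ g)) ∈ Hm k G' :=
  ⟨hf.1.comp_continuous hφ, fun g h => by beta_reduce; rw [map_mul, hf.2]⟩

theorem Hm.res {f : G → k} (hf : f ∈ Hm k G) (D : Subgroup G) : (fun g : D => f g) ∈ Hm k D :=
  Hm.comp hf D.subtype continuous_subtype_val

theorem Cz.add {ε ε' : G → G → k} (h : Cz ε) (h' : Cz ε') : Cz (ε + ε') :=
  ⟨h.1.add h'.1, fun g a l => by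
    simp only [Pi.add_apply]; linear_combination h.2 g a l + h'.2 g a l⟩

theorem Cz.smul {ε : G → G → k} (h : Cz ε) (a : k) : Cz (a • ε) :=
  ⟨h.1.comp (a * ·), fun g b l => by
    simp only [Pi.smul_apply, smul_eq_mul]; linear_combination a * h.2 g b l⟩

theorem cz_cup {a b : G → k} (ha : a ∈ Hm k G) (hb : b ∈ Hm k G) : Cz (cup a b) :=
  ⟨(ha.1.comp_continuous continuous_fst).mul (hb.1.comp_continuous continuous_snd),
    fun g h l => by simp only [cup, ha.2, hb.2]; ring⟩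

theorem cz_zero : Cz (0 : G → G → k) := ⟨IsLocallyConstant.const (0 : k), by simp⟩

variable (E G) in
/-- A continuous representation. -/
structure Rp (W : Type) [NormedAddCommGroup W] [NormedSpace E W] where
  /-- the action -/
  ac : G →* Module.End E W
  cont : Continuous fun p : G × W => ac p.1 p.2

variable {W W' : Type} [NormedAddCommGroup W] [NormedSpace E W] [NormedAddCommGroup W']
  [NormedSpace E W']

namespace Rp

variable (R : Rp E G W)

/-- Pull back along a continuous homomorphism. -/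
def comap (φ : G' →* G) (hφ : Continuous φ) : Rp E G' W :=
  ⟨R.ac.comp φ, R.cont.comp (hφ.prodMap continuous_id)⟩

/-- Restriction to a subgroup. -/
def res (D : Subgroup G) : Rp E D W := R.comap D.subtype continuous_subtype_val

/-- The coboundary of a cochain. -/
def d2 (x : G → W) (g h : G) : W := x g + R.ac g (x h) - x (g * h)

/-- The coboundary of a vector. -/
def d1 : W →ₗ[E] (G → W) := LinearMap.pi fun g => R.ac g - LinearMap.id

/-- Continuous cocycles. -/
def Z1 : Submodule E (G → W) where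
  carrier := {x | Continuous x ∧ ∀ g h, R.d2 x g h = 0}
  add_mem' := fun {a b} ha hb => ⟨ha.1.add hb.1, fun g h => by
    have := congrArg₂ (· + ·) (ha.2 g h) (hb.2 g h)
    simp only [d2, Pi.add_apply, map_add, add_zero] at this ⊢
    rw [← this]; abel⟩
  zero_mem' := ⟨continuous_const, by simp [d2]⟩
  smul_mem' := fun c a ha => ⟨ha.1.const_smul c, fun g h => by
    have := congrArg (c • ·) (ha.2 g h)
    simpa [d2, smul_sub] using this⟩

/-- Coboundaries. -/
def B1 : Submodule E (G → W) := LinearMap.range R.d1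

theorem d1_apply (u : W) (g : G) : R.d1 u g = R.ac g u - u := rfl

theorem mul (g h : G) (u : W) : R.ac (g * h) u = R.ac g (R.ac h u) := by rw [map_mul]; rfl

theorem one (u : W) : R.ac 1 u = u := by rw [map_one]; rfl

theorem d2_add (x y : G → W) (g h : G) : R.d2 (x + y) g h = R.d2 x g h + R.d2 y g h := by
  simp only [d2, Pi.add_apply, map_add]; abel

theorem d2_sub (x y : G → W) (g h : G) : R.d2 (x - y) g h = R.d2 x g h - R.d2 y g h := by
  simp only [d2, Pi.sub_apply, map_sub]; abel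

theorem d2_smul (a : E) (x : G → W) (g h : G) : R.d2 (a • x) g h = a • R.d2 x g h := by
  simp only [d2, Pi.smul_apply, map_smul, smul_sub, smul_add]

theorem dd (x : G → W) (g h l : G) :
    R.ac g (R.d2 x h l) + R.d2 x g (h * l) = R.d2 x (g * h) l + R.d2 x g h := by
  simp only [d2, map_sub, map_add, R.mul, mul_assoc]; abel

theorem d2_one (x : G → W) : R.d2 x 1 1 = x 1 := by simp [d2]

theorem coc {x : G → W} (hx : x ∈ R.Z1) (g h : G) : x (g * h) = x g + R.ac g (x h) :=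
  (sub_eq_zero.1 (hx.2 g h)).symm

theorem cont_ac {X : Type} [TopologicalSpace X] {φ : X → G} {x : X → W} (h : Continuous φ)
    (h' : Continuous x) : Continuous fun p => R.ac (φ p) (x p) := R.cont.comp (h.prodMk h')

theorem d1_mem (u : W) : R.d1 u ∈ R.Z1 :=
  ⟨(R.cont_ac continuous_id continuous_const).sub continuous_const, fun g h => by
    simp only [d2, d1_apply, R.mul, map_sub]; abel⟩

theorem B1_le : R.B1 ≤ R.Z1 := by
  rintro _ ⟨u, rfl⟩
  exact R.d1_mem u

theorem d2_cont [ContinuousMul G] {x : G → W} (hx : Continuous x) :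
    Continuous fun p : G × G => R.d2 x p.1 p.2 :=
  ((hx.comp continuous_fst).add (R.cont_ac continuous_fst (hx.comp continuous_snd))).sub
    (hx.comp continuous_mul)

theorem res_mem {x : G → W} (hx : x ∈ R.Z1) (D : Subgroup G) :
    (fun g : D => x g) ∈ (R.res D).Z1 :=
  ⟨hx.1.comp continuous_subtype_val, fun g h => hx.2 g h⟩

theorem rank_B1 [FiniteDimensional E W] (h : ∀ u, (∀ g, R.ac g u = u) → u = 0) :
    finrank E R.B1 = finrank E W :=
  LinearMap.finrank_range_of_inj ((injective_iff_map_eq_zero _).2 fun u hu =>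
    h u fun g => sub_eq_zero.1 (congrFun hu g))

end Rp

variable {c : CF E k} {N : ℕ}

namespace Ch

variable (C : Ch c W N) (R : Rp E G W)

/-- The group acts trivially on the steps of the chain. -/
def Stab : Prop := ∀ g i u, u ∈ C.T i → R.ac g u - u ∈ C.T (i + 1)

/-- Cochains with values in `T i` which are cocycles modulo `T j`. -/
def Lev (i j : ℤ) : AddSubgroup (G → W) where
  carrier := {x | Continuous x ∧ (∀ g, x g ∈ C.T i) ∧ ∀ g h, R.d2 x g h ∈ C.T j}
  add_mem' := fun {a b} ha hb => ⟨ha.1.add hb.1, fun g => add_mem (ha.2.1 g) (hb.2.1 g),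
    fun g h => by rw [R.d2_add]; exact add_mem (ha.2.2 g h) (hb.2.2 g h)⟩
  zero_mem' := ⟨continuous_const, fun _ => zero_mem _, fun g h => by simp [Rp.d2]⟩
  neg_mem' := fun {a} ha => ⟨ha.1.neg, fun g => neg_mem (ha.2.1 g), fun g h => by
    rw [← neg_one_smul E a, R.d2_smul, neg_one_smul]; exact neg_mem (ha.2.2 g h)⟩

variable {C R}

theorem Stab.comap (hS : C.Stab R) (φ : G' →* G) (hφ : Continuous φ) : C.Stab (R.comap φ hφ) :=
  fun g => hS (φ g)

theorem Stab.res (hS : C.Stab R) (D : Subgroup G) : C.Stab (R.res D) := fun g => hS g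

theorem Stab.mem (hS : C.Stab R) (g : G) {i : ℤ} {u : W} (h : u ∈ C.T i) : R.ac g u ∈ C.T i :=
  C.of_sub h (C.succ i (hS g i u h))

theorem Stab.lam (hS : C.Stab R) (g : G) {i : ℤ} {u : W} (h : u ∈ C.T i) :
    C.lam i (R.ac g u) = C.lam i u := C.lam_congr h (hS g i u h)

theorem Stab.lam_d2 (hS : C.Stab R) {j : ℤ} {a : G → W} (h : ∀ g, a g ∈ C.T j) (g l : G) :
    R.d2 a g l ∈ C.T j ∧
      C.lam j (R.d2 a g l) = C.lam j (a g) + C.lam j (a l) - C.lam j (a (g * l)) :=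
  ⟨sub_mem (add_mem (h g) (hS.mem g (h l))) (h _), by
    rw [Rp.d2, C.lam_sub (add_mem (h g) (hS.mem g (h l))) (h _), C.lam_add (h g) (hS.mem g (h l)),
      hS.lam g (h l)]⟩

theorem Stab.hom (hS : C.Stab R) {i j : ℤ} {x : G → W} (hx : x ∈ C.Lev R i j) (h : i < j) :
    (fun g => C.lam i (x g)) ∈ Hm k G :=
  ⟨C.lc hx.1 hx.2.1, fun g l => by
    have := (hS.lam_d2 hx.2.1 g l).2
    rw [C.lam_of (C.anti h (hx.2.2 g l))] at this
    exact (sub_eq_zero.1 this.symm).symm⟩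

theorem Stab.cz [ContinuousMul G] (hS : C.Stab R) {i j : ℤ} {x : G → W} (hx : x ∈ C.Lev R i j) :
    Cz fun g h => C.lam j (R.d2 x g h) :=
  ⟨C.lc (R.d2_cont hx.1) fun p => hx.2.2 p.1 p.2, fun g h l => by
    beta_reduce
    rw [← hS.lam g (hx.2.2 h l), ← C.lam_add (hS.mem g (hx.2.2 h l)) (hx.2.2 _ _), R.dd,
      C.lam_add (hx.2.2 _ _) (hx.2.2 _ _)]⟩

theorem lev_mono {i i' j j' : ℤ} (h : i' ≤ i) (h' : j' ≤ j) : C.Lev R i j ≤ C.Lev R i' j' :=
  fun _ hx => ⟨hx.1, fun g => C.anti h (hx.2.1 g), fun g l => C.anti h' (hx.2.2 g l)⟩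

theorem lev_res {i j : ℤ} {x : G → W} (hx : x ∈ C.Lev R i j) (D : Subgroup G) :
    (fun g : D => x g) ∈ C.Lev (R.res D) i j :=
  ⟨hx.1.comp continuous_subtype_val, fun g => hx.2.1 g, fun g h => hx.2.2 g h⟩

theorem lev_of {Y : Submodule E (G → W)} (hY : Y ≤ R.Z1) {i : ℤ} {t : G → W} (ht : t ∈ C.Z Y i)
    (j : ℤ) : t ∈ C.Lev R i j :=
  ⟨(hY ht.1).1, ht.2, fun g h => by rw [(hY ht.1).2]; exact zero_mem _⟩

theorem lev_smul {i j : ℤ} {x : G → W} (hx : x ∈ C.Lev R i j) {a : E} (ha : ‖a‖ ≤ 1) :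
    a • x ∈ C.Lev R i j :=
  ⟨hx.1.const_smul a, fun g => C.smul ha (hx.2.1 g), fun g h => by
    rw [R.d2_smul]; exact C.smul ha (hx.2.2 g h)⟩

theorem lev_per {i j : ℤ} {x : G → W} (m : ℤ) (hx : x ∈ C.Lev R i j) :
    c.π ^ m • x ∈ C.Lev R (i + m * N) (j + m * N) :=
  ⟨hx.1.const_smul _, fun g => (C.per_zpow m _ _).2 (hx.2.1 g), fun g h => by
    rw [R.d2_smul]; exact (C.per_zpow m _ _).2 (hx.2.2 g h)⟩

theorem Stab.W_le (hS : C.Stab R) {Y : Submodule E (G → W)} (hY : Y ≤ R.Z1) (i : ℤ) :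
    C.Wd Y i ≤ Hm k G := by
  rintro _ ⟨t, ht, rfl⟩
  exact hS.hom (lev_of hY ht (i + 1)) (by omega)

variable (C) in
theorem lift_lc {X : Type} [TopologicalSpace X] (i : ℤ) {f : X → k} (hf : IsLocallyConstant f) :
    ∃ y : X → W, Continuous y ∧ ∀ g, y g ∈ C.T i ∧ C.lam i (y g) = f g := by
  obtain ⟨e, he, h1⟩ := C.ex i
  exact ⟨fun g => c.sc (f g) • e, (hf.comp fun a => c.sc a • e).continuous, fun g =>
    ⟨C.smul (c.sc_le _) he, by rw [C.lam_smul (c.sc_le _) he, c.rd_sc, h1, mul_one]⟩⟩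

theorem Stab.lev_hom (hS : C.Stab R) (i : ℤ) {f : G → k} (hf : f ∈ Hm k G) :
    ∃ x ∈ C.Lev R i (i + 1), ∀ g, C.lam i (x g) = f g := by
  obtain ⟨y, h1, h2⟩ := C.lift_lc i hf.1
  refine ⟨y, ⟨h1, fun g => (h2 g).1, fun g h => ?_⟩, fun g => (h2 g).2⟩
  obtain ⟨a, b⟩ := hS.lam_d2 (fun g => (h2 g).1) g h
  rw [← C.lam_zero a, b, (h2 _).2, (h2 _).2, (h2 _).2, hf.2, sub_self]

/-- A cochain whose obstruction splits can be lifted one step. -/
theorem Stab.lift (hS : C.Stab R) {i j : ℤ} {x : G → W} (hx : x ∈ C.Lev R i j) (hij : i ≤ j)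
    (h : Sz fun g h => C.lam j (R.d2 x g h)) :
    ∃ x' ∈ C.Lev R i (j + 1), ∀ g, x' g - x g ∈ C.T j := by
  obtain ⟨f, f1, f2⟩ := h
  obtain ⟨y, h1, h2⟩ := C.lift_lc j f1
  refine ⟨x - y, ⟨hx.1.sub h1, fun g => sub_mem (hx.2.1 g) (C.anti hij (h2 g).1), fun g h => ?_⟩,
    fun g => by simpa using (h2 g).1⟩
  obtain ⟨a, b⟩ := hS.lam_d2 (fun g => (h2 g).1) g h
  rw [R.d2_sub]
  refine C.sub_mem_of (hx.2.2 g h) a ?_
  rw [b, (h2 _).2, (h2 _).2, (h2 _).2]
  exact f2 g h

theorem bd_of [CompactSpace G] {Y : Submodule E (G → W)} (hY : Y ≤ R.Z1) : C.Bd Y :=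
  fun _ ht => C.exh_cont (hY ht).1

/-- A cocycle is controlled by its values on generators. -/
theorem Stab.gen [CompactSpace G] (hS : C.Stab R) (s : Set G)
    (hs : ∀ f ∈ Hm k G, (∀ g ∈ s, f g = 0) → f = 0) {t : G → W} (ht : t ∈ R.Z1) {j : ℤ}
    (h : ∀ g ∈ s, t g ∈ C.T j) (g : G) : t g ∈ C.T j := by
  obtain ⟨i, hi⟩ := C.exh_cont ht.1
  rcases le_total j i with hij | hij
  · exact C.anti hij (hi g)
  · induction j, hij using Int.leInduction generalizing g with
    | base => exact hi g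
    | succ j _ ih =>
      have h1 := ih fun g hg => C.succ _ (h g hg)
      exact (C.lam_zero (h1 g)).1 (congrFun (hs _ (hS.hom (lev_of le_rfl ⟨ht, h1⟩ (j + 1))
        (by omega)) fun g hg => C.lam_of (h g hg)) g)

end Ch

/-- A pairing of two chains which is perfect on the steps. -/
structure Pa (C : Ch c W N) (C' : Ch c W' N) (β : W →ₗ[E] W' →ₗ[E] E) : Prop where
  le : ∀ {i j u v}, u ∈ C.T i → v ∈ C'.T j → 0 ≤ i + j → ‖β u v‖ ≤ 1
  lam : ∀ i j, i + j = -1 → ∃ κ : k, κ ≠ 0 ∧ ∀ u ∈ C.T i, ∀ v ∈ C'.T j,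
    c.Rd (c.π * β u v) (κ * (C.lam i u * C'.lam j v))

/-- An equivariant pairing. -/
def Equi (χ : G → E) (R : Rp E G W) (R' : Rp E G W') (β : W →ₗ[E] W' →ₗ[E] E) : Prop :=
  ∀ g u v, β (R.ac g u) (R'.ac g v) = χ g * β u v

/-- The cup product of two cochains. -/
def cupB (β : W →ₗ[E] W' →ₗ[E] E) (R' : Rp E G W') (t : G → W) (t' : G → W') (g h : G) : E :=
  β (t g) (R'.ac g (t' h))

variable (c G) in
/-- Local duality data. -/
structure LD (χ : G → E) where
  /-- the invariant of a 2-cocycle -/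
  inv : (G → G → k) → k
  add : ∀ {ε ε'}, Cz ε → Cz ε' → inv (ε + ε') = inv ε + inv ε'
  smul : ∀ (a : k) {ε}, Cz ε → inv (a • ε) = a * inv ε
  zero : ∀ {ε}, Cz ε → (inv ε = 0 ↔ Sz ε)
  nondeg : ∀ a ∈ Hm k G, (∀ b ∈ Hm k G, inv (cup a b) = 0) → a = 0
  fin : FiniteDimensional k (Hm k G)
  rloc : ∀ {ε} (f : G → E), Cz ε → Continuous f →
    (∀ g h, c.Rd (c.π * dq χ f g h) (ε g h)) → inv ε = 0

namespace LD

variable {χ : G → E} (L : LD G c χ)

/-- The local symbol. -/
def sym (a b : G → k) : k := L.inv (cup a b)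

variable {a a' b b' : G → k}

theorem add_left (ha : a ∈ Hm k G) (ha' : a' ∈ Hm k G) (hb : b ∈ Hm k G) :
    L.sym (a + a') b = L.sym a b + L.sym a' b := by
  rw [sym, sym, sym, ← L.add (cz_cup ha hb) (cz_cup ha' hb)]
  congr 1
  ext g h
  exact add_mul _ _ _

theorem add_right (ha : a ∈ Hm k G) (hb : b ∈ Hm k G) (hb' : b' ∈ Hm k G) :
    L.sym a (b + b') = L.sym a b + L.sym a b' := by
  rw [sym, sym, sym, ← L.add (cz_cup ha hb) (cz_cup ha hb')]
  congr 1
  ext g h
  exact mul_add _ _ _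

theorem smul_left (r : k) (ha : a ∈ Hm k G) (hb : b ∈ Hm k G) :
    L.sym (r • a) b = r * L.sym a b := by
  rw [sym, sym, ← L.smul r (cz_cup ha hb)]
  congr 1
  ext g h
  exact mul_assoc _ _ _

theorem smul_right (r : k) (ha : a ∈ Hm k G) (hb : b ∈ Hm k G) :
    L.sym a (r • b) = r * L.sym a b := by
  rw [sym, sym, ← L.smul r (cz_cup ha hb)]
  congr 1
  ext g h
  exact mul_left_comm _ _ _

theorem inv_zero : L.inv 0 = 0 := by simpa using L.smul 0 cz_zero

theorem sym_zero (a : G → k) : L.sym a 0 = 0 := by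
  rw [sym, ← L.inv_zero]
  congr 1
  ext g h
  exact mul_zero _

theorem comm [CharP k 2] (ha : a ∈ Hm k G) (hb : b ∈ Hm k G) : L.sym a b = L.sym b a := by
  refine CharTwo.add_eq_zero.1 ?_
  rw [sym, sym, ← L.add (cz_cup ha hb) (cz_cup hb ha), L.zero ((cz_cup ha hb).add (cz_cup hb ha))]
  refine ⟨a * b, ha.1.mul hb.1, fun g h => ?_⟩
  simp only [Pi.add_apply, Pi.mul_apply, cup, ha.2, hb.2]
  linear_combination (a g * b h + a h * b g) * CharTwo.two_eq_zero (R := k)

/-- The local symbol as a bilinear form. -/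
def form : LinearMap.BilinForm k (Hm k G) :=
  LinearMap.mk₂ k (fun a b => L.sym a b) (fun a a' b => L.add_left a.2 a'.2 b.2)
    (fun r a b => L.smul_left r a.2 b.2) (fun a b b' => L.add_right a.2 b.2 b'.2)
    fun r a b => L.smul_right r a.2 b.2

variable {C : Ch c W N} {C' : Ch c W' N} {β : W →ₗ[E] W' →ₗ[E] E} {R : Rp E G W} {R' : Rp E G W'}
  {Y : Submodule E (G → W)} {Y' : Submodule E (G → W')}

theorem iso (hP : Pa C C' β) (hS : C.Stab R) (hS' : C'.Stab R') (hY : Y ≤ R.Z1) (hY' : Y' ≤ R'.Z1)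
    (h : ∀ t ∈ Y, ∀ t' ∈ Y', Cob χ (cupB β R' t t')) {i j : ℤ} (hij : i + j = -1)
    (ha : a ∈ C.Wd Y i) (hb : b ∈ C'.Wd Y' j) : L.sym a b = 0 := by
  have h1 := cz_cup (hS.W_le hY i ha) (hS'.W_le hY' j hb)
  obtain ⟨t, ht, rfl⟩ := ha
  obtain ⟨t', ht', rfl⟩ := hb
  obtain ⟨f, f1, f2⟩ := h t ht.1 t' ht'.1
  obtain ⟨κ, k0, k1⟩ := hP.lam i j hij
  have := L.rloc f (h1.smul κ) f1 fun g l => (k1 _ (ht.2 g) _ (hS'.mem g (ht'.2 l))).congr
    (by rw [← f2]; rfl) (by rw [hS'.lam g (ht'.2 l)]; rfl)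
  rw [L.smul κ h1] at this
  exact (mul_eq_zero.1 this).resolve_left k0

end LD

end Pool.Agent.SP
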