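import Pool.Agent.Lib.MP_b4b3cb_nt.Par.LocA

/-! The tame relation in a unipotent representation. -/

namespace Pool.Agent.SP

open scoped Classical
open Module

variable {E k : Type} [NontriviallyNormedField E] [NormedAlgebra ℚ_[2] E] [Field k]

theorem nrm_dvd (z : ℤ) (n : ℕ) : ‖(z : E) / 2 ^ n‖ ≤ 1 ↔ (2 ^ n : ℤ) ∣ z := by
  have := Padic.norm_int_le_pow_iff_dvd (p := 2) z n
  rw [Nat.cast_ofNat (R := ℤ)] at this
  rw [← this, ← map_intCast (algebraMap ℚ_[2] E), ← map_ofNat (algebraMap ℚ_[2] E), ← map_pow,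
    ← map_div₀, norm_algebraMap', norm_div, div_le_one (by simp), ← Padic.norm_p_pow]
  rfl

variable [CharP k 2] {I : Type} [Group I] [TopologicalSpace I] [IsTopologicalGroup I]
  [CompactSpace I] {τ g' : I} {q : ℕ} (hτ : Gen k ∅ τ)
  (tm : ∀ f : I → E, Continuous f → (∀ g h, ‖f (g * h) - f g - f h‖ ≤ 1) → ‖f g' - q * f τ‖ ≤ 1)

include hτ tm

theorem cyc2 (U : Subgroup I) [U.Normal] (hU : IsOpen (U : Set I)) (hp : ∀ g, ∃ a, g ^ 2 ^ a ∈ U) :
    g'⁻¹ * τ ^ q ∈ U := by
  have := U.quotient_finite_of_isOpen hU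
  have := QuotientGroup.discreteTopology hU
  have : Fact (Nat.Prime 2) := ⟨Nat.prime_two⟩
  have p : IsPGroup 2 (I ⧸ U) := fun x => by
    obtain ⟨g, rfl⟩ := QuotientGroup.mk_surjective x
    exact (hp g).imp fun a h => (QuotientGroup.eq_one_iff _).2 h
  obtain ⟨n, hn⟩ := IsPGroup.iff_card.1 p
  have cont : ∀ {Y : Type} (F : I ⧸ U → Y), IsLocallyConstant fun g : I => F g := fun F =>
    (IsLocallyConstant.of_discrete F).comp_continuous QuotientGroup.continuous_mk
  have gen : ∀ x, x ∈ Subgroup.zpowers (τ : I ⧸ U) := by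
    by_contra h
    obtain ⟨a, ha⟩ := IsPGroup.iff_card.1 (p.to_subgroup (Subgroup.zpowers (τ : I ⧸ U)))
    have lt : a < n := (Nat.pow_lt_pow_iff_right one_lt_two).1 (lt_of_le_of_ne
      (ha ▸ hn ▸ Subgroup.card_le_card_group _) fun e => h ((Subgroup.eq_top_iff' _).1
        (Subgroup.eq_top_of_card_eq _ (by rw [ha, hn, e]))))
    obtain ⟨n, rfl⟩ := Nat.exists_eq_add_one_of_ne_zero (Nat.ne_zero_of_lt lt)
    obtain ⟨M, m1, m2⟩ := Sylow.exists_subgroup_card_pow_prime_le 2 (m := n)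
      (hn ▸ pow_dvd_pow 2 n.le_succ) _ ha (by omega)
    have m3 : M.index = 2 := mul_left_cancel₀ (pow_ne_zero n two_ne_zero)
      (by rw [← m1, M.card_mul_index, hn, m1, pow_succ])
    have m4 := hτ (fun g => if (g : I ⧸ U) ∈ M then 0 else 1)
      ⟨cont fun x => if x ∈ M then 0 else 1, fun g l => by
        simp only [QuotientGroup.mk_mul, Subgroup.mul_mem_iff_of_index_two m3]
        by_cases a : (g : I ⧸ U) ∈ M <;> by_cases b : (l : I ⧸ U) ∈ M <;>
          simp [a, b, CharTwo.add_self_eq_zero]⟩ (by simp) (if_pos (m2 (Subgroup.mem_zpowers _)))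
    rw [(Subgroup.eq_top_iff' M).2 fun x => by
      obtain ⟨g, rfl⟩ := QuotientGroup.mk_surjective x
      simpa using congrFun m4 g] at m3
    simp at m3
  choose i hi using gen
  have md : ∀ {a b : ℤ}, (τ : I ⧸ U) ^ a = (τ : I ⧸ U) ^ b ↔ ‖((b : E) - a) / 2 ^ n‖ ≤ 1 := by
    intro a b
    rw [zpow_eq_zpow_iff_modEq, orderOf_eq_card_of_forall_mem_zpowers fun x => ⟨_, hi x⟩, hn,
      Int.modEq_iff_dvd, ← Int.cast_sub, nrm_dvd]
    norm_cast
  simp only at hi
  have := tm (fun g => (i g : E) / 2 ^ n) (cont fun x => (i x : E) / 2 ^ n).continuous fun g h => by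
    convert (md (a := i g + i h) (b := i (g * h : I))).1
      (by rw [zpow_add, hi, hi, hi, QuotientGroup.mk_mul]) using 2
    push_cast
    ring
  have e := (md (a := i τ * q) (b := i g')).2 (by
    convert this using 2
    push_cast
    ring)
  rwa [zpow_mul, hi, hi, zpow_natCast, eq_comm, ← QuotientGroup.mk_pow, QuotientGroup.eq] at e

theorem rel [IsUltrametricDist E] [Finite k] {c : CF E k} {W : Type} [NormedAddCommGroup W]
    [NormedSpace E W] {N : ℕ} {C : Ch c W N} {R : Rp E I W} (hS : C.Stab R) :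
    R.ac g' = R.ac τ ^ q := by
  have pw : ∀ g (a : ℕ) i, ∀ x ∈ C.T i, R.ac (g ^ 2 ^ a) x - x ∈ C.T (i + a) := fun g a => by
    have : ∀ i, ∀ x ∈ C.T i, R.ac (g ^ 2 ^ a) x - x ∈ C.T (i + a + 1) := by
      induction a with
      | zero => simpa using hS g
      | succ a ih =>
        intro i x hx
        have h := ih i x hx
        rw [Nat.cast_succ, ← add_assoc]
        convert add_mem (C.anti (show i + a + 1 + 1 ≤ _ by omega) (ih _ _ h))
          ((C.lam_zero (C.smul c.two_lt.le h)).1 (by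
            rw [C.lam_smul c.two_lt.le h, (c.rd_lt c.two_lt).2, zero_mul])) using 1
        rw [pow_succ, pow_mul, pow_two, R.mul, map_sub, two_smul]
        abel
    exact fun i x hx => C.succ _ (this i x hx)
  refine LinearMap.ext fun x => ?_
  obtain ⟨i, hi⟩ := C.exh x
  have key : ∀ j : ℕ, R.ac (g'⁻¹ * τ ^ q) x - x ∈ C.T (i + j) := fun j => by
    let U : Subgroup I :=
      { carrier := {g | ∀ y ∈ C.T i, R.ac g y - y ∈ C.T (i + j)}
        mul_mem' := fun {a b} ha hb y hy => by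
          convert add_mem (hS.mem a (hb y hy)) (ha y hy) using 1
          rw [R.mul, map_sub, sub_add_sub_cancel]
        one_mem' := fun y _ => by simp
        inv_mem' := fun {a} ha y hy => by
          convert neg_mem (hS.mem a⁻¹ (ha y hy)) using 1
          rw [map_sub, ← R.mul, inv_mul_cancel, R.one, neg_sub] }
    have : U.Normal := ⟨fun g hg l y hy => by
      convert hS.mem l (hg _ (hS.mem l⁻¹ hy)) using 1
      rw [map_sub, ← R.mul l l⁻¹, mul_inv_cancel, R.one, R.mul, R.mul]⟩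
    have : ((C.T (i + j)).addSubgroupOf (C.T i)).FiniteIndex :=
      ⟨(C.ix_T i j).trans_ne (pow_ne_zero _ Nat.card_pos.ne')⟩
    refine cyc2 hτ tm U ?_ (fun g => ⟨j, pw g j i⟩) x hi
    convert isOpen_iInter_of_finite fun y : C.T i ⧸ (C.T (i + j)).addSubgroupOf (C.T i) =>
      (C.isOpen (i + j)).preimage (R.d1_mem y.out.1).1
    ext g
    rw [Set.mem_iInter]
    refine ⟨fun h y => h _ y.out.2, fun h y hy => ?_⟩
    obtain ⟨z, hz⟩ := QuotientAddGroup.mk_out_eq_add ((C.T (i + j)).addSubgroupOf (C.T i)) ⟨y, hy⟩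
    convert sub_mem (h (⟨y, hy⟩ : C.T i)) (C.succ _ (hS g _ z.1.1 z.2)) using 1
    rw [hz, R.d1_apply, AddSubgroup.coe_add, map_add]
    abel
  rw [← map_pow, ← mul_inv_cancel_left g' (τ ^ q), R.mul, sub_eq_zero.1 (C.sep fun j =>
    C.anti (by omega) (key (j - i).toNat))]

end Pool.Agent.SP
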