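import Pool.Agent.Lib.MP_b4b3cb_nt.Par.Coh

/-! A lower bound for the space of local cocycles. -/

namespace Pool.Agent.SP

open scoped Classical
open Module

variable {E k : Type} [NontriviallyNormedField E] [Field k] {G : Type} [Group G]
  [TopologicalSpace G] {c : CF E k} {W : Type} [NormedAddCommGroup W] [NormedSpace E W] {N : ℕ}

/-- The characters that lift to cocycles modulo `T j`. -/
def Ch.Im (C : Ch c W N) (R : Rp E G W) (i j : ℤ) : Submodule k (G → k) where
  carrier := {f | ∃ x ∈ C.Lev R i j, f = fun g => C.lam i (x g)}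
  add_mem' := by
    rintro _ _ ⟨a, ha, rfl⟩ ⟨b, hb, rfl⟩
    exact ⟨a + b, add_mem ha hb, funext fun g => (C.lam_add (ha.2.1 g) (hb.2.1 g)).symm⟩
  zero_mem' := ⟨0, zero_mem _, funext fun _ => (C.lam_of (zero_mem _)).symm⟩
  smul_mem' := by
    rintro a _ ⟨t, ht, rfl⟩
    refine ⟨c.sc a • t, Ch.lev_smul ht (c.sc_le a), funext fun g => ?_⟩
    rw [Pi.smul_apply, Pi.smul_apply, C.lam_smul (c.sc_le a) (ht.2.1 g), c.rd_sc, smul_eq_mul]

theorem LD.rank_Z1 [IsUltrametricDist E] [CompleteSpace E] [Finite k] [FiniteDimensional E W]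
    [ContinuousMul G] [CompactSpace G] {χ : G → E} (L : LD G c χ) {C : Ch c W N} {R : Rp E G W}
    (hS : C.Stab R) : N * finrank k (Hm k G) ≤ finrank E R.Z1 + N := by
  have := L.fin
  have fd : FiniteDimensional E R.Z1 := C.fd (Ch.bd_of le_rfl) _ (hS.W_le le_rfl)
  let ob : ℤ → (G → W) → k := fun j x => L.inv fun g h => C.lam j (R.d2 x g h)
  let Nz : ℤ → ℤ → Prop := fun i j => ∃ x ∈ C.Lev R i j, ob j x ≠ 0
  have mono : ∀ {i i' j}, i' ≤ i → Nz i j → Nz i' j := fun h ⟨x, hx, h0⟩ =>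
    ⟨x, Ch.lev_mono h le_rfl hx, h0⟩
  have per : ∀ {i j} (r : ℤ), Nz i j → Nz (i + r * N) (j + r * N) := fun r ⟨x, hx, h0⟩ =>
    ⟨_, Ch.lev_per r hx, fun h1 => h0 (Eq.trans (congrArg L.inv (funext₂ fun g h => by
      rw [R.d2_smul, C.lam_zpow r (hx.2.2 g h)])) h1)⟩
  have fix : ∀ {i j x z}, i ≤ j → x ∈ C.Lev R i j → z ∈ C.Lev R i j → ob j z ≠ 0 →
      ∃ a, ∃ x' ∈ C.Lev R i (j + 1), ∀ g, x' g - (x g + c.sc a • z g) ∈ C.T j := by
    intro i j x z hij hx hz h0
    have h1 := add_mem hx (Ch.lev_smul hz (c.sc_le (-ob j x / ob j z)))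
    refine ⟨_, hS.lift h1 hij ((L.zero (hS.cz h1)).1 ?_)⟩
    have := L.add (hS.cz hx) ((hS.cz hz).smul (-ob j x / ob j z))
    rw [L.smul _ (hS.cz hz), div_mul_cancel₀ _ h0, add_neg_cancel] at this
    convert this using 2
    ext g h
    rw [R.d2_add, R.d2_smul, C.lam_add (hx.2.2 g h) (C.smul (c.sc_le _) (hz.2.2 g h)),
      C.lam_smul (c.sc_le _) (hz.2.2 g h), c.rd_sc]
    rfl
  have step : ∀ {i i' j x}, i ≤ i' → i' ≤ j → x ∈ C.Lev R i j → (Nz i j → Nz i' j) →
      ∃ x' ∈ C.Lev R i (j + 1), ∀ g, x' g - x g ∈ C.T i' := by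
    intro i i' j x h1 h2 hx h
    by_cases h0 : ob j x = 0
    · obtain ⟨x', a, b⟩ := hS.lift hx (h1.trans h2) ((L.zero (hS.cz hx)).1 h0)
      exact ⟨x', a, fun g => C.anti h2 (b g)⟩
    · obtain ⟨z, hz, h3⟩ := h ⟨x, hx, h0⟩
      obtain ⟨a, x', b, d⟩ := fix (h1.trans h2) hx (Ch.lev_mono h1 le_rfl hz) h3
      exact ⟨x', b, fun g => by
        convert add_mem (C.anti h2 (d g)) (C.smul (c.sc_le a) (hz.2.1 g)) using 1; abel⟩
  have le : ∀ {i j}, i < j → C.Im R i j ≤ Hm k G := fun h => by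
    rintro _ ⟨x, hx, rfl⟩
    exact hS.hom hx h
  let dr : ℤ → ℤ → ℕ := fun i j => if Nz i j ∧ ¬ Nz (i + 1) j then 1 else 0
  have drop : ∀ i j, i < j → finrank k (C.Im R i j) ≤ finrank k (C.Im R i (j + 1)) + dr i j := by
    intro i j hij
    have := Submodule.finiteDimensional_of_le (le (show i < j + 1 by omega))
    by_cases h : Nz i j ∧ ¬ Nz (i + 1) j
    · obtain ⟨z, hz, h0⟩ := h.1
      have h1 : C.Im R i j ≤ C.Im R i (j + 1) ⊔ k ∙ fun g => C.lam i (z g) := by
        rintro _ ⟨x, hx, rfl⟩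
        obtain ⟨a, x', b, d⟩ := fix hij.le hx hz h0
        refine Submodule.mem_sup.2 ⟨_, ⟨x', b, rfl⟩, _, Submodule.mem_span_singleton.2 ⟨-a, rfl⟩,
          funext fun g => ?_⟩
        have h2 := C.smul (c.sc_le a) (hz.2.1 g)
        simp only [Pi.add_apply, Pi.smul_apply, smul_eq_mul]
        rw [C.lam_congr (add_mem (hx.2.1 g) h2) (C.anti hij (d g)), C.lam_add (hx.2.1 g) h2,
          C.lam_smul (c.sc_le a) (hz.2.1 g), c.rd_sc]
        ring
      refine (Submodule.finrank_mono h1).trans ((Submodule.finrank_add_le_finrank_add_finrank _ _).trans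
        (Nat.add_le_add_left ?_ _))
      rw [show dr i j = 1 from if_pos h]
      simpa using finrank_span_le_card (R := k) {fun g => C.lam i (z g)}
    · refine (Submodule.finrank_mono ?_).trans (Nat.le_add_right _ _)
      rintro _ ⟨x, hx, rfl⟩
      obtain ⟨x', a, b⟩ := step (i' := i + 1) (by omega) hij hx fun h1 => by_contra fun h2 => h ⟨h1, h2⟩
      exact ⟨x', a, funext fun g => (C.lam_congr (hx.2.1 g) (b g)).symm⟩
  obtain ⟨M, hM⟩ : ∃ M : ℕ, ∀ i j, Nz i j → Nz (j - M) j := by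
    have ex : ∀ j : ℤ, ∃ m : ℕ, ∀ i, Nz i j → Nz (j - m) j := fun j => by
      by_cases h : ∃ i, Nz i j
      · obtain ⟨i, hi⟩ := h
        exact ⟨(j - i).toNat, fun _ _ => mono (by omega) hi⟩
      · exact ⟨0, fun i hi => absurd ⟨i, hi⟩ h⟩
    choose m hm using ex
    refine ⟨∑ j ∈ Finset.range N, m j, fun i j h => ?_⟩
    have p := C.pos
    have h1 := Int.emod_nonneg j (show (N : ℤ) ≠ 0 by omega)
    have h2 := Int.emod_lt_of_pos j (show (0 : ℤ) < N by omega)
    have h3 := Finset.single_le_sum (f := fun i : ℕ => m i) (fun _ _ => Nat.zero_le _)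
      (Finset.mem_range.2 (show (j % N).toNat < N by omega))
    rw [Int.toNat_of_nonneg h1] at h3
    have h4 := Int.emod_add_ediv_mul j N
    have h5 := per (-(j / N)) h
    rw [show j + -(j / N) * N = j % N by linarith] at h5
    have h6 := per (j / N) (hm _ _ h5)
    rw [h4] at h6
    exact mono (by omega) h6
  have hc : CompleteSpace W := FiniteDimensional.complete E W
  have lim : ∀ i, C.Im R i (i + 1 + M) ≤ C.Wd R.Z1 i := by
    rintro i _ ⟨x, hx, rfl⟩
    obtain ⟨y, y1, y2, y3⟩ := C.lim_of (fun j x => x ∈ C.Lev R i j) (i + 1 + M) M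
      (fun _ _ h => h.1) (fun j hj x hx => step (by omega) (by omega) hx (hM i j)) hx
    rw [add_sub_cancel_right] at y2
    refine ⟨y, ⟨⟨y1, fun g h => C.sep fun j => ?_⟩, fun g => C.of_sub (hx.2.1 g) (C.succ _ (y2 g))⟩,
      funext fun g => (C.lam_congr (hx.2.1 g) (y2 g)).symm⟩
    obtain ⟨j', x', h1, h2, h3⟩ := y3 j
    refine C.of_sub (C.anti h1 (h2.2.2 g h)) ?_
    rw [← R.d2_sub]
    exact (hS.lam_d2 h3 g h).1
  have cnt : ∀ (i : ℤ) (r : ℕ), finrank k (Hm k G) ≤
      finrank k (C.Im R i (i + 1 + r)) + ∑ s ∈ Finset.range r, dr i (i + 1 + s) := fun i r => by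
    induction r with
    | zero =>
      have := Submodule.finiteDimensional_of_le (le (show i < i + 1 + (0 : ℕ) by omega))
      refine Submodule.finrank_mono fun f hf => ?_
      obtain ⟨x, hx, e⟩ := hS.lev_hom i hf
      exact ⟨x, by simpa using hx, funext fun g => (e g).symm⟩
    | succ r ih =>
      have := drop i (i + 1 + r) (by omega)
      rw [Finset.sum_range_succ, Nat.cast_succ, ← add_assoc (i + 1)]
      omega
  have tot : ∑ i ∈ Finset.range N, ∑ s ∈ Finset.range M, dr i (i + 1 + s) ≤ N := by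
    have pe : ∀ i j, Nz (i + N) (j + N) ↔ Nz i j := fun i j =>
      ⟨fun h => by simpa using per (-1) h, fun h => by simpa using per 1 h⟩
    rw [Finset.sum_comm, Finset.sum_congr rfl fun (s : ℕ) _ =>
      (per_sum (fun i => dr i (i + 1 + s)) (fun i => by
        simp only [dr]
        rw [show i + N + 1 + s = i + 1 + s + N by ring, add_right_comm i N 1, pe, pe])
        (-1 - s)).symm, Finset.sum_comm]
    refine (Finset.sum_le_card_nsmul (Finset.range N) _ 1 fun j _ => ?_).trans (by simp)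
    simp only [dr, show ∀ s : ℕ, -1 - (s : ℤ) + j + 1 + s = j by intro s; ring]
    rw [← Finset.card_filter]
    refine Finset.card_le_one.2 fun a ha b hb => ?_
    obtain ⟨-, a1, a2⟩ := Finset.mem_filter.1 ha
    obtain ⟨-, b1, b2⟩ := Finset.mem_filter.1 hb
    by_contra h
    rcases lt_or_gt_of_ne h with h | h
    · exact b2 (mono (by omega) a1)
    · exact a2 (mono (by omega) b1)
  have h1 := Finset.sum_le_sum (s := Finset.range N) fun (i : ℕ) _ => (cnt i M).trans
    (Nat.add_le_add_right (have := C.fin_W (Ch.bd_of (R := R) le_rfl) i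
      Submodule.finrank_mono (lim i)) _)
  rw [Finset.sum_add_distrib, show ∑ i ∈ Finset.range N, finrank k (C.Wd R.Z1 i) = _ from
    C.sum_dm (Ch.bd_of le_rfl)] at h1
  simp only [Finset.sum_const, Finset.card_range, smul_eq_mul] at h1
  omega

end Pool.Agent.SP
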