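import Mathlib

/-! Self-dual flags for unipotent representations in characteristic two. -/

namespace Pool.Agent.SP

open scoped Classical
open Module

variable {k Γ X : Type} [Field k] [Finite k] [CharP k 2] [Group Γ] [AddCommGroup X] [Module k X]
  [FiniteDimensional k X]

theorem fix0 [Nontrivial X] (r : Representation k Γ X) (h : ∀ g, ∃ j, r (g ^ 2 ^ j) = 1) :
    ∃ a, a ≠ 0 ∧ ∀ g, r g a = a := by
  have : Finite X := Module.finite_of_finite k
  have : Fact (Nat.Prime 2) := ⟨Nat.prime_two⟩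
  have hp : IsPGroup 2 r.asGroupHom.range := by
    rintro ⟨_, g, rfl⟩
    obtain ⟨j, hj⟩ := h g
    exact ⟨j, Subtype.ext (Units.ext (by
      rw [Subgroup.coe_pow, ← map_pow, Representation.asGroupHom_apply, hj]; rfl))⟩
  obtain ⟨a, h1, h2⟩ := hp.exists_fixed_point_of_prime_dvd_card_of_fixed_point X (a := 0) (by
    obtain ⟨x, hx⟩ := exists_ne (0 : X)
    rw [← addOrderOf_eq_prime (p := 2) (x := x)
      (by rw [← Nat.cast_smul_eq_nsmul k, CharP.cast_eq_zero, zero_smul]) hx]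
    exact addOrderOf_dvd_natCard x) fun g => smul_zero g
  exact ⟨a, h2.symm, fun g => h1 ⟨_, g, rfl⟩⟩

variable (r : Representation k Γ X) (h : ∀ g, ∃ j, r (g ^ 2 ^ j) = 1)

include h

theorem fix1 {U U' : Submodule k X} (hU : ∀ g, U ≤ U.comap (r g)) (hU' : ∀ g, U' ≤ U'.comap (r g))
    (lt : finrank k U < finrank k U') : ∃ a ∈ U', a ∉ U ∧ ∀ g, r g a - a ∈ U := by
  have : Nontrivial (U'.map U.mkQ) := Submodule.nontrivial_iff_ne_bot.2 fun e =>
    lt.not_ge (Submodule.finrank_mono fun x hx => (Submodule.Quotient.mk_eq_zero U).1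
      ((Submodule.mem_bot k).1 (e ▸ Submodule.mem_map_of_mem hx)))
  obtain ⟨⟨_, a, h1, rfl⟩, h2, h3⟩ := fix0 ((r.quotient U hU).subrepresentation (U'.map U.mkQ) (by
    rintro g _ ⟨x, hx, rfl⟩
    exact ⟨r g x, hU' g hx, rfl⟩)) fun g => (h g).imp fun j hj => LinearMap.ext (by
      rintro ⟨_, x, -, rfl⟩
      refine Subtype.ext ?_
      change U.mkQ (r _ x) = _
      rw [hj]
      rfl)
  exact ⟨a, h1, fun e => h2 (Subtype.ext ((Submodule.Quotient.mk_eq_zero U).2 e)),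
    fun g => (Submodule.Quotient.eq U).1 (congrArg Subtype.val (h3 g))⟩

/-- A complete flag which is self-dual and on whose steps the group acts trivially. -/
structure Fl (b : LinearMap.BilinForm k X) (n : ℕ) where
  /-- the subspaces -/
  F : ℕ → Submodule k X
  /-- the coordinates -/
  l : ℕ → Dual k X
  top : F 0 = ⊤
  bot : F n = ⊥
  step : ∀ s < n, ∀ x, x ∈ F (s + 1) ↔ x ∈ F s ∧ l s x = 0
  ex : ∀ s < n, ∃ x ∈ F s, l s x = 1
  stab : ∀ s < n, ∀ g, ∀ x ∈ F s, r g x - x ∈ F (s + 1)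
  pair : ∀ s t, s + t + 1 = n → ∀ x ∈ F s, ∀ y ∈ F t, b x y = l s x * l t y

theorem exFl (b : LinearMap.BilinForm k X) (sy : ∀ x y, b x y = b y x) (nd : b.Nondegenerate)
    (eq : ∀ g, ∃ g', ∀ x y, b (r g' x) (r g y) = b x y) {m : ℕ} (rk : finrank k X = 2 * m) :
    Nonempty (Fl r b (2 * m)) := by
  have rf : b.IsRefl := fun x y h => (sy y x).trans h
  have ad : ∀ g, ∃ g', ∀ x y, b x (r g y) = b (r g' x) y := fun g => by
    obtain ⟨g', hg⟩ := eq g
    exact ⟨g'⁻¹, fun x y => by rw [← hg (r g'⁻¹ x), r.self_inv_apply]⟩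
  have so : ∀ {U : Submodule k X}, (∀ g, U ≤ U.comap (r g)) →
      ∀ g, b.orthogonal U ≤ (b.orthogonal U).comap (r g) := fun hU g y hy x hx => by
    obtain ⟨g', hg⟩ := ad g
    exact (hg _ _).trans (hy _ (hU g' hx))
  have ms : ∀ {U : Submodule k X} {a y}, y ∈ b.orthogonal (U ⊔ k ∙ a) ↔
      y ∈ b.orthogonal U ∧ b a y = 0 := fun {U a y} =>
    ⟨fun h => ⟨fun x hx => h x (Submodule.mem_sup_left hx),
      h a (Submodule.mem_sup_right (Submodule.mem_span_singleton_self a))⟩, fun h x hx => by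
      obtain ⟨u, hu, _, hz, rfl⟩ := Submodule.mem_sup.1 hx
      obtain ⟨t, rfl⟩ := Submodule.mem_span_singleton.1 hz
      simp [h.1 u hu, h.2]⟩
  have ss : ∀ {U : Submodule k X} {a}, (∀ g, U ≤ U.comap (r g)) → (∀ g, r g a - a ∈ U) →
      ∀ g, ∀ x ∈ U ⊔ k ∙ a, r g x - x ∈ U := fun hU ha g x hx => by
    obtain ⟨u, hu, _, hz, rfl⟩ := Submodule.mem_sup.1 hx
    obtain ⟨t, rfl⟩ := Submodule.mem_span_singleton.1 hz
    rw [map_add, map_smul, add_sub_add_comm, ← smul_sub]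
    exact add_mem (sub_mem (hU g hu) hu) (Submodule.smul_mem _ _ (ha g))
  have ss' : ∀ {U : Submodule k X} {a}, (∀ g, U ≤ U.comap (r g)) → (∀ g, r g a - a ∈ U) →
      ∀ g, U ⊔ k ∙ a ≤ (U ⊔ k ∙ a).comap (r g) := fun hU ha g x hx => by
    simpa using add_mem (Submodule.mem_sup_left (ss hU ha g x hx)) hx
  have st : ∀ U : Submodule k X, (∀ g, U ≤ U.comap (r g)) ∧ U ≤ b.orthogonal U → finrank k U < m →
      ∃ a e, a ∉ U ∧ a ∈ b.orthogonal U ∧ b a a = 0 ∧ (∀ g, r g a - a ∈ U) ∧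
        e ∈ b.orthogonal U ∧ b a e = 1 := fun U hU lt => by
    obtain ⟨a, a1, a2, a3, a4⟩ : ∃ a, a ∉ U ∧ a ∈ b.orthogonal U ∧ b a a = 0 ∧
        ∀ g, r g a - a ∈ U := by
      obtain ⟨a, a1, a2, a3⟩ := fix1 r h hU.1 (so hU.1) (by rw [b.finrank_orthogonal nd]; omega)
      by_cases a4 : b a a = 0
      · exact ⟨a, a2, a1, a4, a3⟩
      obtain ⟨d, d1, d2, d3⟩ := fix1 r h hU.1 (so (ss' hU.1 a3)) (by
        rw [b.finrank_orthogonal nd, Submodule.finrank_sup_span_singleton a2]; omega)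
      obtain ⟨t, ht⟩ := surjective_frobenius k 2 (b d d / b a a)
      have d4 := (ms.1 d1).2
      refine ⟨d + t • a, fun e => d2 ?_, add_mem (ms.1 d1).1 (Submodule.smul_mem _ _ a1), ?_,
        fun g => ?_⟩
      · have := a1 _ e
        simp only [map_add, map_smul, LinearMap.add_apply, LinearMap.smul_apply, sy d a, d4,
          zero_add, smul_eq_mul, mul_eq_zero, a4, or_false] at this
        simpa [this] using e
      · rw [frobenius_def, eq_div_iff a4] at ht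
        simp only [map_add, map_smul, LinearMap.add_apply, LinearMap.smul_apply, sy d a, d4,
          smul_eq_mul, ← ht]
        linear_combination t ^ 2 * b a a * CharTwo.two_eq_zero (R := k)
      · rw [map_add, map_smul, add_sub_add_comm, ← smul_sub]
        exact add_mem (d3 g) (Submodule.smul_mem _ _ (a3 g))
    obtain ⟨e, e1, e2⟩ : ∃ e ∈ b.orthogonal U, b e a ≠ 0 := by
      by_contra! e
      exact a1 (b.orthogonal_orthogonal nd rf U ▸ e)
    exact ⟨a, (b e a)⁻¹ • e, a1, a2, a3, a4, Submodule.smul_mem _ _ e1, by simp [sy a e, e2]⟩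
  choose! a e a1 a2 a3 a4 e1 e2 using st
  obtain ⟨U, u0, us⟩ : ∃ U : ℕ → Submodule k X, U 0 = ⊥ ∧ ∀ j, U (j + 1) = U j ⊔ k ∙ a (U j) :=
    ⟨fun j => Nat.rec ⊥ (fun _ U => U ⊔ k ∙ a U) j, rfl, fun _ => rfl⟩
  have hU : ∀ j ≤ m, ((∀ g, U j ≤ (U j).comap (r g)) ∧ U j ≤ b.orthogonal (U j)) ∧
      finrank k ↥(U j) = j := fun j => by
    induction j with
    | zero => exact fun _ => u0 ▸ ⟨⟨fun _ => bot_le, bot_le⟩, finrank_bot k X⟩
    | succ j ih =>
      intro hj
      obtain ⟨h1, h2⟩ := ih (by omega)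
      have lt : finrank k (U j) < m := by omega
      rw [us]
      refine ⟨⟨ss' h1.1 (a4 _ h1 lt), sup_le (fun x hx => ms.2 ⟨h1.2 hx, rf _ _ (a2 _ h1 lt x hx)⟩)
        ((Submodule.span_singleton_le_iff_mem _ _).2 (ms.2 ⟨a2 _ h1 lt, a3 _ h1 lt⟩))⟩, ?_⟩
      rw [Submodule.finrank_sup_span_singleton (a1 _ h1 lt), h2]
  have lt : ∀ j < m, finrank k (U j) < m := fun j hj => (hU j hj.le).2.trans_lt hj
  let F : ℕ → Submodule k X := fun s => if s ≤ m then b.orthogonal (U s) else U (2 * m - s)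
  have f1 : ∀ s ≤ m, F s = b.orthogonal (U s) := fun s hs => if_pos hs
  have f2 : ∀ j s, j ≤ m → j + s = 2 * m → F s = U j := fun j s hj hs => by
    rcases hj.eq_or_lt with rfl | hj
    · rw [show s = j by omega, f1 j le_rfl]
      exact (Submodule.eq_of_le_of_finrank_le (hU j le_rfl).1.2 (by
        rw [b.finrank_orthogonal nd, (hU j le_rfl).2]; omega)).symm
    · exact (if_neg (by omega)).trans (congrArg U (by omega))
  let l : ℕ → Dual k X := fun s => if s < m then b (a (U s)) else b (e (U (2 * m - 1 - s)))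
  have l1 : ∀ s < m, l s = b (a (U s)) := fun s hs => if_pos hs
  have l2 : ∀ j s, j < m → j + s + 1 = 2 * m → l s = b (e (U j)) := fun j s hj hs =>
    (if_neg (by omega)).trans (by rw [show 2 * m - 1 - s = j by omega])
  have dec : ∀ j < m, ∀ x ∈ U (j + 1), x - b (e (U j)) x • a (U j) ∈ U j := fun j hj x hx => by
    obtain ⟨u, hu, _, hz, rfl⟩ := Submodule.mem_sup.1 (us j ▸ hx)
    obtain ⟨t, rfl⟩ := Submodule.mem_span_singleton.1 hz
    simpa [sy (e _), e1 _ (hU j hj.le).1 (lt j hj) u hu, e2 _ (hU j hj.le).1 (lt j hj)] using hu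
  have pr : ∀ s t, s < m → s + t + 1 = 2 * m → ∀ x ∈ F s, ∀ y ∈ F t, b x y = l s x * l t y := by
    intro s t hs h x hx y hy
    rw [f1 s hs.le] at hx
    rw [f2 (s + 1) t hs (by omega)] at hy
    have := hx _ (dec s hs y hy)
    rw [map_sub, map_smul, LinearMap.sub_apply, sub_eq_zero] at this
    rw [l1 s hs, l2 s t hs h, sy, this, mul_comm]
    rfl
  have cs : ∀ s < 2 * m, s < m ∨ ∃ j < m, j + s + 1 = 2 * m := fun s hs =>
    (lt_or_ge s m).imp_right fun h => ⟨2 * m - 1 - s, by omega, by omega⟩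
  refine ⟨⟨F, l, (f1 0 m.zero_le).trans (u0 ▸ b.orthogonal_bot),
    (f2 0 _ m.zero_le (zero_add _)).trans u0,
    fun s hs x => ?_, fun s hs => ?_, fun s hs g x hx => ?_, fun s t h x hx y hy => ?_⟩⟩
  · rcases cs s hs with h | ⟨j, hj, h⟩
    · rw [f1 s h.le, f1 _ h, l1 s h, us, ms]
    · rw [f2 j _ hj.le h, f2 (j + 1) s hj (by omega), l2 j s hj h]
      exact ⟨fun hx => ⟨us j ▸ Submodule.mem_sup_left hx, rf _ _ (e1 _ (hU j hj.le).1 (lt j hj) x hx)⟩,
        fun hx => by simpa [hx.2] using dec j hj x hx.1⟩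
  · rcases cs s hs with h | ⟨j, hj, h⟩
    · rw [f1 s h.le, l1 s h]
      exact ⟨_, e1 _ (hU s h.le).1 (lt s h), e2 _ (hU s h.le).1 (lt s h)⟩
    · rw [f2 (j + 1) s hj (by omega), l2 j s hj h]
      exact ⟨_, us j ▸ Submodule.mem_sup_right (Submodule.mem_span_singleton_self _),
        (sy _ _).trans (e2 _ (hU j hj.le).1 (lt j hj))⟩
  · rcases cs s hs with h | ⟨j, hj, h⟩
    · rw [f1 s h.le] at hx
      rw [f1 _ h]
      intro y hy
      obtain ⟨g', hg⟩ := ad g
      have := hx _ (ss (hU s h.le).1.1 (a4 _ (hU s h.le).1 (lt s h)) g' y (us s ▸ hy))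
      rwa [map_sub, LinearMap.sub_apply, ← hg, ← map_sub] at this
    · rw [f2 (j + 1) s hj (by omega)] at hx
      rw [f2 j _ hj.le h]
      exact ss (hU j hj.le).1.1 (a4 _ (hU j hj.le).1 (lt j hj)) g x (us j ▸ hx)
  · rcases lt_or_ge s m with hs | hs
    · exact pr s t hs h x hx y hy
    · rw [sy, mul_comm]
      exact pr t s (by omega) (by omega) y hy x hx

end Pool.Agent.SP
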