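import Pool.Agent.Lib.MP_b4b3cb_nt.Par.Ext
import Pool.Agent.Lib.MP_b4b3cb_nt.Par.Coef
import Pool.Agent.Lib.MP_b4b3cb_nt.Syl
import Pool.Agent.Lib.MP_b4b3cb_nt.Top
import Pool.Agent.Lib.MP_b4b3cb_nt.Kum
import Pool.Agent.Lib.MP_b4b3cb_nt.Br
import Pool.Agent.Lib.MP_b4b3cb_nt.Tr
import Pool.Agent.Lib.MP_b4b3cb_nt.Norm
import Pool.Agent.Lib.MP_b4b3cb_nt.Quad
import Pool.Agent.Lib.MP_b4b3cb_nt.Prime
import Pool.Agent.Lib.MP_b4b3cb_nt.Emb
import Pool.Agent.Lib.MP_b4b3cb_nt.Loc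
import Pool.Agent.Lib.MP_b4b3cb_nt.Frob
import Pool.Agent.Lib.MP_b4b3cb_nt.Ine
import Pool.Agent.Lib.MP_b4b3cb_nt.Cj
import Pool.Agent.Lib.MP_b4b3cb_nt.Sym
import Pool.Agent.Lib.MP_b4b3cb_nt.Abhn
import Pool.Agent.Lib.MP_b4b3cb_nt.TwoA
import Pool.Agent.Lib.MP_b4b3cb_nt.Two
import Pool.Agent.Lib.MP_b4b3cb_nt.Fin
import Pool.Agent.Lib.MP_b4b3cb_nt.Card
import Pool.Agent.Lib.MP_b4b3cb_nt.Rec
import Pool.Agent.Lib.MP_b4b3cb_nt.LagK
import Pool.Agent.Lib.MP_b4b3cb_nt.AD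
import Pool.Agent.Lib.MP_b4b3cb_nt.Cn

/-! The global duality data of a number field. -/

namespace Pool.Agent.SP

open scoped Classical Topology
open Module NumberField Pool.Agent.Stark

variable (K Ω : Type) [Field K] [NumberField K] [Field Ω] [Algebra K Ω] [IsAlgClosed Ω]

/-- The facts on Galois groups of number fields that are used. -/
structure Facts : Prop where
  top : SC.TopSt K Ω
  kum : SC.KumSt K Ω
  br : SC.BrSt K Ω
  pr : SC.PrimeSt K Ω
  loc : SC.LocSt K Ω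
  fr : SC.FrobSt K Ω
  ine : SC.IneSt K Ω
  cj : SC.CjSt K Ω
  sym : SC.SymSt K Ω
  dict : SC.DictSt K Ω
  two : SC.TwoSt K Ω
  rc : SC.RecSt K Ω
  ad : SC.ADSt K Ω

variable [IsGalois K Ω] [CharZero Ω]

open SC in
theorem facts : Facts K Ω := by
  have hTop : TopSt K Ω := st_Top st_Sz
  have hKum : KumSt K Ω := st_Kum st_Sz hTop
  have hBr : BrSt K Ω := st_Br st_Sz hTop hKum
  have hTr : TrSt K Ω := st_Tr hTop
  have hNorm : NormSt K Ω := st_Norm st_Sz hTop hKum hBr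
  have hQuad : QuadSt K Ω := st_Quad st_Sz hTop hKum hBr
  have hP : PrimeSt K Ω := st_Prime
  have hLoc : LocSt K Ω := st_Loc (st_Emb hP) hP
  have hFr : FrobSt K Ω := st_Frob hP
  have hIne : IneSt K Ω := st_Ine hP hFr hLoc
  have hCj : CjSt K Ω := st_Cj
  have hSym : SymSt K Ω := st_Sym hNorm hLoc hKum hTop hP
  have hDict : DictSt K Ω := st_Dict hSym hLoc hIne hCj hKum hTop hP
  have hAK : AbhnKSt K Ω :=
    st_AbhnK (st_Abhn st_Syl hTop hKum hBr hTr hNorm hQuad hSym hCj hP) hBr hP hCj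
  have hRec := st_Rec hAK st_Sz hKum hBr hQuad hDict
  exact ⟨hTop, hKum, hBr, hP, hLoc, hFr, hIne, hCj, hSym, hDict,
    st_Two st_Syl st_Sz hTop hKum hBr hTr hSym hP (st_TwoA st_Proj st_Sz hTop hKum hLoc hSym hP)
      (st_TwoB st_Sz hTop hKum hBr hQuad hSym hP), hRec,
    st_AD hBr st_Cyc hDict (st_Card hDict hCj) (st_Fin hTop hP) hAK hRec (st_LagK hDict) hP⟩

variable {K Ω}

theorem nonsq (S : Finset (SC.Pl K)) : ∃ a : K, a ≠ 0 ∧ ∀ v ∈ S, ¬ SC.lsq v a := by
  choose x x1 x2 using fun q : Pr K => Ideal.exists_mem_pow_notMem_pow_succ q.asIdeal q.ne_bot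
    q.isPrime.ne_top 1
  obtain ⟨y, -, hy⟩ := SC.st_Cn.crt S.toLeft x 2
  have n0 : Ideal.absNorm (∏ q ∈ S.toLeft, q.asIdeal ^ 2) ≠ 0 := Ideal.absNorm_eq_zero_iff.not.2
    (Finset.prod_ne_zero_iff.2 fun q _ => pow_ne_zero 2 q.ne_bot)
  have n1 := Ideal.absNorm_mem (∏ q ∈ S.toLeft, q.asIdeal ^ 2)
  generalize Ideal.absNorm (∏ q ∈ S.toLeft, q.asIdeal ^ 2) = n at n0 n1
  obtain ⟨M, hM⟩ := exists_nat_gt (∑ φ : K →+* ℂ, ‖φ y‖)
  have key : ∀ φ : K →+* ℂ, ‖φ y‖ < (M * n : ℕ) := fun φ =>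
    ((Finset.single_le_sum (f := fun φ : K →+* ℂ => ‖φ y‖) (fun _ _ => norm_nonneg _)
      (Finset.mem_univ φ)).trans_lt hM).trans_le
      (Nat.cast_le.2 (Nat.le_mul_of_pos_right _ (Nat.pos_of_ne_zero n0)))
  have a0 : y - (M * n : ℕ) ≠ 0 := fun h => by
    have := key (Classical.arbitrary _)
    rw [sub_eq_zero.1 h] at this
    simp at this
  have a1 : ((y - (M * n : ℕ) : 𝓞 K) : K) ≠ 0 := RingOfIntegers.coe_ne_zero_iff.2 a0
  refine ⟨_, a1, ?_⟩
  rintro (q | φ) hv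
  · rintro ⟨s, hs⟩
    have hq := Finset.mem_toLeft.2 hv
    have b : y - (M * n : ℕ) - x q ∈ q.asIdeal ^ 2 := by
      rw [sub_right_comm, Nat.cast_mul]
      exact sub_mem (hy q hq) (Ideal.mul_mem_left _ _ (Ideal.prod_le_inf.trans (Finset.inf_le hq) n1))
    have d := fun j => SC.st_Cn.le_pow (Ideal.span_singleton_eq_bot.not.2 a0) q j
    simp only [Ideal.span_singleton_le_iff_mem] at d
    have d1 := (d 1).1 (by simpa using add_mem (Ideal.pow_le_pow_right one_le_two b) (x1 q))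
    have d2 := (d 2).not.1 fun h => x2 q (by simpa using sub_mem h b)
    have d3 := SC.st_Cn.span a0 q
    have s0 : s ≠ 0 := fun h => (map_ne_zero (emb q)).2 a1 (by rw [hs, h, mul_zero])
    rw [← ord_emb, hs, ord_mul s0 s0] at d3
    omega
  · have := key (Complex.ofRealHom.comp φ)
    simp only [RingHom.comp_apply, Complex.ofRealHom_eq_coe, Complex.norm_real] at this
    change ¬ 0 < φ _
    rw [RingOfIntegers.coe_eq_algebraMap, map_sub, map_natCast, map_sub, map_natCast, not_lt,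
      sub_nonpos]
    exact (le_abs_self _).trans this.le

variable (π : SC.Plc K Ω)

theorem two_D (v : SC.Pl K) : Two (π.D v) := fun ε ε' h h' => by
  rcases v with q | φ
  · obtain ⟨ε, rfl⟩ := ext2 ε
    obtain ⟨ε', rfl⟩ := ext2 ε'
    exact ((facts K Ω).two _ (π.hov q).1 ε ε' (cz_iff.1 h) (cz_iff.1 h')).imp sz_iff.2
      (.imp sz_iff.2 sz_iff.2)
  · obtain ⟨a, b, -⟩ := (facts K Ω).cj.sq (π.hc φ)
    let s : π.D (.inr φ) := ⟨π.c φ, Subgroup.mem_zpowers _⟩
    have ss : s * s = 1 := Subtype.ext a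
    have cs : ∀ g : π.D (.inr φ), g = 1 ∨ g = s := fun g =>
      ((b g).1 g.2).imp Subtype.ext Subtype.ext
    have key : ∀ {ε : π.D (.inr φ) → π.D (.inr φ) → ZMod 2}, Cz ε → ε s s + ε 1 1 = 0 → Sz ε :=
      fun {ε} h e => ⟨fun _ => ε 1 1, IsLocallyConstant.const _, fun g l => by
        have e1 := h.2 1 1 s
        have e2 := h.2 s 1 1
        simp only [mul_one, one_mul, add_left_inj, add_comm (ε 1 s)] at e1 e2
        rw [add_sub_cancel_right]
        rcases cs g with rfl | rfl <;> rcases cs l with rfl | rfl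
        exacts [rfl, e1, e2.symm, CharTwo.add_eq_zero.1 e]⟩
    rcases zmod2_cases (ε s s + ε 1 1) with e | e
    · exact .inl (key h e)
    rcases zmod2_cases (ε' s s + ε' 1 1) with e' | e'
    · exact .inr (.inl (key h' e'))
    exact .inr (.inr (key (h.add h') (by
      simp only [Pi.add_apply]
      rw [add_add_add_comm, e, e']
      decide)))

theorem symz_eq {G : Type} [Group G] [TopologicalSpace G] (D : Subgroup G) (a b : G → ZMod 2) :
    SC.symz D a b = i2 (cup (fun g : D => a g) fun g => b g) :=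
  if_congr sz_iff.symm rfl rfl

theorem rec2 (b : Gal(Ω/K) → Gal(Ω/K) → Ω) (j : ℕ) (hb : SC.Coc2 ⊤ b) (hj : ∀ g h, b g h ^ 2 ^ j = 1)
    (ε : SC.Pl K → Gal(Ω/K) → Gal(Ω/K) → ZMod 2) (hε : ∀ v, Cz fun g h : π.D v => ε v g h)
    (hs : ∀ v, SC.Spl (π.D v) (b * SC.sgc (ε v))) (S : Finset (SC.Pl K))
    (h0 : ∀ v ∉ S, Sz fun g h : π.D v => ε v g h) :
    ∑ v ∈ S, i2 (fun g h : π.D v => ε v g h) = 0 := by
  have F := facts K Ω
  obtain ⟨a, a0, ha⟩ := nonsq S
  have hm : ∀ {x : K} v, x ≠ 0 → SC.Hom (π.D v) (SC.kr (SC.rt Ω x)) := fun v h =>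
    ⟨(F.dict.hom h).1.mono (Set.subset_univ _), fun x _ y _ => (F.dict.hom h).2 x trivial y trivial⟩
  have : ∀ v, ∃ z, SC.Hom (π.D v) z ∧ SC.Sz (π.D v) (ε v + SC.cup (SC.kr (SC.rt Ω a)) z) := by
    intro v
    by_cases h : Sz fun g h : π.D v => ε v g h
    · exact ⟨0, ⟨continuousOn_const, by simp⟩, SC.st_Sz.congr (sz_iff.1 h) (by simp [SC.cup])⟩
    · obtain ⟨x, x0, hx⟩ := F.dict.hp_nd v a0 (ha v (not_not.1 fun d => h (h0 v d)))
      rw [← F.dict.sym π v a0 x0, symz_eq] at hx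
      exact ⟨_, hm v x0, sz_iff.1 (((two_D π v _ _ (hε v) (cz_cup (hom_iff.2 (hm v a0))
        (hom_iff.2 (hm v x0)))).resolve_left h).resolve_left fun d => by
          simp [i2_zero.2 d] at hx)⟩
  choose z z1 z2 using this
  have e : ∀ v, SC.symz (π.D v) (SC.kr (SC.rt Ω a)) (z v) = i2 fun g h : π.D v => ε v g h := by
    intro v
    rw [symz_eq, eq_comm, ← CharTwo.add_eq_zero, ← i2_add (two_D π v) (hε v)
      (cz_cup (hom_iff.2 (hm v a0)) (hom_iff.2 (z1 v))), i2_zero]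
    exact sz_iff.2 (z2 v)
  simp only [← e]
  refine F.rc π b j _ z hb hj (F.dict.hom a0) z1 (fun v => F.br.congr
    (F.br.mul (hs v) ((F.br.sz (F.dict.closed π v)).2 (z2 v))) fun g _ h _ => ?_) S
    fun v hv => (e v).trans (i2_zero.2 (h0 v hv))
  simp only [Pi.mul_apply, SC.sgc, Pi.add_apply, sg_add]
  rw [mul_assoc, ← mul_assoc (sg Ω _), sg_mul_self, one_mul]

variable {E k : Type} [NontriviallyNormedField E] [IsUltrametricDist E] [NormedAlgebra ℚ_[2] E]
  [Field k] [Finite k] [CharP k 2] [Algebra (ZMod 2) k] (c : CF E k)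

omit [NumberField K] [IsGalois K Ω] [Finite k] in
theorem exE' (l : Dual (ZMod 2) k) : ∃ e : E → Ω,
    (∀ b : Gal(Ω/K) → Gal(Ω/K) → E, (Continuous fun p : Gal(Ω/K) × Gal(Ω/K) => b p.1 p.2) →
      (∀ g h l, ‖cycE E K Ω g * b h l - b (g * h) l + b g (h * l) - b g h‖ ≤ 1) →
      SC.Coc2 ⊤ fun g h => e (b g h)) ∧ (∀ (n : ℕ) (t : E), ‖n * t‖ ≤ 1 → e t ^ n = 1) ∧
    ∀ (D : Subgroup Gal(Ω/K)) (b : Gal(Ω/K) → Gal(Ω/K) → E) (ε : Gal(Ω/K) → Gal(Ω/K) → k)
      (f : D → E), Continuous f → (∀ g h : D, c.Rd (c.π * (b g h -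
        dq (fun g : D => cycE E K Ω g) f g h)) (ε g h)) →
      SC.Spl D ((fun g h => e (b g h)) * SC.sgc fun g h => l (ε g h)) := by
  obtain ⟨e, e1, e2, e3, e4, e5⟩ := exE K Ω c l.toAddMonoidHom
  have e0 : ∀ t, ‖t‖ ≤ 1 → e t = 1 := fun t h => by rw [e3 t 0 (c.rd_pi h), map_zero, sg_zero]
  have econ : ∀ {s t}, ‖s - t‖ ≤ 1 → e s = e t := fun {s t} h => by
    rw [← add_sub_cancel t s, e1, e0 _ h, mul_one]
  have elc : ∀ {X : Type} [TopologicalSpace X] {D : Set X} {f : X → E}, ContinuousOn f D →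
      SC.LC D fun x => e (f x) := fun {X _ D f} h g hg =>
    ((h g hg).eventually (Metric.closedBall_mem_nhds _ one_pos)).mono fun x hx =>
      econ (by simpa only [dist_eq_norm] using hx)
  refine ⟨e, fun b hb hc => ⟨fun _ _ _ _ => e2 _, elc hb.continuousOn, fun g _ h _ l _ => ?_⟩,
    fun n t h => by rw [← e4, e0 _ h], fun D b ε f f1 f2 => ?_⟩
  · rw [e5, ← e1, ← e1]
    exact econ (by convert hc g h l using 2; ring)
  · obtain ⟨f, rfl⟩ := ext1 f
    refine ⟨fun g => e (f g), elc (continuousOn_iff_continuous_domRestrict.2 f1), fun _ _ => e2 _,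
      fun g hg h hh => ?_⟩
    have := e3 _ _ (f2 ⟨g, hg⟩ ⟨h, hh⟩)
    change e (b g h) * sg Ω (l (ε g h)) * _ = _
    rw [e5, ← e1, ← sub_add_cancel (b g h) (dq (fun g : D => cycE E K Ω g) (fun g => f g) ⟨g, hg⟩
      ⟨h, hh⟩), e1 (_ - _), this, mul_right_comm (sg _ _), LinearMap.toAddMonoidHom_coe,
      sg_mul_self, one_mul, ← e1, dq]
    exact congrArg e (sub_add_cancel _ _)

/-- The local duality data. -/
noncomputable def ldK (v : SC.Pl K) : LD (π.D v) c fun g => cycE E K Ω g :=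
  mkLD (two_D π v) (fun a ha h => by
      obtain ⟨A, -, h2, -, h4⟩ := (facts K Ω).ad π
      obtain ⟨a, rfl⟩ := ext1 a
      have := A.nondeg v a
      rw [h2, h4] at this
      exact funext fun g => this (hom_iff.1 ha)
        (fun b hb => (symz_eq _ _ _).trans (i2_zero.2 (h _ (hom_iff.2 hb)))) g g.2)
    (by
      obtain ⟨A, -, h2, -, -⟩ := (facts K Ω).ad π
      have := A.finH v
      rw [h2] at this
      refine Finite.of_surjective (fun f : SC.Hm (π.D v) =>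
        (⟨_, hom_iff.2 f.2.1⟩ : Hm (ZMod 2) (π.D v))) fun ⟨a, ha⟩ => ?_
      obtain ⟨a, rfl⟩ := ext1 a
      have e : (fun g : π.D v => SC.res (π.D v) a g) = fun g : π.D v => a g :=
        funext fun g => if_pos g.2
      exact ⟨⟨SC.res _ a, hom_iff.1 (e ▸ ha), fun g hg => if_neg hg⟩, Subtype.ext e⟩)
    fun l ε f f1 f2 => by
      obtain ⟨e, -, e2, e3⟩ := exE' (K := K) (Ω := Ω) c l
      obtain ⟨ε, rfl⟩ := ext2 ε
      refine (sz_iff (ε := fun g h => l (ε g h))).2 (((facts K Ω).br.sz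
        ((facts K Ω).dict.closed π v)).1 ((facts K Ω).br.congr
        (e3 _ 0 ε (-f) f1.neg fun g h => (f2 g h).congr ?_ rfl) fun g _ h _ => ?_))
      · simp only [dq, Pi.neg_apply, Pi.zero_apply]
        ring
      · have := e2 1 0 (by simp)
        rw [pow_one] at this
        simp [this]

/-- The global duality data. -/
noncomputable def akK : AK Gal(Ω/K) (SC.Pl K) c where
  χ := cycE E K Ω
  χ2 g := by
    have := charZero_of_injective_algebraMap (algebraMap ℚ_[2] E).injective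
    have a := cyc_app (E := E) K Ω g 1
    have b : ((SC.cyc K Ω g : ℤ_[2]).toZModPow 1).val = 1 := by
      have := (SC.cyc K Ω g).isUnit.map (PadicInt.toZModPow 1)
      revert this
      generalize (SC.cyc K Ω g : ℤ_[2]).toZModPow 1 = x
      revert x
      decide
    rwa [b, pow_one, norm_div, div_le_one (by simp), Nat.cast_one] at a
  cχ := (continuous_algebraMap _ _).comp
    (continuous_subtype_val.comp ((Units.continuous_val (M := ℤ_[2])).comp SC.st_Cyc.1))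
  D := π.D
  I := π.I
  cpt v := isCompact_iff_compactSpace.1 ((facts K Ω).dict.closed π v).isCompact
  ld := ldK π c
  rglob b hb hc ε hε h S h0 := cd_ext fun i => by
    obtain ⟨e, e1, e2, e3⟩ := exE' (K := K) (Ω := Ω) c (cd i)
    choose ε' h1 using fun v => ext2 (ε v)
    obtain rfl : ε = fun v (g h : π.D v) => ε' v g h := funext h1
    obtain ⟨B, hB⟩ := (isCompact_range hb).isBounded.exists_norm_le
    obtain ⟨j, hj⟩ := exists_pow_lt_of_lt_one (inv_pos.2 (zero_lt_one.trans_le (le_max_left 1 B)))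
      c.two_lt
    rw [map_sum, map_zero, ← rec2 π _ j (e1 b hb hc) (fun g h => e2 _ _ ?_)
      (fun v g h => cd i (ε' v g h)) (fun v => (hε v).map _)
      (fun v => (h v).elim fun f a => e3 _ b _ f a.1 a.2) S
      fun v hv => (((ldK π c v).zero (hε v)).1 (h0 v hv)).map _]
    · exact Finset.sum_congr rfl fun v _ => invK_spec (two_D π v) (hε v) _
    · rw [norm_mul, Nat.cast_pow, Nat.cast_two, norm_pow]
      exact (mul_le_mul hj.le ((hB _ ⟨(g, h), rfl⟩).trans (le_max_right 1 B)) (norm_nonneg _)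
        (by positivity)).trans_eq (inv_mul_cancel₀ (by positivity))
  recip ε hε S h0 := cd_ext fun i => by
    have F := facts K Ω
    have hε' : ∀ v, Cz fun g h : π.D v => ε g h := fun v => ⟨hε.1.comp_continuous
      (continuous_subtype_val.prodMap continuous_subtype_val), fun a b d => hε.2 a b d⟩
    rw [map_sum, map_zero, ← rec2 π _ 1 (F.br.coc_sg (cz_top (hε.map (cd i))))
      (fun g h => (pow_two _).trans (sg_mul_self _)) (fun v g h => cd i (ε g h))
      (fun v => (hε' v).map _) (fun v => by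
        rw [← F.br.sgc_add, F.br.sz (F.dict.closed π v)]
        exact SC.st_Sz.zero fun g _ h _ => CharTwo.add_self_eq_zero _) S
      fun v hv => (((ldK π c v).zero (hε' v)).1 (h0 v hv)).map _]
    exact Finset.sum_congr rfl fun v _ => invK_spec (two_D π v) (hε' v) _
  abhn ε hε h := sz_cd fun i => by
    obtain ⟨A, -, h2, -, -⟩ := (facts K Ω).ad π
    exact sz_top (A.abhn _ (cz_top (hε.map _)) fun v => h2 ▸ sz_iff.1 ((h v).map _))
  finI := by
    obtain ⟨A, -, -, h3, -⟩ := (facts K Ω).ad π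
    exact h3 ▸ A.finI
  le := by
    obtain ⟨A, -, h2, h3, -⟩ := (facts K Ω).ad π
    exact h2 ▸ h3 ▸ A.le
  finS S := by
    obtain ⟨A, -, -, h3, -⟩ := (facts K Ω).ad π
    have : Finite {x // x ∈ {y | SC.Hom ⊤ y ∧ ∀ v ∉ S, ∀ g ∈ π.I v, y g = 0}} :=
      (h3 ▸ A.finS S).to_subtype
    have : Finite (Un k π.I S) := Finite.of_injective (fun a i => (⟨fun g => cd i (a.1 g),
      hom_top.1 (Hm.map a.2.1 _), fun v hv g hg => by simp only [a.2.2 v hv g hg, map_zero]⟩ :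
        {x // x ∈ {y | SC.Hom ⊤ y ∧ ∀ v ∉ S, ∀ g ∈ π.I v, y g = 0}})) fun a b h => Subtype.ext
        (funext fun g => cd_ext fun i => congrFun (congrArg Subtype.val (congrFun h i)) g)
    exact Module.Finite.of_finite
  lag S₀ := by
    obtain ⟨A, -, h2, h3, h4⟩ := (facts K Ω).ad π
    obtain ⟨S, hS, h⟩ := A.lag S₀
    rw [h2, h3, h4] at h
    refine ⟨S, hS, fun b hb ho => ?_⟩
    choose b' h1 using fun v => ext1 (b v)
    obtain rfl : b = fun v (g : π.D v) => b' v g := funext h1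
    choose z z1 z2 z3 using fun i => h (fun v g => cd i (b' v g))
      (fun v hv => hom_iff.1 (Hm.map (hb v hv) _)) fun y y1 y2 => by
        have y3 := Hm.up (k := k) (hom_top.2 y1)
        rw [← map_zero (cd i), ← ho _ ⟨y3, fun v hv g hg => by rw [y2 v hv g hg, map_zero]⟩, map_sum]
        refine Finset.sum_congr rfl fun v hv => (symz_eq _ _ _).trans (Eq.trans (congrArg i2
          (funext₂ fun g l => ?_)) (invK_spec (two_D π v) (cz_cup (Hm.res y3 _) (hb v hv)) _).symm)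
        rw [cup, cup, ← Algebra.smul_def, map_smul, smul_eq_mul]
    obtain ⟨Z, a, b⟩ := glue z fun i => (hom_top.2 (z1 i)).1
    exact ⟨Z, ⟨⟨a, fun g h => cd_ext fun i => by rw [map_add, b, b, b, (hom_top.2 (z1 i)).2]⟩,
      fun v hv g hg => cd_ext fun i => by rw [b, z2 i v hv g hg, map_zero]⟩,
      fun v hv => funext fun g => cd_ext fun i => (b i g).trans (z3 i v hv g g.2)⟩

end Pool.Agent.SP
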