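import Pool.Agent.Lib.MP_b4b3cb_nt.Par.Sel
import Pool.Agent.Lib.MP_b4b3cb_nt.Par.LinA

/-! The kernels of the pairing and the formula of Greenberg and Wiles. -/

namespace Pool.Agent.SP

open scoped Classical
open Module

variable {E k : Type} [NontriviallyNormedField E] [Field k] {G P : Type} [Group G]
  [TopologicalSpace G] {c : CF E k}

theorem cont_bil [CompleteSpace E] {W W' : Type} [NormedAddCommGroup W] [NormedSpace E W]
    [NormedAddCommGroup W'] [NormedSpace E W'] [FiniteDimensional E W] [FiniteDimensional E W']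
    (β : W →ₗ[E] W' →ₗ[E] E) {Z : Type} [TopologicalSpace Z] {x : Z → W} {y : Z → W'}
    (hx : Continuous x) (hy : Continuous y) : Continuous fun z => β (x z) (y z) :=
  (LinearMap.toContinuousLinearMap
    ((LinearMap.toContinuousLinearMap (𝕜 := E) (E := W') (F' := E)).toLinearMap ∘ₗ β)).continuous₂.comp
    (hx.prodMk hy)

namespace SD

variable {A : AK G P c} {W : Type} [NormedAddCommGroup W] [NormedSpace E W] {n : ℕ} (X : SD A W n)

theorem ss_un (i : ℤ) {S : Finset P} (hS : X.S₀ ⊆ S) (y : G → k) : y ∈ X.SS i 1 ↔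
    y ∈ Un k A.I S ∧ ∀ v ∈ S, (fun g : A.D v => y g) ∈ X.C.Wd (X.Y v) i := by
  rw [X.ss_one]
  refine ⟨fun h => ⟨⟨h.1, fun v hv => (X.good_iff (fun a => hv (hS a)) i h.1).1 (h.2 v)⟩,
    fun v _ => h.2 v⟩, fun h => ⟨h.1.1, fun v => ?_⟩⟩
  by_cases hv : v ∈ S
  · exact h.2 v hv
  · exact (X.good_iff (fun a => hv (hS a)) i h.1.1).2 (h.1.2 v hv)

theorem ss_fin (i : ℤ) : FiniteDimensional k (X.SS i 1) :=
  have := A.finS X.S₀
  Submodule.finiteDimensional_of_le fun y hy => ((X.ss_un i le_rfl y).1 hy).1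

theorem lagX [CharP k 2] {S₁ : Finset P} (h₁ : X.S₀ ⊆ S₁) : ∃ S, S₁ ⊆ S ∧ ∀ i j, i + j = -1 →
    (∀ a : ∀ v, A.D v → k, (∀ v, a v ∈ Hm k (A.D v)) →
      (∀ y ∈ X.SS j 1, ∑ v ∈ S, (A.ld v).sym (fun g => y g) (a v) = 0) →
      ∃ z ∈ Un k A.I S, ∀ v ∈ S, (a v - fun g : A.D v => z g) ∈ X.C.Wd (X.Y v) i) ∧
    2 * ((finrank k (X.SS i 1) : ℤ) - finrank k (X.SS j 1)) =
      ∑ v ∈ S, ((X.C.dm (X.Y v) i : ℤ) - X.C.dm (X.Y v) j) := by
  obtain ⟨S, s1, s2⟩ := A.lag S₁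
  refine ⟨S, s1, fun i j hij => ?_⟩
  have := A.finS S
  have := fun v => (A.ld v).fin
  let loc : Un k A.I S →ₗ[k] ∀ v : S, Hm k (A.D v) :=
    { toFun := fun y v => ⟨fun g => y.1 g, Hm.res y.2.1 _⟩
      map_add' := fun _ _ => rfl
      map_smul' := fun _ _ => rfl }
  have fr : ∀ v i, finrank k ((X.C.Wd (X.Y v) i).comap (Hm k (A.D v)).subtype) =
      X.C.dm (X.Y v) i := fun v i => (Submodule.comapSubtypeEquivOfLe (X.W_le v i)).finrank_eq
  have ss : ∀ i, finrank k ((Submodule.pi Set.univ fun v : S =>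
      (X.C.Wd (X.Y v) i).comap (Hm k (A.D v)).subtype).comap loc) = finrank k (X.SS i 1) := by
    intro i
    rw [← Submodule.finrank_map_subtype_eq]
    refine congrArg (fun U : Submodule k (G → k) => finrank k U) ?_
    ext y
    rw [X.ss_un i (h₁.trans s1)]
    exact ⟨by rintro ⟨y, hy, rfl⟩; exact ⟨y.2, fun v hv => hy ⟨v, hv⟩ trivial⟩,
      fun h => ⟨⟨y, h.1⟩, fun v _ => h.2 v v.2, rfl⟩⟩
  obtain ⟨m1, m2⟩ := lag (fun v : S => (A.ld v).form) (fun v x y => (A.ld v).comm x.2 y.2)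
    (fun v x h => Subtype.ext ((A.ld v).nondeg x x.2 fun b hb => h ⟨b, hb⟩)) loc
    (fun y z => (Finset.sum_coe_sort S fun v => (A.ld v).sym (fun g => y.1 g) fun g => z.1 g).trans
      (A.recip _ (cz_cup y.2.1 z.2.1) S fun v hv => X.sym_iso v (i := 0) (j := -1) rfl
        ((X.good_iff (fun a => hv (s1 (h₁ a))) _ y.2.1).2 (y.2.2 v hv))
        ((X.good_iff (fun a => hv (s1 (h₁ a))) _ z.2.1).2 (z.2.2 v hv))))
    (fun a h => by
      obtain ⟨z, z1, z2⟩ := s2 (fun v => if hv : v ∈ S then (a ⟨v, hv⟩).1 else 0)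
        (fun v hv => by rw [dif_pos hv]; exact (a ⟨v, hv⟩).2) fun y hy => by
          rw [← h ⟨y, hy⟩, ← Finset.sum_coe_sort S]
          exact Finset.sum_congr rfl fun v _ => by rw [dif_pos v.2]; rfl
      exact ⟨⟨z, z1⟩, funext fun v => Subtype.ext ((z2 v v.2).trans (dif_pos v.2))⟩)
    (fun v => (X.C.Wd (X.Y v) i).comap (Hm k (A.D v)).subtype)
    (fun v => (X.C.Wd (X.Y v) j).comap (Hm k (A.D v)).subtype)
    (fun v x hx y hy => X.sym_iso v (by omega) hx hy)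
    (fun v => by rw [fr, fr]; exact X.big v i j hij)
  refine ⟨fun a ha h => ?_, ?_⟩
  · obtain ⟨z, hz⟩ := m1 (fun v => ⟨a v, ha v⟩) fun y hy =>
      (Finset.sum_coe_sort S fun v => (A.ld v).sym (fun g => y.1 g) (a v)).trans
        (h y ((X.ss_un j (h₁.trans s1) y).2 ⟨y.2, fun v hv => hy ⟨v, hv⟩⟩))
    exact ⟨z, z.2, fun v hv => hz ⟨v, hv⟩⟩
  · rw [ss, ss] at m2
    rw [m2, ← Finset.sum_coe_sort S]
    exact Finset.sum_congr rfl fun v _ => by rw [fr, fr]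

theorem gw [CharP k 2] {i j : ℤ} (hij : i + j = -1) :
    2 * ((finrank k (X.SS i 1) : ℤ) - finrank k (X.SS j 1)) =
      ∑ v ∈ X.S₀, ((X.C.dm (X.Y v) i : ℤ) - X.C.dm (X.Y v) j) := by
  obtain ⟨S, s1, s2⟩ := X.lagX le_rfl
  rw [(s2 i j hij).2]
  refine (Finset.sum_subset s1 fun v _ hv => ?_).symm
  have w : ∀ i j, X.C.Wd (X.Y v) i ≤ X.C.Wd (X.Y v) j := fun i j f hf =>
    X.good1 v hv j f (X.W_le v i hf) fun g hg => by
      obtain ⟨t, t1, rfl⟩ := hf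
      beta_reduce
      rw [X.good0 v hv t t1.1 g hg]
      exact X.C.lam_of (zero_mem _)
  rw [Ch.dm, Ch.dm, le_antisymm (w i j) (w j i), sub_self]

variable {X} {i j : ℤ} {x : G → W} {y : G → k} {e : k}

theorem ker [CharP k 2] [ContinuousMul G] (hij : i ≤ j) (hx : x ∈ X.Sl i j)
    (hy : ∀ y ∈ X.SS (-j - 1) 1, X.PV i j x y 0) :
    ∃ x' ∈ X.Sl i (j + 1), ∀ g, x' g - x g ∈ X.C.T j := by
  obtain ⟨x', t, S₁, h01, w, hI, h0⟩ := wt_ex hij hx
  obtain ⟨S, s1, s2⟩ := X.lagX h01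
  obtain ⟨z, hz, hzW⟩ := (s2 j (-j - 1) (by omega)).1 (X.df j x' t) w.hom fun y m =>
    PV.uniq m (w.pv (fun v hv => h0 v fun a => hv (s1 a)) y) (hy y m)
  obtain ⟨u, hu, hu'⟩ := X.stab.lev_hom j hz.1
  have lv := sub_mem w.lev (Ch.lev_mono hij le_rfl hu)
  refine ⟨x' - u, ⟨lv, fun v => ?_⟩, fun g => ?_⟩
  · by_cases hv : v ∈ S
    · obtain ⟨t', h1, h2⟩ := hzW v hv
      refine ⟨t v + t', add_mem (w.z v) (X.C.Z_anti hij h1), fun g => ?_⟩
      rw [show (x' - u) g - (t v + t') g = x' g - t v g - u g - t' g by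
        simp only [Pi.sub_apply, Pi.add_apply]; abel]
      refine X.C.sub_mem_of (sub_mem (w.loc v g) (hu.2.1 g)) (h1.2 g) ?_
      rw [X.C.lam_sub (w.loc v g) (hu.2.1 g), hu']
      exact congrFun h2 g
    · exact X.good (fun a => hv (s1 (h01 a))) (by omega) lv fun g hg =>
        sub_mem (hI v (fun h => hv (s1 h)) g hg)
          ((X.C.lam_zero (hu.2.1 g)).1 ((hu' g).trans (hz.2 v hv g hg)))
  · rw [Pi.sub_apply, sub_right_comm]
    exact sub_mem (w.sub g) (hu.2.1 g)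

theorem fin_sum {S : Finset P} {κ : k} (hκ : κ ≠ 0) {a b : ∀ v, A.D v → k}
    (ha : ∀ v, a v ∈ Hm k (A.D v)) (hb : ∀ v, b v ∈ Hm k (A.D v))
    (h0 : ∀ v ∉ S, (A.ld v).sym (a v) (b v) = 0) (β : G → G → E)
    (h1 : Continuous fun p : G × G => β p.1 p.2)
    (h2 : ∀ g h l, ‖A.χ g * β h l - β (g * h) l + β g (h * l) - β g h‖ ≤ 1)
    (h3 : ∀ v, ∃ f : A.D v → E, Continuous f ∧ ∀ g h : A.D v,
      c.Rd (c.π * (β g h - dq (fun g : A.D v => A.χ g) f g h)) (κ * (a v g * b v h))) :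
    ∑ v ∈ S, (A.ld v).sym (a v) (b v) = 0 := by
  have e : ∀ v, (A.ld v).inv (κ • cup (a v) (b v)) = κ * (A.ld v).sym (a v) (b v) :=
    fun v => (A.ld v).smul κ (cz_cup (ha v) (hb v))
  have := A.rglob β h1 h2 (fun v => κ • cup (a v) (b v)) (fun v => (cz_cup (ha v) (hb v)).smul κ) h3 S
    fun v hv => by rw [e, h0 v hv, mul_zero]
  rw [Finset.sum_congr rfl fun v _ => e v, ← Finset.mul_sum] at this
  exact (mul_eq_zero.1 this).resolve_left hκ

variable [IsUltrametricDist E] [CompleteSpace E] [FiniteDimensional E W]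

theorem orth {m : ℕ} (hj : j = i + m) (hy : y ∈ X.SS (-j - 1) (m + 1)) (h : X.PV i j x y e) :
    e = 0 := by
  obtain ⟨w, ⟨hw, hwl⟩, rfl⟩ := hy
  obtain ⟨x', t, S, ht, hS0, rfl⟩ := h
  have ei : -j - 1 + ((m + 1 : ℕ) : ℤ) = -i := by omega
  rw [ei] at hw hwl
  obtain ⟨κ, k0, k1⟩ := X.pa.lam (-j - 1) j (by omega)
  refine fin_sum k0 (fun v => Hm.res (X.stab.hom hw (by omega)) _) ht.hom hS0 (cupB X.om X.R w x')
    (cont_bil X.om (hw.1.comp continuous_fst)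
      (X.R.cont_ac continuous_fst (ht.lev.1.comp continuous_snd))) (fun g h l => ?_) fun v => ?_
  · have a1 := c.rd_of (X.pa.le (hw.2.2 g h) (X.stab.mem (g * h) (ht.lev.2.1 l)) (by omega))
    have a2 := c.rd_of (X.pa.le (hw.2.1 g) (X.stab.mem g (ht.lev.2.2 h l)) (by omega))
    convert (a1.sub a2).1 using 2
    simp only [cupB]
    rw [← X.equi g, ← X.R.mul]
    simp only [Rp.d2, map_sub, map_add, LinearMap.sub_apply, X.R.mul,
      LinearMap.add_apply]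
    ring
  · obtain ⟨s, hs, hc⟩ := hwl v
    obtain ⟨f, f1, f2⟩ := X.iso v s hs.1 (t v) (ht.z v).1
    refine ⟨f, f1, fun g h => ?_⟩
    have a1 := c.rd_pi (X.pa.le (hc g) (X.stab.mem g ((ht.z v).2 h)) (by omega))
    have a2 := k1 _ (hw.2.1 g) _ (X.stab.mem g (ht.loc v h))
    rw [X.stab.lam g (ht.loc v h)] at a2
    refine (a1.add a2).congr ?_ (zero_add _)
    rw [← f2]
    change _ = c.π * (X.om (w g) (X.R.ac g (x' h)) - X.om (s g) (X.R.ac g (t v h)))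
    simp only [map_sub, LinearMap.sub_apply]
    ring

end SD

end Pool.Agent.SP
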