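import Pool.Agent.Lib.MP_b4b3cb_nt.Par.AltIx
import Pool.Agent.Lib.MP_b4b3cb_nt.Par.Spl

/-! Inert places. -/

namespace Pool.Agent.SP

open scoped Classical
open Module

variable {E k : Type} [NontriviallyNormedField E] [Field k] {Γ G : Type} [Group Γ]
  [TopologicalSpace Γ] [Group G] [TopologicalSpace G] {J : IG Γ G} {c : CF E k} {χ : G →* E}
  {V : Type} [NormedAddCommGroup V] [NormedSpace E V] {m : ℕ} (U : VD J c χ V m)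
  [Finite k] [IsUltrametricDist E] [CompleteSpace E] [FiniteDimensional E V] [CharZero E]

theorem VD.inert {D I : Subgroup Γ} [CompactSpace D] [CompactSpace I] {σ : G} (h2 : σ ∉ J.H)
    (hχ : c.Rd (χ σ) 1) (hI : ∀ γ ∈ I, χ (J.ι γ) = 1) (nI : ∀ d ∈ D, ∀ γ ∈ I, d⁻¹ * γ * d ∈ I)
    (θI : ∀ γ ∈ I, J.u σ * J.cj γ * (J.u σ)⁻¹ ∈ I) (φ : D) (hφ : φ.1 = J.u (σ * σ))
    (gφ : Gen k (I.subgroupOf D : Set D) φ) (τ : I) (gτ : Gen k ∅ τ)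
    (tame : ∀ f : I → E, Continuous f → (∀ g h, ‖f (g * h) - f g - f h‖ ≤ 1) →
      ∀ g g' : I, g'.1 = J.u σ * J.cj g * (J.u σ)⁻¹ → ‖f g' - χ σ * f g‖ ≤ 1)
    (le : I ≤ D) (h0 : ∀ a, (∀ g : D, U.ρ.ac g a = a) → a = 0) :
    Even (∑ i ∈ Finset.range m, U.Λ.dm (U.ρ.res D).B1 i + m +
      finrank E (Representation.invariants (U.ρ.ac.comp I.subtype))) := by
  let P := U.B.compl₂ (U.ρ.ac (J.cj (J.u σ)))
  have hP : Pa U.Λ U.Λ P := ⟨fun hu hv h => U.pa.le hu (U.stab.mem _ hv) h, fun i j h => by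
    obtain ⟨κ, k0, k1⟩ := U.pa.lam i j h
    exact ⟨κ, k0, fun u hu v hv => (k1 u hu _ (U.stab.mem _ hv)).congr rfl
      (by rw [U.stab.lam _ hv])⟩⟩
  have p1 : ∀ γ ∈ I, ∀ x y, P (U.ρ.ac (J.u σ * J.cj γ * (J.u σ)⁻¹) x) (U.ρ.ac γ y) = P x y :=
    fun γ hγ x y => by
    have := U.equi (J.u σ * J.cj γ * (J.u σ)⁻¹) x (U.ρ.ac (J.cj (J.u σ)) y)
    rwa [hI _ (θI γ hγ), one_mul, ← U.ρ.mul, ← map_mul J.cj, inv_mul_cancel_right, map_mul J.cj,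
      J.cj_cj, U.ρ.mul (J.cj _)] at this
  have p2 : ∀ x y, P (U.ρ.ac φ y) x = -(χ σ * P x y) := fun x y => by
    rw [hφ, J.u_out h2, U.ρ.mul]
    exact (U.equi _ _ _).trans (by rw [U.chi_out h2, U.sy, neg_mul]; rfl)
  have gI : ∀ {j x}, U.ρ.ac τ x - x ∈ U.Λ.T j → ∀ γ ∈ I, U.ρ.ac γ x - x ∈ U.Λ.T j :=
    fun {j x} h γ hγ => (U.stab.res I).gen {τ} (fun f hf h => gτ f hf (by simp) (h τ rfl))
      ((U.ρ.res I).d1_mem x) (by rintro _ rfl; exact h) ⟨γ, hγ⟩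
  have gD : ∀ {j x}, U.ρ.ac τ x - x ∈ U.Λ.T j → U.ρ.ac φ x - x ∈ U.Λ.T j →
      ∀ γ : D, U.ρ.ac γ x - x ∈ U.Λ.T j := fun {j x} h h' =>
    (U.stab.res D).gen (insert φ (I.subgroupOf D : Set D))
      (fun f hf h => gφ f hf (fun g hg => h g (Or.inr hg)) (h φ (Or.inl rfl)))
      ((U.ρ.res D).d1_mem x) (by
        rintro g (rfl | hg)
        exacts [h', gI h _ hg])
  have k0 : ∀ {x}, U.ρ.ac τ x - x = 0 → ∀ γ ∈ I, U.ρ.ac γ x = x := fun h γ hγ =>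
    sub_eq_zero.1 (U.Λ.sep fun j => gI (h ▸ zero_mem _) γ hγ)
  have nφ : ∀ {j x}, (∀ γ ∈ I, U.ρ.ac γ x - x ∈ U.Λ.T j) →
      ∀ γ ∈ I, U.ρ.ac γ (U.ρ.ac φ x) - U.ρ.ac φ x ∈ U.Λ.T j := fun h γ hγ => by
    have := U.stab.mem φ.1 (h _ (nI _ φ.2 γ hγ))
    rwa [map_sub, ← U.ρ.mul, ← mul_assoc, mul_inv_cancel_left, U.ρ.mul] at this
  have e : Representation.invariants (U.ρ.ac.comp I.subtype) =
      LinearMap.ker (U.ρ.ac τ - 1) := Submodule.ext fun x =>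
    ⟨fun h => sub_eq_zero.2 (h τ), fun h g => k0 h g g.2⟩
  have ix := U.Λ.ix_pow (U.Λ.fin_W (Ch.bd_of (U.ρ.res D).B1_le)) 0 m
  simp only [zero_add] at ix
  rw [e]
  refine SP.inert hP U.rk (U.ρ.ac φ - 1) (U.ρ.ac τ - 1) (fun x y hx => ?_) (fun r x y hx hy => ?_)
    (fun x hx => sub_eq_zero.2 ?_) (fun x hx hy => h0 x fun g => sub_eq_zero.1 (U.Λ.sep fun j =>
      gD ((show U.ρ.ac τ x - x = 0 from hx) ▸ zero_mem _)
        ((show U.ρ.ac φ x - x = 0 from hy) ▸ zero_mem _) g))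
    (fun i x hx => ⟨U.Λ.succ _ (U.stab _ _ _ hx), U.Λ.succ _ (U.stab _ _ _ hx)⟩)
    (fun i => (U.Λ.Z (U.ρ.res D).B1 i).comap (U.ρ.res D).d1.toAddMonoidHom)
    (fun i x => ⟨fun h => ⟨h.2 ⟨τ, le τ.2⟩, h.2 φ⟩, fun h => ⟨⟨x, rfl⟩, gD h.1 h.2⟩⟩)
    ((ix_tr (U.ρ.res D).d1.toAddMonoidHom (A' := U.Λ.Z (U.ρ.res D).B1 0) (fun y => ⟨fun hy => hy.1.imp fun x hx =>
      ⟨by rw [← hx] at hy; exact hy, hx⟩, fun ⟨x, hx, h⟩ => h ▸ hx⟩) fun _ _ => Iff.rfl).trans ix)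
  · rw [LinearMap.sub_apply, map_sub, End.one_apply, ← p1 τ τ.2 x y, k0 hx _ (θI _ τ.2), sub_self]
  · have z0 := zpow_ne_zero r c.ne
    have sc : ∀ {u w}, u ∈ U.Λ.T (r * m) → w ∈ U.Λ.T (r * m) → P u w / c.π ^ r ∈ O1 E :=
      fun hu hw => by
      have := hP.le ((U.Λ.per_zpow (-r) _ _).2 hu) hw (by push_cast; linarith)
      rwa [map_smul, LinearMap.smul_apply, smul_eq_mul, zpow_neg, ← div_eq_inv_mul] at this
    have a1 := gI hx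
    have a2 := nφ (gI hy)
    have a3 := tame (fun g => P (U.ρ.ac φ y) (U.ρ.ac g x - x) / c.π ^ r)
      ((cont_bil P continuous_const ((U.ρ.res I).d1_mem x).1).div_const _) (fun g h => by
        have b := θI _ g.2
        have := p1 g g.2 (U.ρ.ac (J.u σ * J.cj g * (J.u σ)⁻¹)⁻¹ (U.ρ.ac φ y)) (U.ρ.ac h x - x)
        rw [← U.ρ.mul, mul_inv_cancel, U.ρ.one] at this
        convert mem_O1.1 (sc (a2 _ (inv_mem b)) (a1 h h.2)) using 2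
        rw [map_sub P, LinearMap.sub_apply, ← this]
        simp only [Subgroup.coe_mul, U.ρ.mul, map_sub]
        ring) τ ⟨_, θI _ τ.2⟩ rfl
    have a4 := sc (U.stab.mem φ.1 hy) (a1 _ (θI _ τ.2))
    have a5 := p1 τ τ.2 x y
    have a6 := p2 (U.ρ.ac (J.u σ * J.cj τ * (J.u σ)⁻¹) x - x) (U.ρ.ac τ y)
    have a7 := mem_O1.1 (add_mem (mem_O1.2 a3) a4)
    rw [← mul_one 1, ← hχ.norm_eq one_ne_zero, ← one_mul ‖_ / _‖, ← hχ.norm_eq one_ne_zero,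
      ← norm_mul, hχ.norm_eq one_ne_zero, mul_one]
    convert a7 using 2
    simp only [LinearMap.sub_apply, map_sub, End.one_apply, sub_add_cancel] at a6 ⊢
    linear_combination (exp := 1) -a6 / c.π ^ r + χ σ * a5 / c.π ^ r
  · change U.ρ.ac τ (U.ρ.ac φ x - x) = U.ρ.ac φ x - x
    rw [map_sub, k0 hx _ τ.2, sub_eq_zero.1 (U.Λ.sep fun j => nφ (fun γ hγ => by
      rw [k0 hx γ hγ, sub_self]; exact zero_mem _) _ τ.2)]

end Pool.Agent.SP
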