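import Pool.Agent.Lib.MP_b4b3cb_nt.Par.Dy
import Pool.Agent.Lib.MP_b4b3cb_nt.Par.Ind

/-! Self-dual local conditions and indices. -/

namespace Pool.Agent.SP

open scoped Classical
open Module

theorem ix_tr {X Y : Type} [AddCommGroup X] [AddCommGroup Y] (f : X →+ Y) {A B : AddSubgroup X}
    {A' B' : AddSubgroup Y} (h1 : ∀ y, y ∈ A' ↔ ∃ x ∈ A, f x = y)
    (h2 : ∀ x ∈ A, x ∈ B ↔ f x ∈ B') : B.relIndex A = B'.relIndex A' := by
  rw [show A' = A.map f from AddSubgroup.ext h1, ← AddSubgroup.relIndex_comap,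
    ← AddSubgroup.inf_relIndex_right B, ← AddSubgroup.inf_relIndex_right (B'.comap f)]
  congr 1
  ext x
  exact and_congr_left (h2 x)

theorem ix_prod {X Y : Type} [AddCommGroup X] [AddCommGroup Y] (B A : AddSubgroup X)
    (B' A' : AddSubgroup Y) :
    (B.prod B').relIndex (A.prod A') = B.relIndex A * B'.relIndex A' := by
  rw [AddSubgroup.relIndex, AddSubgroup.relIndex, AddSubgroup.relIndex, ← AddSubgroup.index_prod,
    ← AddSubgroup.index_comap_of_surjective _ (f := (A.prodEquiv A').toAddMonoidHom)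
      (A.prodEquiv A').surjective]
  rfl

variable {E k : Type} [NontriviallyNormedField E] [Field k] {G : Type} [Group G]
  [TopologicalSpace G] {c : CF E k} {W : Type} [NormedAddCommGroup W] [NormedSpace E W] {N : ℕ}

theorem rank_gen {X : Type} (Y : Submodule k (X → k)) {r : ℕ} (s : Fin r → X)
    (h : ∀ f ∈ Y, (∀ i, f (s i) = 0) → f = 0) : FiniteDimensional k Y ∧ finrank k Y ≤ r := by
  have inj : Function.Injective (LinearMap.funLeft k k s ∘ₗ Y.subtype) :=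
    (injective_iff_map_eq_zero _).2 fun f hf => Subtype.ext (h f f.2 (congrFun hf))
  exact ⟨FiniteDimensional.of_injective _ inj, by
    simpa using LinearMap.finrank_le_finrank_of_injective inj⟩

theorem Ch.ix_T [Finite k] (C : Ch c W N) (a : ℤ) (r : ℕ) :
    (C.T (a + r)).relIndex (C.T a) = Nat.card k ^ r := by
  induction r with
  | zero => simp
  | succ r ih =>
    have e : (C.T (a + r + 1)).relIndex (C.T (a + r)) = Nat.card k := by
      rw [ix _ _ (C.lam (a + r)) (fun _ ha _ hb => C.lam_add ha hb)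
        fun _ ha => (C.lam_zero ha).symm]
      obtain ⟨e, h1, h2⟩ := C.ex (a + r)
      rw [Set.eq_univ_of_forall (s := {y | ∃ x ∈ C.T (a + r), y = C.lam (a + r) x}) fun y =>
        ⟨c.sc y • e, C.smul (c.sc_le y) h1, by rw [C.lam_smul (c.sc_le y) h1, c.rd_sc, h2, mul_one]⟩,
        Nat.card_univ]
    rw [pow_succ', ← ih, ← e, AddSubgroup.relIndex_mul_relIndex _ _ _ (C.succ _) (C.anti (by omega)),
      Nat.cast_succ, add_assoc]

instance Rp.fdB1 [FiniteDimensional E W] (R : Rp E G W) : FiniteDimensional E R.B1 :=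
  inferInstanceAs (FiniteDimensional E (LinearMap.range R.d1))

/-- `σ` generates the group modulo `I` as far as characters are concerned. -/
def Gen (k : Type) [Field k] (I : Set G) (σ : G) : Prop :=
  ∀ f ∈ Hm k G, (∀ g ∈ I, f g = 0) → f σ = 0 → f = 0

variable [IsUltrametricDist E] [CompleteSpace E] [Finite k] [FiniteDimensional E W]
  [CompactSpace G] {C : Ch c W N} {R : Rp E G W}

theorem goodW (hS : C.Stab R) {I : Subgroup G} {σ : G} (hs : Gen k I σ)
    (h1 : ∀ g ∈ I, R.ac g = 1) (hr : finrank E R.B1 = N) (i : ℤ) :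
    C.dm R.B1 i = 1 ∧ ∀ f ∈ Hm k G, (∀ g ∈ I, f g = 0) → f ∈ C.Wd R.B1 i := by
  obtain ⟨fd, hu⟩ := rank_gen (Un k (fun _ : Unit => I) ∅) ![σ] fun f hf h =>
    hs f hf.1 (hf.2 () (by simp)) (h 0)
  have le : ∀ i, C.Wd R.B1 i ≤ Un k (fun _ : Unit => I) ∅ := fun i f hf =>
    ⟨hS.W_le R.B1_le i hf, fun _ _ g hg => by
      obtain ⟨_, ⟨⟨u, rfl⟩, -⟩, rfl⟩ := hf
      exact C.lam_of (by simp [R.d1_apply, h1 g hg])⟩
  have e : C.dm R.B1 i + 0 = 1 := dual_eq (C.dm R.B1) (fun _ => 0) C.dm_per (fun _ => rfl) C.pos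
    (fun i => (Submodule.finrank_mono (le i)).trans hu)
    (by rw [C.sum_dm (Ch.bd_of R.B1_le), hr]; simp) i
  refine ⟨e, fun f hf h => ?_⟩
  rw [Submodule.eq_of_le_of_finrank_le (le i) (hu.trans_eq e.symm)]
  exact ⟨hf, fun _ _ => h⟩

variable [CharP k 2] {χ : G → E} {β : W →ₗ[E] W →ₗ[E] E}

theorem LD.big (L : LD G c χ) (hP : Pa C C β) (hS : C.Stab R) {Y : Submodule E (G → W)}
    (hY : Y ≤ R.Z1) (hi : ∀ t ∈ Y, ∀ t' ∈ Y, Cob χ (cupB β R t t')) {h' : ℕ}
    (hh : finrank k (Hm k G) ≤ h') (hr : N * h' ≤ 2 * finrank E Y) {i j : ℤ} (hij : i + j = -1) :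
    C.dm Y i + C.dm Y j = h' := by
  have := L.fin
  have : FiniteDimensional E Y := C.fd (Ch.bd_of hY) _ (hS.W_le hY)
  rw [show j = -i - 1 by omega]
  exact dual_eq _ _ C.dm_per C.dm_per C.pos
    (fun i => (L.dm_le hP hS hS hY hY hi (by omega)).trans hh)
    (by rw [C.sum_dm (Ch.bd_of hY)]; omega) i

theorem LD.selfdual (L : LD G c χ) (hP : Pa C C β) (hS : C.Stab R) (hE : Equi χ R R β) {h' : ℕ}
    (hh : finrank k (Hm k G) ≤ h') (hr : N * h' ≤ 2 * finrank E R.B1) :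
    (∀ t ∈ R.B1, ∀ t' ∈ R.B1, Cob χ (cupB β R t t')) ∧ finrank k (Hm k G) = h' ∧
      (∀ i j, i + j = -1 → C.dm R.B1 i + C.dm R.B1 j = h') ∧ R.Z1 = R.B1 := by
  have := L.fin
  have hz : ∀ t ∈ R.Z1, ∀ t' ∈ R.B1, Cob χ (cupB β R t t') := by
    rintro t ht _ ⟨u, rfl⟩
    exact cob_right hE ht u
  have hi : ∀ t ∈ R.B1, ∀ t' ∈ R.B1, Cob χ (cupB β R t t') := fun t ht => hz t (R.B1_le ht)
  have e := fun i j => L.big hP hS R.B1_le hi hh hr (i := i) (j := j)
  have : FiniteDimensional E R.Z1 := C.fd (Ch.bd_of le_rfl) _ (hS.W_le le_rfl)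
  refine ⟨hi, le_antisymm hh (e 0 (-1) rfl ▸ L.dm_le hP hS hS R.B1_le R.B1_le hi rfl), e,
    (Submodule.eq_of_le_of_finrank_le R.B1_le ?_).symm⟩
  rw [← C.sum_dm (Ch.bd_of le_rfl), ← C.sum_dm (Ch.bd_of R.B1_le)]
  refine Finset.sum_le_sum fun i _ => ?_
  have h1 := L.dm_le hP hS hS le_rfl R.B1_le hz (i := i) (j := -i - 1) (by omega)
  have h2 := e i (-i - 1) (by omega)
  omega

end Pool.Agent.SP
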