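import Pool.Agent.Lib.MP_b4b3cb_nt.Par.LocK
import Pool.Agent.Lib.MP_b4b3cb_nt.Par.Ram
import Pool.Agent.Lib.MP_b4b3cb_nt.Par.Cyc2

/-! The local condition at a ramified odd prime, and the parity theorem with local terms. -/

set_option linter.unusedSectionVars false

namespace Pool.Agent.SP

open scoped Classical Topology Pointwise
open Module NumberField Pool.Agent.Stark Polynomial
open SC hiding Hm Rp V T Two Cob Sel Spl cup dq Cz Sz res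

theorem gen_of {k G : Type} [Field k] [Group G] [TopologicalSpace G] {τ₀ τ : G} (h : Gen k ∅ τ₀)
    {φ : G → k} (hφ : φ ∈ Hm k G) (h1 : φ τ ≠ 0) : Gen k ∅ τ := fun f hf a b => by
  have := congrFun (h _ (sub_mem ((Hm k G).smul_mem (φ τ₀) hf) ((Hm k G).smul_mem (f τ₀) hφ))
    (by simp) (by simp [mul_comm])) τ
  exact h f hf a (by simpa [b, h1] using this)

variable {K L Ω : Type} [Field K] [NumberField K] [Field L] [NumberField L] [Algebra K L]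
  [Field Ω] [Algebra K Ω] [Algebra L Ω] [IsScalarTower K L Ω] [IsAlgClosed Ω] [IsGalois K Ω]
  [IsGalois L Ω] [CharZero Ω] {J : IG Gal(Ω/L) Gal(Ω/K)} (hι : ∀ g x, J.ι g x = g x)
  {E k : Type} [NontriviallyNormedField E] [IsUltrametricDist E] [NormedAlgebra ℚ_[2] E]
  [Field k] [Finite k] [CharP k 2] [Algebra (ZMod 2) k] {c : CF E k} [CompleteSpace E] [CharZero E]
  {V : Type} [NormedAddCommGroup V] [NormedSpace E V] [FiniteDimensional E V] {m : ℕ}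
  (U : VD J c (cycE E K Ω) V m)
  (h0 : ∀ 𝔓 : Ideal (𝓞 Ω), 𝔓.IsMaximal → ∀ a, (∀ g : Dec L 𝔓, U.ρ.ac g a = a) → a = 0)

include hι h0

theorem oddK {𝔓 : Ideal (𝓞 Ω)} (h : 𝔓.IsMaximal) (h2 : 2 ∉ 𝔓) :
    (U.R.res (Dec K 𝔓)).Z1 = (U.R.res (Dec K 𝔓)).B1 ∧
    ∀ p, Even (∑ i ∈ Finset.range (2 * m), U.T.dm (U.R.res (Dec K 𝔓)).B1 i + p) →
      U.Loc (Dec K 𝔓) (U.R.res (Dec K 𝔓)).B1 p := by
  obtain ⟨Λ⟩ := exLD (K := K) c h
  exact U.odd (dec_iff hι) (h0 _ h) (h0c hι U h0 h) Λ (rank2 h h2)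

theorem locRam {𝔓 : Ideal (𝓞 Ω)} {w : Pr L} (hw : Over 𝔓 w) (h2 : 2 ∉ 𝔓) {τ : Gal(Ω/K)}
    (t1 : τ ∈ Ine K 𝔓) (t2 : τ ∉ J.H) {t σ : Gal(Ω/L)} (ht : J.ι t = τ * τ)
    (hσ : IsFr 𝔓 (Ideal.absNorm w.asIdeal) σ) {u : E[X]} (hu : ∀ i, ‖u.coeff i‖ ≤ 1)
    (u1 : u.eval 1 = 1) (hid : Ideal.absNorm w.asIdeal • (aeval (U.ρ.ac t) u *
      aeval (U.ρ.ac t⁻¹) u * U.ρ.ac t ^ (Ideal.absNorm w.asIdeal / 2)) =
      ∑ i ∈ Finset.range (Ideal.absNorm w.asIdeal), U.ρ.ac t ^ i) :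
    U.Loc (Dec K 𝔓) (U.R.res (Dec K 𝔓)).B1
      (finrank E (LinearMap.ker (aeval (U.ρ.ac t) u * U.ρ.ac σ - 1))) := by
  have T := facts K Ω
  have s1 := (facts L Ω).fr.dec hw.1 (Ideal.absNorm_eq_zero_iff.not.2 w.ne_bot) hσ
  have s2 := (dec_iff hι _).1 s1
  have cf := T.fr.cyc_fr (g := J.ι σ) hw.1 h2 fun x => by rw [i_smul hι]; exact hσ x
  have hq : cycE E K Ω (J.ι σ) = Ideal.absNorm w.asIdeal := by rw [cycE_apply, cf]; simp
  obtain ⟨r, hr⟩ : Odd (Ideal.absNorm w.asIdeal) := Nat.not_even_iff_odd.1 fun e =>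
    (PadicInt.norm_natCast_lt_one_iff.2 e.two_dvd).ne
      (PadicInt.isUnit_iff.1 (cf ▸ (cyc K Ω (J.ι σ)).isUnit))
  have g := genD (k := k) hw h2 ⟨σ, s1⟩ hσ
  rw [hr] at hid hq
  rw [show (2 * r + 1) / 2 = r by omega] at hid
  obtain ⟨τ₀, h⟩ := genI (K := K) (k := k) hw.1 h2
  have gτ : Gen k ∅ (⟨τ, t1⟩ : Ine K 𝔓) := gen_of h (φ := fun g => if g.1 ∈ J.H then 0 else 1)
    ⟨(IsLocallyConstant.iff_eventually_eq _).2 fun g => by
      have cl := J.clopen.preimage (continuous_subtype_val (p := (· ∈ Ine K 𝔓)))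
      by_cases a : g.1 ∈ J.H
      · exact (cl.2.eventually_mem a).mono fun l b => (if_pos b).trans (if_pos a).symm
      · exact (cl.compl.2.eventually_mem a).mono fun l b => (if_neg b).trans (if_neg a).symm,
    fun g l => by
      by_cases a : g.1 ∈ J.H <;> by_cases b : l.1 ∈ J.H
      · simp [a, b, mul_mem a b]
      · simp [a, b, mul_mem_cancel_left a]
      · simp [a, b, mul_mem_cancel_right b]
      · simp [a, b, J.two _ _ a b, CharTwo.add_self_eq_zero]⟩ (by simp [t2])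
  have n1 : J.ι σ * τ * (J.ι σ)⁻¹ ∈ Ine K 𝔓 := by simpa using ine_nor (inv_mem s2) t1
  have rl := rel (g' := ⟨_, n1⟩) (q := 2 * r + 1) gτ
    (fun f f1 f2 => hq ▸ tame c hw.1 h2 s2 f f1 f2 _ _ rfl) (U.stabT.res (Ine K 𝔓))
  refine (oddK hι U h0 hw.1 h2).2 _ ?_
  rw [U.nonsplit (dec_iff hι) (T.pr.le _ t1) t2, add_comm m]
  refine U.ram ⟨τ, t1⟩ t2 (by rw [cycE_apply, T.fr.cyc_ine hw.1 h2 t1]; simp) gτ
    (fun γ => (ine_iff hι γ).1) (fun _ a _ => ine_nor a) ⟨σ, s1⟩ g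
    ((ine_iff hι t).2 (ht ▸ mul_mem t1 t1)) (by rw [← ht, J.u_ι]) hq ?_ hu u1 hid
    ((facts L Ω).pr.le _) (h0 _ hw.1)
  change U.R.ac (J.ι σ * τ * (J.ι σ)⁻¹) = U.R.ac τ ^ _ at rl
  rw [← rl, ← map_mul, ← map_mul, inv_mul_cancel_right]

theorem autoR {𝔓 : Ideal (𝓞 Ω)} (h : 𝔓.IsMaximal) (h2 : 2 ∉ 𝔓) {x : Gal(Ω/L) → V}
    (hx : x ∈ U.ρ.Z1) : ∃ u, ∀ g ∈ Ine L 𝔓, x g = U.ρ.ac g u - u := by
  obtain ⟨u, hu⟩ := (oddK hι U h0 h h2).1.le (U.R.res_mem (U.sh_mem hx 0) _)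
  refine ⟨u.1, fun g hg => ?_⟩
  have := congrArg Prod.fst (congrFun hu ⟨_, (dec_iff hι g).1 ((facts L Ω).pr.le _ hg)⟩)
  change (U.R.ac (J.ι g) u).1 - _ = (U.sh (x, 0) (J.ι g)).1 at this
  rw [U.sh_in _ _ (J.mem g), U.R_in (J.mem g), J.u_ι] at this
  exact this.symm

theorem mainR {d : K} (Q : Quad K L d) (hH : J.H = Gs K Ω L)
    (hre : ∀ j g, Cj j g → g ∉ Gs K Ω L) (P : Pr K → Ideal (𝓞 Ω))
    (hP : ∀ v, Over (P v) v) (w : Pr K → Pr L) (hw : ∀ v, Over (P v) (w v))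
    (sp : ∀ v, 2 ∈ P v → Q.act (w v) ≠ w v) (S : Finset (Pr K))
    (hS : ∀ v ∉ S, 2 ∉ P v ∧ eI K (w v) = 1 ∧ ∀ 𝔓, Over 𝔓 v → ∀ g ∈ Ine L 𝔓, U.ρ.ac g = 1)
    (Y : ∀ v, Submodule E (Dec L (P v) → V)) (hB : ∀ v, 2 ∈ P v → (U.ρ.res _).B1 ≤ Y v)
    (hZ : ∀ v, 2 ∈ P v → Y v ≤ (U.ρ.res _).Z1) (a : Pr K → ℕ)
    (ha : ∀ v ∈ S, 2 ∉ P v → U.Loc (Dec K (P v)) (U.R.res (Dec K (P v))).B1 (a v)) :
    FiniteDimensional E (U.Sel (fun v => Dec L (P v)) (fun v => 2 ∈ P v) Y) ∧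
      Even (finrank E (U.Sel (fun v => Dec L (P v)) (fun v => 2 ∈ P v) Y) +
        ∑ v ∈ S, if 2 ∈ P v then finrank E (Y v) else a v) := by
  have T := facts K Ω
  obtain ⟨π, rfl⟩ := exPlc P hP
  let D : Pl K → Subgroup Gal(Ω/L) :=
    Sum.elim (fun v => Dec L (π.pr v)) fun φ => (π.D (.inr φ)).comap J.ι
  let Y' : ∀ v, Submodule E (D v → V) := fun v =>
    Sum.rec (motive := fun v => Submodule E (D v → V)) Y (fun _ => ⊥) v
  let dy : Pl K → Prop := Sum.elim (fun v => 2 ∈ π.pr v) fun _ => False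
  have g0 : ∀ v ∉ S, ∀ g ∈ Ine K (π.pr v), U.R.ac g = 1 := fun v hv g hg => by
    obtain ⟨a, b, e⟩ := hS v hv
    have i := (ine_le Q hH (hw v) a b).2 hg
    have j : J.u g ∈ Ine L (π.pr v) := (ine_iff hι _).2 (by rwa [J.u1 g i])
    refine LinearMap.ext fun x => ?_
    rw [U.R_in i, e _ (hP v) _ j, e _ (T.pr.smul (g := J.s) (hP v) (by rw [Gs_self]; trivial)) _
      ((ine_cj hι _).2 j)]
    rfl
  have := VD.parity (akK π c) U (S.disjSum Finset.univ) D (by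
      rintro (v | φ) γ
      exacts [dec_iff hι γ, Iff.rfl]) dy (by
      rintro (v | φ) hv
      exacts [(hS v (by simpa using hv)).1, id]) (by
      rintro (v | φ) hv
      exacts [(dec_le Q hH (hw v)).2 (sp v hv), hv.elim]) Y' (by
      rintro (v | φ) hv
      exacts [hB v hv, hv.elim]) (by
      rintro (v | φ) hv
      exacts [hZ v hv, hv.elim]) (by
      rintro (v | φ) hv
      exacts [h0 _ (hP v).1, hv.elim]) (Sum.elim a fun _ => 0) (by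
      rintro (v | φ) hv
      · obtain ⟨a, b⟩ := oddK hι U h0 (hP v).1 hv
        by_cases h : v ∈ S
        · exact ⟨a, _, ha v h hv, fun _ => rfl⟩
        · exact ⟨a, _, b _ (Even.add_self _), fun h' => (h (by simpa using h')).elim⟩
      · have : CompactSpace (π.D (.inr φ)) := (akK π c).cpt (.inr φ)
        obtain ⟨a, b⟩ := U.real (D := π.D (.inr φ)) (ldK π c (.inr φ))
          ⟨π.c φ, Subgroup.mem_zpowers _⟩ (hH ▸ hre _ _ (π.hc φ)) fun g =>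
            (((T.cj.sq (π.hc φ)).2.1 g).1 g.2).imp Subtype.ext Subtype.ext
        exact ⟨a, _, b, fun _ => rfl⟩) (by
      rintro (v | φ) hv
      exacts [g0 v (by simpa using hv), (hv (by simp)).elim]) (by
      rintro (v | φ) hv i
      · have hv : v ∉ S := by simpa using hv
        obtain ⟨σ, hσ⟩ := exFr (hP v)
        exact (goodW (U.stabT.res _) (genD (hP v) (hS v hv).1 σ hσ) (fun g hg => g0 v hv g hg)
          (U.rankW (dec_iff hι) (h0 _ (hP v).1) (h0c hι U h0 (hP v).1)) i).2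
      · exact (hv (by simp)).elim)
  have e : U.Sel D dy Y' = U.Sel (fun v => Dec L (π.pr v)) (fun v => 2 ∈ π.pr v) Y := by
    ext x
    rw [U.mem_Sel, U.mem_Sel, Sum.forall]
    exact and_congr_right fun _ => and_iff_left fun _ h => h.elim
  rw [Finset.sum_disjSum] at this
  rw [← e]
  refine ⟨this.1, ?_⟩
  convert this.2 using 2
  all_goals first | rfl | exact (Nat.add_zero _).symm.trans (congrArg₂ _ rfl
    (Finset.sum_eq_zero fun _ _ => if_neg id).symm)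

end Pool.Agent.SP
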