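import Pool.Agent.Lib.MP_b4b3cb_nt.Par.Glo

/-! The tame inertia group. -/

namespace Pool.Agent.SP

open scoped Classical Topology Pointwise
open Module NumberField Pool.Agent.Stark SC

variable {K Ω : Type} [Field K] [NumberField K] [Field Ω] [Algebra K Ω] [IsAlgClosed Ω]
  [IsGalois K Ω] [CharZero Ω] {𝔓 : Ideal (𝓞 Ω)}

omit [NumberField K] [IsAlgClosed Ω] [CharZero Ω] in
theorem ine_closed (𝔓 : Ideal (𝓞 Ω)) : IsClosed (Ine K 𝔓 : Set Gal(Ω/K)) := by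
  let : TopologicalSpace (𝓞 Ω) := ⊥
  have : DiscreteTopology (𝓞 Ω) := ⟨rfl⟩
  have := PrimeAux.cont K Ω
  have e : (Ine K 𝔓 : Set Gal(Ω/K)) =
      ⋂ x : 𝓞 Ω, (fun g : Gal(Ω/K) => g • x) ⁻¹' {y | y - x ∈ 𝔓} := by
    ext g
    simp only [Set.mem_iInter]
    rfl
  rw [e]
  exact isClosed_iInter fun x =>
    (isClosed_discrete _).preimage (continuous_id.smul continuous_const)

omit [NumberField K] [IsAlgClosed Ω] [CharZero Ω] [IsGalois K Ω] in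
theorem kr_zero {r : Ω} {g : Gal(Ω/K)} : kr r g = 0 ↔ g r = r := by
  unfold kr
  split_ifs with h <;> simp [h]

theorem frob_gen {F : Type} [Field F] [NumberField F] [Algebra K F] [Algebra F Ω]
    [IsScalarTower K F Ω] {q : Pr F} (h : Over 𝔓 q) (h2 : 2 ∉ 𝔓) {σ : Gal(Ω/K)}
    (h3 : σ ∈ Gs K Ω F) (h4 : IsFr 𝔓 (Ideal.absNorm q.asIdeal) σ) {f : Gal(Ω/K) → ZMod 2}
    (hf : Hom (Dec K 𝔓 ⊓ Gs K Ω F) f) (h5 : ∀ g ∈ Ine K 𝔓 ⊓ Gs K Ω F, f g = 0) (h6 : f σ = 0) :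
    ∀ g ∈ Dec K 𝔓 ⊓ Gs K Ω F, f g = 0 := by
  have T := facts K Ω
  obtain ⟨a, r, a0, hr, e⟩ := (T.sym h).2 f hf
  have o := (T.pr.two h).1 h2
  intro g hg
  rw [e g hg, kr_zero]
  refine (T.loc.sq h a0 hr).1 ((T.ine.leg h o a0 hr ((T.ine.ine h o a0 hr).2 fun g hg =>
    kr_zero.1 ((e g ⟨T.pr.le _ hg.1, hg.2⟩).symm.trans (h5 g hg))) σ h3 h4).1
    (kr_zero.1 ((e σ ⟨T.fr.dec h.1 (Ideal.absNorm_eq_zero_iff.not.2 q.ne_bot) h4, h3⟩).symm.trans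
      h6))) g hg

theorem ine_gen (h : 𝔓.IsMaximal) (h2 : 2 ∉ 𝔓) : ∃ τ ∈ Ine K 𝔓, ∀ f, Hom (Ine K 𝔓) f → f τ = 0 →
    ∀ g ∈ Ine K 𝔓, f g = 0 := by
  have T := facts K Ω
  by_cases h0 : ∀ f, Hom (Ine K 𝔓) f → ∀ g ∈ Ine K 𝔓, f g = 0
  · exact ⟨1, one_mem _, fun f hf _ => h0 f hf⟩
  push Not at h0
  obtain ⟨f', hf', τ, h3, h4⟩ := h0
  refine ⟨τ, h3, fun f hf h5 => ?_⟩
  obtain ⟨r, r0, r1, r2⟩ := T.kum.kum _ f (ine_closed 𝔓) hf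
  obtain ⟨s, s0, s1, s2⟩ := T.kum.kum _ f' (ine_closed 𝔓) hf'
  obtain ⟨F, fd, hF⟩ := T.top.field (MulAction.stabilizer _ (r ^ 2) ⊓ MulAction.stabilizer _ (s ^ 2))
    ((stabilizer_isOpen_of_isIntegral _).inter (stabilizer_isOpen_of_isIntegral _))
  have := NumberField.of_module_finite K F
  obtain ⟨q, hq⟩ := T.pr.under F 𝔓 h
  obtain ⟨a, ha⟩ := T.top.gs_fix F (r ^ 2) fun g hg => (hF ▸ hg).1
  obtain ⟨b, hb⟩ := T.top.gs_fix F (s ^ 2) fun g hg => (hF ▸ hg).2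
  have a0 : a ≠ 0 := fun e => pow_ne_zero 2 r0 (by rw [← ha, e, map_zero])
  have b0 : b ≠ 0 := fun e => pow_ne_zero 2 s0 (by rw [← hb, e, map_zero])
  have key : ∀ {a : F} {r : Ω}, a ≠ 0 → r ^ 2 = algebraMap F Ω a → Even (og q a) →
      ∀ g ∈ Ine K 𝔓, kr r g = 0 := fun a0 ha e g hg => kr_zero.2
    ((T.ine.ine hq ((T.pr.two hq).1 h2) a0 ha).1 e g ⟨hg, hF ▸ ⟨r1 g hg, s1 g hg⟩⟩)
  rcases Int.even_or_odd (og q a) with e | e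
  · exact fun g hg => (r2 g hg).trans (key a0 ha.symm e g hg)
  rcases Int.even_or_odd (og q b) with e' | e'
  · exact (h4 ((s2 τ h3).trans (key b0 hb.symm e' τ h3))).elim
  have := key (r := r * s) (mul_ne_zero a0 b0) (by rw [map_mul, ha, hb, mul_pow])
    (by rw [og, ord_mul a0 b0]; exact e.add_odd e') τ h3
  rw [T.kum.mul r0 s0 r1 s1 τ h3, ← r2 τ h3, ← s2 τ h3, h5, zero_add] at this
  exact (h4 this).elim

theorem unit_fix (h : 𝔓.IsMaximal) (h2 : 2 ∉ 𝔓) {τ g : Gal(Ω/K)} (h3 : τ ∈ Dec K 𝔓)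
    (hg : g ∈ Ine K 𝔓) {b : Ω} (b0 : b ≠ 0) : g (τ b / b) ≠ -(τ b / b) := fun e => by
  have T := facts K Ω
  obtain ⟨α, β, a1, a2, a3, -⟩ := T.pr.frac h (τ b / b)
  obtain ⟨n, n0, -, n1⟩ := Subgroup.exists_pow_mem_of_index_ne_zero
    (T.top.fi _ (stabilizer_isOpen_of_isIntegral b)).index_ne_zero τ
  have p : ∀ j : ℕ, (τ ^ j) b * ∏ i ∈ Finset.range j, ((τ ^ i • β : 𝓞 Ω) : Ω) =
      b * ∏ i ∈ Finset.range j, ((τ ^ i • α : 𝓞 Ω) : Ω) := fun j => by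
    induction j with
    | zero => simp
    | succ j ih =>
      rw [Finset.prod_range_succ, Finset.prod_range_succ, ← mul_assoc b, ← ih, T.pr.coe_smul,
        T.pr.coe_smul, ← a1, pow_succ, AlgEquiv.mul_apply, map_mul, map_div₀]
      have : (τ ^ j) b ≠ 0 := (map_ne_zero _).2 b0
      field_simp
  have p1 := p n
  rw [show (τ ^ n) b = b from n1, mul_right_inj' b0] at p1
  have p2 : ∏ i ∈ Finset.range n, τ ^ i • β = ∏ i ∈ Finset.range n, τ ^ i • α :=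
    RingOfIntegers.coe_injective (by simpa only [map_prod] using p1)
  have p3 : ∀ x : 𝓞 Ω, ∏ i ∈ Finset.range n, τ ^ i • x ∈ 𝔓 ↔ x ∈ 𝔓 := fun x => by
    simp only [h.isPrime.prod_mem_iff, fun i => (T.pr.mem_dec 𝔓 _).1 (pow_mem h3 i) x]
    exact ⟨fun ⟨_, _, a⟩ => a, fun a => ⟨0, Finset.mem_range.2 n0, a⟩⟩
  have p4 : g • α * β + α * g • β = 0 := RingOfIntegers.coe_injective (by
    rw [map_add, map_mul, map_mul, map_zero]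
    change ((g • α : 𝓞 Ω) : Ω) * (β : Ω) + (α : Ω) * ((g • β : 𝓞 Ω) : Ω) = 0
    rw [T.pr.coe_smul, T.pr.coe_smul, ← a1, map_mul, e]
    ring)
  have p5 : 2 * (α * β) ∈ 𝔓 := by
    convert neg_mem (add_mem (𝔓.mul_mem_right β ((T.pr.mem_ine 𝔓 g).1 hg α))
      (𝔓.mul_mem_left α ((T.pr.mem_ine 𝔓 g).1 hg β))) using 1
    linear_combination p4
  have p6 : α ∈ 𝔓 ↔ β ∈ 𝔓 := by rw [← p3, ← p2, p3]
  have := h.isPrime.mem_or_mem ((h.isPrime.mem_or_mem p5).resolve_left h2)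
  tauto

variable {E k : Type} [NontriviallyNormedField E] [IsUltrametricDist E] [NormedAlgebra ℚ_[2] E]
  [Field k] [Finite k] [CharP k 2] [Algebra (ZMod 2) k]

theorem tame (c : CF E k) (h : 𝔓.IsMaximal) (h2 : 2 ∉ 𝔓) {σ : Gal(Ω/K)} (h3 : σ ∈ Dec K 𝔓)
    (f : Ine K 𝔓 → E) (f1 : Continuous f) (f2 : ∀ g h, ‖f (g * h) - f g - f h‖ ≤ 1)
    (g g' : Ine K 𝔓) (hθ : g'.1 = σ * g * σ⁻¹) : ‖f g' - cycE E K Ω σ * f g‖ ≤ 1 := by
  have T := facts K Ω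
  by_contra hx
  obtain ⟨f, rfl⟩ := ext1 f
  set x := f g' - cycE E K Ω σ * f g
  have a1 : 1 ≤ ‖c.π * x‖ := not_lt.1 fun a => hx (CF.le_one a)
  have a0 : c.π * x ≠ 0 := norm_pos_iff.1 (one_pos.trans_le a1)
  have a2 : ‖(c.π * x)⁻¹‖ ≤ 1 := by rw [norm_inv]; exact inv_le_one_of_one_le₀ a1
  obtain ⟨i, hi⟩ : ∃ i, cd i (1 : k) ≠ cd i 0 := not_forall.1 fun a => one_ne_zero (cd_ext a)
  obtain ⟨e, e1, e2, e3, -, e5⟩ := exE K Ω c (cd i).toAddMonoidHom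
  have econ : ∀ {s t}, ‖s - t‖ ≤ 1 → e s = e t := fun {s t} h => by
    rw [← add_sub_cancel t s, e1, e3 _ 0 (c.rd_pi h), map_zero, sg_zero, mul_one]
  obtain ⟨b, b0, hb⟩ := T.kum.h90 (Ine K 𝔓) (fun g => e ((c.π * x)⁻¹ * f g)) (ine_closed 𝔓)
    (fun g hg => (((continuousOn_iff_continuous_domRestrict.2 f1).const_smul (c.π * x)⁻¹ g
      hg).eventually (Metric.closedBall_mem_nhds _ one_pos)).mono fun x hx =>
      econ (dist_eq_norm (E := E) _ _ ▸ hx)) (fun _ _ => e2 _) fun g hg l hl => by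
    rw [e5, cycE_apply, T.fr.cyc_ine h h2 hg, ← e1]
    refine econ ?_
    convert ((c.rd_of a2).mul (c.rd_of (f2 ⟨g, hg⟩ ⟨l, hl⟩))).1 using 2
    simp
    ring
  refine unit_fix h h2 (inv_mem h3) g.2 b0 (σ.injective ?_)
  have d1 := e3 ((c.π * x)⁻¹ * x) 1 (c.rd_one'.congr (by
    rw [mul_left_comm, inv_mul_cancel₀ a0]) rfl)
  rw [map_zero] at hi
  rw [LinearMap.toAddMonoidHom_coe, (zmod2_cases _).resolve_left hi, sg_one] at d1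
  have d2 : e ((c.π * x)⁻¹ * f g') = -e (cycE E K Ω σ * ((c.π * x)⁻¹ * f g)) := by
    rw [← neg_one_mul, ← d1, ← e1]
    congr 1
    simp only [x]
    ring
  have d3 : σ (g.1 (σ⁻¹ b)) = g'.1 b := by rw [hθ]; rfl
  have := e2 (cycE E K Ω σ * ((c.π * x)⁻¹ * f g))
  rw [map_div₀, map_div₀, d3, hb _ g.2, hb _ g'.2, map_neg, map_div₀, map_mul σ, e5, d2,
    ← AlgEquiv.mul_apply, mul_inv_cancel, AlgEquiv.one_apply, neg_mul, neg_div,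
    mul_div_mul_left _ _ this]

end Pool.Agent.SP
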