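import Pool.Agent.Lib.MP_b4b3cb_nt.Par.AltIx

/-! An index computation with a form of Wall type. -/

namespace Pool.Agent.SP

open scoped Classical
open Module

variable {E k : Type} [NontriviallyNormedField E] [IsUltrametricDist E] [Field k] [Finite k]
  {c : CF E k} {V : Type} [NormedAddCommGroup V] [NormedSpace E V] [CompleteSpace E]
  [FiniteDimensional E V]

theorem wall [CharZero E] {m : ℕ} {C : Ch c V (2 * m)} {P : V →ₗ[E] V →ₗ[E] E} (hP : Pa C C P)
    (rk : finrank E V = 2 * m) (φ ν : End E V) (h1 : ∀ x y, ν x = 0 → P (φ x) (ν y) = 0)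
    (h2 : ∀ x, P (ν x) (ν x) = P (φ x) (ν x)) (h4 : ∀ x, ν x = 0 → φ x = 0 → x = 0)
    (h5 : ∀ i, ∀ x ∈ C.T i, ν x ∈ C.T i ∧ φ x ∈ C.T i) (M : ℤ → AddSubgroup V)
    (hM : ∀ i x, x ∈ M i ↔ ν x ∈ C.T i ∧ φ x ∈ C.T i) {e : ℕ}
    (he : (M m).relIndex (M 0) = Nat.card k ^ e) : Even (e + m + finrank E (LinearMap.ker ν)) := by
  obtain ⟨β, b1, b2, b3, b4, b5⟩ := C.sub_ix ((LinearMap.ker ν).map φ)
  obtain ⟨γ, g1, g2, g3, g4, g5⟩ := C.sub_ix (LinearMap.range ν)
  set K := (LinearMap.ker ν).toAddSubgroup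
  set K' := ((LinearMap.ker ν).map φ).toAddSubgroup
  have kk : finrank E ((LinearMap.ker ν).map φ) = finrank E (LinearMap.ker ν) := by
    rw [← LinearMap.range_domRestrict, LinearMap.finrank_range_of_inj
      ((injective_iff_map_eq_zero _).2 fun x hx => Subtype.ext (h4 x x.2 hx))]
  have du := dual_eq (h := 1) γ β g1 b1 C.pos (fun i => by
    by_contra h
    obtain ⟨_, ⟨x, x1, rfl⟩, x2, x3⟩ := b5 (-i - 1) (by have := g4 i; omega)
    obtain ⟨_, ⟨y, rfl⟩, y2, y3⟩ := g5 i (by have := b4 (-i - 1); omega)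
    obtain ⟨κ, k0, k1⟩ := hP.lam (-i - 1) i (by omega)
    have := k1 _ x2 _ y2
    rw [h1 x y x1, mul_zero] at this
    exact mul_ne_zero k0 (mul_ne_zero x3 y3) (this.uniq c.rd_zero'))
    (by rw [b2, kk, g2, LinearMap.finrank_range_add_finrank_ker, rk, mul_one])
  have dl : ∀ (i : ℤ) y, (∀ x, ν x ∈ C.T i → ‖P y (ν x)‖ ≤ 1) →
      ∃ z, ν z = 0 ∧ y - φ z ∈ C.T (-i) := fun i y hy => by
    obtain ⟨j, hj⟩ := C.exh y
    have : ∀ l, j ≤ l → l ≤ -i → ∃ z, ν z = 0 ∧ y - φ z ∈ C.T l := fun l hl => by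
      induction l, hl using Int.leInduction with
      | base => exact fun _ => ⟨0, map_zero _, by simpa using hj⟩
      | succ l _ ih =>
        intro hl
        obtain ⟨z, z1, z2⟩ := ih (by omega)
        by_cases h : β l = 0
        · obtain ⟨_, ⟨u, rfl⟩, y2, y3⟩ := g5 (-l - 1) (by
            have := du (-l - 1)
            rw [show -(-l - 1) - 1 = l by ring] at this
            omega)
          obtain ⟨κ, k0, k1⟩ := hP.lam l (-l - 1) (by omega)
          have := k1 _ z2 _ y2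
          rw [map_sub, LinearMap.sub_apply, h1 z u z1, sub_zero] at this
          exact ⟨z, z1, (C.lam_zero z2).1 ((mul_eq_zero.1 ((mul_eq_zero.1 (this.uniq
            (c.rd_pi (hy u (C.anti (by omega) y2))))).resolve_left k0)).resolve_right y3)⟩
        · obtain ⟨_, ⟨x, x1, rfl⟩, x2, x3⟩ := b5 l h
          refine ⟨z + c.sc (C.lam l (y - φ z) / C.lam l (φ x)) • x, by
            rw [map_add, map_smul, z1, show ν x = 0 from x1, smul_zero, add_zero], ?_⟩
          rw [map_add, map_smul, ← sub_sub]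
          refine C.sub_mem_of z2 (C.smul (c.sc_le _) x2) ?_
          rw [C.lam_smul (c.sc_le _) x2, c.rd_sc, div_mul_cancel₀ _ x3]
    rcases le_total j (-i) with h | h
    · exact this _ h le_rfl
    · exact ⟨0, map_zero _, by simpa using C.anti h hj⟩
  let R : ℤ → AddSubgroup V := fun i => (C.T i).comap ν.toAddMonoidHom
  have le : ∀ i, M i ⊔ K ≤ R i := fun i => sup_le (fun x hx => ((hM i x).1 hx).1) fun x hx => by
    change ν x ∈ C.T i
    rw [show ν x = 0 from hx]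
    exact zero_mem _
  have half : ∀ r : ℤ, ∃ a, (M (r * m) ⊔ K).relIndex (R (r * m)) = Nat.card k ^ (2 * a) := by
    intro r
    have z0 := zpow_ne_zero r c.ne
    refine altix c ((c.π ^ r)⁻¹ • (P.compl₁₂ (ν - φ) ν).flip) (by simp [h2]) _ _ _
      (fun a ha x hx => by
        change ν (a • x) ∈ C.T _
        rw [map_smul]
        exact C.smul ha hx) (le _) (fun y hy => ?_) rfl fun h0 => ?_
    · have e2 : ∀ u, (c.π ^ r)⁻¹ • u ∈ C.T (-(r * m)) ↔ u ∈ C.T (r * m) := fun u => by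
        rw [← zpow_neg, ← C.per_zpow (-r) (r * m)]
        congr! 2
        push_cast
        ring
      have e1 : ∀ x ∈ R (r * m), ‖((c.π ^ r)⁻¹ • (P.compl₁₂ (ν - φ) ν).flip) x y‖ ≤ 1 ↔
          ‖P ((c.π ^ r)⁻¹ • φ y) (ν x)‖ ≤ 1 := fun x hx => by
        have a := neg_mem (mem_O1.2 (hP.le (v := ν x) ((e2 (ν y)).2 hy) hx (by omega)))
        rw [← mem_O1, ← mem_O1, ← neg_mem_iff (x := P _ _), ← (O1 E).add_mem_cancel_left a]
        congr! 1
        simp only [LinearMap.smul_apply, LinearMap.sub_apply, LinearMap.flip_apply,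
          LinearMap.compl₁₂_apply, map_smul, map_sub, smul_eq_mul]
        ring
      refine ⟨fun a x hx => (e1 x hx).2 ?_, fun a => ?_⟩
      · obtain ⟨u, hu, z, hz, rfl⟩ := AddSubgroup.mem_sup.1 a
        rw [map_add, smul_add, map_add, LinearMap.add_apply, ← map_smul φ _ z, h1 (_ • z) x (by
          rw [map_smul, show ν z = 0 from hz, smul_zero]), add_zero]
        exact hP.le ((e2 _).2 ((hM _ u).1 hu).2) hx (by omega)
      · obtain ⟨z, z1, z2⟩ := dl _ _ fun x hx => (e1 x hx).1 (a x hx)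
        have z3 : ν (c.π ^ r • z) = 0 := by rw [map_smul, z1, smul_zero]
        refine AddSubgroup.mem_sup.2 ⟨y - _, (hM _ _).2 ⟨by rwa [map_sub, z3, sub_zero], ?_⟩,
          _, z3, sub_add_cancel _ _⟩
        rwa [← e2, map_sub, map_smul, smul_sub, inv_smul_smul₀ z0]
    · obtain ⟨g', hg⟩ := ν.rangeRestrict.exists_rightInverse_of_surjective ν.range_rangeRestrict
      obtain ⟨g, rfl⟩ := g'.exists_extend
      obtain ⟨B, hB⟩ := C.bdd' (r * m)
      obtain ⟨j, hj⟩ := C.exh_bd (‖LinearMap.toContinuousLinearMap g‖ * B)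
      have a1 : R (r * m) ≤ C.T (r * m - (r * m - j).toNat) ⊔ K := fun x hx =>
        AddSubgroup.mem_sup.2 ⟨g (ν x), C.anti (by omega) (hj _
          (((LinearMap.toContinuousLinearMap g).le_opNorm _).trans
          (mul_le_mul_of_nonneg_left (hB _ hx) (norm_nonneg _)))), x - g (ν x), by
          change ν _ = 0
          rw [map_sub, sub_eq_zero]
          exact (congrArg Subtype.val (LinearMap.congr_fun hg ⟨_, x, rfl⟩)).symm, by simp⟩
      have a2 := C.ix_T (r * m - (r * m - j).toNat) (r * m - j).toNat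
      rw [sub_add_cancel, ix_split K (C.anti (by omega)), AddSubgroup.relIndex_eq_zero_of_le_left
        (sup_le_sup_right (fun x hx => (hM _ x).2 (h5 _ x hx)) K)
        (AddSubgroup.relIndex_eq_zero_of_le_right a1 h0), mul_zero] at a2
      exact pow_ne_zero _ Nat.card_pos.ne' a2.symm
  obtain ⟨a0, e0⟩ := half 0
  obtain ⟨a1, e1⟩ := half 1
  rw [zero_mul] at e0
  rw [one_mul] at e1
  have mo : M m ≤ M 0 := fun x hx => (hM _ _).2 (((hM _ _).1 hx).imp (C.anti (by omega) ·)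
    (C.anti (by omega) ·))
  have e2 : (M m ⊓ K).relIndex (M 0 ⊓ K) = (C.T m ⊓ K').relIndex (C.T 0 ⊓ K') :=
    ix_tr φ.toAddMonoidHom (fun y => ⟨fun ⟨hy, x, x1, x2⟩ => ⟨x, ⟨(hM _ _).2
      ⟨(show ν x = 0 from x1) ▸ zero_mem _, x2 ▸ hy⟩, x1⟩, x2⟩,
    fun ⟨x, hx, h⟩ => h ▸ ⟨((hM _ _).1 hx.1).2, x, hx.2, rfl⟩⟩) fun x hx =>
    ⟨fun a => ⟨((hM _ _).1 a.1).2, x, hx.2, rfl⟩, fun a => ⟨(hM _ _).2
      ⟨(show ν x = 0 from hx.2) ▸ zero_mem _, a.1⟩, hx.2⟩⟩
  have e3 : (R m).relIndex (R 0) = (C.T m ⊓ (LinearMap.range ν).toAddSubgroup).relIndex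
      (C.T 0 ⊓ (LinearMap.range ν).toAddSubgroup) := ix_tr ν.toAddMonoidHom (fun y => ⟨fun hy =>
    hy.2.imp fun x hx => ⟨by rw [← hx] at hy; exact hy.1, hx⟩,
    fun ⟨x, hx, h⟩ => h ▸ ⟨hx, x, rfl⟩⟩) fun x _ => ⟨fun a => ⟨a, x, rfl⟩, fun a => a.1⟩
  have e4 := AddSubgroup.relIndex_mul_relIndex _ _ _ (sup_le_sup_right mo K) (le 0)
  rw [← AddSubgroup.relIndex_mul_relIndex _ (R m) _ (le m)
    (AddSubgroup.comap_mono (C.anti (by omega))), e0, e1, e3, g3] at e4
  rw [ix_split K mo, e2, b3] at he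
  have e5 := congrArg (· * Nat.card k ^ (2 * a0)) he
  simp only [mul_assoc, e4, ← pow_add] at e5
  have e6 := Nat.pow_right_injective (Finite.one_lt_card (α := k)) e5
  have d := Finset.sum_congr (rfl : Finset.range m = _) fun (i : ℕ) _ => du i
  rw [Finset.sum_add_distrib, Finset.sum_const, Finset.card_range, smul_eq_mul] at d
  rw [← kk, ← b2, per_half _ b1]
  exact ⟨∑ i ∈ Finset.range m, β i + a1 + m - a0, by omega⟩

end Pool.Agent.SP
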